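import Pool.Agent.Lib.MP_e95c01_co.T.Defs76
import Pool.Agent.Lib.MP_e95c01_co.U.Aux5
import Pool.Agent.Lib.MP_e95c01_co.U.StTwHL5

/-!
# Auxiliary facts for `T/`
-/

namespace Pool.Agent.Lib.MP_e95c01_co.N

open Finset

variable {V : Type} [Fintype V] [DecidableEq V]

namespace CG

variable {G : CG V} {q : V → V → Prop} {Fa : Finset (Finset V)}

/-! ### chosen pairs -/

theorem q_isTw76 (hq : G.QS q) {v : V} (h : IsQ q v) : G.IsTw v := by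
  obtain ⟨w, h⟩ := h
  exact ⟨w, hq.tw _ _ h⟩

theorem q_card76 (hq : G.QS q) {v : V} (h : IsQ q v) : (G.nb v).card = 7 := by
  obtain ⟨w, h⟩ := h
  exact (hq.tw _ _ h).2.1

theorem q_not_low76 (hq : G.QS q) {v : V} (h : IsQ q v) : ¬ G.Low v := by
  intro h1
  have h2 := q_card76 hq h
  have h3 : (G.nb v).card = 6 := h1
  omega

theorem not_q_of_low76 (hq : G.QS q) {v : V} (h : G.Low v) : ¬ IsQ q v :=
  fun h1 => q_not_low76 hq h1 h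

/-- every vertex is low, in a chosen pair or a hub -/
theorem tri76 (G : CG V) (q : V → V → Prop) (v : V) : G.Low v ∨ IsQ q v ∨ G.HubQ q v := by
  by_cases h1 : G.Low v
  · exact Or.inl h1
  by_cases h2 : IsQ q v
  · exact Or.inr (Or.inl h2)
  · exact Or.inr (Or.inr ⟨h1, h2⟩)

theorem q_nb76 (hq : G.QS q) {v w : V} (h : q v w) : w ∈ G.nb v := (hq.tw _ _ h).1

theorem q_ne76 (hq : G.QS q) {v w : V} (h : q v w) : v ≠ w := ne_of_nb5 (q_nb76 hq h)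

/-- partners have the same neighbours -/
theorem q_nb_iff76 (hq : G.QS q) {v w x : V} (h : q v w) (h1 : x ≠ v) (h2 : x ≠ w) :
    x ∈ G.nb v ↔ x ∈ G.nb w :=
  ⟨fun hx => Tw_nb5 (hq.tw _ _ h) hx h2, fun hx => Tw_nb5 (hq.tw _ _ (hq.symm _ _ h)) hx h1⟩

theorem q_uniq76 (hq : G.QS q) (n9 : 9 ≤ Fintype.card V) {v w w' : V} (h : q v w) (h' : q v w') :
    w = w' := (stTwHL_5 G).uniq n9 _ _ _ (hq.tw _ _ h) (hq.tw _ _ h')

theorem q_I76 (hq : G.QS q) (hr : G.Reg Fa) {v w : V} (hv : v ∈ R Fa) (h : q v w) :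
    w ∈ R Fa ∧ G.I Fa w = G.I Fa v := (stTwHL_5 G).twI Fa hr v hv w (hq.tw _ _ h)

/-- the partner of a neighbour of `z` is a neighbour of `z` -/
theorem q_nR76 (hq : G.QS q) (hr : G.Reg Fa) {z v w : V} (hv : v ∈ G.nR Fa z) (h : q v w)
    (hz : z ≠ w) : w ∈ G.nR Fa z := by
  rw [mem_nR76] at hv ⊢
  exact ⟨G.sym _ _ (Tw_nb5 (hq.tw _ _ h) (G.sym _ _ hv.1) hz), (q_I76 hq hr hv.2 h).1⟩

/-! ### HL and LL -/

theorem mem_clT76 {v x : V} : x ∈ G.cl v ↔ x = v ∨ x ∈ G.nb v := by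
  rw [cl, mem_insert]

theorem HL_t76 {a b t : V} (h : G.HL a b t) : t ∈ G.nb a := HL_nb5 h

theorem HL_b76 {a b t : V} (h : G.HL a b t) : b ∈ G.nb a := h.2.2.1

theorem HL_bt76 {a b t : V} (h : G.HL a b t) : t ∉ G.nb b ∧ t ≠ b := by
  have h1 := h.2.2.2.1
  rw [mem_clT76, not_or] at h1
  exact ⟨h1.2, h1.1⟩

theorem HL_sub76 {a b t x : V} (h : G.HL a b t) (hx : x ∈ G.nb b) (hxa : x ≠ a) : x ∈ G.nb a := by
  have h1 : x ∈ G.cl a := by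
    rw [h.2.2.2.2]
    exact mem_insert_of_mem (mem_clT76.2 (Or.inr hx))
  rcases mem_clT76.1 h1 with h2 | h2
  · exact absurd h2 hxa
  · exact h2

theorem HL_sup76 {a b t x : V} (h : G.HL a b t) (hx : x ∈ G.nb a) (hxt : x ≠ t) :
    x = b ∨ x ∈ G.nb b := by
  have h1 : x ∈ insert t (G.cl b) := by
    rw [← h.2.2.2.2]
    exact mem_clT76.2 (Or.inr hx)
  rcases mem_insert.1 h1 with h2 | h2
  · exact absurd h2 hxt
  · exact mem_clT76.1 h2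

theorem HL_not_low76 {a b t : V} (h : G.HL a b t) : ¬ G.Low a := by
  intro h1
  have h2 : (G.nb a).card = 7 := h.1
  have h3 : (G.nb a).card = 6 := h1
  omega

theorem HL_hub76 (hq : G.QS q) (n9 : 9 ≤ Fintype.card V) {a b t : V} (h : G.HL a b t) :
    G.HubQ q a :=
  ⟨HL_not_low76 h, fun h1 => (stTwHL_5 G).notHL n9 _ _ _ h (q_isTw76 hq h1)⟩

theorem LL_symm76 {a b t u : V} (h : G.LL a b t u) : G.LL b a u t := LL_symm5 h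

theorem LL_t76 {a b t u : V} (h : G.LL a b t u) : t ∈ G.nb a := LL_nb5 h

theorem LL_u76 {a b t u : V} (h : G.LL a b t u) : u ∈ G.nb b := LL_nb5 (LL_symm5 h)

theorem LL_ab76 {a b t u : V} (h : G.LL a b t u) : b ∈ G.nb a := h.2.2.1

theorem LL_tb76 {a b t u : V} (h : G.LL a b t u) : t ∉ G.nb b ∧ t ≠ b := by
  have h1 := h.2.2.2.2.1
  rw [mem_clT76, not_or] at h1
  exact ⟨h1.2, h1.1⟩

theorem LL_ua76 {a b t u : V} (h : G.LL a b t u) : u ∉ G.nb a ∧ u ≠ a := LL_tb76 (LL_symm5 h)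

theorem LL_to76 {a b t u x : V} (h : G.LL a b t u) (hx : x ∈ G.nb a) (hxt : x ≠ t) :
    x = b ∨ x ∈ G.nb b := by
  have h1 : x ∈ insert t (G.cl b) := by
    rw [← h.2.2.2.2.2.2]
    exact mem_insert_of_mem (mem_clT76.2 (Or.inr hx))
  rcases mem_insert.1 h1 with h2 | h2
  · exact absurd h2 hxt
  · exact mem_clT76.1 h2

theorem LL_from76 {a b t u x : V} (h : G.LL a b t u) (hx : x ∈ G.nb b) (hxu : x ≠ u) :
    x = a ∨ x ∈ G.nb a := LL_to76 (LL_symm5 h) hx hxu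

/-- `HL` in `R`: `a` and `b` are in the same neighbourhoods -/
theorem HL_I76 {a b t : V} (h : G.HL a b t) (ha : a ∈ R Fa) (hb : b ∈ R Fa) (ht : t ∈ R Fa) :
    G.I Fa a = G.I Fa b := hlI_5 ha hb ht h

/-- `LL` in `R`: `a` and `b` are in the same neighbourhoods -/
theorem LL_I76 {a b t u : V} (h : G.LL a b t u) (ha : a ∈ R Fa) (hb : b ∈ R Fa) (ht : t ∈ R Fa)
    (hu : u ∈ R Fa) : G.I Fa a = G.I Fa b := by
  have key : ∀ {a b t u : V}, G.LL a b t u → b ∈ R Fa → t ∈ R Fa → G.I Fa a ⊆ G.I Fa b := by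
    intro a b t u h hb ht B hB
    obtain ⟨h1, h2⟩ := mem_I76.1 hB
    obtain ⟨-, v, hv, hav⟩ := mem_N76.1 h2
    have h3 : v ≠ t := by
      rintro rfl
      exact mem_R76.1 ht B h1 hv
    have h4 : v ≠ b := by
      rintro rfl
      exact mem_R76.1 hb B h1 hv
    rcases LL_to76 h (G.sym _ _ hav) h3 with h5 | h5
    · exact absurd h5 h4
    · exact I_of_nb76 hb h1 h5 hv
  exact Finset.Subset.antisymm (key h hb ht) (key (LL_symm5 h) ha hu)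

/-! ### covers -/

/-- the five forms of a cover of the edge `z x`, seen from `z` -/
theorem cov3_76 (hq : G.QS q) (hT : G.Torso3 q Fa) {z x : V} (hz : z ∈ R Fa)
    (hx : x ∈ G.nR Fa z) (hm : G.m Fa z x = 0) :
    (∃ w, w ∈ G.nR Fa z ∧ w ∈ G.nR Fa x ∧ G.Low w ∧ x ∈ G.nb w) ∨
    (∃ v w, v ∈ G.nR Fa z ∧ w ∈ G.nR Fa z ∧ q v w ∧ x ∈ G.nb v ∧ x ∈ G.nb w) ∨
    (∃ a b, a ∈ G.nR Fa z ∧ b ∈ R Fa ∧ G.Low z ∧ G.HL a b z ∧ x ∈ G.nb b ∧ x ≠ a) ∨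
    (∃ a b, b ∈ G.nR Fa z ∧ a ∈ R Fa ∧ G.Low x ∧ G.HL a b x ∧ z ≠ a) ∨
    (∃ a b, a ∈ G.nR Fa z ∧ b ∈ R Fa ∧ x ∈ G.nb b ∧ G.LL a b z x) := by
  rw [mem_nR76] at hx
  rcases hT.cov z hz x hx.2 hx.1 hm with h | h | h | h | h
  · obtain ⟨w, hw, h1, h2, h3⟩ := h
    exact Or.inl ⟨w, mem_nR76.2 ⟨G.sym _ _ h2, hw⟩, mem_nR76.2 ⟨G.sym _ _ h3, hw⟩, h1, h3⟩
  · obtain ⟨v, hv, w, hw, h1, h2, h3, h4, h5⟩ := h
    refine Or.inr (Or.inl ⟨v, w, mem_nR76.2 ⟨G.sym _ _ h2, hv⟩,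
      mem_nR76.2 ⟨G.sym _ _ (Tw_nb5 (hq.tw _ _ h1) h2 h4), hw⟩, h1, h3,
      Tw_nb5 (hq.tw _ _ h1) h3 h5⟩)
  · obtain ⟨a, ha, b, hb, h1, h2, h3⟩ := h
    exact Or.inr (Or.inr (Or.inl ⟨a, b, mem_nR76.2 ⟨G.sym _ _ (HL_nb5 h1), ha⟩, hb,
      hT.sat _ _ _ h1, h1, h2, h3⟩))
  · obtain ⟨a, ha, b, hb, h1, h2, h3⟩ := h
    exact Or.inr (Or.inr (Or.inr (Or.inl ⟨a, b, mem_nR76.2 ⟨G.sym _ _ h2, hb⟩, ha,
      hT.sat _ _ _ h1, h1, h3⟩)))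
  · obtain ⟨a, ha, b, hb, h1⟩ := h
    exact Or.inr (Or.inr (Or.inr (Or.inr ⟨a, b, mem_nR76.2 ⟨G.sym _ _ (LL_nb5 h1), ha⟩, hb,
      LL_u76 h1, h1⟩)))

/-! ### numbers of neighbours -/

theorem tq_two76 {z v w : V} (h1 : v ∈ G.nR Fa z) (h2 : IsQ q v ∧ ¬ q z v)
    (h3 : w ∈ G.nR Fa z) (h4 : IsQ q w ∧ ¬ q z w) (h5 : v ≠ w) : 2 ≤ G.tq q Fa z := by
  classical
  rw [tq]
  refine two_le5 (a := v) (b := w) ?_ ?_ h5 <;> rw [mem_filter]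
  exacts [⟨h1, h2⟩, ⟨h3, h4⟩]

theorem tq_mem76 {z v : V} (h1 : v ∈ G.nR Fa z) (h2 : IsQ q v ∧ ¬ q z v) : 1 ≤ G.tq q Fa z := by
  classical
  rw [tq, Nat.succ_le_iff, Finset.card_pos]
  exact ⟨v, mem_filter.2 ⟨h1, h2⟩⟩

/-- a chosen pair near `z` (which is not in it) gives two -/
theorem tq_pair76 (hq : G.QS q) (hr : G.Reg Fa) (n9 : 9 ≤ Fintype.card V) {z v : V}
    (h1 : v ∈ G.nR Fa z) (h2 : IsQ q v) (h3 : ¬ q z v) : 2 ≤ G.tq q Fa z := by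
  obtain ⟨w, hw⟩ := h2
  have hzw : z ≠ w := by
    rintro rfl
    exact h3 (hq.symm _ _ hw)
  have hw' := q_nR76 hq hr h1 hw hzw
  refine tq_two76 h1 ⟨⟨w, hw⟩, h3⟩ hw' ⟨⟨v, hq.symm _ _ hw⟩, ?_⟩ (q_ne76 hq hw)
  intro h4
  have h5 := q_uniq76 hq n9 (hq.symm _ _ h4) (hq.symm _ _ hw)
  subst h5
  exact G.irr _ (mem_nR76.1 h1).1

theorem hub_tq76 (hq : G.QS q) (hr : G.Reg Fa) (n9 : 9 ≤ Fintype.card V) {z v : V}
    (hz : ¬ IsQ q z) (h1 : v ∈ G.nR Fa z) (h2 : IsQ q v) : 2 ≤ G.tq q Fa z :=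
  tq_pair76 hq hr n9 h1 h2 (fun h => hz ⟨_, h⟩)

/-! ### neighbours on the other side -/

theorem mem_X76 {z x : V} {B : Finset V} (hz : z ∈ R Fa) (hI : G.I Fa z = {B}) :
    x ∈ G.nb z ∩ G.Co B ↔ x ∈ G.nR Fa z ∧ B ∉ G.I Fa x := by
  have hB : B ∈ G.I Fa z := by rw [hI]; exact mem_singleton_self _
  constructor
  · intro h
    refine ⟨nR_Co5 hz hI h, fun h1 => ?_⟩
    exact (mem_Co76.1 (mem_inter.1 h).2).2 (mem_I76.1 h1).2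
  · rintro ⟨h1, h2⟩
    rw [mem_nR76] at h1
    refine mem_inter.2 ⟨h1.1, mem_Co76.2 ⟨mem_R76.1 h1.2 B (mem_I76.1 hB).1, fun h3 => ?_⟩⟩
    exact h2 (mem_I76.2 ⟨(mem_I76.1 hB).1, h3⟩)

theorem m_X76 {z x : V} {B : Finset V} (hI : G.I Fa z = {B}) (h : B ∉ G.I Fa x) :
    G.m Fa z x = 0 ∧ G.m Fa x z = 0 := by
  have h1 : G.m Fa z x = 0 := by
    rw [m, hI, Finset.card_eq_zero, Finset.singleton_inter_of_notMem h]
  exact ⟨h1, by rw [m_comm76]; exact h1⟩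

end CG

end Pool.Agent.Lib.MP_e95c01_co.N
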