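import Pool.Agent.Lib.MP_e95c01_co.U.MainU37
import Pool.Agent.Lib.MP_e95c01_co.T.Aux76

/-!
# T16: saturated graphs, and all graphs
-/

set_option autoImplicit false

namespace Pool.Agent.Lib.MP_e95c01_co.N

open Finset

variable {V : Type} [Fintype V] [DecidableEq V]

namespace CG

variable {G : CG V} {q : V → V → Prop}

theorem R_empty96 (z : V) : z ∈ R (∅ : Finset (Finset V)) := by
  rw [R, mem_compl, biUnion_empty]
  exact notMem_empty _

theorem I_empty96 (z : V) : G.I (∅ : Finset (Finset V)) z = ∅ := by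
  rw [I, filter_empty]

/-- the torso of the empty family -/
theorem torso_empty96 (hcr : G.Crit) (hqs : G.QS q) (hsat : G.Sat) (h9 : 9 ≤ Fintype.card V)
    (hno : ∀ F, ¬ G.Big F) (hsm : G.StSmall) (hcovU : G.StCovU) (hcov3 : G.StCov3 q) :
    G.Torso3 q ∅ := by
  have hreg : G.Reg (∅ : Finset (Finset V)) := by
    constructor
    · intro B hB
      exact absurd hB (notMem_empty _)
    · intro B hB
      exact absurd hB (notMem_empty _)
  refine ⟨hreg, fun B hB => absurd hB (notMem_empty _), h9, hsat, ?_⟩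
  intro x hx z hz hxz hm
  refine hcov3 hqs ∅ hreg x hx z hz hxz hm (hcovU hsm ∅ hreg ?_ x hx z hz hxz hm ?_)
  · intro y _ B hI
    rw [I_empty96] at hI
    exact absurd hI.symm (singleton_ne_empty _)
  · obtain ⟨E, hE, h1, h2⟩ := hcr x z hxz
    obtain ⟨h3, h4, -⟩ := G.stCo_37 E hE
    by_cases h5 : E.card ≤ 2
    · exact ⟨E, hE, h5, h1, h2⟩
    · refine ⟨G.Co E, h3, ?_, by rw [h4]; exact h1, by rw [h4]; exact h2⟩
      by_contra h7
      exact hno E ⟨hE, by omega, by omega⟩

/-- T16a -/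
theorem stSt3_96 (G : CG V) (q : V → V → Prop) (hm : G.StMn3 q) (hsm : G.StSmall)
    (hcovU : G.StCovU) (hcov3 : G.StCov3 q) (hid : G.StId3 q) (hps : G.StPs3 q)
    (htot : G.StTot3 q) (hch : G.StCh3 q) (hhub : G.StHub3 q) (hlow : G.StLow3 q) :
    G.StSt3 q := by
  intro hcr hqs hsat h9
  have ht := htot hqs
  suffices h : 0 ≤ ∑ v : V, 2 * G.a3 q v by
    rw [ht] at h
    have h1 : (2 * (Fintype.card V : ℤ)) ≤ 6 * (G.l univ : ℤ) + 3 * (qcard q univ : ℤ) := by
      linarith
    exact_mod_cast h1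
  by_cases hex : ∃ F, G.Big F
  · obtain ⟨F, hF⟩ := hex
    obtain ⟨hCf, hCN, hCC⟩ := G.stCo_37 F hF.1
    have hC : G.Big (G.Co F) := ⟨hCf, hF.2.2, by rw [hCC]; exact hF.2.1⟩
    have h1 := hm hcr hqs hsat F hF
    have h2 := hm hcr hqs hsat _ hC
    rw [← hps F hF.1]
    linarith
  · push Not at hex
    have hT := torso_empty96 hcr hqs hsat h9 hex hsm hcovU hcov3
    have h1 := hid ∅ hT.reg
    rw [sum_empty, sub_zero] at h1
    rw [h1]
    apply sum_nonneg
    intro z hz
    have hI := I_empty96 (G := G) z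
    obtain ⟨c1, c2, c3⟩ := hch hqs h9 ∅ hT.reg (fun B hB => absurd hB (notMem_empty _)) z hz
    obtain ⟨l1, l2, -⟩ := hlow hqs ∅ hT z hz
    rcases tri76 G q z with h2 | h2 | h2
    · rw [(c1 h2).1 hI]
      have h3 := (l1 h2).1 hI
      have h4 : (4 : ℤ) ≤ 2 * (G.tl ∅ z : ℤ) + (G.tq q ∅ z : ℤ) + 2 * (G.tA ∅ z : ℤ) := by
        exact_mod_cast h3
      linarith
    · rw [(c2 h2).1 hI]
      have h3 := (l2 h2).1 hI
      have h4 : (4 : ℤ) ≤ 2 * (G.tl ∅ z : ℤ) + (G.tq q ∅ z : ℤ) := by exact_mod_cast h3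
      linarith
    · rw [(c3 h2).1 hI]
      have h3 := (hhub hqs ∅ hT z hz h2).1 hI
      have h4 : (4 : ℤ) ≤ 2 * (G.tp ∅ z : ℤ) + (G.tq q ∅ z : ℤ) := by exact_mod_cast h3
      linarith

/-- at most eight vertices: every edge has a common neighbour of degree 6 -/
theorem cov8_96 (hcr : G.Crit) (h8 : Fintype.card V ≤ 8) {x y : V} (h : y ∈ G.nb x) :
    G.Cov x y := by
  obtain ⟨E, hE, h1, h2⟩ := hcr x y h
  have hc := G.card_V37 hE
  have e1 := card_pos.2 hE.1
  have e2 := card_pos.2 hE.2.2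
  have e3 : E.card = 1 := by omega
  obtain ⟨w, rfl⟩ := card_eq_one.1 e3
  have h6 := hE.2.1
  rw [N_single37] at h1 h2 h6
  exact ⟨w, h6, h1, h2⟩

theorem small_96 (hcr : G.Crit) (h8 : Fintype.card V ≤ 8) :
    2 * Fintype.card V ≤ 6 * G.l univ + 3 * qcard q univ := by
  rcases isEmpty_or_nonempty V with he | he
  · rw [Fintype.card_eq_zero]
    omega
  · obtain ⟨x⟩ := he
    have h1 : (G.nb x).Nonempty := card_pos.1 (by have := G.deg x; omega)
    obtain ⟨y, hy⟩ := h1
    obtain ⟨a, ha, hax, -⟩ := cov8_96 hcr h8 hy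
    obtain ⟨b, hb, hba, -⟩ := cov8_96 hcr h8 hax
    obtain ⟨c, hc, hcb, hca⟩ := cov8_96 hcr h8 hba
    have e1 : b ≠ a := ne_of_nb5 hba
    have e2 : c ≠ b := ne_of_nb5 hcb
    have e3 : c ≠ a := ne_of_nb5 hca
    have h3 : ({a, b, c} : Finset V).card = 3 := by
      rw [card_insert_of_notMem (by simp [e1.symm, e3.symm]),
        card_insert_of_notMem (by simp [e2.symm]), card_singleton]
    have h4 : ({a, b, c} : Finset V) ⊆ univ.filter fun v => G.Low v := by
      intro v hv
      rw [mem_insert, mem_insert, mem_singleton] at hv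
      rw [mem_filter]
      rcases hv with rfl | rfl | rfl
      · exact ⟨mem_univ _, ha⟩
      · exact ⟨mem_univ _, hb⟩
      · exact ⟨mem_univ _, hc⟩
    have h5 := card_le_card h4
    rw [h3] at h5
    have h6 : 3 ≤ G.l univ := h5
    omega

/-- T16b -/
theorem stFn3_96 (hst : ∀ (G : CG V) (q : V → V → Prop), G.StSt3 q)
    (hsa : ∀ (G : CG V) (q : V → V → Prop), G.StSa3 q) (G : CG V) (q : V → V → Prop) :
    G.StFn3 q := by
  have hbd : ∀ G : CG V, ∑ v, (G.nb v).card ≤ Fintype.card V * Fintype.card V := by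
    intro G
    calc ∑ v, (G.nb v).card ≤ ∑ _v : V, Fintype.card V :=
          sum_le_sum fun v _ => card_le_univ _
      _ = Fintype.card V * Fintype.card V := by
          rw [sum_const, card_univ, smul_eq_mul]
  have key : ∀ (m : ℕ) (G : CG V) (q : V → V → Prop),
      Fintype.card V * Fintype.card V - ∑ v, (G.nb v).card = m → G.Crit → G.QS q →
      2 * Fintype.card V ≤ 6 * G.l univ + 3 * qcard q univ := by
    intro m
    induction m using Nat.strong_induction_on with
    | _ m ih =>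
    intro G q hm hcr hqs
    by_cases h8 : Fintype.card V ≤ 8
    · exact small_96 hcr h8
    · have h9 : 9 ≤ Fintype.card V := by omega
      by_cases hsat : G.Sat
      · exact hst G q hcr hqs hsat h9
      · rw [Sat] at hsat
        push Not at hsat
        obtain ⟨a, b, t, hl, ht⟩ := hsat
        obtain ⟨G', q', h1, h2, h3, h4⟩ := hsa G q hcr hqs h9 a b t hl ht
        have h5 := hbd G'
        have h6 := ih _ (by omega) G' q' rfl h1 h2
        omega
  intro hcr hqs
  exact key _ G q rfl hcr hqs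

end CG

end Pool.Agent.Lib.MP_e95c01_co.N
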