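import Pool.Agent.Lib.MP_e95c01_co.T.Defs76
import Pool.Agent.Lib.MP_e95c01_co.T.Aux76
import Pool.Agent.Lib.MP_e95c01_co.T.StSt3_96
import Pool.Agent.Lib.MP_e95c01_co.N.Transfer53
import Pool.Agent.Lib.MP_e95c01_co.F.Final_87

/-!
# Vertices of degree 6 and pairs of twins of degree 7: from `CG` to graphs
-/

namespace Pool.Agent.Lib.MP_e95c01_co

open F

/-- `v` and `w` are adjacent twins of degree 7: adjacent, of degree 7, with the same neighbours
outside of `{v, w}`. -/
def Twin7 {V : Type} (G : SimpleGraph V) (v w : V) : Prop :=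
  G.Adj v w ∧ (G.neighborSet v).ncard = 7 ∧ ∀ x, x ≠ v → x ≠ w → (G.Adj v x ↔ G.Adj w x)

/-- The edges of `M` are pairs of adjacent twins of degree 7 of `G`; and, if `G` has at least nine
vertices, then every edge of `G` between the six common neighbours of another pair of adjacent twins
of degree 7 has a common neighbour of degree 6, or its ends are two of the six common neighbours of
one of the pairs in `M`. -/
structure PairCover {V : Type} (G M : SimpleGraph V) : Prop where
  twin : ∀ v w, M.Adj v w → Twin7 G v w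
  cov : 9 ≤ Nat.card V → ∀ v w, Twin7 G v w → ¬ M.Adj v w →
    ∀ x ∈ nbd G v w, ∀ y ∈ nbd G v w, G.Adj x y →
      LowCov G x y ∨ ∃ v' w', M.Adj v' w' ∧ x ∈ nbd G v' w' ∧ y ∈ nbd G v' w'

namespace N

open Finset

namespace Text76

section

variable {V : Type} [Fintype V] [DecidableEq V]

/-- twins in `CG` -/
theorem tw_iff (G : SimpleGraph V) (hG : KConn 6 G) (v w : V) :
    (Transfer53.cg G hG).Tw v w ↔ Twin7 G v w := by
  have hcard : ∀ v, ((Transfer53.cg G hG).nb v).card = (G.neighborSet v).ncard :=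
    fun v => Transfer53.card_nbs G v
  have hmem : ∀ v x, x ∈ (Transfer53.cg G hG).nb v ↔ G.Adj v x := Transfer53.cg_nb G hG
  constructor
  · rintro ⟨h1, h2, h3⟩
    refine ⟨(hmem _ _).1 h1, by rw [← hcard]; exact h2, ?_⟩
    intro x hxv hxw
    have h4 : x ∈ (Transfer53.cg G hG).cl v ↔ x ∈ (Transfer53.cg G hG).cl w := by rw [h3]
    rw [CG.cl, CG.cl, mem_insert, mem_insert, hmem, hmem] at h4
    constructor
    · intro h
      exact (h4.1 (Or.inr h)).resolve_left hxw
    · intro h
      exact (h4.2 (Or.inr h)).resolve_left hxv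
  · rintro ⟨h1, h2, h3⟩
    refine ⟨(hmem _ _).2 h1, by rw [hcard]; exact h2, ?_⟩
    ext x
    rw [CG.cl, CG.cl, mem_insert, mem_insert, hmem, hmem]
    by_cases hxv : x = v
    · subst hxv
      exact ⟨fun _ => Or.inr h1.symm, fun _ => Or.inl rfl⟩
    by_cases hxw : x = w
    · subst hxw
      exact ⟨fun _ => Or.inl rfl, fun _ => Or.inr h1⟩
    have h4 := h3 x hxv hxw
    constructor
    · rintro (h | h)
      · exact absurd h hxv
      · exact Or.inr (h4.1 h)
    · rintro (h | h)
      · exact absurd h hxw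
      · exact Or.inr (h4.2 h)

omit [Fintype V] [DecidableEq V] in
/-- common neighbours of a pair of twins -/
theorem mem_nbd_iff {G : SimpleGraph V} {v w x : V} (h : Twin7 G v w) :
    x ∈ nbd G v w ↔ G.Adj v x ∧ x ≠ w := by
  constructor
  · rintro ⟨h1, h2, h3 | h3⟩
    · exact ⟨h3, h2⟩
    · exact ⟨(h.2.2 x h1 h2).2 h3, h2⟩
  · rintro ⟨h1, h2⟩
    exact ⟨h1.ne.symm, h2, Or.inl h1⟩

theorem cov_iff (G : SimpleGraph V) (hG : KConn 6 G) (x y : V) :
    (Transfer53.cg G hG).Cov x y ↔ LowCov G x y := by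
  have hcard : ∀ v, ((Transfer53.cg G hG).nb v).card = (G.neighborSet v).ncard :=
    fun v => Transfer53.card_nbs G v
  have hmem : ∀ v x, x ∈ (Transfer53.cg G hG).nb v ↔ G.Adj v x := Transfer53.cg_nb G hG
  constructor
  · rintro ⟨w, h1, h2, h3⟩
    exact ⟨w, by rw [← hcard]; exact h1, (hmem _ _).1 h2, (hmem _ _).1 h3⟩
  · rintro ⟨w, h1, h2, h3⟩
    exact ⟨w, by show ((Transfer53.cg G hG).nb w).card = 6; rw [hcard]; exact h1,
      (hmem _ _).2 h2, (hmem _ _).2 h3⟩

/-- the chosen pairs -/
theorem qs (G M : SimpleGraph V) (hG : KConn 6 G) (hM : PairCover G M)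
    (h9 : 9 ≤ Fintype.card V) : (Transfer53.cg G hG).QS M.Adj := by
  have hmem : ∀ v x, x ∈ (Transfer53.cg G hG).nb v ↔ G.Adj v x := Transfer53.cg_nb G hG
  refine ⟨fun v w h => (tw_iff G hG v w).2 (hM.twin v w h), fun v w h => h.symm, ?_⟩
  intro v w h1 h2 x y hx hxw hy hyw hxy
  have h3 := (tw_iff G hG v w).1 h1
  rw [hmem] at hx hy hxy
  rcases hM.cov (by rw [Nat.card_eq_fintype_card]; exact h9) v w h3 h2 x
    ((mem_nbd_iff h3).2 ⟨hx, hxw⟩) y ((mem_nbd_iff h3).2 ⟨hy, hyw⟩) hxy with h | h
  · exact Or.inl ((cov_iff G hG x y).2 h)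
  · obtain ⟨v', w', h4, h5, h6⟩ := h
    have h7 := hM.twin _ _ h4
    rw [mem_nbd_iff h7] at h5 h6
    exact Or.inr ⟨v', w', h4, (hmem _ _).2 h5.1, h5.2, (hmem _ _).2 h6.1, h6.2⟩

/-- the number of vertices of chosen pairs is twice the number of pairs -/
theorem qcard_edges (G M : SimpleGraph V) (hG : KConn 6 G) (hM : PairCover G M)
    (h9 : 9 ≤ Fintype.card V) : CG.qcard M.Adj univ = 2 * Nat.card M.edgeSet := by
  classical
  have hq := qs G M hG hM h9
  have hdeg : ∀ v, M.degree v = if IsQ M.Adj v then 1 else 0 := by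
    intro v
    split_ifs with h
    · obtain ⟨w, hw⟩ := h
      rw [← SimpleGraph.card_neighborFinset_eq_degree, Finset.card_eq_one]
      refine ⟨w, ?_⟩
      ext x
      rw [SimpleGraph.mem_neighborFinset, mem_singleton]
      constructor
      · intro hx
        exact (CG.q_uniq76 hq h9 hw hx).symm
      · rintro rfl
        exact hw
    · rw [← SimpleGraph.card_neighborFinset_eq_degree, Finset.card_eq_zero]
      ext x
      rw [SimpleGraph.mem_neighborFinset]
      constructor
      · intro hx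
        exact absurd ⟨x, hx⟩ h
      · intro hx
        exact absurd hx (notMem_empty _)
  have h1 := M.sum_degrees_eq_twice_card_edges
  rw [Nat.card_eq_fintype_card, ← SimpleGraph.edgeFinset_card, ← h1, CG.qcard, Finset.card_filter]
  exact Finset.sum_congr rfl fun v _ => by rw [hdeg v]

end

/-- the theorem for graphs -/
theorem transfer (hF : ∀ (V : Type) [Fintype V] [DecidableEq V] (C : CG V) (q : V → V → Prop),
    C.StFn3 q) {V : Type} [Finite V] (G M : SimpleGraph V) (hG : Critical 6 G)
    (hM : PairCover G M) : Nat.card V ≤ 3 * (numDeg 6 G + Nat.card M.edgeSet) := by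
  classical
  have := Fintype.ofFinite V
  by_cases hn : Nat.card V ≤ 7
  · rw [Transfer53.seven G hG.1 hn]; omega
  by_cases h8 : Nat.card V ≤ 8
  · have h1 := CG.small_96 (G := Transfer53.cg G hG.1) (q := fun _ _ => False)
      (Transfer53.crit G hG (by omega)) (by rw [← Nat.card_eq_fintype_card]; exact h8)
    rw [Transfer53.l_univ, ← Nat.card_eq_fintype_card] at h1
    have h2 : CG.qcard (fun _ _ : V => False) univ = 0 := by
      rw [CG.qcard, Finset.card_eq_zero, Finset.filter_eq_empty_iff]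
      rintro x - ⟨w, hw⟩
      exact hw
    rw [h2] at h1
    omega
  · have h9 : 9 ≤ Fintype.card V := by rw [← Nat.card_eq_fintype_card]; omega
    have h1 := hF V (Transfer53.cg G hG.1) M.Adj (Transfer53.crit G hG (by omega))
      (qs G M hG.1 hM h9)
    rw [Transfer53.l_univ, qcard_edges G M hG.1 hM h9, ← Nat.card_eq_fintype_card] at h1
    omega

/-- `PairsCov` gives the empty family -/
theorem of_pairsCov {V : Type} [Finite V] {G : SimpleGraph V} (h : PairsCov G) :
    PairCover G ⊥ := by
  classical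
  have := Fintype.ofFinite V
  refine ⟨fun v w h => absurd h (by simp), ?_⟩
  intro h9 v w h1 _ x hx y hy hxy
  have h2 : nbd G v w = G.neighborSet v \ {w} := by
    ext z
    rw [mem_nbd_iff h1]
    rfl
  have h3 : (nbd G v w).ncard = 6 := by
    rw [h2, Set.ncard_sdiff_singleton_of_mem (show w ∈ G.neighborSet v from h1.1), h1.2.1]
  refine Or.inl (h v w h1.1.ne h3 ?_ x hx y hy hxy)
  by_contra hno
  push Not at hno
  have h4 : (Set.univ : Set V) ⊆ insert v (insert w (nbd G v w)) := by
    intro z _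
    by_cases h5 : z = v
    · exact Or.inl h5
    by_cases h6 : z = w
    · exact Or.inr (Or.inl h6)
    · exact Or.inr (Or.inr (hno z h5 h6))
  have h5 := Set.ncard_le_ncard h4 (Set.toFinite _)
  have h6 := Set.ncard_insert_le v (insert w (nbd G v w))
  have h7 := Set.ncard_insert_le w (nbd G v w)
  rw [Set.ncard_univ] at h5
  omega

end Text76

end N

end Pool.Agent.Lib.MP_e95c01_co
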