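import Pool.Agent.Lib.MP_e95c01_co.U.Defs37

/-!
# Low vertices and chosen pairs of twins: at least a third of all vertices

Definitions and statements. `q v w` means that `v`, `w` is a chosen pair of twins of degree 7.
-/

namespace Pool.Agent.Lib.MP_e95c01_co.N

open Finset

/-- member of a chosen pair -/
def IsQ {V : Type} (q : V → V → Prop) (v : V) : Prop := ∃ w, q v w

variable {V : Type} [Fintype V] [DecidableEq V] (G : CG V) (q : V → V → Prop)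

namespace CG

/-- `q` consists of pairs of twins; every edge in the neighbourhood of another pair of twins has a
common neighbour of degree 6 or lies in the neighbourhood of a chosen pair -/
structure QS : Prop where
  tw : ∀ v w, q v w → G.Tw v w
  symm : ∀ v w, q v w → q w v
  cov : ∀ v w, G.Tw v w → ¬ q v w → ∀ x y, x ∈ G.nb v → x ≠ w → y ∈ G.nb v → y ≠ w →
    y ∈ G.nb x → G.Cov x y ∨
      ∃ v' w', q v' w' ∧ x ∈ G.nb v' ∧ x ≠ w' ∧ y ∈ G.nb v' ∧ y ≠ w'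

/-- neither low nor in a chosen pair (it may be a twin that is not chosen) -/
def HubQ (v : V) : Prop := ¬ G.Low v ∧ ¬ IsQ q v

/-- as `CovIn`, only with chosen pairs -/
def CovIn3 (S : Finset V) (x z : V) : Prop :=
  (∃ w ∈ S, G.Low w ∧ x ∈ G.nb w ∧ z ∈ G.nb w) ∨
  (∃ v ∈ S, ∃ w ∈ S, q v w ∧ x ∈ G.nb v ∧ z ∈ G.nb v ∧ x ≠ w ∧ z ≠ w) ∨
  (∃ a ∈ S, ∃ b ∈ S, G.HL a b x ∧ z ∈ G.nb b ∧ z ≠ a) ∨
  (∃ a ∈ S, ∃ b ∈ S, G.HL a b z ∧ x ∈ G.nb b ∧ x ≠ a) ∨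
  (∃ a ∈ S, ∃ b ∈ S, G.LL a b x z)

/-- every edge of `R` without a common member of the family is covered inside `R` -/
def CovU3 (Fa : Finset (Finset V)) : Prop :=
  ∀ x ∈ R Fa, ∀ z ∈ R Fa, z ∈ G.nb x → G.m Fa x z = 0 → G.CovIn3 q (R Fa) x z

open Classical in
/-- half of the initial weight of a vertex (times two) -/
noncomputable def a3 (v : V) : ℤ := if G.Low v then 4 else if IsQ q v then 1 else -2

open Classical in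
/-- the coefficient of a vertex -/
noncomputable def c3 (v : V) : ℤ := if G.Low v then 2 else if IsQ q v then 1 else 0

/-- `w` is flagged at `S` -/
def FL (S : Finset V) (w : V) : Prop :=
  G.Low w ∧ w ∈ G.N S ∧ G.d w S = 4 ∧
    ∃ a b, G.HL a b w ∧ a ∈ G.N S ∧ b ∈ G.N S ∧ G.nb w ∩ G.N S = {a}

open Classical in
/-- number of flagged vertices -/
noncomputable def fl (S : Finset V) : ℕ := ((G.N S).filter fun w => G.FL S w).card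

open Classical in
/-- number of vertices of chosen pairs in `S` -/
noncomputable def qcard (S : Finset V) : ℕ := (S.filter fun v => IsQ q v).card

/-- the functional -/
noncomputable def P3 (S : Finset V) : ℤ :=
  ∑ v ∈ S, 2 * G.a3 q v +
    ∑ w ∈ G.N S, (G.a3 q w + G.c3 q w * ((G.d w S : ℤ) - (G.d w (G.Co S) : ℤ))) -
    2 * (G.fl S : ℤ) + 2 * (G.fl (G.Co S) : ℤ)

open Classical in
/-- what `w` pays to `x` -/
noncomputable def pi3 (w x : V) : ℤ :=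
  if G.Low w then
    (if IsQ q x then 1 else if ¬ G.Low x ∧ ¬ ∃ b, G.HL x b w then 2 else 0)
  else if IsQ q w then (if G.HubQ q x then 1 else 0) else 0

open Classical in
/-- the charge of `z` after the first rule -/
noncomputable def ch3 (Fa : Finset (Finset V)) (z : V) : ℤ :=
  (2 - ((G.I Fa z).card : ℤ)) * G.a3 q z +
    G.c3 q z * ((((G.I Fa z).card : ℤ) - 2) * ((G.nb z).card : ℤ) +
      ∑ x ∈ G.nR Fa z, (2 - (G.m Fa x z : ℤ))) +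
    ∑ x ∈ G.nR Fa z, (if G.m Fa x z ≤ 1 then G.pi3 q x z - G.pi3 q z x else 0) +
    2 * (((G.I Fa z).filter fun B => G.FL B z).card : ℤ) -
    2 * (((G.I Fa z).filter fun B => G.FL (G.Co B) z).card : ℤ)

open Classical in
/-- number of vertices of chosen pairs adjacent to `z` in `R`, the partner of `z` not counted -/
noncomputable def tq (Fa : Finset (Finset V)) (z : V) : ℕ :=
  ((G.nR Fa z).filter fun x => IsQ q x ∧ ¬ q z x).card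

open Classical in
/-- weight of the neighbour `x` at a low vertex `z` in at least two neighbourhoods -/
noncomputable def w3 (Fa : Finset (Finset V)) (x z : V) : ℤ :=
  if G.Low x then (if G.m Fa x z ≤ 1 then 2 else 0)
  else if IsQ q x then (if G.m Fa x z = 0 then 2 else if G.m Fa x z = 1 then 1 else 0)
  else if G.m Fa x z = 0 then 2
  else if G.m Fa x z = 1 ∧ ∃ b, G.HL x b z then 2 else 0

/-- the torsos that are considered -/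
structure Torso3 (Fa : Finset (Finset V)) : Prop where
  reg : G.Reg Fa
  big : ∀ B ∈ Fa, 3 ≤ B.card
  n9 : 9 ≤ Fintype.card V
  sat : G.Sat
  cov : G.CovU3 q Fa

/-- torsos with expansion -/
structure Gen3 (Fa : Finset (Finset V)) : Prop where
  tor : G.Torso3 q Fa
  h1 : ∀ z ∈ R Fa, ∀ B, G.I Fa z = {B} → 2 ≤ G.d z (G.Co B)
  hq : ∀ z ∈ R Fa, ∀ B, G.I Fa z = {B} → IsQ q z → 3 ≤ G.d z (G.Co B)
  h2 : ∀ y ∈ R Fa, ∀ z ∈ R Fa, ∀ B, G.I Fa y = {B} → G.I Fa z = {B} → y ≠ z →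
    3 ≤ ((G.nb y ∪ G.nb z) ∩ G.Co B).card
  h3 : (∀ z ∈ R Fa, G.I Fa z ≠ ∅) ∨ ∀ x ∈ R Fa, ∀ y ∈ R Fa, ∀ z ∈ R Fa, ∀ B,
    G.I Fa x = {B} → G.I Fa y = {B} → G.I Fa z = {B} → x ≠ y → x ≠ z → y ≠ z →
    4 ≤ ((G.nb x ∪ G.nb y ∪ G.nb z) ∩ G.Co B).card

/-- needy: low, in one neighbourhood only, charge `-2` -/
def Nd3 (Fa : Finset (Finset V)) (z : V) : Prop :=
  z ∈ R Fa ∧ G.Low z ∧ ∃ B, G.I Fa z = {B} ∧ G.d z (G.Co B) = 2 ∧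
    2 * G.tl Fa z + G.tq q Fa z + 2 * G.tA Fa z = 2

/-- flagged vertices with negative charge -/
def Fg3 (Fa : Finset (Finset V)) (t : V) : Prop :=
  t ∈ R Fa ∧ G.Low t ∧ (G.I Fa t).card = 2 ∧ G.ch3 q Fa t < 0

/-- the low vertex `l` pays 2 to `z` -/
def CLL (Fa : Finset (Finset V)) (l z : V) : Prop :=
  G.Nd3 q Fa z ∧ G.Low l ∧ l ∈ R Fa ∧
    (∀ B, G.I Fa z = {B} → ∀ x ∈ G.nb z ∩ G.Co B, G.I Fa x = ∅) ∧
    (l ∈ G.nb z ∨ ∃ a ∈ G.nR Fa z, G.HL a l z)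

/-- the hub `x` pays 2 to `z` -/
def CLH (Fa : Finset (Finset V)) (x z : V) : Prop :=
  x ∈ G.nR Fa z ∧ G.HubQ q x ∧ G.I Fa x ≠ ∅ ∧
    ((G.Nd3 q Fa z ∧ G.m Fa x z = 0) ∨ (G.Fg3 q Fa z ∧ ¬ ∃ b, G.HL x b z))

/-! ## Statements -/

/-- T1a: identity -/
def StId3 : Prop := ∀ Fa : Finset (Finset V), G.Reg Fa →
  ∑ v : V, 2 * G.a3 q v - ∑ B ∈ Fa, G.P3 q B = ∑ z ∈ R Fa, G.ch3 q Fa z

/-- T1b -/
def StPs3 : Prop := ∀ F : Finset V, G.Frag F →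
  G.P3 q F + G.P3 q (G.Co F) = ∑ v : V, 2 * G.a3 q v

/-- T1c -/
def StTot3 : Prop := G.QS q →
  ∑ v : V, 2 * G.a3 q v = 12 * (G.l univ : ℤ) + 6 * (qcard q univ : ℤ) - 4 * (Fintype.card V : ℤ)

open Classical in
/-- T1d: the formula for `P3` with the neighbours in `F` and in `N F` -/
def StP3F : Prop := G.QS q → ∀ F : Finset V, G.Frag F →
  G.P3 q F = 12 * (G.l F : ℤ) + 6 * (qcard q F : ℤ) - 4 * (F.card : ℤ) - 12 +
    (∑ w ∈ (G.N F).filter (fun w => G.Low w), (4 * (G.d w F : ℤ) + 2 * (G.d w (G.N F) : ℤ) - 6)) +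
    (∑ w ∈ (G.N F).filter (fun w => IsQ q w), (2 * (G.d w F : ℤ) + (G.d w (G.N F) : ℤ) - 4)) -
    2 * (G.fl F : ℤ) + 2 * (G.fl (G.Co F) : ℤ)

open Classical in
/-- T2: the charges -/
def StCh3 : Prop := G.QS q → 9 ≤ Fintype.card V → ∀ Fa : Finset (Finset V), G.Reg Fa →
  (∀ B ∈ Fa, 3 ≤ B.card) → ∀ z ∈ R Fa,
  (G.Low z →
    (G.I Fa z = ∅ →
      G.ch3 q Fa z = 2 * (G.tl Fa z : ℤ) + (G.tq q Fa z : ℤ) + 2 * (G.tA Fa z : ℤ) - 4) ∧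
    (∀ B, G.I Fa z = {B} →
      G.ch3 q Fa z = 2 * (G.d z (G.Co B) : ℤ) + 2 * (G.tl Fa z : ℤ) + (G.tq q Fa z : ℤ) +
        2 * (G.tA Fa z : ℤ) - 8 + (if G.FL B z then 2 else 0) -
        (if G.FL (G.Co B) z then 2 else 0)) ∧
    ((G.I Fa z).card = 2 → ∑ x ∈ G.nR Fa z, G.w3 q Fa x z +
      2 * (((G.I Fa z).filter fun B => G.FL B z).card : ℤ) -
      2 * (((G.I Fa z).filter fun B => G.FL (G.Co B) z).card : ℤ) ≤ G.ch3 q Fa z) ∧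
    (3 ≤ (G.I Fa z).card → ∑ x ∈ G.nR Fa z, G.w3 q Fa x z ≤ G.ch3 q Fa z)) ∧
  (IsQ q z →
    (G.I Fa z = ∅ → G.ch3 q Fa z = 2 * (G.tl Fa z : ℤ) + (G.tq q Fa z : ℤ) - 4) ∧
    (∀ B, G.I Fa z = {B} →
      G.ch3 q Fa z = (G.d z (G.Co B) : ℤ) + 2 * (G.tl Fa z : ℤ) + (G.tq q Fa z : ℤ) - 5) ∧
    (2 ≤ (G.I Fa z).card →
      (((G.nR Fa z).filter fun x => IsQ q x ∧ ¬ q z x ∧ G.m Fa x z ≤ 1).card : ℤ) ≤
        G.ch3 q Fa z)) ∧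
  (G.HubQ q z →
    (G.I Fa z = ∅ → G.ch3 q Fa z = 2 * (G.tp Fa z : ℤ) + (G.tq q Fa z : ℤ) - 4) ∧
    (∀ B, G.I Fa z = {B} →
      G.ch3 q Fa z = 2 * (G.tp Fa z : ℤ) + (G.tq q Fa z : ℤ) - 2) ∧
    (2 ≤ (G.I Fa z).card →
      2 * (((G.nR Fa z).filter fun x => G.Low x ∧ G.m Fa x z ≤ 1 ∧ ¬ ∃ b, G.HL z b x).card : ℤ) ≤
        G.ch3 q Fa z))

/-- T3: covers inside `R` -/
def StCov3 : Prop := G.QS q → ∀ Fa : Finset (Finset V), G.Reg Fa →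
  ∀ x ∈ R Fa, ∀ z ∈ R Fa, z ∈ G.nb x → G.m Fa x z = 0 → G.CovIn (R Fa) x z →
    G.CovIn3 q (R Fa) x z

/-- T4: hubs -/
def StHub3 : Prop := G.QS q → ∀ Fa : Finset (Finset V), G.Torso3 q Fa → ∀ z ∈ R Fa, G.HubQ q z →
  (G.I Fa z = ∅ → 4 ≤ 2 * G.tp Fa z + G.tq q Fa z) ∧
  (∀ B, G.I Fa z = {B} → 2 ≤ G.d z (G.Co B) → 2 ≤ 2 * G.tp Fa z + G.tq q Fa z)

/-- T5: low vertices and vertices of chosen pairs; parity -/
def StLow3 : Prop := G.QS q → ∀ Fa : Finset (Finset V), G.Torso3 q Fa → ∀ z ∈ R Fa,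
  (G.Low z →
    (G.I Fa z = ∅ → 4 ≤ 2 * G.tl Fa z + G.tq q Fa z + 2 * G.tA Fa z) ∧
    (∀ B, G.I Fa z = {B} → 1 ≤ G.d z (G.Co B) →
      2 ≤ 2 * G.tl Fa z + G.tq q Fa z + 2 * G.tA Fa z)) ∧
  (IsQ q z →
    (G.I Fa z = ∅ → 4 ≤ 2 * G.tl Fa z + G.tq q Fa z) ∧
    (∀ B, G.I Fa z = {B} → 1 ≤ G.d z (G.Co B) → 2 ≤ 2 * G.tl Fa z + G.tq q Fa z)) ∧
  Even (G.tq q Fa z)

/-- T6: the needy vertices -/
def StNd3 : Prop := G.QS q → ∀ Fa : Finset (Finset V), G.Torso3 q Fa → ∀ z, G.Nd3 q Fa z →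
  ∀ B, G.I Fa z = {B} →
  (∀ y ∈ G.nb z, IsQ q y → G.I Fa y = {B} → 3 ≤ ((G.nb y ∪ G.nb z) ∩ G.Co B).card) →
  (∃ l ∈ G.nR Fa z, G.Low l ∧ B ∈ G.I Fa l ∧ (∀ y ∈ G.nR Fa z, G.Low y → y = l) ∧
    (∀ y ∈ G.nR Fa z, ¬ IsQ q y) ∧ (∀ y ∈ G.nR Fa z, ¬ ∃ b, G.HL y b z) ∧
    ∀ x ∈ G.nb z ∩ G.Co B, G.HubQ q x ∧ (x ∈ G.nb l ∨ ∃ v ∈ R Fa, G.LL l v z x)) ∨
  (∃ a ∈ G.nR Fa z, ∃ b ∈ R Fa, G.HL a b z ∧ B ∈ G.I Fa a ∧ G.I Fa a = G.I Fa b ∧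
    (∀ y ∈ G.nR Fa z, G.HubQ q y) ∧ (∀ y ∈ G.nR Fa z, (∃ b', G.HL y b' z) → y = a) ∧
    ∀ x ∈ G.nb z ∩ G.Co B, x ≠ a ∧ x ∈ G.nb b)

/-- T6b: the flagged vertices with negative charge -/
def StFg3 : Prop := G.QS q → ∀ Fa : Finset (Finset V), G.Torso3 q Fa → ∀ t, G.Fg3 q Fa t →
  -2 ≤ G.ch3 q Fa t ∧ ∃ B B' a b, B ≠ B' ∧ G.I Fa t = {B, B'} ∧ G.HL a b t ∧ a ∈ G.nR Fa t ∧
    a ∈ G.N B ∧ a ∈ G.N B' ∧ G.nb t ∩ G.N B = {a} ∧ (∃ x ∈ G.nR Fa t, x ≠ a) ∧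
    ∀ x ∈ G.nR Fa t, x ≠ a → G.HubQ q x ∧ x ∈ G.N B' ∧ x ∉ G.N B ∧ ¬ ∃ b', G.HL x b' t

open Classical in
/-- T7: capacity of low vertices -/
def StCapL3 : Prop := G.QS q → ∀ Fa : Finset (Finset V), G.Gen3 q Fa → ∀ l ∈ R Fa, G.Low l →
  (∃ z, G.CLL q Fa l z) →
  2 * ((univ.filter fun z => G.CLL q Fa l z).card : ℤ) ≤ G.ch3 q Fa l

open Classical in
/-- T8: capacity of hubs -/
def StCapH3 : Prop := G.QS q → ∀ Fa : Finset (Finset V), G.Gen3 q Fa → ∀ x ∈ R Fa, G.HubQ q x →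
  G.I Fa x ≠ ∅ → 2 * ((univ.filter fun z => G.CLH q Fa x z).card : ℤ) ≤ G.ch3 q Fa x

/-- T9: torsos with expansion -/
def StGen3 : Prop := G.QS q → ∀ Fa : Finset (Finset V), G.Gen3 q Fa →
  0 ≤ ∑ z ∈ R Fa, G.ch3 q Fa z

/-- T10: leaves with four or five vertices -/
def StLf45 : Prop := G.QS q → ∀ F, G.Leaf F → F.card = 4 ∨ F.card = 5 → 0 ≤ G.P3 q F

/-- T10b: larger leaves -/
def StLf6 : Prop := G.QS q → ∀ F, G.Leaf F → 6 ≤ F.card → 0 ≤ G.P3 q F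

/-- T11: fragments with three vertices -/
def StT3 : Prop := G.QS q → G.Sat → ∀ F, G.Big F → F.card = 3 →
  (∀ z ∈ F, ∀ v ∈ G.nb z, v ∉ F → G.SCov z v) → 0 ≤ G.P3 q F

/-- T12: thin torsos, one vertex on each side -/
def StTh1 : Prop := G.QS q → ∀ A B : Finset V, G.Strip A B → (G.N A \ G.N B).card = 1 →
  (∀ y ∈ G.N B \ G.N A, ∀ s ∈ G.N A \ G.N B, s ∈ G.nb y → G.SCov y s) →
  0 ≤ ∑ z ∈ R {A, B}, G.ch3 q {A, B} z

/-- T13: two vertices on each side -/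
def StTh2 : Prop := G.QS q → ∀ A B : Finset V, G.Strip A B → (G.N A \ G.N B).card = 2 →
  G.CovU3 q {A, B} → (∀ z ∈ R {A, B}, ∀ D, G.I {A, B} z = {D} → 2 ≤ G.d z (G.Co D)) →
  0 ≤ ∑ z ∈ R {A, B}, G.ch3 q {A, B} z

/-- T15: main lemma -/
def StMn3 : Prop := G.Crit → G.QS q → G.Sat → ∀ F, G.Big F → 0 ≤ G.P3 q F

/-- T16a: the theorem for saturated graphs -/
def StSt3 : Prop := G.Crit → G.QS q → G.Sat → 9 ≤ Fintype.card V →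
  2 * Fintype.card V ≤ 6 * G.l univ + 3 * qcard q univ

/-- T14: adding an edge -/
def StSa3 : Prop := G.Crit → G.QS q → 9 ≤ Fintype.card V → ∀ a b t, G.HL a b t → ¬ G.Low t →
  ∃ (G' : CG V) (q' : V → V → Prop), G'.Crit ∧ G'.QS q' ∧
    2 * G'.l univ + qcard q' univ ≤ 2 * G.l univ + qcard q univ ∧
    ∑ v, (G.nb v).card < ∑ v, (G'.nb v).card

/-- T16b: the theorem for `CG` -/
def StFn3 : Prop := G.Crit → G.QS q → 2 * Fintype.card V ≤ 6 * G.l univ + 3 * qcard q univ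

end CG

end Pool.Agent.Lib.MP_e95c01_co.N
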