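import Pool.Agent.Lib.MP_e95c01_co.T.F8_76

/-!
# F10: fragments with three vertices, assembly
-/

namespace Pool.Agent.Lib.MP_e95c01_co.N

open Finset

variable {V : Type} [Fintype V] [DecidableEq V]

namespace CG

variable {G : CG V} {q : V → V → Prop}

theorem l_one76 {F : Finset V} {u : V} (h : u ∈ F) (h1 : G.Low u) : 1 ≤ G.l F := by
  rw [l, Nat.succ_le_iff, Finset.card_pos]
  exact ⟨u, mem_filter.2 ⟨h, h1⟩⟩

theorem l_two76 {F : Finset V} {u v : V} (h : u ∈ F) (h1 : G.Low u) (h' : v ∈ F) (h1' : G.Low v)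
    (hne : u ≠ v) : 2 ≤ G.l F := by
  rw [l]
  exact two_le5 (mem_filter.2 ⟨h, h1⟩) (mem_filter.2 ⟨h', h1'⟩) hne

theorem qcard_two76 {F : Finset V} {u v : V} (h : u ∈ F) (h1 : IsQ q u) (h' : v ∈ F)
    (h1' : IsQ q v) (hne : u ≠ v) : 2 ≤ qcard q F := by
  classical
  rw [qcard]
  exact two_le5 (mem_filter.2 ⟨h, h1⟩) (mem_filter.2 ⟨h', h1'⟩) hne

variable (G q)

theorem stT3_76 (hB : G.St11Bas q) (h1 : G.St11Cov q) (h2 : G.St11P q) (h4 : G.St11V0 q)
    (h6 : G.St11X q) (h7 : G.St11Y q) (h8 : G.St11Q q) (h9 : G.St11L q) : G.StT3 q := by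
  classical
  intro hq hs F hb h3 hc
  have hF := h1 hq hs F hb h3 hc
  have hP := h2 hq F hb h3
  have n9 := F3s_n9_76 hF
  have hS0 : 0 ≤ ∑ w ∈ G.N F, G.val3 q F w := Finset.sum_nonneg (h4 F hF)
  -- the partner of a vertex of `F`
  have hpart : ∀ v w, q v w → v ∈ F → w ∈ F := by
    intro v w hvw hv
    by_contra hw
    have hwN : w ∈ G.N F := mem_N76.2 ⟨hw, v, hv, q_nb76 hq hvw⟩
    have h5 := hB.out F hF w hwN
    rw [d, Nat.succ_le_iff, Finset.card_pos] at h5
    obtain ⟨x, hx⟩ := h5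
    obtain ⟨hx1, hx2⟩ := mem_inter.1 hx
    obtain ⟨hx3, hx4⟩ := mem_Co76.1 hx2
    have hxv : x ≠ v := by
      rintro rfl
      exact hx3 hv
    have h6 : x ∈ G.nb v := Tw_nb5 (hq.tw _ _ (hq.symm _ _ hvw)) hx1 hxv
    exact hx4 (mem_N76.2 ⟨hx3, v, hv, h6⟩)
  by_cases hQ : ∃ v ∈ F, IsQ q v
  · obtain ⟨v, hv, w, hvw⟩ := hQ
    have hw := hpart v w hvw hv
    have hne : v ≠ w := q_ne76 hq hvw
    have hwv := hq.symm _ _ hvw
    have hqc : (2 : ℤ) ≤ (qcard q F : ℤ) := by
      exact_mod_cast qcard_two76 (q := q) hv ⟨_, hvw⟩ hw ⟨_, hwv⟩ hne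
    have hcard : ((F.erase v).erase w).card = 1 := by
      rw [Finset.card_erase_of_mem (mem_erase.2 ⟨hne.symm, hw⟩), Finset.card_erase_of_mem hv, h3]
    obtain ⟨z, hz⟩ := Finset.card_eq_one.1 hcard
    have hz1 : z ∈ (F.erase v).erase w := by rw [hz]; exact mem_singleton_self _
    have hzw : z ≠ w := (mem_erase.1 hz1).1
    have hzv : z ≠ v := (mem_erase.1 (mem_erase.1 hz1).2).1
    have hzF : z ∈ F := (mem_erase.1 (mem_erase.1 hz1).2).2
    have hFe : F = {v, w, z} := by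
      ext x
      constructor
      · intro hx
        by_cases hxv : x = v
        · rw [hxv]; simp
        by_cases hxw : x = w
        · rw [hxw]; simp
        have : x ∈ (F.erase v).erase w := mem_erase.2 ⟨hxw, mem_erase.2 ⟨hxv, hx⟩⟩
        rw [hz] at this
        rw [mem_singleton.1 this]; simp
      · intro hx
        simp only [mem_insert, mem_singleton] at hx
        rcases hx with h | h | h <;> rw [h] <;> assumption
    have hl0 : (0 : ℤ) ≤ (G.l F : ℤ) := Int.natCast_nonneg _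
    rcases tri76 G q z with hz2 | hz2 | hz2
    · have : (1 : ℤ) ≤ (G.l F : ℤ) := by exact_mod_cast l_one76 hzF hz2
      linarith
    · exfalso
      obtain ⟨z', hzz'⟩ := hz2
      have h10 := hpart _ _ hzz' hzF
      have h11 : z' = v ∨ z' = w ∨ z' = z := by
        rw [hFe] at h10
        simpa using h10
      rcases h11 with h | h | h
      · rw [h] at hzz'
        exact hzw (q_uniq76 hq n9 (hq.symm _ _ hzz') hvw)
      · rw [h] at hzz'
        exact hzv (q_uniq76 hq n9 (hq.symm _ _ hzz') hwv)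
      · exact q_ne76 hq hzz' h.symm
    · have := h8 F hF v w z hFe hvw hzv hzw hz2
      linarith
  · have hQ' : ∀ v ∈ F, ¬ IsQ q v := fun v hv h => hQ ⟨v, hv, h⟩
    have hqc0 : (0 : ℤ) ≤ (qcard q F : ℤ) := Int.natCast_nonneg _
    by_cases hL : ∃ u ∈ F, G.Low u
    · obtain ⟨u, hu, hul⟩ := hL
      have hl1 : (1 : ℤ) ≤ (G.l F : ℤ) := by exact_mod_cast l_one76 hu hul
      have hcard : (F.erase u).card = 2 := by
        rw [Finset.card_erase_of_mem hu, h3]
      obtain ⟨z, z', hzz', hz⟩ := Finset.card_eq_two.1 hcard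
      have hz1 : z ∈ F.erase u := by rw [hz]; simp
      have hz1' : z' ∈ F.erase u := by rw [hz]; simp
      have hFe : F = {u, z, z'} := by
        rw [← Finset.insert_erase hu, hz]
      by_cases h10 : G.Low z
      · have : (2 : ℤ) ≤ (G.l F : ℤ) := by
          exact_mod_cast l_two76 hu hul (mem_erase.1 hz1).2 h10 (mem_erase.1 hz1).1.symm
        linarith
      by_cases h11 : G.Low z'
      · have : (2 : ℤ) ≤ (G.l F : ℤ) := by
          exact_mod_cast l_two76 hu hul (mem_erase.1 hz1').2 h11 (mem_erase.1 hz1').1.symm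
        linarith
      have := h9 F hF u z z' hFe hul (mem_erase.1 hz1).1.symm (mem_erase.1 hz1').1.symm hzz'
        ⟨h10, hQ' z (mem_erase.1 hz1).2⟩ ⟨h11, hQ' z' (mem_erase.1 hz1').2⟩
      linarith
    · have hall : ∀ z ∈ F, G.HubQ q z := fun z hz => ⟨fun h => hL ⟨z, hz, h⟩, hQ' z hz⟩
      have hl0 : (0 : ℤ) ≤ (G.l F : ℤ) := Int.natCast_nonneg _
      by_cases hCr : ∃ z, G.Cr F z
      · have := h6 F hF hall hCr
        linarith
      · have := h7 F hF hall (fun z hz => hCr ⟨z, hz⟩)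
        linarith

end CG

end Pool.Agent.Lib.MP_e95c01_co.N
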