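import Pool.Agent.Lib.MP_e95c01_co.T.F2_42
import Pool.Agent.Lib.MP_e95c01_co.U.Bridge76

/-!
# T11, part F1: the covers for fragments with three vertices
-/

namespace Pool.Agent.Lib.MP_e95c01_co.N

open Finset

variable {V : Type} [Fintype V] [DecidableEq V]

namespace CG

variable {G : CG V} {q : V → V → Prop} {F : Finset V}

/-- neighbours of the vertices of `F` -/
theorem nbF42 {z w : V} (hz : z ∈ F) (hw : w ∈ G.nb z) : w ∈ F ∨ w ∈ G.N F := by
  by_cases h : w ∈ F
  · exact Or.inl h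
  · exact Or.inr (mem_N76.2 ⟨h, z, hz, hw⟩)

theorem tri42 (G : CG V) (F : Finset V) (w : V) : w ∈ F ∨ w ∈ G.N F ∨ w ∈ G.Co F := by
  by_cases h : w ∈ F
  · exact Or.inl h
  · by_cases h' : w ∈ G.N F
    · exact Or.inr (Or.inl h')
    · exact Or.inr (Or.inr (mem_Co76.2 ⟨h, h'⟩))

/-- vertices of `F` and `Co F` are not adjacent -/
theorem noed42 {z c : V} (hz : z ∈ F) (hc : c ∈ G.Co F) (h : c ∈ G.nb z) : False := by
  rcases nbF42 hz h with h1 | h1
  · exact (mem_Co76.1 hc).1 h1
  · exact (mem_Co76.1 hc).2 h1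

theorem toCo42 (hF : G.Frag F) {a : V} (ha : a ∈ G.N F) : ∃ c ∈ G.Co F, c ∈ G.nb a := by
  have h2 := d_Co_pos76 hF ha
  rw [d, Nat.succ_le_iff, Finset.card_pos] at h2
  obtain ⟨c, hc⟩ := h2
  rw [mem_inter] at hc
  exact ⟨c, hc.2, hc.1⟩

theorem st11Cov_42 (G : CG V) (q : V → V → Prop) : G.St11Cov q := by
  intro hq hsat F hF h3 hc
  have n9 := big_n9_42 hF
  have n12 : 12 ≤ Fintype.card V := by
    have h1 : (F ∪ G.N F).card = F.card + (G.N F).card := by
      apply card_union_of_disjoint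
      rw [N]
      exact disjoint_sdiff
    have h2 : (G.Co F).card = Fintype.card V - (F ∪ G.N F).card := by
      rw [Co, card_compl]
    have h4 := hF.1.2.1
    have h5 := hF.2.1
    have h6 := hF.2.2
    omega
  refine ⟨hq, hsat, hF, h3, n12, ?_⟩
  intro z hz y hy hyz
  have hyF : y ∉ F := (mem_N76.1 hy).1
  obtain ⟨E, hE, hE2, hzE, hyE⟩ := hc z hz y hyz hyF
  have hzy : z ≠ y := ne_of_nb5 hyz
  have inU : ∀ w, z ∈ G.nb w → w ∈ F ∪ G.N F := by
    intro w hw
    exact mem_union.2 (nbF42 hz (G.sym _ _ hw))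
  rcases G.stSmall_76 E hE hE2 z y hzE hyE hzy with ⟨w, -, h1, h2, h3'⟩ |
    ⟨v, -, w, -, h1, h2, h3', h4, h5⟩ | ⟨a, -, b, -, h1, h2, h3'⟩ |
    ⟨a, -, b, -, h1, h2, h3'⟩ | ⟨a, -, b, -, h1⟩
  · exact Or.inl ⟨w, inU w h2, h1, h2, h3'⟩
  · by_cases hvw : q v w
    · have hzw : z ∈ G.nb w := Tw_nb5 h1 h2 h4
      exact Or.inr (Or.inl ⟨v, inU v h2, w, inU w hzw, hvw, h2, hzw, h3', Tw_nb5 h1 h3' h5⟩)
    · rcases hq.cov v w h1 hvw z y h2 h4 h3' h5 hyz with ⟨u, k1, k2, k3⟩ |
        ⟨v', w', k1, k2, k3, k4, k5⟩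
      · exact Or.inl ⟨u, inU u k2, k1, k2, k3⟩
      · have k6 := Tw_nb5 (hq.tw _ _ k1) k2 k3
        exact Or.inr (Or.inl ⟨v', inU v' k2, w', inU w' k6, k1, k2, k6, k4,
          Tw_nb5 (hq.tw _ _ k1) k4 k5⟩)
  · -- HL a b z
    have hya : y ∈ G.nb a := HL_sub76 h1 h2 h3'
    have hza : z ∈ G.nb a := HL_t76 h1
    refine Or.inr (Or.inr (Or.inr (Or.inl ⟨a, b, h1, h2, hya, ?_⟩)))
    rcases nbF42 hz (G.sym _ _ hza) with ha | ha
    · left
      refine ⟨ha, ?_⟩
      rcases nbF42 ha (HL_b76 h1) with hb | hb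
      · exact hb
      · exfalso
        obtain ⟨c, hc1, hc2⟩ := toCo42 hF.1 hb
        have hca : c ≠ a := by
          rintro rfl
          exact (mem_Co76.1 hc1).1 ha
        exact noed42 ha hc1 (HL_sub76 h1 hc2 hca)
    · right
      rcases tri42 G F b with hb | hb | hb
      · exfalso
        obtain ⟨c, hc1, hc2⟩ := toCo42 hF.1 ha
        have hcz : c ≠ z := by
          rintro rfl
          exact (mem_Co76.1 hc1).1 hz
        rcases HL_sup76 h1 hc2 hcz with h6 | h6
        · subst h6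
          exact (mem_Co76.1 hc1).1 hb
        · exact noed42 hb hc1 h6
      · exact Or.inl ⟨ha, hb⟩
      · right
        refine ⟨ha, hb, ?_⟩
        ext x
        rw [mem_inter, mem_singleton]
        constructor
        · rintro ⟨h6, h7⟩
          by_contra hxz
          rcases HL_sup76 h1 h6 hxz with h8 | h8
          · subst h8
            exact (mem_Co76.1 hb).1 h7
          · exact noed42 h7 hb (G.sym _ _ h8)
        · rintro rfl
          exact ⟨hza, hz⟩
  · -- HL a b y
    have hza : z ∈ G.nb a := HL_sub76 h1 h2 h3'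
    have hya : y ∈ G.nb a := HL_t76 h1
    refine Or.inr (Or.inr (Or.inl ⟨a, b, h1, h2, hza, ?_⟩))
    have hbU := nbF42 hz (G.sym _ _ h2)
    rcases nbF42 hz (G.sym _ _ hza) with ha | ha
    · left
      refine ⟨ha, ?_⟩
      rcases hbU with hb | hb
      · exact hb
      · exfalso
        obtain ⟨c, hc1, hc2⟩ := toCo42 hF.1 hb
        have hca : c ≠ a := by
          rintro rfl
          exact (mem_Co76.1 hc1).1 ha
        exact noed42 ha hc1 (HL_sub76 h1 hc2 hca)
    · right
      refine ⟨ha, ?_⟩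
      rcases hbU with hb | hb
      · exfalso
        obtain ⟨c, hc1, hc2⟩ := toCo42 hF.1 ha
        have hcy : c ≠ y := by
          rintro rfl
          exact (mem_Co76.1 hc1).2 hy
        rcases HL_sup76 h1 hc2 hcy with h6 | h6
        · subst h6
          exact (mem_Co76.1 hc1).1 hb
        · exact noed42 hb hc1 h6
      · exact hb
  · -- LL a b z y
    have hza : z ∈ G.nb a := LL_t76 h1
    refine Or.inr (Or.inr (Or.inr (Or.inr ⟨a, b, h1, ?_⟩)))
    rcases nbF42 hz (G.sym _ _ hza) with ha | ha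
    · exact Or.inl ⟨ha, mem_union.2 (nbF42 ha (LL_ab76 h1))⟩
    · right
      rcases tri42 G F b with hb | hb | hb
      · exact Or.inl ⟨ha, mem_union_left _ hb⟩
      · exact Or.inl ⟨ha, mem_union_right _ hb⟩
      · right
        refine ⟨ha, hb, ?_⟩
        ext x
        rw [mem_inter, mem_singleton]
        constructor
        · rintro ⟨h6, h7⟩
          by_contra hxz
          rcases LL_to76 h1 h6 hxz with h8 | h8
          · subst h8
            exact (mem_Co76.1 hb).1 h7
          · exact noed42 h7 hb (G.sym _ _ h8)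
        · rintro rfl
          exact ⟨hza, hz⟩

end CG

end Pool.Agent.Lib.MP_e95c01_co.N
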