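import Pool.Agent.Lib.MP_e95c01_co.T.Aux76
import Pool.Agent.Lib.MP_e95c01_co.U.Ident11

/-!
# T1: the identity and the formulas for `P3`
-/

namespace Pool.Agent.Lib.MP_e95c01_co.N

open Finset

variable {V : Type} [Fintype V] [DecidableEq V]

namespace CG

variable {G : CG V} {q : V → V → Prop} {Fa : Finset (Finset V)}

/-- the flags as a sum over the neighbourhood -/
theorem fl_sum11 (G : CG V) {F : Finset V} (hF : G.Frag F) (g : Prop → ℤ)
    (hg : ∀ p : Prop, (p → g p = 1) ∧ (¬ p → g p = 0)) :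
    (G.fl F : ℤ) = ∑ w ∈ G.N F, g (G.FL F w) ∧
      (G.fl (G.Co F) : ℤ) = ∑ w ∈ G.N F, g (G.FL (G.Co F) w) := by
  classical
  obtain ⟨-, h2, -⟩ := G.stCo_37 F hF
  have key : ∀ S T : Finset V,
      (((T.filter fun w => G.FL S w).card : ℕ) : ℤ) = ∑ w ∈ T, g (G.FL S w) := by
    intro S T
    rw [card_filter]
    push_cast
    refine sum_congr rfl fun w _ => ?_
    split_ifs with h
    · rw [(hg _).1 h]
    · rw [(hg _).2 h]
  constructor
  · rw [fl, ← key]
  · rw [fl, h2, ← key]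

theorem stId3_11 (G : CG V) (q : V → V → Prop) : G.StId3 q := by
  classical
  intro Fa h
  set g : Prop → ℤ := fun p => if p then 1 else 0 with hgdef
  have hg : ∀ p : Prop, (p → g p = 1) ∧ (¬ p → g p = 0) :=
    fun p => ⟨fun hp => if_pos hp, fun hp => if_neg hp⟩
  have h1 := sum_split76 h (fun v => 2 * G.a3 q v)
  have h2 := sum_N76 h (fun B w => G.a3 q w + G.c3 q w * ((G.d w B : ℤ) - (G.d w (G.Co B) : ℤ)) -
    2 * g (G.FL B w) + 2 * g (G.FL (G.Co B) w))
  have hP : ∑ B ∈ Fa, G.P3 q B = ∑ B ∈ Fa, ∑ v ∈ B, 2 * G.a3 q v +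
      ∑ B ∈ Fa, ∑ w ∈ G.N B, (G.a3 q w + G.c3 q w * ((G.d w B : ℤ) - (G.d w (G.Co B) : ℤ)) -
        2 * g (G.FL B w) + 2 * g (G.FL (G.Co B) w)) := by
    rw [← sum_add_distrib]
    refine sum_congr rfl fun B hB => ?_
    obtain ⟨k1, k2⟩ := G.fl_sum11 (h.frag B hB) g hg
    have k3 : ∑ w ∈ G.N B, (G.a3 q w + G.c3 q w * ((G.d w B : ℤ) - (G.d w (G.Co B) : ℤ)) -
        2 * g (G.FL B w) + 2 * g (G.FL (G.Co B) w)) =
        ∑ w ∈ G.N B, (G.a3 q w + G.c3 q w * ((G.d w B : ℤ) - (G.d w (G.Co B) : ℤ))) -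
        2 * ∑ w ∈ G.N B, g (G.FL B w) + 2 * ∑ w ∈ G.N B, g (G.FL (G.Co B) w) := by
      rw [mul_sum, mul_sum, ← sum_sub_distrib, ← sum_add_distrib]
    rw [P3, k1, k2, k3]
    ring
  have h3 : ∑ z ∈ R Fa, ∑ x ∈ G.nR Fa z,
      (if G.m Fa x z ≤ 1 then G.pi3 q x z - G.pi3 q z x else 0) = 0 := by
    apply swap11
    intro x z
    rw [m_comm76 z x]
    split_ifs <;> ring
  have hI : ∀ (z : V) (p : Finset V → Prop),
      ∑ B ∈ G.I Fa z, g (p B) = (((G.I Fa z).filter fun B => p B).card : ℤ) := by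
    intro z p
    rw [card_filter]
    push_cast
    rfl
  have hz : ∀ z ∈ R Fa, G.ch3 q Fa z = (2 * G.a3 q z - ∑ B ∈ G.I Fa z,
      (G.a3 q z + G.c3 q z * ((G.d z B : ℤ) - (G.d z (G.Co B) : ℤ)) -
        2 * g (G.FL B z) + 2 * g (G.FL (G.Co B) z))) +
      ∑ x ∈ G.nR Fa z, (if G.m Fa x z ≤ 1 then G.pi3 q x z - G.pi3 q z x else 0) := by
    intro z hz
    rw [sum_add_distrib, sum_sub_distrib, sum_add_distrib, ← mul_sum, ← mul_sum, ← mul_sum,
      sum_d11 h hz, sum_const, nsmul_eq_mul, hI z (fun B => G.FL B z),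
      hI z (fun B => G.FL (G.Co B) z), ch3]
    ring
  rw [sum_congr rfl hz, sum_add_distrib, h3, add_zero, sum_sub_distrib, ← h2, hP, h1]
  ring

theorem stPs3_11 (G : CG V) (q : V → V → Prop) : G.StPs3 q := by
  intro F hF
  obtain ⟨h1, h2, h3⟩ := G.stCo_37 F hF
  rw [P3, P3, h2, h3, G.part11 F]
  have h4 : ∑ w ∈ G.N F, (G.a3 q w + G.c3 q w * ((G.d w F : ℤ) - (G.d w (G.Co F) : ℤ))) +
      ∑ w ∈ G.N F, (G.a3 q w + G.c3 q w * ((G.d w (G.Co F) : ℤ) - (G.d w F : ℤ))) =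
      ∑ w ∈ G.N F, 2 * G.a3 q w := by
    rw [← sum_add_distrib]
    exact sum_congr rfl fun w _ => by ring
  linarith

theorem sum_a3_11 (hq : G.QS q) (S : Finset V) :
    ∑ v ∈ S, 2 * G.a3 q v = 12 * (G.l S : ℤ) + 6 * (qcard q S : ℤ) - 4 * (S.card : ℤ) := by
  classical
  have h1 : ∀ v ∈ S, 2 * G.a3 q v = 12 * (if G.Low v then 1 else 0) +
      6 * (if IsQ q v then 1 else 0) - 4 := by
    intro v _
    rw [a3]
    by_cases hl : G.Low v
    · rw [if_pos hl, if_pos hl, if_neg (not_q_of_low76 hq hl)]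
      ring
    · by_cases ht : IsQ q v
      · rw [if_neg hl, if_neg hl, if_pos ht, if_pos ht]
        ring
      · rw [if_neg hl, if_neg hl, if_neg ht, if_neg ht]
        ring
  have h2 : (qcard q S : ℤ) = ∑ v ∈ S, (if IsQ q v then 1 else 0) := by
    rw [qcard, card_filter]
    push_cast
    refine sum_congr rfl fun v _ => ?_
    congr
  have h3 : (G.l S : ℤ) = ∑ v ∈ S, (if G.Low v then 1 else 0) := by
    rw [l, card_filter]
    push_cast
    rfl
  rw [sum_congr rfl h1, sum_sub_distrib, sum_add_distrib, ← mul_sum, ← mul_sum, h2, h3,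
    sum_const, nsmul_eq_mul]
  ring

theorem stTot3_11 (G : CG V) (q : V → V → Prop) : G.StTot3 q := fun hq => sum_a3_11 hq univ

theorem stP3F_11 (G : CG V) (q : V → V → Prop) : G.StP3F q := by
  classical
  intro hq F hF
  rw [P3, sum_a3_11 hq]
  have h6 : (G.N F).card = 6 := hF.2.1
  have h1 : ∀ w ∈ G.N F, G.a3 q w + G.c3 q w * ((G.d w F : ℤ) - (G.d w (G.Co F) : ℤ)) =
      -2 + (if G.Low w then (4 * (G.d w F : ℤ) + 2 * (G.d w (G.N F) : ℤ) - 6) else 0) +
        (if IsQ q w then (2 * (G.d w F : ℤ) + (G.d w (G.N F) : ℤ) - 4) else 0) := by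
    intro w _
    have h2 := d_split76 (G := G) w F
    have h3 : (G.nb w ∩ G.N F).card = G.d w (G.N F) := rfl
    rw [h3] at h2
    rw [a3, c3]
    by_cases hl : G.Low w
    · have ht := not_q_of_low76 hq hl
      rw [if_pos hl, if_pos hl, if_pos hl, if_neg ht]
      have h4 : (G.nb w).card = 6 := hl
      omega
    · by_cases ht : IsQ q w
      · rw [if_neg hl, if_neg hl, if_neg hl, if_pos ht, if_pos ht]
        have h4 := q_card76 hq ht
        simp only [ht, if_true]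
        omega
      · rw [if_neg hl, if_neg hl, if_neg hl, if_neg ht, if_neg ht]
        simp only [ht, if_false]
        ring
  rw [sum_congr rfl h1, sum_add_distrib, sum_add_distrib, sum_const, h6, ← sum_filter,
    ← sum_filter]
  have h7 : ∀ p : V → Prop, ∀ i1 i2 : DecidablePred p, ∀ f : V → ℤ,
      ∑ w ∈ @Finset.filter V p i1 (G.N F), f w = ∑ w ∈ @Finset.filter V p i2 (G.N F), f w := by
    intro p i1 i2 f
    congr
  simp only [nsmul_eq_mul]
  push_cast
  rw [h7 (fun w => IsQ q w) _ (fun a => Classical.propDecidable _),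
    h7 (fun w => G.Low w) _ (fun a => Classical.propDecidable _)]
  ring

end CG

end Pool.Agent.Lib.MP_e95c01_co.N
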