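import Pool.Agent.Lib.MP_e95c01_co.T.StmtsF76
import Pool.Agent.Lib.MP_e95c01_co.T.Ident11

/-!
# T11, part F2: the functional for fragments with three vertices
-/

namespace Pool.Agent.Lib.MP_e95c01_co.N

open Finset

variable {V : Type} [Fintype V] [DecidableEq V]

namespace CG

variable {G : CG V} {q : V → V → Prop} {F : Finset V}

/-- the neighbours of a low vertex in `N F` -/
theorem tT_low42 (hq : G.QS q) (F : Finset V) {w : V} (h : G.Low w) :
    (G.tT q F w).card = G.d w (G.N F) := by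
  classical
  rw [tT, d, filter_true_of_mem]
  intro x _ hx
  exact not_q_of_low76 hq h ⟨x, hx⟩

/-- the partner of a chosen twin in `N F` is in `N F` -/
theorem q_N42 (hq : G.QS q) (hF : G.Frag F) {v w : V} (h : q v w) (hv : v ∈ G.N F) :
    w ∈ G.N F := by
  obtain ⟨h1, u, hu, hvu⟩ := mem_N76.1 hv
  have h2 := d_Co_pos76 hF hv
  rw [d, Nat.succ_le_iff, Finset.card_pos] at h2
  obtain ⟨c, hc⟩ := h2
  rw [mem_inter] at hc
  have h3 : w ∉ F := by
    intro hw
    by_cases hcw : c = w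
    · subst hcw
      exact (mem_Co76.1 hc.2).1 hw
    · have h4 := Tw_nb5 (hq.tw _ _ h) hc.1 hcw
      exact (mem_Co76.1 hc.2).2 (mem_N76.2 ⟨(mem_Co76.1 hc.2).1, w, hw, h4⟩)
  refine mem_N76.2 ⟨h3, u, hu, ?_⟩
  have huw : u ≠ w := by
    rintro rfl
    exact h3 hu
  exact G.sym _ _ (Tw_nb5 (hq.tw _ _ h) (G.sym _ _ hvu) huw)

/-- the neighbours of a chosen twin in `N F` -/
theorem tT_q42 (hq : G.QS q) (n9 : 9 ≤ Fintype.card V) (hF : G.Frag F) {v w : V} (h : q v w)
    (hv : v ∈ G.N F) : (G.tT q F v).card + 1 = G.d v (G.N F) := by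
  classical
  have h1 := q_N42 hq hF h hv
  have h2 : w ∈ G.nb v ∩ G.N F := mem_inter.2 ⟨q_nb76 hq h, h1⟩
  have h3 : G.tT q F v = (G.nb v ∩ G.N F).erase w := by
    ext x
    rw [tT, mem_filter, mem_erase]
    constructor
    · rintro ⟨h4, h5⟩
      refine ⟨?_, h4⟩
      rintro rfl
      exact h5 h
    · rintro ⟨h4, h5⟩
      exact ⟨h5, fun h6 => h4 (q_uniq76 hq n9 h6 h)⟩
  rw [h3, card_erase_of_mem h2, d]
  have h4 : 0 < (G.nb v ∩ G.N F).card := card_pos.2 ⟨w, h2⟩
  omega

theorem big_n9_42 (h : G.Big F) : 9 ≤ Fintype.card V := by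
  have h1 : (F ∪ G.N F).card = F.card + (G.N F).card := by
    apply card_union_of_disjoint
    rw [N]
    exact disjoint_sdiff
  have h2 : (G.Co F).card = Fintype.card V - (F ∪ G.N F).card := by
    rw [Co, card_compl]
  have h3 := h.1.2.1
  have h4 := h.2.1
  have h5 := h.2.2
  omega

theorem st11P_42 (G : CG V) (q : V → V → Prop) : G.St11P q := by
  classical
  intro hq F hF h3
  have n9 := big_n9_42 hF
  have h := stP3F_11 G q hq F hF.1
  rw [h, h3]
  have hfl : G.fl F = 0 := by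
    rw [fl, card_eq_zero, filter_eq_empty_iff]
    intro w _ hFL
    have h4 := hFL.2.2.1
    have h5 : G.d w F ≤ F.card := card_le_card inter_subset_right
    omega
  have hval : ∀ w ∈ G.N F, G.val3 q F w =
      (if G.Low w then (4 * (G.d w F : ℤ) + 2 * (G.d w (G.N F) : ℤ) - 6) else 0) +
        (if IsQ q w then (2 * (G.d w F : ℤ) + (G.d w (G.N F) : ℤ) - 4) else 0) := by
    intro w hw
    rw [val3, wt3]
    by_cases hl : G.Low w
    · have ht := not_q_of_low76 hq hl
      rw [if_pos hl, if_pos hl, if_neg ht, tT_low42 hq F hl]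
      ring
    · by_cases ht : IsQ q w
      · obtain ⟨w', hw'⟩ := ht
        have h6 := tT_q42 hq n9 hF.1 hw' hw
        rw [if_neg hl, if_neg hl, if_pos ⟨w', hw'⟩, if_pos ⟨w', hw'⟩, ← h6]
        push_cast
        ring
      · rw [if_neg hl, if_neg hl, if_neg ht, if_neg ht]
        ring
  rw [sum_congr rfl hval, sum_add_distrib, ← sum_filter, ← sum_filter, hfl]
  have h7 : ∀ p : V → Prop, ∀ i1 i2 : DecidablePred p, ∀ f : V → ℤ,
      ∑ w ∈ @Finset.filter V p i1 (G.N F), f w = ∑ w ∈ @Finset.filter V p i2 (G.N F), f w := by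
    intro p i1 i2 f
    congr
  push_cast
  rw [h7 (fun w => IsQ q w) _ (fun a => Classical.propDecidable _),
    h7 (fun w => G.Low w) _ (fun a => Classical.propDecidable _)]
  have h8 : (0 : ℤ) ≤ (G.fl (G.Co F) : ℤ) := Int.natCast_nonneg _
  linarith

end CG

end Pool.Agent.Lib.MP_e95c01_co.N
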