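import Pool.Agent.Lib.MP_e95c01_co.T.StmtsF76
import Pool.Agent.Lib.MP_e95c01_co.T.Aux76
import Pool.Agent.Lib.MP_e95c01_co.U.Leaf33

/-!
# T11, F3: basic facts on fragments with three vertices
-/

namespace Pool.Agent.Lib.MP_e95c01_co.N

open Finset

variable {V : Type} [Fintype V] [DecidableEq V]

namespace CG

variable {G : CG V} {q : V → V → Prop} {F : Finset V}

/-- a vertex of `F` has all but at most two of its neighbours in `N F` -/
theorem tz33 (hc : F.card = 3) {z : V} (hz : z ∈ F) : (G.nb z).card ≤ (G.Tz F z).card + 2 := by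
  have h1 : G.nb z ⊆ G.Tz F z ∪ F.erase z := by
    intro x hx
    by_cases h : x ∈ F
    · exact mem_union_right _ (mem_erase.2 ⟨(ne_of_nb5 hx).symm, h⟩)
    · exact mem_union_left _ (mem_inter.2 ⟨hx, mem_N37.2 ⟨h, z, hz, hx⟩⟩)
  have h2 := card_le_card h1
  have h3 := card_union_le (G.Tz F z) (F.erase z)
  rw [card_erase_of_mem hz, hc] at h3
  omega

/-- removing the only neighbour of a vertex of `N F` -/
theorem frag33 (hF : G.Frag F) (hc : 2 ≤ F.card) {a : V} (ha : a ∈ G.N F) {z : V}
    (hz : G.nb a ∩ F = {z}) :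
    G.Frag (F.erase z) ∧ G.N (F.erase z) = insert z ((G.N F).erase a) := by
  have hzF : z ∈ F := by
    have : z ∈ G.nb a ∩ F := by rw [hz]; exact mem_singleton_self _
    exact (mem_inter.1 this).2
  have hzN : z ∉ G.N F := fun h => (mem_N37.1 h).1 hzF
  have hsub : G.N (F.erase z) ⊆ insert z ((G.N F).erase a) := by
    intro x hx
    obtain ⟨k1, y, hy, hxy⟩ := mem_N37.1 hx
    rw [mem_erase] at hy
    rw [mem_insert]
    by_cases hxz : x = z
    · exact Or.inl hxz
    right
    have hxF : x ∉ F := fun h => k1 (mem_erase.2 ⟨hxz, h⟩)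
    rw [mem_erase]
    refine ⟨?_, mem_N37.2 ⟨hxF, y, hy.2, hxy⟩⟩
    rintro rfl
    have : y ∈ G.nb x ∩ F := mem_inter.2 ⟨G.sym _ _ hxy, hy.2⟩
    rw [hz, mem_singleton] at this
    exact hy.1 this
  have hcard : (insert z ((G.N F).erase a)).card = 6 := by
    rw [card_insert_of_notMem (fun h => hzN (mem_of_mem_erase h)), card_erase_of_mem ha, hF.2.1]
  have hne1 : (F.erase z).Nonempty := by
    rw [← card_pos, card_erase_of_mem hzF]
    omega
  have hne2 : (G.Co (F.erase z)).Nonempty := by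
    obtain ⟨c, hc⟩ := hF.2.2
    refine ⟨c, mem_Co76.2 ⟨fun h => (mem_Co76.1 hc).1 (mem_erase.1 h).2, ?_⟩⟩
    intro h
    obtain ⟨-, y, hy, hxy⟩ := mem_N37.1 h
    exact nb_Co76 hc (G.sym _ _ hxy) (mem_erase.1 hy).2
  have h6 := G.stN6_37 _ hne1 hne2
  have hle := card_le_card hsub
  refine ⟨⟨hne1, by omega, hne2⟩, eq_of_subset_of_card_le hsub (by omega)⟩

/-- T11, F3 -/
theorem stBas_33 (G : CG V) (q : V → V → Prop) : G.St11Bas q where
  pos F h a ha := d_pos76 ha
  out F h a ha := d_Co_pos76 h.big.1 ha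
  outq F h a ha hq := by
    have hco := G.stCo_37 F h.big.1
    have hr : G.Reg {G.Co F} := by
      refine ⟨fun B hB => ?_, fun B hB B' hB' hne => ?_⟩
      · rw [mem_singleton] at hB
        rw [hB]
        exact hco.1
      · rw [mem_singleton] at hB hB'
        exact absurd (hB.trans hB'.symm) hne
    have hbig : ∀ B ∈ ({G.Co F} : Finset (Finset V)), 3 ≤ B.card := by
      intro B hB
      rw [mem_singleton] at hB
      rw [hB]
      exact h.big.2.2
    have hR : a ∈ R ({G.Co F} : Finset (Finset V)) := by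
      rw [mem_R76]
      intro B hB
      rw [mem_singleton] at hB
      rw [hB]
      intro h1
      exact (mem_Co76.1 h1).2 ha
    have hI : G.Co F ∈ G.I {G.Co F} a := by
      rw [mem_I76]
      refine ⟨mem_singleton_self _, ?_⟩
      rw [hco.2.1]
      exact ha
    exact hid_5 hr hbig hR (q_isTw76 h.qs hq) hI
  miss F h z hz hl := by
    have h1 := tz33 (G := G) h.c3 hz
    have h2 := G.deg z
    have h3 : (G.nb z).card ≠ 6 := hl
    omega
  missl F h z hz := by
    have h1 := tz33 (G := G) h.c3 hz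
    have h2 := G.deg z
    omega
  frag F h a ha z hz := frag33 h.big.1 (by rw [h.c3]; omega) ha hz
  twin F h z hC x hx y hy hxy hxz hyz hlx hly := by
    obtain ⟨a, ha, hz⟩ := hC
    obtain ⟨hfr, hN⟩ := frag33 h.big.1 (by rw [h.c3]; omega) ha hz
    have hzF : z ∈ F := by
      have : z ∈ G.nb a ∩ F := by rw [hz]; exact mem_singleton_self _
      exact (mem_inter.1 this).2
    have hE : F.erase z = {x, y} := by
      symm
      apply eq_of_subset_of_card_le
      · intro w hw
        rw [mem_insert, mem_singleton] at hw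
        rcases hw with rfl | rfl
        · exact mem_erase.2 ⟨hxz, hx⟩
        · exact mem_erase.2 ⟨hyz, hy⟩
      · rw [card_erase_of_mem hzF, h.c3, card_pair hxy]
    rw [hE] at hfr
    rcases two33 hxy hfr with ⟨h1, -⟩ | ⟨h1, -⟩ | ⟨t, -, h1, -⟩ | ⟨t, -, h1, -⟩
    · exact absurd h1 hlx
    · exact h1
    · exact absurd h1.2.1 hly
    · exact absurd h1.2.1 hlx

end CG

end Pool.Agent.Lib.MP_e95c01_co.N
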