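import Pool.Agent.Lib.MP_e95c01_co.T.F1_42
import Pool.Agent.Lib.MP_e95c01_co.T.F3_33

/-!
# T11, part F4: all values are nonnegative
-/

namespace Pool.Agent.Lib.MP_e95c01_co.N

open Finset

variable {V : Type} [Fintype V] [DecidableEq V]

namespace CG

variable {G : CG V} {q : V → V → Prop} {F : Finset V}

/-- a low vertex of `N F` with one neighbour in `F` has a neighbour in `N F` -/
theorem low_one42 (h : G.F3s q F) {w : V} (hw : w ∈ G.N F) (hl : G.Low w) (h1 : G.d w F = 1) :
    1 ≤ G.d w (G.N F) := by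
  by_contra hc
  have h0 : ∀ y ∈ G.N F, y ∈ G.nb w → False := by
    intro y hy hyw
    apply hc
    rw [d, Nat.succ_le_iff, card_pos]
    exact ⟨y, mem_inter.2 ⟨hyw, hy⟩⟩
  obtain ⟨x, hx⟩ := card_eq_one.1 h1
  have hx1 : x ∈ G.nb w ∩ F := by
    rw [hx]
    exact mem_singleton_self x
  rw [mem_inter] at hx1
  obtain ⟨hxw, hxF⟩ := hx1
  have hF : ∀ y ∈ F, y ∈ G.nb w → y = x := by
    intro y hy hyw
    have : y ∈ G.nb w ∩ F := mem_inter.2 ⟨hyw, hy⟩
    rwa [hx, mem_singleton] at this
  have hU : ∀ y ∈ F ∪ G.N F, y ∈ G.nb w → y = x := by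
    intro y hy hyw
    rcases mem_union.1 hy with h2 | h2
    · exact hF y h2 hyw
    · exact absurd hyw (fun h3 => h0 y h2 h3)
  have irr : ∀ y, x ∈ G.nb y → y ≠ x := by
    rintro y h2 rfl
    exact G.irr _ h2
  rcases h.cov x hxF w hw (G.sym _ _ hxw) with ⟨u, hu, -, h2, h3⟩ |
    ⟨v, hv, v', -, -, h2, -, h3, -⟩ | ⟨a, b, hL, -, h3, h4⟩ | ⟨a, b, hL, h2, h3, h4⟩ |
    ⟨a, b, hL, h4⟩
  · exact irr u h2 (hU u hu (G.sym _ _ h3))
  · exact irr v h2 (hU v hv (G.sym _ _ h3))
  · have h5 : a ∈ F ∪ G.N F := by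
      rcases h4 with h4 | h4
      · exact mem_union_left _ h4.1
      · exact mem_union_right _ h4.1
    exact irr a h3 (hU a h5 (G.sym _ _ (HL_t76 hL)))
  · have h5 : a ∈ F ∪ G.N F := by
      rcases h4 with h4 | h4 | h4
      · exact mem_union_left _ h4.1
      · exact mem_union_right _ h4.1
      · exact mem_union_right _ h4.1
    exact irr a (HL_t76 hL) (hU a h5 (G.sym _ _ h3))
  · have hbw : b ∈ G.nb w := G.sym _ _ (LL_u76 hL)
    rcases h4 with h4 | h4 | h4
    · exact (LL_tb76 hL).2 (hU b h4.2 hbw).symm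
    · exact (LL_tb76 hL).2 (hU b h4.2 hbw).symm
    · obtain ⟨ha, -, hax⟩ := h4
      have h5 := ((G.stBas_33 q).frag F h a ha x hax).2
      have haw : w ≠ a := by
        rintro rfl
        exact (LL_ua76 hL).2 rfl
      have h6 : w ∈ G.N (F.erase x) := by
        rw [h5]
        exact mem_insert_of_mem (mem_erase.2 ⟨haw, hw⟩)
      obtain ⟨-, u, hu, hwu⟩ := mem_N76.1 h6
      rw [mem_erase] at hu
      exact hu.1 (hF u hu.2 (G.sym _ _ hwu))

theorem st11V0_42 (G : CG V) (q : V → V → Prop) : G.St11V0 q := by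
  classical
  intro F h w hw
  have n9 := big_n9_42 h.big
  rw [val3, wt3]
  by_cases hl : G.Low w
  · rw [if_pos hl, tT_low42 h.qs F hl]
    have h1 := d_pos76 hw
    by_cases h2 : G.d w F = 1
    · have h3 := low_one42 h hw hl h2
      have h4 : (1 : ℤ) ≤ (G.d w (G.N F) : ℤ) := by exact_mod_cast h3
      rw [h2]
      push_cast
      linarith
    · have h3 : (2 : ℤ) ≤ (G.d w F : ℤ) := by
        have : 2 ≤ G.d w F := by omega
        exact_mod_cast this
      have h4 : (0 : ℤ) ≤ (G.d w (G.N F) : ℤ) := Int.natCast_nonneg _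
      linarith
  · by_cases ht : IsQ q w
    · rw [if_neg hl, if_pos ht]
      have hreg : G.Reg {F} := by
        refine ⟨fun B hB => ?_, fun B hB B' hB' hne => ?_⟩
        · rw [mem_singleton] at hB
          subst hB
          exact h.big.1
        · rw [mem_singleton] at hB hB'
          subst hB
          exact absurd hB'.symm hne
      have hwR : w ∈ R {F} := by
        rw [mem_R76]
        intro B hB
        rw [mem_singleton] at hB
        subst hB
        exact (mem_N76.1 hw).1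
      have hwI : F ∈ G.I {F} w := mem_I76.2 ⟨mem_singleton_self F, hw⟩
      have h3 := (stTwHL_5 G).hid {F} hreg (fun B hB => by
        rw [mem_singleton] at hB
        subst hB
        exact h.big.2.1) w hwR (q_isTw76 h.qs ht) F hwI
      have h4 : (2 : ℤ) ≤ (G.d w F : ℤ) := by exact_mod_cast h3
      have h5 : (0 : ℤ) ≤ ((G.tT q F w).card : ℤ) := Int.natCast_nonneg _
      linarith
    · rw [if_neg hl, if_neg ht, zero_mul]

end CG

end Pool.Agent.Lib.MP_e95c01_co.N
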