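import Pool.Agent.Lib.MP_e95c01_co.T.Defs76

/-!
# T11: fragments with three vertices, definitions and parts
-/

namespace Pool.Agent.Lib.MP_e95c01_co.N

open Finset

variable {V : Type} [Fintype V] [DecidableEq V] (G : CG V) (q : V → V → Prop)

namespace CG

open Classical in
/-- weight of a vertex: low 2, chosen twin 1, hub 0 -/
noncomputable def wt3 (v : V) : ℤ := if G.Low v then 2 else if IsQ q v then 1 else 0

open Classical in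
/-- neighbours of `w` in `N F`, the partner not counted -/
noncomputable def tT (F : Finset V) (w : V) : Finset V := (G.nb w ∩ G.N F).filter fun x => ¬ q w x

/-- value of a vertex of `N F` -/
noncomputable def val3 (F : Finset V) (w : V) : ℤ :=
  G.wt3 q w * (2 * (G.d w F : ℤ) + ((G.tT q F w).card : ℤ) - 3)

/-- neighbours of `z` in `N F` -/
def Tz (F : Finset V) (z : V) : Finset V := G.nb z ∩ G.N F

/-- the cover of the edge `z y`, `z ∈ F`, `y ∈ N F`, seen from `z`; the covers with `b` in `Co F` are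
crossing -/
def CvF (F : Finset V) (z y : V) : Prop :=
  (∃ w ∈ F ∪ G.N F, G.Low w ∧ z ∈ G.nb w ∧ y ∈ G.nb w) ∨
  (∃ v ∈ F ∪ G.N F, ∃ w ∈ F ∪ G.N F, q v w ∧ z ∈ G.nb v ∧ z ∈ G.nb w ∧ y ∈ G.nb v ∧ y ∈ G.nb w) ∨
  (∃ a b, G.HL a b y ∧ z ∈ G.nb b ∧ z ∈ G.nb a ∧ ((a ∈ F ∧ b ∈ F) ∨ (a ∈ G.N F ∧ b ∈ G.N F))) ∨
  (∃ a b, G.HL a b z ∧ y ∈ G.nb b ∧ y ∈ G.nb a ∧ ((a ∈ F ∧ b ∈ F) ∨ (a ∈ G.N F ∧ b ∈ G.N F) ∨
    (a ∈ G.N F ∧ b ∈ G.Co F ∧ G.nb a ∩ F = {z}))) ∨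
  (∃ a b, G.LL a b z y ∧ ((a ∈ F ∧ b ∈ F ∪ G.N F) ∨ (a ∈ G.N F ∧ b ∈ F ∪ G.N F) ∨
    (a ∈ G.N F ∧ b ∈ G.Co F ∧ G.nb a ∩ F = {z})))

/-- the situation in T11 -/
structure F3s (F : Finset V) : Prop where
  qs : G.QS q
  sat : G.Sat
  big : G.Big F
  c3 : F.card = 3
  n12 : 12 ≤ Fintype.card V
  cov : ∀ z ∈ F, ∀ y ∈ G.N F, y ∈ G.nb z → G.CvF q F z y

/-- some vertex of `N F` has exactly the neighbour `z` in `F` -/
def Cr (F : Finset V) (z : V) : Prop := ∃ a ∈ G.N F, G.nb a ∩ F = {z}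

/-! ## Parts -/

/-- F1: the covers -/
def St11Cov : Prop := G.QS q → G.Sat → ∀ F, G.Big F → F.card = 3 →
  (∀ z ∈ F, ∀ v ∈ G.nb z, v ∉ F → G.SCov z v) → G.F3s q F

/-- F2: the functional -/
def St11P : Prop := G.QS q → ∀ F, G.Big F → F.card = 3 →
  12 * (G.l F : ℤ) + 6 * (qcard q F : ℤ) - 24 + ∑ w ∈ G.N F, G.val3 q F w ≤ G.P3 q F

/-- F3: basic facts. If the only neighbour of `a` in `F` is `z`, then `F \ {z}` is a fragment whose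
neighbourhood is `z` and `N F` without `a`. -/
structure St11Bas : Prop where
  pos : ∀ F, G.F3s q F → ∀ a ∈ G.N F, 1 ≤ G.d a F
  out : ∀ F, G.F3s q F → ∀ a ∈ G.N F, 1 ≤ G.d a (G.Co F)
  outq : ∀ F, G.F3s q F → ∀ a ∈ G.N F, IsQ q a → 2 ≤ G.d a (G.Co F)
  /-- a vertex of `F` that is not low misses at most one vertex of `N F` -/
  miss : ∀ F, G.F3s q F → ∀ z ∈ F, ¬ G.Low z → 5 ≤ (G.Tz F z).card
  missl : ∀ F, G.F3s q F → ∀ z ∈ F, 4 ≤ (G.Tz F z).card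
  frag : ∀ F, G.F3s q F → ∀ a ∈ G.N F, ∀ z, G.nb a ∩ F = {z} →
    G.Frag (F.erase z) ∧ G.N (F.erase z) = insert z ((G.N F).erase a)
  /-- two hubs in `F \ {z}` are unchosen twins -/
  twin : ∀ F, G.F3s q F → ∀ z, G.Cr F z → ∀ x ∈ F, ∀ y ∈ F, x ≠ y → x ≠ z → y ≠ z →
    ¬ G.Low x → ¬ G.Low y → G.Tw x y

/-- F4: all values are nonnegative; two classes in `F` -/
def St11V0 : Prop := ∀ F, G.F3s q F → (∀ w ∈ G.N F, 0 ≤ G.val3 q F w)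

/-- F5: counting lemma: `S` in `N F`; every `y` of `S` has a class neighbour in `S`, or is the third
vertex of an `HL` in `S`, or there is an `LL` with one vertex in `S` and one in `N F \ S` -/
def St11Cnt : Prop := ∀ F, G.F3s q F → ∀ S ⊆ G.N F, (∀ v w, q v w → v ∈ S → w ∈ S) →
  ∀ z, (∀ y ∈ S,
    (∃ w ∈ S, G.Low w ∧ y ∈ G.nb w) ∨ (∃ v ∈ S, ∃ w ∈ S, q v w ∧ y ∈ G.nb v ∧ y ∈ G.nb w) ∨
    (∃ a ∈ S, ∃ b ∈ S, G.HL a b y) ∨ (∃ a ∈ S, ∃ b ∈ G.N F \ S, G.LL a b z y)) →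
  2 * (S.card : ℤ) ≤ ∑ w ∈ S, G.wt3 q w * ((G.tT q F w).card : ℤ) ∧
  ((∀ y ∈ S, ∀ a ∈ S, ∀ b ∈ G.N F \ S, ¬ G.LL a b z y) →
    2 * (S.card : ℤ) ≤ ∑ w ∈ S, G.wt3 q w * ((G.tT q F w ∩ S).card : ℤ))

/-- F6: no class in `F`, some vertex of `N F` with one neighbour in `F` -/
def St11X : Prop := ∀ F, G.F3s q F → (∀ z ∈ F, G.HubQ q z) → (∃ z, G.Cr F z) →
  24 ≤ ∑ w ∈ G.N F, G.val3 q F w

/-- F7: no class in `F`, no such vertex -/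
def St11Y : Prop := ∀ F, G.F3s q F → (∀ z ∈ F, G.HubQ q z) → (∀ z, ¬ G.Cr F z) →
  24 ≤ ∑ w ∈ G.N F, G.val3 q F w

/-- F8: a chosen pair and a hub in `F` -/
def St11Q : Prop := ∀ F, G.F3s q F → ∀ v w z, F = {v, w, z} → q v w → z ≠ v → z ≠ w →
  G.HubQ q z → 12 ≤ ∑ w ∈ G.N F, G.val3 q F w

/-- F9: a low vertex and two hubs in `F` -/
def St11L : Prop := ∀ F, G.F3s q F → ∀ u z z', F = {u, z, z'} → G.Low u → u ≠ z → u ≠ z' →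
  z ≠ z' → G.HubQ q z → G.HubQ q z' → 12 ≤ ∑ w ∈ G.N F, G.val3 q F w

end CG

end Pool.Agent.Lib.MP_e95c01_co.N
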