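import Pool.Agent.Lib.MP_e95c01_co.T.StGen3_12
import Pool.Agent.Lib.MP_e95c01_co.N.Basic37

/-!
# T7: capacity of low vertices.  helper12
-/

namespace Pool.Agent.Lib.MP_e95c01_co.N

open Finset

variable {V : Type} [Fintype V] [DecidableEq V]

namespace CG

namespace Cap12

variable {G : CG V} {q : V → V → Prop} {Fa : Finset (Finset V)}


theorem mem_cl' {v x : V} : x ∈ G.cl v ↔ x = v ∨ x ∈ G.nb v := by
  rw [cl, mem_insert]

theorem LL_mem {a b t u y : V} (h : G.LL a b t u) (hy : y ∈ G.nb a) (h1 : y ≠ t) (h2 : y ≠ b) :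
    y ∈ G.nb b := by
  obtain ⟨-, -, -, -, -, -, h7⟩ := h
  have h3 : y ∈ insert t (G.cl b) := by
    rw [← h7]
    exact mem_insert_of_mem (mem_cl'.2 (Or.inr hy))
  rw [mem_insert, mem_cl'] at h3
  tauto

theorem LL_mem' {a b t u y : V} (h : G.LL a b t u) (hy : y ∈ G.nb b) (h1 : y ≠ u) (h2 : y ≠ a) :
    y ∈ G.nb a := by
  obtain ⟨-, -, -, -, -, -, h7⟩ := h
  have h3 : y ∈ insert u (G.cl a) := by
    rw [h7]
    exact mem_insert_of_mem (mem_cl'.2 (Or.inr hy))
  rw [mem_insert, mem_cl'] at h3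
  tauto

theorem LL_u {a b t u : V} (h : G.LL a b t u) : u ∈ G.nb b := by
  have h0 := h
  obtain ⟨-, -, h3, h4, -, h6, h7⟩ := h
  have h8 : u ∈ insert t (G.cl b) := by
    rw [← h7]
    exact mem_insert_self _ _
  rw [mem_insert, mem_cl'] at h8
  rcases h8 with h8 | h8 | h8
  · exact absurd h8.symm h4
  · exfalso
    subst h8
    exact h6 (mem_cl'.2 (Or.inr h3))
  · exact h8

/-- ends of `LL` inside `R` -/
theorem LL_I {a b t u : V} (h : G.LL a b t u) (ha : a ∈ R Fa) (hb : b ∈ R Fa) (ht : t ∈ R Fa)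
    (hu : u ∈ R Fa) : G.I Fa a = G.I Fa b := by
  apply Subset.antisymm
  · intro B hB
    obtain ⟨hF, hN⟩ := mem_I76.1 hB
    obtain ⟨-, x, hx, hax⟩ := mem_N76.1 hN
    have h1 : x ∈ G.nb a := G.sym _ _ hax
    have h2 : x ≠ t := fun h => mem_R76.1 ht B hF (h ▸ hx)
    have h3 : x ≠ b := fun h => mem_R76.1 hb B hF (h ▸ hx)
    exact I_of_nb76 hb hF (LL_mem h h1 h2 h3) hx
  · intro B hB
    obtain ⟨hF, hN⟩ := mem_I76.1 hB
    obtain ⟨-, x, hx, hax⟩ := mem_N76.1 hN
    have h1 : x ∈ G.nb b := G.sym _ _ hax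
    have h2 : x ≠ u := fun h => mem_R76.1 hu B hF (h ▸ hx)
    have h3 : x ≠ a := fun h => mem_R76.1 ha B hF (h ▸ hx)
    exact I_of_nb76 ha hF (LL_mem' h h1 h2 h3) hx

/-- the two types of claimants -/
theorem typ (h7 : G.StTwHL) (hN : G.StNd3 q) (hq : G.QS q) (g : G.Gen3 q Fa) {l z : V}
    (h : G.CLL q Fa l z) : ∃ B, G.I Fa z = {B} ∧ B ∈ G.I Fa l ∧ z ∈ R Fa ∧ G.Low z ∧
    (G.nb z ∩ G.Co B).card = 2 ∧ (∀ x ∈ G.nb z ∩ G.Co B, G.I Fa x = ∅) ∧
    ((z ∈ G.nb l ∧ (∀ y ∈ G.nR Fa z, G.Low y → y = l) ∧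
        ∀ x ∈ G.nb z ∩ G.Co B, x ∈ G.nb l ∨ ∃ v ∈ R Fa, G.LL l v z x) ∨
      (z ∉ G.nb l ∧ ∃ a ∈ R Fa, G.HL a l z ∧ G.I Fa a = G.I Fa l ∧
        ∀ x ∈ G.nb z ∩ G.Co B, x ∈ G.nb l)) := by
  have t := g.tor
  obtain ⟨hn, hll, hlR, hX0, hor⟩ := h
  have hn' := hn
  obtain ⟨hz, hzl, B, hB, hd, hs⟩ := hn'
  have hyp : ∀ y ∈ G.nb z, IsQ q y → G.I Fa y = {B} → 3 ≤ ((G.nb y ∪ G.nb z) ∩ G.Co B).card := by
    intro y _ hy hIy
    have hyR : y ∈ R Fa := N_sub_R76 t.reg (Gen12.sing hIy).1 (Gen12.sing hIy).2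
    refine (g.hq y hyR B hIy hy).trans (card_le_card ?_)
    exact inter_subset_inter_right subset_union_left
  have hX1 := hX0 B hB
  rcases hN hq Fa t z hn B hB hyp with h | h
  · obtain ⟨l', hl'R, hll', hBl, huni, -, hHL, hx⟩ := h
    have e : l = l' := by
      rcases hor with h1 | ⟨a, ha, h1⟩
      · exact huni l (mem_nR76.2 ⟨h1, hlR⟩) hll
      · exact absurd ⟨l, h1⟩ (hHL a ha)
    subst e
    refine ⟨B, hB, hBl, hz, hzl, hd, hX1, Or.inl ⟨G.sym _ _ (mem_nR76.1 hl'R).1, huni, ?_⟩⟩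
    intro x hx1
    exact (hx x hx1).2
  · obtain ⟨a, ha, b, hb, hHL, hBa, hIab, hhub, huni, hx⟩ := h
    have hnl : z ∉ G.nb l := by
      intro h1
      exact (hhub l (mem_nR76.2 ⟨G.sym _ _ h1, hlR⟩)).1 hll
    obtain ⟨a', ha', h1⟩ : ∃ a ∈ G.nR Fa z, G.HL a l z := by
      rcases hor with h1 | h1
      · exact absurd (G.sym _ _ h1) hnl
      · exact h1
    have e := huni a' ha' ⟨l, h1⟩
    subst e
    have haR := (mem_nR76.1 ha').2
    have hI := h7.hlI Fa t.reg a' haR l hlR z hz h1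
    refine ⟨B, hB, hI ▸ hBa, hz, hzl, hd, hX1, Or.inr ⟨hnl, a', haR, h1, hI, ?_⟩⟩
    intro x hx1
    have h2 := (hx x hx1).2
    have h3 : x ∈ G.cl a' := by
      rw [hHL.2.2.2.2]
      exact mem_insert_of_mem (mem_cl'.2 (Or.inr h2))
    rw [h1.2.2.2.2, mem_insert, mem_cl'] at h3
    rcases h3 with h3 | h3 | h3
    · exfalso
      rw [h3] at hx1
      exact G.irr _ (mem_inter.1 hx1).1
    · exfalso
      rw [h3] at hx1
      exact hnl (G.sym _ _ (mem_inter.1 hx1).1)
    · exact h3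

theorem HL_notLow {a b t : V} (h : G.HL a b t) : ¬ G.Low a := by
  intro h1
  have h2 : (G.nb a).card = 6 := h1
  have := h.1
  omega

/-- `FL (Co B) l` and the members of `nb l` in `N B` -/
theorem FL_Co (g : G.Gen3 q Fa) {B : Finset V} (hB : B ∈ Fa) {l : V} (h : G.FL (G.Co B) l) :
    ∃ a b, G.HL a b l ∧ G.nb l ∩ G.N B = {a} ∧ G.d l (G.Co B) = 4 := by
  obtain ⟨-, -, hd, a, b, h1, -, -, h4⟩ := h
  rw [(G.stCo_37 B (g.tor.reg.frag B hB)).2.1] at h4
  exact ⟨a, b, h1, h4, hd⟩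

/-- some vertex is in no neighbourhood -/
theorem exX {z B} (hz : z ∈ R Fa) (hI : G.I Fa z = {B}) (hc : (G.nb z ∩ G.Co B).card = 2)
    (h0 : ∀ x ∈ G.nb z ∩ G.Co B, G.I Fa x = ∅) : ¬ ∀ x ∈ R Fa, G.I Fa x ≠ ∅ := by
  intro h
  have h1 : (G.nb z ∩ G.Co B).Nonempty := by
    rw [← card_pos]
    omega
  obtain ⟨x, hx⟩ := h1
  exact h x (mem_nR76.1 (nR_Co5 hz hI hx)).2 (h0 x hx)

open Classical in
/-- one neighbourhood, a claimant with `HL` -/
theorem capA (h7 : G.StTwHL) (hC : G.StCh3 q) (hL : G.StLow3 q) (hN : G.StNd3 q) (hq : G.QS q)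
    (g : G.Gen3 q Fa) {l : V} (hl : l ∈ R Fa) (hll : G.Low l) {B : Finset V}
    (hI : G.I Fa l = {B}) {z : V} (hz : G.CLL q Fa l z) (hzl : z ∉ G.nb l) :
    2 * ((univ.filter fun z => G.CLL q Fa l z).card : ℤ) ≤ G.ch3 q Fa l := by
  have t := g.tor
  obtain ⟨hBF, hlN⟩ := Gen12.sing hI
  obtain ⟨B1, hB1, hB1l, hzR, hzlow, hzc, hz0, hty⟩ := typ h7 hN hq g hz
  rw [hI, mem_singleton] at hB1l
  subst hB1l
  rcases hty with ⟨h, -⟩ | ⟨-, a, haR, hHL, hIa, hXz⟩
  · exact absurd h hzl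
  rw [hI] at hIa
  have haN := (Gen12.sing hIa).2
  have hzN := (Gen12.sing hB1).2
  have hla : l ∈ G.nb a := hHL.2.2.1
  have hal : a ∈ G.nb l := G.sym _ _ hla
  have hza : z ∈ G.nb a := HL_nb5 hHL
  -- four neighbours on the other side
  have h4 : 4 ≤ (G.nb l ∩ G.Co B1).card := by
    rcases g.h3 with h | h
    · exact absurd h (exX hzR hB1 hzc hz0)
    · refine (h l hl a haR z hzR B1 hI hIa hB1 ?_ ?_ ?_).trans (card_le_card ?_)
      · rintro rfl
        exact G.irr _ hla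
      · rintro rfl
        exact hHL.2.2.2.1 (mem_cl'.2 (Or.inl rfl))
      · rintro rfl
        exact G.irr _ hza
      · intro y hy
        obtain ⟨hy1, hy2⟩ := mem_inter.1 hy
        rw [mem_union, mem_union] at hy1
        refine mem_inter.2 ⟨?_, hy2⟩
        rcases hy1 with (hy1 | hy1) | hy1
        · exact hy1
        · have h3 : y ∈ G.cl a := mem_cl'.2 (Or.inr hy1)
          rw [hHL.2.2.2.2, mem_insert, mem_cl'] at h3
          rcases h3 with h3 | h3 | h3
          · exact absurd (h3 ▸ hzN) (mem_Co76.1 hy2).2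
          · exact absurd (h3 ▸ hlN) (mem_Co76.1 hy2).2
          · exact h3
        · exact hXz y (mem_inter.2 ⟨hy1, hy2⟩)
  obtain ⟨-, x, hx, hlx⟩ := mem_N76.1 hlN
  have hxl : x ∈ G.nb l := G.sym _ _ hlx
  have hsub : insert a (insert x (G.nb l ∩ G.Co B1)) ⊆ G.nb l := by
    intro y hy
    rw [mem_insert, mem_insert, mem_inter] at hy
    rcases hy with rfl | rfl | hy
    · exact hal
    · exact hxl
    · exact hy.1
  have hx1 : x ∉ G.nb l ∩ G.Co B1 := fun h => (mem_Co76.1 (mem_inter.1 h).2).1 hx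
  have ha1 : a ∉ insert x (G.nb l ∩ G.Co B1) := by
    rw [mem_insert, mem_inter]
    rintro (h | h)
    · exact mem_R76.1 haR B1 hBF (h ▸ hx)
    · exact (mem_Co76.1 h.2).2 haN
  have hcard := card_insert_of_notMem ha1
  rw [card_insert_of_notMem hx1] at hcard
  have hll' : (G.nb l).card = 6 := hll
  have heq : insert a (insert x (G.nb l ∩ G.Co B1)) = G.nb l :=
    eq_of_subset_of_card_le hsub (by omega)
  have hcard4 : (G.nb l ∩ G.Co B1).card = 4 := by
    have := congrArg card heq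
    omega
  have hNB : ∀ w ∈ G.nb l, w ∈ G.N B1 → w = a := by
    intro w hw hwN
    rw [← heq, mem_insert, mem_insert, mem_inter] at hw
    rcases hw with h | h | h
    · exact h
    · exact absurd hx (h ▸ (mem_N76.1 hwN).1)
    · exact absurd hwN (mem_Co76.1 h.2).2
  -- only one claimant
  have hone : (univ.filter fun z => G.CLL q Fa l z).card ≤ 1 := by
    rw [card_le_one]
    have key : ∀ w, G.CLL q Fa l w → w = z := by
      intro w hw
      obtain ⟨B2, hB2, hB2l, hwR, hwlow, hwc, hw0, hty⟩ := typ h7 hN hq g hw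
      rw [hI, mem_singleton] at hB2l
      subst hB2l
      rcases hty with ⟨h, -⟩ | ⟨hwl, a', ha'R, hHL', hIa', -⟩
      · exfalso
        have := hNB w h (Gen12.sing hB2).2
        subst this
        exact HL_notLow hHL hwlow
      · rw [hI] at hIa'
        have e := hNB a' (G.sym _ _ hHL'.2.2.1) (Gen12.sing hIa').2
        subst e
        have h1 : w ∈ G.cl a' := mem_cl'.2 (Or.inr (HL_nb5 hHL'))
        rw [hHL.2.2.2.2, mem_insert] at h1
        rcases h1 with h1 | h1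
        · exact h1
        · exact absurd h1 hHL'.2.2.2.1
    intro w1 hw1 w2 hw2
    rw [key w1 (mem_filter.1 hw1).2, key w2 (mem_filter.1 hw2).2]
  -- no flag
  have hnf : ¬ G.FL (G.Co B1) l := by
    intro h
    obtain ⟨a', b', h1, h2, -⟩ := FL_Co g hBF h
    have h3 : a' ∈ G.nb l ∩ G.N B1 := by
      rw [h2]
      exact mem_singleton_self _
    have e := hNB a' (mem_inter.1 h3).1 (mem_inter.1 h3).2
    subst e
    exact h7.nomut t.n9 a' b' l l z h1 hHL rfl
  have hc := (((hC hq t.n9 Fa t.reg t.big l hl).1 hll).2.1) B1 hI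
  have hs := ((hL hq Fa t l hl).1 hll).2 B1 hI (by unfold d; omega)
  rw [if_neg hnf] at hc
  have h5 : (0 : ℤ) ≤ if G.FL B1 l then 2 else 0 := by split_ifs <;> norm_num
  have h6 : G.d l (G.Co B1) = 4 := hcard4
  rw [h6] at hc
  have h8 : (2 : ℤ) ≤ 2 * (G.tl Fa l : ℤ) + (G.tq q Fa l : ℤ) + 2 * (G.tA Fa l : ℤ) := by
    exact_mod_cast hs
  have h9 : ((univ.filter fun z => G.CLL q Fa l z).card : ℤ) ≤ 1 := by exact_mod_cast hone
  push_cast at hc
  linarith

open Classical in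
/-- one neighbourhood, all claimants adjacent to `l` -/
theorem capB (h7 : G.StTwHL) (hC : G.StCh3 q) (hL : G.StLow3 q) (hN : G.StNd3 q) (hq : G.QS q)
    (g : G.Gen3 q Fa) {l : V} (hl : l ∈ R Fa) (hll : G.Low l) {B : Finset V}
    (hI : G.I Fa l = {B}) {z : V} (hz : G.CLL q Fa l z)
    (hall : ∀ w, G.CLL q Fa l w → w ∈ G.nb l) :
    2 * ((univ.filter fun z => G.CLL q Fa l z).card : ℤ) ≤ G.ch3 q Fa l := by
  have t := g.tor
  obtain ⟨hBF, hlN⟩ := Gen12.sing hI
  have hlow6 : (G.nb l).card = 6 := hll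
  -- the claimants
  have hty : ∀ w, G.CLL q Fa l w → G.I Fa w = {B} ∧ w ∈ R Fa ∧ G.Low w ∧
      (G.nb w ∩ G.Co B).card = 2 ∧ (∀ x ∈ G.nb w ∩ G.Co B, G.I Fa x = ∅) ∧ w ∈ G.nb l ∧
      (∀ y ∈ G.nR Fa w, G.Low y → y = l) ∧
      ∀ x ∈ G.nb w ∩ G.Co B, x ∈ G.nb l ∨ ∃ v ∈ R Fa, G.LL l v w x := by
    intro w hw
    obtain ⟨B1, hB1, hB1l, hzR, hzlow, hzc, hz0, hty⟩ := typ h7 hN hq g hw
    rw [hI, mem_singleton] at hB1l
    subst hB1l
    rcases hty with ⟨h1, h2, h3⟩ | ⟨h1, -⟩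
    · exact ⟨hB1, hzR, hzlow, hzc, hz0, h1, h2, h3⟩
    · exact absurd (hall w hw) h1
  obtain ⟨hzI, hzR, hzlow, hzc, hz0, hzl, hzu, hzX⟩ := hty z hz
  have hzN := (Gen12.sing hzI).2
  have h3 : ∀ x ∈ R Fa, ∀ y ∈ R Fa, ∀ z ∈ R Fa, ∀ B,
      G.I Fa x = {B} → G.I Fa y = {B} → G.I Fa z = {B} → x ≠ y → x ≠ z → y ≠ z →
      4 ≤ ((G.nb x ∪ G.nb y ∪ G.nb z) ∩ G.Co B).card := by
    rcases g.h3 with h | h
    · exact absurd h (exX hzR hzI hzc hz0)
    · exact h
  set C := univ.filter fun z => G.CLL q Fa l z with hCd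
  set D := (G.nR Fa l).filter fun x => G.Low x with hDd
  have hCD : C ⊆ D := by
    intro w hw
    obtain ⟨-, h1, h2, -, -, h4, -⟩ := hty w (mem_filter.1 hw).2
    exact mem_filter.2 ⟨mem_nR76.2 ⟨h4, h1⟩, h2⟩
  have htl : D.card = G.tl Fa l := rfl
  have hle := card_le_card hCD
  -- no flag
  have hnf : ¬ G.FL (G.Co B) l := by
    intro h
    obtain ⟨a', b', h1, h2, -⟩ := FL_Co g hBF h
    have h3 : z ∈ G.nb l ∩ G.N B := mem_inter.2 ⟨hzl, hzN⟩
    rw [h2, mem_singleton] at h3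
    subst h3
    exact HL_notLow h1 hzlow
  have hc := (((hC hq t.n9 Fa t.reg t.big l hl).1 hll).2.1) B hI
  rw [if_neg hnf] at hc
  have hr := g.h1 l hl B hI
  obtain ⟨-, -, hev⟩ := hL hq Fa t l hl
  have h5 : (0 : ℤ) ≤ if G.FL B l then 2 else 0 := by split_ifs <;> norm_num
  -- neighbours on the other side
  have hXN : ∀ {x w : V}, x ∈ G.Co B → w ∈ G.N B → x ≠ w := by
    rintro x w h1 h2 rfl
    exact (mem_Co76.1 h1).2 h2
  -- `LL l v w x`
  have hLL : ∀ v ∈ R Fa, ∀ w x, G.CLL q Fa l w → x ∈ G.nb w ∩ G.Co B → G.LL l v w x →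
      G.I Fa v = {B} ∧ v ∈ D ∧ v ≠ w ∧ x ∈ G.nb v ∧ x ∉ G.nb l ∧
      (∀ y ∈ G.nb l ∩ G.Co B, y ∈ G.nb v) ∧ ∀ y ∈ G.nb v ∩ G.Co B, y = x ∨ y ∈ G.nb l := by
    intro v hv w x hw hx h
    obtain ⟨hwI, hwR, -⟩ := hty w hw
    have hxR := (mem_nR76.1 (nR_Co5 hwR hwI hx)).2
    have hvI : G.I Fa v = {B} := by rw [← hI]; exact (LL_I h hl hv hwR hxR).symm
    have hvN := (Gen12.sing hvI).2
    have hwN := (Gen12.sing hwI).2
    refine ⟨hvI, mem_filter.2 ⟨mem_nR76.2 ⟨h.2.2.1, hv⟩, h.2.1⟩, ?_, LL_u h, ?_, ?_, ?_⟩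
    · rintro rfl
      exact h.2.2.2.2.1 (mem_cl'.2 (Or.inl rfl))
    · intro h1
      exact h.2.2.2.2.2.1 (mem_cl'.2 (Or.inr h1))
    · intro y hy
      obtain ⟨h1, h2⟩ := mem_inter.1 hy
      exact LL_mem h h1 (hXN h2 hwN) (hXN h2 hvN)
    · intro y hy
      obtain ⟨h1, h2⟩ := mem_inter.1 hy
      by_cases h3 : y = x
      · exact Or.inl h3
      · exact Or.inr (LL_mem' h h1 h3 (hXN h2 hlN))
  rcases Nat.lt_or_ge (G.d l (G.Co B)) 4 with hr4 | hr4
  swap
  · -- four neighbours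
    have h6 : (C.card : ℤ) ≤ G.tl Fa l := by
      rw [← htl]
      exact_mod_cast hle
    have h8 : (4 : ℤ) ≤ G.d l (G.Co B) := by exact_mod_cast hr4
    have h9 : (0 : ℤ) ≤ G.tq q Fa l := Int.natCast_nonneg _
    have h10 : (0 : ℤ) ≤ G.tA Fa l := Int.natCast_nonneg _
    linarith
  rcases Nat.lt_or_ge (G.d l (G.Co B)) 3 with hr3 | hr3
  · -- two neighbours
    have hr2 : G.d l (G.Co B) = 2 := by omega
    have hXl : (G.nb l ∩ G.Co B).card = 2 := hr2
    have hzl' : z ≠ l := by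
      rintro rfl
      exact G.irr _ hzl
    have h2 := g.h2 z hzR l hl B hzI hI hzl'
    obtain ⟨x, hx, hxl⟩ : ∃ x ∈ G.nb z ∩ G.Co B, x ∉ G.nb l := by
      by_contra hcon
      push Not at hcon
      have h4 : (G.nb z ∪ G.nb l) ∩ G.Co B ⊆ G.nb l ∩ G.Co B := by
        intro y hy
        obtain ⟨h5, h6⟩ := mem_inter.1 hy
        rcases mem_union.1 h5 with h7 | h7
        · exact mem_inter.2 ⟨hcon y (mem_inter.2 ⟨h7, h6⟩), h6⟩
        · exact mem_inter.2 ⟨h7, h6⟩
      have := card_le_card h4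
      omega
    obtain ⟨v, hv, hLv⟩ : ∃ v ∈ R Fa, G.LL l v z x := by
      rcases hzX x hx with h | h
      · exact absurd h hxl
      · exact h
    obtain ⟨hvI, hvD, hvz, hxv, -, hXv1, hXv2⟩ := hLL v hv z x hz hx hLv
    have hlv : l ≠ v := ne_of_nb5 (mem_nR76.1 (mem_filter.1 hvD).1).1
    -- a second vertex
    obtain ⟨x', hx', hx'l, hne⟩ : ∃ x' ∈ G.nb z ∩ G.Co B, x' ∉ G.nb l ∧ x' ≠ x := by
      by_contra hcon
      push Not at hcon
      have h4 : (G.nb z ∪ G.nb l ∪ G.nb v) ∩ G.Co B ⊆ insert x (G.nb l ∩ G.Co B) := by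
        intro y hy
        obtain ⟨h5, h6⟩ := mem_inter.1 hy
        rw [mem_union, mem_union] at h5
        rw [mem_insert, mem_inter]
        by_cases h8 : y ∈ G.nb l
        · exact Or.inr ⟨h8, h6⟩
        · rcases h5 with (h9 | h9) | h9
          · exact Or.inl (hcon y (mem_inter.2 ⟨h9, h6⟩) h8)
          · exact absurd h9 h8
          · rcases hXv2 y (mem_inter.2 ⟨h9, h6⟩) with h10 | h10
            · exact Or.inl h10
            · exact absurd h10 h8
      have h5 := h3 z hzR l hl v hv B hzI hI hvI hzl' (Ne.symm hvz) hlv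
      have h6 := card_le_card h4
      have h8 := card_insert_le x (G.nb l ∩ G.Co B)
      omega
    obtain ⟨v', hv', hLv'⟩ : ∃ v ∈ R Fa, G.LL l v z x' := by
      rcases hzX x' hx' with h | h
      · exact absurd h hx'l
      · exact h
    obtain ⟨hv'I, hv'D, hv'z, hxv', -, hXv1', hXv2'⟩ := hLL v' hv' z x' hz hx' hLv'
    have hvv' : v ≠ v' := by
      rintro rfl
      rcases hXv2 x' (mem_inter.2 ⟨hxv', (mem_inter.1 hx').2⟩) with h | h
      · exact hne h
      · exact hx'l h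
    have hzD : z ∈ D := mem_filter.2 ⟨mem_nR76.2 ⟨hzl, hzR⟩, hzlow⟩
    have htl3 : 3 ≤ G.tl Fa l := by
      rw [← htl]
      have h4 : ({z, v, v'} : Finset V) ⊆ D := by
        intro y hy
        rw [mem_insert, mem_insert, mem_singleton] at hy
        rcases hy with rfl | rfl | rfl
        · exact hzD
        · exact hvD
        · exact hv'D
      have h5 := card_le_card h4
      rw [card_insert_of_notMem (by
        rw [mem_insert, mem_singleton]
        rintro (h | h)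
        · exact hvz h.symm
        · exact hv'z h.symm), card_pair hvv'] at h5
      exact h5
    have hXv : 3 ≤ (G.nb v ∩ G.Co B).card := by
      have h4 : insert x (G.nb l ∩ G.Co B) ⊆ G.nb v ∩ G.Co B := by
        intro y hy
        rw [mem_insert] at hy
        rcases hy with rfl | hy
        · exact mem_inter.2 ⟨hxv, (mem_inter.1 hx).2⟩
        · exact mem_inter.2 ⟨hXv1 y hy, (mem_inter.1 hy).2⟩
      have h5 := card_le_card h4
      rw [card_insert_of_notMem (fun h => hxl (mem_inter.1 h).1)] at h5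
      omega
    have hone : C.card ≤ 1 := by
      rw [card_le_one]
      have key : ∀ w, G.CLL q Fa l w → w = z := by
        intro w hw
        obtain ⟨hwI, hwR, hwlow, hwc, hw0, hwl, hwu, hwX⟩ := hty w hw
        by_contra hwz
        by_cases hwv : w = v
        · subst hwv
          omega
        · have h4 : w ∈ G.nb v := LL_mem hLv hwl hwz hwv
          have h5 := hwu v (mem_nR76.2 ⟨G.sym _ _ h4, hv⟩) hLv.2.1
          exact hlv h5.symm
      intro w1 hw1 w2 hw2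
      rw [key w1 (mem_filter.1 hw1).2, key w2 (mem_filter.1 hw2).2]
    rw [hr2] at hc
    have h6 : (C.card : ℤ) ≤ 1 := by exact_mod_cast hone
    have h8 : (3 : ℤ) ≤ G.tl Fa l := by exact_mod_cast htl3
    have h9 : (0 : ℤ) ≤ G.tq q Fa l := Int.natCast_nonneg _
    have h10 : (0 : ℤ) ≤ G.tA Fa l := Int.natCast_nonneg _
    push_cast at hc
    linarith
  · -- three neighbours
    have hr3' : G.d l (G.Co B) = 3 := by omega
    have hXl : (G.nb l ∩ G.Co B).card = 3 := hr3'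
    by_contra hcon
    push Not at hcon
    rw [hr3'] at hc
    obtain ⟨e, he⟩ := hev
    push_cast at hc
    have hle' : C.card ≤ G.tl Fa l := hle
    have hb1 : G.tl Fa l = C.card := by omega
    have hb2 : G.tq q Fa l = 0 := by omega
    have hb3 : G.tA Fa l = 0 := by omega
    have hDC : C = D := eq_of_subset_of_card_le hCD (by omega)
    have hD : ∀ w ∈ R Fa, w ∈ G.nb l → G.Low w → G.CLL q Fa l w := by
      intro w h1 h2 h4
      have : w ∈ D := mem_filter.2 ⟨mem_nR76.2 ⟨h2, h1⟩, h4⟩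
      rw [← hDC] at this
      exact (mem_filter.1 this).2
    -- no `LL`
    have hsubX : ∀ w, G.CLL q Fa l w → ∀ x ∈ G.nb w ∩ G.Co B, x ∈ G.nb l := by
      intro w hw x hx
      rcases (hty w hw).2.2.2.2.2.2.2 x hx with h | ⟨v, hv, h⟩
      · exact h
      · exfalso
        obtain ⟨hvI, hvD, hvz, hxv, -, hXv1, -⟩ := hLL v hv w x hw hx h
        have hvC : G.CLL q Fa l v := by
          rw [← hDC] at hvD
          exact (mem_filter.1 hvD).2
        have h4 := (hty v hvC).2.2.2.1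
        have h6 : G.nb l ∩ G.Co B ⊆ G.nb v ∩ G.Co B := fun y hy =>
          mem_inter.2 ⟨hXv1 y hy, (mem_inter.1 hy).2⟩
        have := card_le_card h6
        omega
    -- covers
    have hcov : ∀ y ∈ G.nb l ∩ G.Co B, ∃ w, G.CLL q Fa l w ∧ y ∈ G.nb w := by
      intro y hy
      have hyR := (mem_nR76.1 (nR_Co5 hl hI hy)).2
      obtain ⟨hyl, hyC⟩ := mem_inter.1 hy
      rcases t.cov l hl y hyR hyl (m_Co5 hI hyC) with h | h | h | h | h
      · obtain ⟨w, hw, h1, h2, h4⟩ := h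
        exact ⟨w, hD w hw (G.sym _ _ h2) h1, h4⟩
      · exfalso
        obtain ⟨v, hv, w, hw, h1, h2, h4, h6, h8⟩ := h
        have hnq : ¬ q l v := by
          intro h9
          have h10 := (hq.tw l v h9).2.1
          omega
        have : v ∈ (G.nR Fa l).filter fun x => IsQ q x ∧ ¬ q l x :=
          mem_filter.2 ⟨mem_nR76.2 ⟨G.sym _ _ h2, hv⟩, ⟨w, h1⟩, hnq⟩
        have h11 : 0 < G.tq q Fa l := by
          unfold tq
          exact card_pos.2 ⟨v, this⟩
        omega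
      · exfalso
        obtain ⟨a, ha, b, hb, h1, h2, h4⟩ := h
        have : a ∈ (G.nR Fa l).filter fun x => ∃ b, G.HL x b l :=
          mem_filter.2 ⟨mem_nR76.2 ⟨G.sym _ _ (HL_nb5 h1), ha⟩, b, h1⟩
        have h11 : 0 < G.tA Fa l := by
          unfold tA
          exact card_pos.2 ⟨a, this⟩
        omega
      · exfalso
        obtain ⟨a, ha, b, hb, h1, h2, h4⟩ := h
        have hylow := t.sat a b y h1
        have h6 := (hty y (hD y hyR hyl hylow)).1
        exact (mem_Co76.1 hyC).2 (Gen12.sing h6).2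
      · exfalso
        obtain ⟨a, ha, b, hb, h1⟩ := h
        have hal : a ∈ G.nb l := G.sym _ _ (LL_nb5 h1)
        have haC := hD a ha hal h1.1
        have h2 := (hty a haC).2.2.2.2.2.2.1 b (mem_nR76.2 ⟨h1.2.2.1, hb⟩) h1.2.1
        subst h2
        exact h1.2.2.2.2.1 (mem_cl'.2 (Or.inl rfl))
    -- two claimants
    obtain ⟨w, hw, hwz⟩ : ∃ w, G.CLL q Fa l w ∧ w ≠ z := by
      by_contra hno
      push Not at hno
      have h4 : G.nb l ∩ G.Co B ⊆ G.nb z ∩ G.Co B := by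
        intro y hy
        obtain ⟨w, hw, hyw⟩ := hcov y hy
        rw [hno w hw] at hyw
        exact mem_inter.2 ⟨hyw, (mem_inter.1 hy).2⟩
      have := card_le_card h4
      omega
    obtain ⟨hwI, hwR, hwlow, hwc, hw0, hwl, hwu, hwX⟩ := hty w hw
    have hzl' : z ≠ l := by
      rintro rfl
      exact G.irr _ hzl
    have hwl' : w ≠ l := by
      rintro rfl
      exact G.irr _ hwl
    have h4 := h3 z hzR w hwR l hl B hzI hwI hI (Ne.symm hwz) hzl' hwl'
    have h6 : (G.nb z ∪ G.nb w ∪ G.nb l) ∩ G.Co B ⊆ G.nb l ∩ G.Co B := by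
      intro y hy
      obtain ⟨h5, h6⟩ := mem_inter.1 hy
      rw [mem_union, mem_union] at h5
      refine mem_inter.2 ⟨?_, h6⟩
      rcases h5 with (h9 | h9) | h9
      · exact hsubX z hz y (mem_inter.2 ⟨h9, h6⟩)
      · exact hsubX w hw y (mem_inter.2 ⟨h9, h6⟩)
      · exact h9
    have := card_le_card h6
    omega

theorem w3_low {x z : V} (h : G.Low x) (hm : G.m Fa x z ≤ 1) : G.w3 q Fa x z = 2 := by
  unfold w3
  rw [if_pos h, if_pos hm]

theorem w3_zero {x z : V} (hm : G.m Fa x z = 0) : G.w3 q Fa x z = 2 := by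
  unfold w3
  split_ifs <;> first | rfl | omega

theorem w3_HL {x z b : V} (hm : G.m Fa x z = 1) (h : G.HL x b z) (hQ : ¬ IsQ q x) :
    G.w3 q Fa x z = 2 := by
  unfold w3
  rw [if_neg (HL_notLow h), if_neg hQ, if_neg (by omega), if_pos ⟨hm, b, h⟩]

theorem sum_w3 {l : V} {S : Finset V} (hS : S ⊆ G.nR Fa l) (h2 : ∀ x ∈ S, G.w3 q Fa x l = 2) :
    2 * (S.card : ℤ) ≤ ∑ x ∈ G.nR Fa l, G.w3 q Fa x l := by
  calc 2 * (S.card : ℤ) = ∑ x ∈ S, G.w3 q Fa x l := by
        rw [sum_congr rfl h2, sum_const, nsmul_eq_mul]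
        ring
    _ ≤ _ := sum_le_sum_of_subset_of_nonneg hS fun x _ _ => Gen12.w3_nonneg x l

open Classical in
/-- at least two neighbourhoods, a claimant with `HL` -/
theorem capH (h7 : G.StTwHL) (hC : G.StCh3 q) (hN : G.StNd3 q) (hq : G.QS q)
    (g : G.Gen3 q Fa) {l : V} (hl : l ∈ R Fa) (hll : G.Low l) (hk : 2 ≤ (G.I Fa l).card)
    {z : V} (hz : G.CLL q Fa l z) (hzl : z ∉ G.nb l) :
    2 * ((univ.filter fun z => G.CLL q Fa l z).card : ℤ) ≤ G.ch3 q Fa l := by
  have t := g.tor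
  have hlow6 : (G.nb l).card = 6 := hll
  obtain ⟨B, hB, hBl, hzR, hzlow, hzc, hz0, hty⟩ := typ h7 hN hq g hz
  rcases hty with ⟨h, -⟩ | ⟨-, a0, ha0R, hHL0, hIa0, hXz⟩
  · exact absurd h hzl
  set C := univ.filter fun z => G.CLL q Fa l z with hCd
  set CL := C.filter fun w => w ∈ G.nb l with hCL
  set CH := C.filter fun w => ¬ w ∈ G.nb l with hCH
  have hsplit : CL.card + CH.card = C.card := card_filter_add_card_filter_not _
  set X := G.nb z ∩ G.Co B with hX
  have hIne : G.I Fa l ≠ ∅ := by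
    intro h
    rw [h, card_empty] at hk
    omega
  -- few claimants with `HL`
  have hCH2 : CH.card ≤ 2 := by
    have h1 : ∀ w ∈ CH, ∃ a ∈ R Fa, G.HL a l w ∧ G.I Fa a = G.I Fa l := by
      intro w hw
      obtain ⟨h1, h2⟩ := mem_filter.1 hw
      obtain ⟨B1, -, -, -, -, -, -, hty⟩ := typ h7 hN hq g (mem_filter.1 h1).2
      rcases hty with ⟨h, -⟩ | ⟨-, a, h3, h4, h5, -⟩
      · exact absurd h h2
      · exact ⟨a, h3, h4, h5⟩
    choose! f hf using h1
    have hinj : Set.InjOn f CH := by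
      intro w hw w' hw' h
      have h2 := (hf w hw).2.1
      have h3 := (hf w' hw').2.1
      rw [← h] at h3
      have h4 : w ∈ G.cl (f w) := mem_cl'.2 (Or.inr (HL_nb5 h2))
      rw [h3.2.2.2.2, mem_insert] at h4
      rcases h4 with h4 | h4
      · exact h4
      · exact absurd h4 h2.2.2.2.1
    obtain ⟨B1, hB1, B2, hB2, hne⟩ := one_lt_card.1 (by omega : 1 < (G.I Fa l).card)
    obtain ⟨hB1F, hB1N⟩ := mem_I76.1 hB1
    obtain ⟨hB2F, hB2N⟩ := mem_I76.1 hB2
    obtain ⟨-, y1, hy1, hly1⟩ := mem_N76.1 hB1N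
    obtain ⟨-, y2, hy2, hly2⟩ := mem_N76.1 hB2N
    have hy12 : y1 ≠ y2 := by
      rintro rfl
      exact disjoint_left.1 (t.reg.dis B1 hB1F B2 hB2F hne).1 hy1 hy2
    have hR1 : y1 ∉ R Fa := fun h => mem_R76.1 h B1 hB1F hy1
    have hR2 : y2 ∉ R Fa := fun h => mem_R76.1 h B2 hB2F hy2
    have hXR : ∀ x ∈ X, x ∈ R Fa := fun x hx => (mem_nR76.1 (nR_Co5 hzR hB hx)).2
    have hd1 : Disjoint (CH.image f) X := by
      rw [disjoint_left]
      intro y hy hyX
      obtain ⟨w, hw, rfl⟩ := mem_image.1 hy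
      have h2 := (hf w hw).2.2
      rw [hz0 _ hyX] at h2
      exact hIne h2.symm
    have hd2 : Disjoint ({y1, y2} : Finset V) (CH.image f ∪ X) := by
      rw [disjoint_left]
      intro y hy hyX
      have hyR : y ∈ R Fa := by
        rcases mem_union.1 hyX with h | h
        · obtain ⟨w, hw, rfl⟩ := mem_image.1 h
          exact (hf w hw).1
        · exact hXR y h
      rw [mem_insert, mem_singleton] at hy
      rcases hy with rfl | rfl
      · exact hR1 hyR
      · exact hR2 hyR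
    have hsub : ({y1, y2} : Finset V) ∪ (CH.image f ∪ X) ⊆ G.nb l := by
      intro y hy
      rw [mem_union, mem_union, mem_insert, mem_singleton] at hy
      rcases hy with (rfl | rfl) | h | h
      · exact G.sym _ _ hly1
      · exact G.sym _ _ hly2
      · obtain ⟨w, hw, rfl⟩ := mem_image.1 h
        exact G.sym _ _ (hf w hw).2.1.2.2.1
      · exact hXz y h
    have hcard := card_le_card hsub
    rw [card_union_of_disjoint hd2, card_union_of_disjoint hd1, card_pair hy12,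
      card_image_of_injOn hinj, hzc] at hcard
    omega
  -- weights
  have hS : 2 * ((CL ∪ X).card : ℤ) ≤ ∑ x ∈ G.nR Fa l, G.w3 q Fa x l := by
    apply sum_w3
    · intro w hw
      rcases mem_union.1 hw with h | h
      · obtain ⟨h1, h2⟩ := mem_filter.1 h
        obtain ⟨-, -, -, hwR, -⟩ := typ h7 hN hq g (mem_filter.1 h1).2
        exact mem_nR76.2 ⟨h2, hwR⟩
      · exact mem_nR76.2 ⟨hXz w h, (mem_nR76.1 (nR_Co5 hzR hB h)).2⟩
    · intro w hw
      rcases mem_union.1 hw with h | h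
      · obtain ⟨h1, h2⟩ := mem_filter.1 h
        obtain ⟨B1, hB1, -, -, hwl, -⟩ := typ h7 hN hq g (mem_filter.1 h1).2
        apply w3_low hwl
        unfold m
        refine (card_le_card inter_subset_left).trans ?_
        rw [hB1, card_singleton]
      · apply w3_zero
        unfold m
        rw [hz0 w h, empty_inter, card_empty]
  have hdis : Disjoint CL X := by
    rw [disjoint_left]
    intro w hw hwX
    obtain ⟨h1, h2⟩ := mem_filter.1 hw
    obtain ⟨B1, hB1, -⟩ := typ h7 hN hq g (mem_filter.1 h1).2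
    rw [hz0 w hwX] at hB1
    exact (singleton_ne_empty B1) hB1.symm
  rw [card_union_of_disjoint hdis, hzc] at hS
  have hCc : (C.card : ℤ) ≤ CL.card + 2 := by
    rw [← hsplit]
    push_cast
    have : (CH.card : ℤ) ≤ 2 := by exact_mod_cast hCH2
    linarith
  have hmain : 2 * (C.card : ℤ) ≤ ∑ x ∈ G.nR Fa l, G.w3 q Fa x l := by
    push_cast at hS
    linarith
  obtain ⟨-, -, c2, c3⟩ := (hC hq t.n9 Fa t.reg t.big l hl).1 hll
  rcases Nat.lt_or_ge (G.I Fa l).card 3 with h | h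
  · have h1 := c2 (by omega)
    have h2 : ((G.I Fa l).filter fun B => G.FL (G.Co B) l) = ∅ := by
      rw [filter_eq_empty_iff]
      intro B1 hB1 hfl
      obtain ⟨hB1F, hB1N⟩ := mem_I76.1 hB1
      obtain ⟨a', b', h3, h4, -⟩ := FL_Co g hB1F hfl
      have h5 : a0 ∈ G.nb l ∩ G.N B1 := by
        refine mem_inter.2 ⟨G.sym _ _ hHL0.2.2.1, ?_⟩
        have : B1 ∈ G.I Fa a0 := by rw [hIa0]; exact hB1
        exact (mem_I76.1 this).2
      rw [h4, mem_singleton] at h5
      subst h5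
      exact h7.nomut t.n9 a0 b' l l z h3 hHL0 rfl
    rw [h2, card_empty] at h1
    have h3 : (0 : ℤ) ≤ 2 * (((G.I Fa l).filter fun B => G.FL B l).card : ℤ) := by positivity
    push_cast at h1
    linarith
  · exact hmain.trans (c3 h)

open Classical in
/-- at least two neighbourhoods, all claimants adjacent to `l` -/
theorem capL (h7 : G.StTwHL) (hC : G.StCh3 q) (hN : G.StNd3 q) (hq : G.QS q)
    (g : G.Gen3 q Fa) {l : V} (hl : l ∈ R Fa) (hll : G.Low l) (hk : 2 ≤ (G.I Fa l).card)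
    {z : V} (hz : G.CLL q Fa l z) (hall : ∀ w, G.CLL q Fa l w → w ∈ G.nb l) :
    2 * ((univ.filter fun z => G.CLL q Fa l z).card : ℤ) ≤ G.ch3 q Fa l := by
  have t := g.tor
  obtain ⟨B, hB, hBl, hzR, hzlow, hzc, hz0, hty⟩ := typ h7 hN hq g hz
  rcases hty with ⟨hzl, hzu, hzX⟩ | ⟨h, -⟩
  swap
  · exact absurd (hall z hz) h
  obtain ⟨hBF, hzN⟩ := Gen12.sing hB
  set C := univ.filter fun z => G.CLL q Fa l z with hCd
  have hCR : C ⊆ G.nR Fa l := by
    intro w hw
    have h1 := (mem_filter.1 hw).2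
    obtain ⟨-, -, -, hwR, -⟩ := typ h7 hN hq g h1
    exact mem_nR76.2 ⟨hall w h1, hwR⟩
  have hC2 : ∀ w ∈ C, G.w3 q Fa w l = 2 := by
    intro w hw
    obtain ⟨B1, hB1, -, -, hwl, -⟩ := typ h7 hN hq g (mem_filter.1 hw).2
    apply w3_low hwl
    unfold m
    refine (card_le_card inter_subset_left).trans ?_
    rw [hB1, card_singleton]
  have hmain : 2 * (C.card : ℤ) ≤ ∑ x ∈ G.nR Fa l, G.w3 q Fa x l := sum_w3 hCR hC2
  -- one more vertex
  have hmore : ∀ e ∈ G.nR Fa l, e ∉ C → G.w3 q Fa e l = 2 →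
      2 * (C.card : ℤ) + 2 ≤ ∑ x ∈ G.nR Fa l, G.w3 q Fa x l := by
    intro e he heC h2
    have h3 : 2 * ((insert e C).card : ℤ) ≤ ∑ x ∈ G.nR Fa l, G.w3 q Fa x l := by
      apply sum_w3
      · intro x hx
        rcases mem_insert.1 hx with rfl | h
        · exact he
        · exact hCR h
      · intro x hx
        rcases mem_insert.1 hx with rfl | h
        · exact h2
        · exact hC2 x h
    rw [card_insert_of_notMem heC] at h3
    push_cast at h3
    linarith
  obtain ⟨-, -, c2, c3⟩ := (hC hq t.n9 Fa t.reg t.big l hl).1 hll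
  rcases Nat.lt_or_ge (G.I Fa l).card 3 with h | h
  swap
  · exact hmain.trans (c3 h)
  have h1 := c2 (by omega)
  have h3 : (0 : ℤ) ≤ 2 * (((G.I Fa l).filter fun B => G.FL B l).card : ℤ) := by positivity
  obtain ⟨B', hB'⟩ : ∃ B', (G.I Fa l).erase B = {B'} := by
    rw [← card_eq_one, card_erase_of_mem hBl]
    omega
  have hB'm : B' ∈ (G.I Fa l).erase B := by
    rw [hB']
    exact mem_singleton_self _
  have hne : B' ≠ B := (mem_erase.1 hB'm).1
  have hB'l := (mem_erase.1 hB'm).2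
  obtain ⟨hB'F, hB'N⟩ := mem_I76.1 hB'l
  have hIl : ∀ D ∈ G.I Fa l, D = B ∨ D = B' := by
    intro D hD
    by_cases h4 : D = B
    · exact Or.inl h4
    · have : D ∈ (G.I Fa l).erase B := mem_erase.2 ⟨h4, hD⟩
      rw [hB', mem_singleton] at this
      exact Or.inr this
  have hnf : ¬ G.FL (G.Co B) l := by
    intro h
    obtain ⟨a', b', h1, h2, -⟩ := FL_Co g hBF h
    have h3 : z ∈ G.nb l ∩ G.N B := mem_inter.2 ⟨hzl, hzN⟩
    rw [h2, mem_singleton] at h3
    subst h3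
    exact HL_notLow h1 hzlow
  by_cases hf : G.FL (G.Co B') l
  swap
  · have h2 : ((G.I Fa l).filter fun B => G.FL (G.Co B) l) = ∅ := by
      rw [filter_eq_empty_iff]
      intro D hD hfl
      rcases hIl D hD with rfl | rfl
      · exact hnf hfl
      · exact hf hfl
    rw [h2, card_empty] at h1
    push_cast at h1
    linarith
  have h2 : ((G.I Fa l).filter fun B => G.FL (G.Co B) l).card ≤ 1 := by
    rw [card_le_one]
    have key : ∀ D ∈ (G.I Fa l).filter fun B => G.FL (G.Co B) l, D = B' := by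
      intro D hD
      obtain ⟨h4, h5⟩ := mem_filter.1 hD
      rcases hIl D h4 with rfl | rfl
      · exact absurd h5 hnf
      · rfl
    intro D hD D' hD'
    rw [key D hD, key D' hD']
  have h2' : (((G.I Fa l).filter fun B => G.FL (G.Co B) l).card : ℤ) ≤ 1 := by exact_mod_cast h2
  obtain ⟨a, b, hHL, hnb, -⟩ := FL_Co g hB'F hf
  have ha : a ∈ G.nb l ∩ G.N B' := by
    rw [hnb]
    exact mem_singleton_self _
  obtain ⟨hal, haN'⟩ := mem_inter.1 ha
  have haR := N_sub_R76 t.reg hB'F haN'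
  have hanl := HL_notLow hHL
  -- `e` with weight 2 that is no claimant
  obtain ⟨e, he, heC, he2⟩ : ∃ e ∈ G.nR Fa l, e ∉ C ∧ G.w3 q Fa e l = 2 := by
    by_cases haB : a ∈ G.N B
    · obtain ⟨x, hx, hxB⟩ : ∃ x ∈ G.nR Fa l, x ∉ G.N B := by
        by_contra hcon
        push Not at hcon
        have hXne : (G.nb z ∩ G.Co B).Nonempty := by
          rw [← card_pos]
          omega
        obtain ⟨x, hx⟩ := hXne
        have hxR := (mem_nR76.1 (nR_Co5 hzR hB hx)).2
        have hxnl : x ∉ G.nb l := by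
          intro h4
          exact (mem_Co76.1 (mem_inter.1 hx).2).2 (hcon x (mem_nR76.2 ⟨h4, hxR⟩))
        rcases hzX x hx with h4 | ⟨v, hv, h4⟩
        · exact hxnl h4
        · have h5 := LL_I h4 hl hv hzR hxR
          have h6 : B' ∈ G.I Fa v := by rw [← h5]; exact hB'l
          have h8 : v ∈ G.nb l ∩ G.N B' := mem_inter.2 ⟨h4.2.2.1, (mem_I76.1 h6).2⟩
          rw [hnb, mem_singleton] at h8
          subst h8
          exact hanl h4.2.1
      have hxa : x ≠ a := by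
        rintro rfl
        exact hxB haB
      have hxl := (mem_nR76.1 hx).1
      have hxB' : x ∉ G.N B' := by
        intro h4
        have h5 : x ∈ G.nb l ∩ G.N B' := mem_inter.2 ⟨hxl, h4⟩
        rw [hnb, mem_singleton] at h5
        exact hxa h5
      have hno : ∀ D ∈ G.I Fa l, x ∉ G.N D := by
        intro D hD
        rcases hIl D hD with rfl | rfl
        · exact hxB
        · exact hxB'
      refine ⟨x, hx, ?_, ?_⟩
      · intro hxC
        obtain ⟨D, hD, hDl, -⟩ := typ h7 hN hq g (mem_filter.1 hxC).2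
        exact hno D hDl (Gen12.sing hD).2
      · apply w3_zero
        unfold m
        rw [card_eq_zero]
        ext D
        simp only [mem_inter, notMem_empty, iff_false, not_and]
        intro h4 h5
        exact hno D h5 (mem_I76.1 h4).2
    · refine ⟨a, mem_nR76.2 ⟨hal, haR⟩, ?_, ?_⟩
      · intro haC
        obtain ⟨D, -, -, -, hD, -⟩ := typ h7 hN hq g (mem_filter.1 haC).2
        exact hanl hD
      · have hm : G.m Fa a l = 1 := by
          unfold m
          rw [card_eq_one]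
          refine ⟨B', ?_⟩
          ext D
          rw [mem_inter, mem_singleton]
          constructor
          · rintro ⟨h4, h5⟩
            rcases hIl D h5 with rfl | rfl
            · exact absurd (mem_I76.1 h4).2 haB
            · rfl
          · rintro rfl
            exact ⟨mem_I76.2 ⟨hB'F, haN'⟩, hB'l⟩
        refine w3_HL hm hHL ?_
        rintro ⟨w, hw⟩
        exact h7.notHL t.n9 a b l hHL ⟨w, hq.tw a w hw⟩
  have h4 := hmore e he heC he2
  linarith

end Cap12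

open Classical Cap12 in
theorem stCapL3_12 (G : CG V) (q : V → V → Prop) (h7 : G.StTwHL) (hC : G.StCh3 q)
    (hL : G.StLow3 q) (hN : G.StNd3 q) : G.StCapL3 q := by
  rintro hq Fa g l hl hll ⟨z, hz⟩
  by_cases hH : ∃ w, G.CLL q Fa l w ∧ w ∉ G.nb l
  · obtain ⟨w, hw, hwl⟩ := hH
    rcases Nat.lt_or_ge (G.I Fa l).card 2 with h | h
    · obtain ⟨B, -, hBl, -⟩ := typ h7 hN hq g hw
      have h1 : (G.I Fa l).card = 1 := by
        have : 0 < (G.I Fa l).card := card_pos.2 ⟨B, hBl⟩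
        omega
      obtain ⟨B', hB'⟩ := card_eq_one.1 h1
      exact capA h7 hC hL hN hq g hl hll hB' hw hwl
    · exact capH h7 hC hN hq g hl hll h hw hwl
  · push Not at hH
    rcases Nat.lt_or_ge (G.I Fa l).card 2 with h | h
    · obtain ⟨B, -, hBl, -⟩ := typ h7 hN hq g hz
      have h1 : (G.I Fa l).card = 1 := by
        have : 0 < (G.I Fa l).card := card_pos.2 ⟨B, hBl⟩
        omega
      obtain ⟨B', hB'⟩ := card_eq_one.1 h1
      exact capB h7 hC hL hN hq g hl hll hB' hz hH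
    · exact capL h7 hC hN hq g hl hll h hz hH

end CG

end Pool.Agent.Lib.MP_e95c01_co.N
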