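import Pool.Agent.Lib.MP_e95c01_co.T.StmtsF76
import Pool.Agent.Lib.MP_e95c01_co.T.StCapL3_12

/-!
# F6: no class in `F`, some vertex of `N F` with one neighbour in `F`.  helper12
-/

namespace Pool.Agent.Lib.MP_e95c01_co.N

open Finset

variable {V : Type} [Fintype V] [DecidableEq V]

namespace CG

namespace X12

variable {G : CG V} {q : V → V → Prop} {F : Finset V} {a z1 z2 z3 : V}

/-- the situation -/
structure Cx (G : CG V) (q : V → V → Prop) (F : Finset V) (a z1 z2 z3 : V) : Prop where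
  hF : G.F3s q F
  hub : ∀ z ∈ F, G.HubQ q z
  aT : a ∈ G.N F
  aF : G.nb a ∩ F = {z3}
  m1 : z1 ∈ F
  m2 : z2 ∈ F
  m3 : z3 ∈ F
  n12 : z1 ≠ z2
  n13 : z1 ≠ z3
  n23 : z2 ≠ z3
  all : ∀ x ∈ F, x = z1 ∨ x = z2 ∨ x = z3
  tw : G.Tw z1 z2
  sub1 : (G.N F).erase a ⊆ G.nb z1
  eq1 : ∀ x ∈ G.nb z1, x = z2 ∨ x = z3 ∨ x ∈ (G.N F).erase a
  c5 : ((G.N F).erase a).card = 5
  miss : ∀ y ∈ (G.N F).erase a, ∀ y' ∈ (G.N F).erase a, y ∉ G.nb z3 → y' ∉ G.nb z3 → y = y'

theorem mkCx (hB : G.St11Bas q) (hF : G.F3s q F) (hub : ∀ z ∈ F, G.HubQ q z)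
    (h : ∃ z, G.Cr F z) : ∃ a z1 z2 z3, Cx G q F a z1 z2 z3 := by
  obtain ⟨z3, a, haT, haF⟩ := h
  have h3 : z3 ∈ F := by
    have : z3 ∈ G.nb a ∩ F := by
      rw [haF]
      exact mem_singleton_self _
    exact (mem_inter.1 this).2
  obtain ⟨z1, z2, h12, he⟩ := card_eq_two.1
    (show (F.erase z3).card = 2 by rw [card_erase_of_mem h3, hF.c3])
  have h1m : z1 ∈ F.erase z3 := by rw [he]; simp
  have h2m : z2 ∈ F.erase z3 := by rw [he]; simp
  obtain ⟨h13, h1⟩ := mem_erase.1 h1m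
  obtain ⟨h23, h2⟩ := mem_erase.1 h2m
  have hall : ∀ x ∈ F, x = z1 ∨ x = z2 ∨ x = z3 := by
    intro x hx
    by_cases h : x = z3
    · exact Or.inr (Or.inr h)
    · have : x ∈ F.erase z3 := mem_erase.2 ⟨h, hx⟩
      rw [he, mem_insert, mem_singleton] at this
      tauto
  have htw := hB.twin F hF z3 ⟨a, haT, haF⟩ z1 h1 z2 h2 h12 h13 h23 (hub z1 h1).1 (hub z2 h2).1
  obtain ⟨hfr, hN⟩ := hB.frag F hF a haT z3 haF
  have hcN : (G.N F).card = 6 := hF.big.1.2.1
  have hc5 : ((G.N F).erase a).card = 5 := by rw [card_erase_of_mem haT, hcN]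
  have hFN : ∀ x ∈ F, x ∉ G.N F := fun x hx h => (mem_N76.1 h).1 hx
  have hsub : G.nb z1 ⊆ insert z2 (insert z3 ((G.N F).erase a)) := by
    intro x hx
    rw [mem_insert]
    by_cases hxF : x ∈ F.erase z3
    · rw [he, mem_insert, mem_singleton] at hxF
      rcases hxF with rfl | rfl
      · exact absurd hx (G.irr _)
      · exact Or.inl rfl
    · right
      rw [← hN]
      exact mem_N76.2 ⟨hxF, z1, h1m, hx⟩
  have hc7 : (insert z2 (insert z3 ((G.N F).erase a))).card = 7 := by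
    rw [card_insert_of_notMem, card_insert_of_notMem, hc5]
    · intro h
      exact hFN z3 h3 (mem_erase.1 h).2
    · rw [mem_insert]
      rintro (h | h)
      · exact h23 h
      · exact hFN z2 h2 (mem_erase.1 h).2
  have heq := eq_of_subset_of_card_le hsub (by rw [hc7, htw.2.1])
  refine ⟨a, z1, z2, z3, hF, hub, haT, haF, h1, h2, h3, h12, h13, h23, hall, htw, ?_, ?_, hc5, ?_⟩
  · intro x hx
    rw [heq]
    exact mem_insert_of_mem (mem_insert_of_mem hx)
  · intro x hx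
    have := hsub hx
    rw [mem_insert, mem_insert] at this
    exact this
  · intro y hy y' hy' h4 h5
    by_contra hne
    have hm := hB.miss F hF z3 h3 (hub z3 h3).1
    have h6 : G.Tz F z3 ⊆ ((G.N F).erase y).erase y' := by
      intro x hx
      obtain ⟨h7, h8⟩ := mem_inter.1 hx
      refine mem_erase.2 ⟨?_, mem_erase.2 ⟨?_, h8⟩⟩
      · rintro rfl
        exact h5 h7
      · rintro rfl
        exact h4 h7
    have h7 := card_le_card h6
    rw [card_erase_of_mem (mem_erase.2 ⟨Ne.symm hne, (mem_erase.1 hy').2⟩),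
      card_erase_of_mem (mem_erase.1 hy).2, hcN] at h7
    omega

theorem Cx.sub2 (c : Cx G q F a z1 z2 z3) : (G.N F).erase a ⊆ G.nb z2 := by
  intro x hx
  refine Tw_nb5 c.tw (c.sub1 hx) ?_
  rintro rfl
  exact (mem_N76.1 (mem_erase.1 hx).2).1 c.m2

theorem Cx.n9 (c : Cx G q F a z1 z2 z3) : 9 ≤ Fintype.card V := by
  have := c.hF.n12
  omega

theorem Cx.notF (_ : Cx G q F a z1 z2 z3) {x : V} (hx : x ∈ G.N F) : x ∉ F :=
  (mem_N76.1 hx).1

theorem Cx.inT (c : Cx G q F a z1 z2 z3) {x : V} (hx : x ∈ G.nb z1) (hF : x ∉ F) :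
    x ∈ (G.N F).erase a := by
  rcases c.eq1 x hx with rfl | rfl | h
  · exact absurd c.m2 hF
  · exact absurd c.m3 hF
  · exact h

theorem Cx.closed (c : Cx G q F a z1 z2 z3) {v w : V} (h : q v w) (hv : v ∈ (G.N F).erase a) :
    w ∈ (G.N F).erase a := by
  have hw : w ∉ F := fun hw => (c.hub w hw).2 ⟨v, c.hF.qs.symm _ _ h⟩
  have h1 : z1 ∈ G.nb v := G.sym _ _ (c.sub1 hv)
  have h2 : z1 ≠ w := by
    rintro rfl
    exact hw c.m1
  exact c.inT (G.sym _ _ (Tw_nb5 (c.hF.qs.tw _ _ h) h1 h2)) hw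

/-- the covers of the edges at `z1` -/
theorem Cx.cover (c : Cx G q F a z1 z2 z3) (h7 : G.StTwHL) {y : V} (hy : y ∈ (G.N F).erase a) :
    (∃ w ∈ (G.N F).erase a, G.Low w ∧ y ∈ G.nb w) ∨
    (∃ v ∈ (G.N F).erase a, ∃ w ∈ (G.N F).erase a, q v w ∧ y ∈ G.nb v ∧ y ∈ G.nb w) ∨
    (∃ a' ∈ (G.N F).erase a, ∃ b' ∈ (G.N F).erase a, G.HL a' b' y) := by
  have hlF : ∀ x, G.Low x → x ∉ F := fun x h h1 => (c.hub x h1).1 h
  rcases c.hF.cov z1 c.m1 y (mem_erase.1 hy).2 (c.sub1 hy) with h | h | h | h | h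
  · obtain ⟨w, -, h1, h2, h3⟩ := h
    exact Or.inl ⟨w, c.inT (G.sym _ _ h2) (hlF w h1), h1, h3⟩
  · obtain ⟨v, -, w, -, h1, h2, h3, h4, h5⟩ := h
    refine Or.inr (Or.inl ⟨v, c.inT (G.sym _ _ h2) ?_, w, c.inT (G.sym _ _ h3) ?_, h1, h4, h5⟩)
    · exact fun hv => (c.hub v hv).2 ⟨w, h1⟩
    · exact fun hv => (c.hub w hv).2 ⟨v, c.hF.qs.symm _ _ h1⟩
  · obtain ⟨a', b', h1, h2, h3, h4⟩ := h
    rcases h4 with h4 | h4
    · exact absurd h4.2 (hlF b' h1.2.1)
    · exact Or.inr (Or.inr ⟨a', c.inT (G.sym _ _ h3) (c.notF h4.1), b',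
        c.inT (G.sym _ _ h2) (c.notF h4.2), h1⟩)
  · obtain ⟨a', b', h1, -⟩ := h
    exact absurd (c.hF.sat a' b' z1 h1) (c.hub z1 c.m1).1
  · obtain ⟨a', b', h1, -⟩ := h
    exact absurd ⟨z2, c.tw⟩ (h7.twLL a' b' z1 y h1).1

/-- the end of case X: two low vertices -/
theorem Cx.endX (c : Cx G q F a z1 z2 z3) (h7 : G.StTwHL) {w2 w3 : V}
    (hw2 : w2 ∈ (G.N F).erase a) (hw3 : w3 ∈ (G.N F).erase a) (l2 : G.Low w2) (l3 : G.Low w3)
    (hlow : ∀ w ∈ (G.N F).erase a, G.Low w → w = w2 ∨ w = w3)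
    (hQ : ∀ w ∈ (G.N F).erase a, ¬ IsQ q w) (hm : w2 ∉ G.nb z3) (hne : w2 ≠ w3)
    (ha2 : a ∉ G.nb w2) (ha3 : a ∉ G.nb w3) (ht2 : (G.nb w2 ∩ (G.N F).erase a).card = 3)
    (ht3 : (G.nb w3 ∩ (G.N F).erase a).card = 2) : False := by
  have hlF : ∀ x, G.Low x → x ∉ F := fun x h h1 => (c.hub x h1).1 h
  have haT' : a ∉ (G.N F).erase a := fun h => (mem_erase.1 h).1 rfl
  have haz3 : a ∈ G.nb z3 := by
    have : z3 ∈ G.nb a ∩ F := by
      rw [c.aF]
      exact mem_singleton_self _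
    exact G.sym _ _ (mem_inter.1 this).1
  have hin : ∀ x, x ∈ G.N F → x ≠ a → x ∈ (G.N F).erase a := fun x h h1 => mem_erase.2 ⟨h1, h⟩
  -- covers with low vertices only
  have hcov : ∀ y ∈ (G.N F).erase a, y ∈ G.nb w2 ∨ y ∈ G.nb w3 ∨
      ∃ a' ∈ (G.N F).erase a, G.HL a' w2 y ∨ G.HL a' w3 y := by
    intro y hy
    rcases c.cover h7 hy with ⟨w, hw, h1, h2⟩ | ⟨v, hv, w, hw, h1, -⟩ | ⟨a', ha', b', hb', h1⟩
    · rcases hlow w hw h1 with rfl | rfl
      · exact Or.inl h2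
      · exact Or.inr (Or.inl h2)
    · exact absurd ⟨w, h1⟩ (hQ v hv)
    · rcases hlow b' hb' h1.2.1 with rfl | rfl
      · exact Or.inr (Or.inr ⟨a', ha', Or.inl h1⟩)
      · exact Or.inr (Or.inr ⟨a', ha', Or.inr h1⟩)
  -- the cover of `z3 a`
  obtain ⟨a', ha', hHL⟩ : ∃ a' ∈ (G.N F).erase a, G.HL a' w3 a := by
    rcases c.hF.cov z3 c.m3 a c.aT haz3 with h | h | h | h | h
    · exfalso
      obtain ⟨w, hw, h1, h2, h3⟩ := h
      have hwT : w ∈ G.N F := by
        rcases mem_union.1 hw with h | h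
        · exact absurd h (hlF w h1)
        · exact h
      rcases hlow w (hin w hwT (ne_of_nb5 h3)) h1 with rfl | rfl
      · exact ha2 h3
      · exact ha3 h3
    · exfalso
      obtain ⟨v, hv, w, hw, h1, h2, h3, h4, h5⟩ := h
      have hvT : v ∈ G.N F := by
        rcases mem_union.1 hv with h | h
        · exact absurd ⟨w, h1⟩ (c.hub v h).2
        · exact h
      exact hQ v (hin v hvT (ne_of_nb5 h4)) ⟨w, h1⟩
    · obtain ⟨a', b', h1, h2, h3, h4⟩ := h
      rcases h4 with h4 | h4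
      · exact absurd h4.2 (hlF b' h1.2.1)
      · have hb : b' ≠ a := by
          rintro rfl
          exact h1.2.2.2.1 (Cap12.mem_cl'.2 (Or.inl rfl))
        have ha : a' ≠ a := ne_of_nb5 (HL_nb5 h1)
        rcases hlow b' (hin b' h4.2 hb) h1.2.1 with rfl | rfl
        · exact absurd (G.sym _ _ h2) hm
        · exact ⟨a', hin a' h4.1 ha, h1⟩
    · exfalso
      obtain ⟨a', b', h1, -⟩ := h
      exact (c.hub z3 c.m3).1 (c.hF.sat a' b' z3 h1)
    · exfalso
      obtain ⟨a', b', h1, h2⟩ := h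
      have haF' := hlF a' h1.1
      have ha'z : a' ∈ G.nb z3 := G.sym _ _ (LL_nb5 h1)
      have hane : a' ≠ a := by
        rintro rfl
        exact h1.2.2.2.2.2.1 (Cap12.mem_cl'.2 (Or.inl rfl))
      have haT : a' ∈ G.N F := by
        rcases h2 with h2 | h2 | h2
        · exact absurd h2.1 haF'
        · exact h2.1
        · exact h2.1
      have ha3' : a' = w3 := by
        rcases hlow a' (hin a' haT hane) h1.1 with rfl | rfl
        · exact absurd ha'z hm
        · rfl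
      subst ha3'
      rcases h2 with h2 | h2 | h2
      · exact haF' h2.1
      · have hbT : b' ∈ G.N F := by
          rcases mem_union.1 h2.2 with h | h
          · exact absurd h (hlF b' h1.2.1)
          · exact h
        have hab := Cap12.LL_u h1
        rcases hlow b' (hin b' hbT (ne_of_nb5 hab)) h1.2.1 with rfl | rfl
        · exact ha2 hab
        · exact G.irr _ h1.2.2.1
      · have : z1 ∈ G.nb a' ∩ F := mem_inter.2 ⟨G.sym _ _ (c.sub1 hw3), c.m1⟩
        rw [h2.2.2, mem_singleton] at this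
        exact c.n13 this
  have ha'3 : a' ∈ G.nb w3 := G.sym _ _ hHL.2.2.1
  have ha'l := Cap12.HL_notLow hHL
  have ha'2 : a' ≠ w2 := by
    rintro rfl
    exact ha'l l2
  by_cases h23 : w2 ∈ G.nb w3
  · -- `w2 ~ w3`
    have h2a : a' ∈ G.nb w2 := by
      have h1 : w2 ∈ G.cl a' := by
        rw [hHL.2.2.2.2]
        exact mem_insert_of_mem (Cap12.mem_cl'.2 (Or.inr h23))
      rcases Cap12.mem_cl'.1 h1 with h | h
      · exact absurd h.symm ha'2
      · exact G.sym _ _ h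
    have hN3 : G.nb w3 ∩ (G.N F).erase a = {w2, a'} := by
      symm
      apply eq_of_subset_of_card_le
      · intro x hx
        rw [mem_insert, mem_singleton] at hx
        rcases hx with rfl | rfl
        · exact mem_inter.2 ⟨h23, hw2⟩
        · exact mem_inter.2 ⟨ha'3, ha'⟩
      · rw [ht3, card_pair (Ne.symm ha'2)]
    -- a vertex without a direct cover
    obtain ⟨y, hy, hy2, hy3⟩ : ∃ y ∈ (G.N F).erase a, y ∉ G.nb w2 ∧ y ∉ G.nb w3 := by
      by_contra hcon
      push Not at hcon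
      have h1 : (G.N F).erase a ⊆ (G.nb w2 ∩ (G.N F).erase a) ∪ {w2} := by
        intro y hy
        by_cases h4 : y ∈ G.nb w2
        · exact mem_union_left _ (mem_inter.2 ⟨h4, hy⟩)
        · have h5 : y ∈ G.nb w3 ∩ (G.N F).erase a := mem_inter.2 ⟨hcon y hy h4, hy⟩
          rw [hN3, mem_insert, mem_singleton] at h5
          rcases h5 with rfl | rfl
          · exact mem_union_right _ (mem_singleton_self _)
          · exact absurd h2a h4
      have h2 := card_le_card h1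
      have h4 := card_union_le (G.nb w2 ∩ (G.N F).erase a) {w2}
      rw [card_singleton] at h4
      have := c.c5
      omega
    rcases hcov y hy with h | h | ⟨a'', ha'', h⟩
    · exact hy2 h
    · exact hy3 h
    · have hya : a ≠ y := by
        rintro rfl
        exact haT' hy
      -- `a'' = a'`
      have e : a'' = a' := by
        have h4 : a'' ∈ G.nb w3 := by
          rcases h with h | h
          · have h5 : w3 ∈ G.cl a'' := by
              rw [h.2.2.2.2]
              exact mem_insert_of_mem (Cap12.mem_cl'.2 (Or.inr (G.sym _ _ h23)))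
            rcases Cap12.mem_cl'.1 h5 with h6 | h6
            · exact absurd (h6 ▸ l3) (Cap12.HL_notLow h)
            · exact G.sym _ _ h6
          · exact G.sym _ _ h.2.2.1
        have h5 : a'' ∈ G.nb w3 ∩ (G.N F).erase a := mem_inter.2 ⟨h4, ha''⟩
        rw [hN3, mem_insert, mem_singleton] at h5
        rcases h5 with h5 | h5
        · exfalso
          rcases h with h | h
          · exact Cap12.HL_notLow h (h5 ▸ l2)
          · exact Cap12.HL_notLow h (h5 ▸ l2)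
        · exact h5
      subst e
      rcases h with h | h
      · exact hy3 (G.sym _ _ (h7.two c.n9 a'' w3 a w2 y hHL h hya).2.1)
      · exact hy3 (G.sym _ _ (h7.two c.n9 a'' w3 a w3 y hHL h hya).2.1)
  · -- `w2` and `w3` are not adjacent
    obtain ⟨c3, hc3, h3⟩ : ∃ c3 ∈ (G.N F).erase a, G.HL c3 w2 w3 := by
      rcases hcov w3 hw3 with h | h | ⟨a'', ha'', h | h⟩
      · exact absurd (G.sym _ _ h) h23
      · exact absurd h (G.irr _)
      · exact ⟨a'', ha'', h⟩
      · exact absurd (Cap12.mem_cl'.2 (Or.inl rfl)) h.2.2.2.1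
    obtain ⟨c2, hc2, h2⟩ : ∃ c2 ∈ (G.N F).erase a, G.HL c2 w3 w2 := by
      rcases hcov w2 hw2 with h | h | ⟨a'', ha'', h | h⟩
      · exact absurd h (G.irr _)
      · exact absurd h h23
      · exact absurd (Cap12.mem_cl'.2 (Or.inl rfl)) h.2.2.2.1
      · exact ⟨a'', ha'', h⟩
    have hc : c3 ≠ c2 := by
      rintro rfl
      exact h7.nomut c.n9 c3 w2 w3 w3 w2 h3 h2 rfl
    have hN3 : G.nb w3 ∩ (G.N F).erase a = {c3, c2} := by
      symm
      apply eq_of_subset_of_card_le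
      · intro x hx
        rw [mem_insert, mem_singleton] at hx
        rcases hx with rfl | rfl
        · exact mem_inter.2 ⟨G.sym _ _ (HL_nb5 h3), hc3⟩
        · exact mem_inter.2 ⟨G.sym _ _ h2.2.2.1, hc2⟩
      · rw [ht3, card_pair hc]
    have h5 : a' ∈ G.nb w3 ∩ (G.N F).erase a := mem_inter.2 ⟨ha'3, ha'⟩
    rw [hN3, mem_insert, mem_singleton] at h5
    rcases h5 with rfl | rfl
    · exact h7.nomut c.n9 a' w2 w3 w3 a h3 hHL rfl
    · have h6 : a ∈ G.cl a' := Cap12.mem_cl'.2 (Or.inr (HL_nb5 hHL))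
      rw [h2.2.2.2.2, mem_insert] at h6
      rcases h6 with h6 | h6
      · exact haT' (h6 ▸ hw2)
      · exact hHL.2.2.2.1 h6

theorem wt3_low {w : V} (h : G.Low w) : G.wt3 q w = 2 := by
  unfold wt3
  rw [if_pos h]

theorem wt3_q {w : V} (h : ¬ G.Low w) (h1 : IsQ q w) : G.wt3 q w = 1 := by
  unfold wt3
  rw [if_neg h, if_pos h1]

theorem wt3_h {w : V} (h : ¬ G.Low w) (h1 : ¬ IsQ q w) : G.wt3 q w = 0 := by
  unfold wt3
  rw [if_neg h, if_neg h1]

theorem wt3_nonneg (w : V) : 0 ≤ G.wt3 q w := by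
  unfold wt3
  split_ifs <;> norm_num

theorem wt3_le (w : V) : G.wt3 q w ≤ 2 := by
  unfold wt3
  split_ifs <;> norm_num

/-- a low vertex of `N F` other than `a` -/
theorem Cx.low5 (c : Cx G q F a z1 z2 z3) (hB : G.St11Bas q) {w : V}
    (hw : w ∈ (G.N F).erase a) (hl : G.Low w) :
    (G.nb w ∩ (G.N F).erase a).card + (if a ∈ G.nb w then 1 else 0) + G.d w F ≤ 5 := by
  have h1 := G.d_split76 w F
  have h2 := hB.out F c.hF w (mem_erase.1 hw).2
  have h3 : (G.nb w).card = 6 := hl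
  have h4 : (G.nb w ∩ (G.N F).erase a).card + (if a ∈ G.nb w then 1 else 0) =
      (G.nb w ∩ G.N F).card := by
    split_ifs with h
    · have h5 : G.nb w ∩ (G.N F).erase a = (G.nb w ∩ G.N F).erase a := by
        ext x
        simp only [mem_inter, mem_erase]
        tauto
      have h6 : a ∈ G.nb w ∩ G.N F := mem_inter.2 ⟨h, c.aT⟩
      rw [h5, card_erase_of_mem h6]
      have : 0 < (G.nb w ∩ G.N F).card := card_pos.2 ⟨a, h6⟩
      omega
    · have h5 : G.nb w ∩ (G.N F).erase a = G.nb w ∩ G.N F := by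
        ext x
        simp only [mem_inter, mem_erase]
        constructor
        · rintro ⟨h6, -, h8⟩
          exact ⟨h6, h8⟩
        · rintro ⟨h6, h8⟩
          refine ⟨h6, ?_, h8⟩
          rintro rfl
          exact h h6
      rw [h5, add_zero]
  omega

theorem Cx.d2 (c : Cx G q F a z1 z2 z3) {w : V} (hw : w ∈ (G.N F).erase a) :
    2 ≤ G.d w F := by
  unfold d
  exact two_le5 (mem_inter.2 ⟨G.sym _ _ (c.sub1 hw), c.m1⟩)
    (mem_inter.2 ⟨G.sym _ _ (c.sub2 hw), c.m2⟩) c.n12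

theorem Cx.d3 (c : Cx G q F a z1 z2 z3) {w : V} (hw : w ∈ (G.N F).erase a)
    (h : w ∈ G.nb z3) : 3 ≤ G.d w F := by
  unfold d
  have h1 : ({z1, z2, z3} : Finset V) ⊆ G.nb w ∩ F := by
    intro x hx
    rw [mem_insert, mem_insert, mem_singleton] at hx
    rcases hx with rfl | rfl | rfl
    · exact mem_inter.2 ⟨G.sym _ _ (c.sub1 hw), c.m1⟩
    · exact mem_inter.2 ⟨G.sym _ _ (c.sub2 hw), c.m2⟩
    · exact mem_inter.2 ⟨G.sym _ _ h, c.m3⟩
  have h2 := card_le_card h1
  rw [card_insert_of_notMem (by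
    rw [mem_insert, mem_singleton]
    rintro (h | h)
    · exact c.n12 h
    · exact c.n13 h), card_pair c.n23] at h2
  exact h2

open Classical in
/-- a chosen twin of `N F` -/
theorem Cx.qu1 (c : Cx G q F a z1 z2 z3) (hB : G.St11Bas q) {w : V}
    (hw : w ∈ (G.N F).erase a) (hq : IsQ q w) : (G.tT q F w).card ≤ 1 := by
  obtain ⟨w', hw'⟩ := hq
  have hw'T := c.closed hw' hw
  have htw := c.hF.qs.tw _ _ hw'
  have hz : w ∈ G.nb z3 := by
    by_contra h
    have h2 : w' ∉ G.nb z3 := by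
      intro h3
      have h4 : z3 ∈ G.nb w' := G.sym _ _ h3
      have h5 : z3 ≠ w := by
        rintro rfl
        exact (mem_N76.1 (mem_erase.1 hw).2).1 c.m3
      exact h (G.sym _ _ (Tw_nb5 (c.hF.qs.tw _ _ (c.hF.qs.symm _ _ hw')) h4 h5))
    have := c.miss w hw w' hw'T h h2
    subst this
    exact G.irr _ htw.1
  have h1 := G.d_split76 w F
  have h2 := hB.outq F c.hF w (mem_erase.1 hw).2 ⟨w', hw'⟩
  have h3 := htw.2.1
  have h4 := c.d3 hw hz
  have h5 : G.tT q F w ⊆ (G.nb w ∩ G.N F).erase w' := by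
    intro x hx
    unfold tT at hx
    obtain ⟨h6, h7⟩ := mem_filter.1 hx
    refine mem_erase.2 ⟨?_, h6⟩
    rintro rfl
    exact h7 hw'
  have h6 := card_le_card h5
  rw [card_erase_of_mem (mem_inter.2 ⟨htw.1, (mem_erase.1 hw'T).2⟩)] at h6
  omega

end X12

open Classical X12 in
/-- F6 -/
theorem f6_12 (G : CG V) (q : V → V → Prop) (h7 : G.StTwHL) (hB : G.St11Bas q)
    (hV : G.St11V0 q) (hCn : G.St11Cnt q) : G.St11X q := by
  intro F hF hub hCr
  obtain ⟨a, z1, z2, z3, c⟩ := mkCx hB hF hub hCr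
  set T := (G.N F).erase a with hT
  have hva := hV F hF a c.aT
  rw [← add_sum_erase (G.N F) (G.val3 q F) c.aT, ← hT]
  have h10 : 10 ≤ ∑ w ∈ T, G.wt3 q w * ((G.tT q F w ∩ T).card : ℤ) := by
    have h1 := (hCn F hF T (erase_subset _ _) (fun v w h hv => c.closed h hv) z1 (by
      intro y hy
      rcases c.cover h7 hy with h | h | h
      · exact Or.inl h
      · exact Or.inr (Or.inl h)
      · exact Or.inr (Or.inr (Or.inl h)))).2 (by
      intro y _ a' _ b' _ h
      exact (h7.twLL a' b' z1 y h).1 ⟨z2, c.tw⟩)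
    rw [c.c5] at h1
    exact h1
  -- the defect
  set δ : V → ℤ := fun w => if w ∈ G.nb z3 then 0 else 1 with hδ
  have hδ0 : ∀ w, 0 ≤ δ w := by
    intro w
    rw [hδ]
    simp only
    split_ifs <;> norm_num
  have hδs : ∀ S ⊆ T, ∑ w ∈ S, δ w ≤ 1 := by
    intro S hS
    have h1 : ∑ w ∈ S, δ w = ((S.filter fun w => ¬ w ∈ G.nb z3).card : ℤ) := by
      rw [card_filter, hδ]
      push_cast
      refine sum_congr rfl fun w _ => ?_
      by_cases h : w ∈ G.nb z3
      · simp [h]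
      · simp [h]
    rw [h1]
    have h2 : (S.filter fun w => ¬ w ∈ G.nb z3).card ≤ 1 := by
      rw [card_le_one]
      intro y hy y' hy'
      obtain ⟨h3, h4⟩ := mem_filter.1 hy
      obtain ⟨h5, h6⟩ := mem_filter.1 hy'
      exact c.miss y (hS h3) y' (hS h5) h4 h6
    exact_mod_cast h2
  have hdδ : ∀ w ∈ T, 3 - δ w ≤ (G.d w F : ℤ) := by
    intro w hw
    rw [hδ]
    simp only
    split_ifs with h
    · have := c.d3 hw h
      push_cast
      omega
    · have := c.d2 hw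
      push_cast
      omega
  set W := ∑ w ∈ T, G.wt3 q w with hW
  have hlow : ∑ w ∈ T, (G.wt3 q w * ((G.tT q F w ∩ T).card : ℤ) + 3 * G.wt3 q w - 4 * δ w) ≤
      ∑ w ∈ T, G.val3 q F w := by
    refine sum_le_sum fun w hw => ?_
    have h1 := hdδ w hw
    have h2 : ((G.tT q F w ∩ T).card : ℤ) ≤ (G.tT q F w).card := by
      exact_mod_cast card_le_card inter_subset_left
    have h3 := wt3_nonneg (G := G) (q := q) w
    have h4 := wt3_le (G := G) (q := q) w
    have h5 := hδ0 w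
    unfold val3
    nlinarith [mul_nonneg h3 (sub_nonneg.2 h1), mul_nonneg h3 (sub_nonneg.2 h2),
      mul_nonneg (sub_nonneg.2 h4) h5]
  rw [sum_sub_distrib, sum_add_distrib, ← mul_sum, ← mul_sum, ← hW] at hlow
  have hδT := hδs T (Subset.refl _)
  rcases le_or_gt 6 W with h6 | h6
  · linarith
  exfalso
  -- few classes
  set Lw := T.filter fun w => G.Low w with hLw
  set Qs := T.filter fun w => ¬ G.Low w ∧ IsQ q w with hQs
  have hWc : W = 2 * (Lw.card : ℤ) + Qs.card := by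
    rw [hW, hLw, hQs, card_filter, card_filter]
    push_cast
    rw [mul_sum, ← sum_add_distrib]
    refine sum_congr rfl fun w _ => ?_
    by_cases h1 : G.Low w
    · rw [wt3_low h1]
      simp [h1]
    · by_cases h2 : IsQ q w
      · rw [wt3_q h1 h2]
        simp [h1, h2]
      · rw [wt3_h h1 h2]
        simp [h1, h2]
  have hq2 : 0 < Qs.card → 2 ≤ Qs.card := by
    intro h
    obtain ⟨w, hw⟩ := card_pos.1 h
    obtain ⟨h1, h2, w', h3⟩ := mem_filter.1 hw
    have htw := hF.qs.tw _ _ h3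
    have htw' := hF.qs.tw _ _ (hF.qs.symm _ _ h3)
    refine two_le5 hw (mem_filter.2 ⟨c.closed h3 h1, ?_, w, hF.qs.symm _ _ h3⟩) (ne_of_nb5 htw.1)
    intro h4
    have h5 : (G.nb w').card = 6 := h4
    have := htw'.2.1
    omega
  -- upper bound
  have htl : ∀ w, G.Low w → G.tT q F w ∩ T ⊆ G.nb w ∩ T := by
    intro w _ x hx
    obtain ⟨h1, h2⟩ := mem_inter.1 hx
    unfold tT at h1
    exact mem_inter.2 ⟨(mem_inter.1 (mem_filter.1 h1).1).1, h2⟩
  have hlow5 : ∀ w ∈ T, G.Low w → ((G.tT q F w ∩ T).card : ℤ) ≤ 2 + δ w := by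
    intro w hw hl
    have h1 := c.low5 hB hw hl
    rw [← hT] at h1
    have h2 := hdδ w hw
    have h3 := card_le_card (htl w hl)
    have h4 : (G.nb w ∩ T).card + G.d w F ≤ 5 := by
      have : (0 : ℕ) ≤ if a ∈ G.nb w then 1 else 0 := Nat.zero_le _
      omega
    have h5 : ((G.nb w ∩ T).card : ℤ) + G.d w F ≤ 5 := by exact_mod_cast h4
    have h8 : ((G.tT q F w ∩ T).card : ℤ) ≤ (G.nb w ∩ T).card := by exact_mod_cast h3
    linarith
  have hup : ∑ w ∈ T, G.wt3 q w * ((G.tT q F w ∩ T).card : ℤ) ≤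
      ∑ w ∈ T, ((if G.Low w then 4 + 2 * δ w else 0) + if ¬ G.Low w ∧ IsQ q w then 1 else 0) := by
    refine sum_le_sum fun w hw => ?_
    by_cases h1 : G.Low w
    · have := hlow5 w hw h1
      rw [wt3_low h1, if_pos h1, if_neg (fun h => h.1 h1)]
      linarith
    · by_cases h2 : IsQ q w
      · have h3 := c.qu1 hB hw h2
        have h4 : (G.tT q F w ∩ T).card ≤ 1 := (card_le_card inter_subset_left).trans h3
        have h5 : ((G.tT q F w ∩ T).card : ℤ) ≤ 1 := by exact_mod_cast h4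
        rw [wt3_q h1 h2, if_neg h1, if_pos ⟨h1, h2⟩]
        linarith
      · rw [wt3_h h1 h2, if_neg h1, if_neg (fun h => h2 h.2)]
        simp
  have hup2 : ∑ w ∈ T, ((if G.Low w then 4 + 2 * δ w else 0) +
      if ¬ G.Low w ∧ IsQ q w then (1 : ℤ) else 0) = 4 * (Lw.card : ℤ) + 2 * ∑ w ∈ Lw, δ w +
      Qs.card := by
    rw [sum_add_distrib, ← sum_filter, ← sum_filter, ← hLw, ← hQs, sum_add_distrib, ← mul_sum]
    simp only [sum_const, nsmul_eq_mul, mul_one]
    ring
  rw [hup2] at hup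
  have hδL := hδs Lw (filter_subset _ _)
  have hL2 : Lw.card = 2 ∧ Qs.card = 0 := by
    rcases Nat.eq_zero_or_pos Qs.card with h | h
    · constructor
      · omega
      · exact h
    · have := hq2 h
      omega
  have hQ0 : ∀ w ∈ T, ¬ IsQ q w := by
    intro w hw h
    have h1 : ¬ G.Low w := by
      intro h2
      obtain ⟨w', h3⟩ := h
      have h4 := (hF.qs.tw _ _ h3).2.1
      have h5 : (G.nb w).card = 6 := h2
      omega
    have : w ∈ Qs := mem_filter.2 ⟨hw, h1, h⟩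
    rw [card_eq_zero.1 hL2.2] at this
    exact notMem_empty _ this
  obtain ⟨w2, w3, hne, he⟩ := card_eq_two.1 hL2.1
  have hw2 : w2 ∈ Lw := by rw [he]; simp
  have hw3 : w3 ∈ Lw := by rw [he]; simp
  obtain ⟨hw2T, l2⟩ := mem_filter.1 hw2
  obtain ⟨hw3T, l3⟩ := mem_filter.1 hw3
  have hlow23 : ∀ w ∈ T, G.Low w → w = w2 ∨ w = w3 := by
    intro w hw hl
    have : w ∈ Lw := mem_filter.2 ⟨hw, hl⟩
    rw [he, mem_insert, mem_singleton] at this
    exact this
  have hS : ∑ w ∈ T, G.wt3 q w * ((G.tT q F w ∩ T).card : ℤ) =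
      2 * ((G.tT q F w2 ∩ T).card : ℤ) + 2 * ((G.tT q F w3 ∩ T).card : ℤ) := by
    have h1 : ∑ w ∈ Lw, G.wt3 q w * ((G.tT q F w ∩ T).card : ℤ) =
        ∑ w ∈ T, G.wt3 q w * ((G.tT q F w ∩ T).card : ℤ) := by
      apply sum_subset (filter_subset _ _)
      intro w hw hnL
      have h2 : ¬ G.Low w := fun h => hnL (mem_filter.2 ⟨hw, h⟩)
      rw [wt3_h h2 (hQ0 w hw), zero_mul]
    rw [← h1, he, sum_pair hne, wt3_low l2, wt3_low l3]
  rw [hS] at h10
  have b2 := c.low5 hB hw2T l2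
  have b3 := c.low5 hB hw3T l3
  rw [← hT] at b2 b3
  have t2 := card_le_card (htl w2 l2)
  have t3 := card_le_card (htl w3 l3)
  have d2 := c.d2 hw2T
  have d3 := c.d2 hw3T
  by_cases m2 : w2 ∈ G.nb z3
  · have e2 := c.d3 hw2T m2
    by_cases m3 : w3 ∈ G.nb z3
    · have e3 := c.d3 hw3T m3
      omega
    · -- `w3` misses `z3`
      have a2 : a ∉ G.nb w2 := by
        intro h
        rw [if_pos h] at b2
        omega
      have a3 : a ∉ G.nb w3 := by
        intro h
        rw [if_pos h] at b3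
        omega
      rw [if_neg a2] at b2
      rw [if_neg a3] at b3
      exact c.endX h7 hw3T hw2T l3 l2 (fun w hw hl => (hlow23 w hw hl).symm) hQ0 m3
        (Ne.symm hne) a3 a2 (by rw [← hT]; omega) (by rw [← hT]; omega)
  · have m3 : w3 ∈ G.nb z3 := by
      by_contra h
      exact hne (c.miss w2 hw2T w3 hw3T m2 h)
    have e3 := c.d3 hw3T m3
    have a2 : a ∉ G.nb w2 := by
      intro h
      rw [if_pos h] at b2
      omega
    have a3 : a ∉ G.nb w3 := by
      intro h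
      rw [if_pos h] at b3
      omega
    rw [if_neg a2] at b2
    rw [if_neg a3] at b3
    exact c.endX h7 hw2T hw3T l2 l3 hlow23 hQ0 m2 hne a2 a3 (by rw [← hT]; omega)
      (by rw [← hT]; omega)

end CG

end Pool.Agent.Lib.MP_e95c01_co.N
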