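import Pool.Agent.Lib.MP_e95c01_co.T.StmtsF76
import Pool.Agent.Lib.MP_e95c01_co.T.Aux76

/-!
# F7: no class in `F`, every vertex of `N F` has at least two neighbours in `F`
-/

namespace Pool.Agent.Lib.MP_e95c01_co.N

open Finset

variable {V : Type} [Fintype V] [DecidableEq V]

namespace CG

variable {G : CG V} {q : V → V → Prop} {F : Finset V}

theorem mem_Tz28 {z w : V} : w ∈ G.Tz F z ↔ w ∈ G.nb z ∧ w ∈ G.N F := by
  unfold Tz
  rw [mem_inter]

/-- the partner of a vertex of `N F` is in `N F` -/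
theorem qN28 (hq : G.QS q) (hF : ∀ z ∈ F, ¬ IsQ q z) {v w : V} (hv : v ∈ G.N F) (h : q v w) :
    w ∈ G.N F := by
  obtain ⟨-, u, hu, hvu⟩ := mem_N76.1 hv
  have hwF : w ∉ F := fun h1 => hF w h1 ⟨v, hq.symm _ _ h⟩
  have huw : u ≠ w := by
    rintro rfl
    exact hwF hu
  exact mem_N76.2 ⟨hwF, u, hu, G.sym _ _ (Tw_nb5 (hq.tw _ _ h) (G.sym _ _ hvu) huw)⟩

/-- partners have the same neighbours in `F` -/
theorem qF28 (hq : G.QS q) (hF : ∀ z ∈ F, ¬ IsQ q z) {v w : V} (h : q v w) :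
    G.nb v ∩ F = G.nb w ∩ F := by
  ext x
  simp only [mem_inter]
  constructor
  · rintro ⟨h1, h2⟩
    refine ⟨Tw_nb5 (hq.tw _ _ h) h1 ?_, h2⟩
    rintro rfl
    exact hF _ h2 ⟨v, hq.symm _ _ h⟩
  · rintro ⟨h1, h2⟩
    refine ⟨Tw_nb5 (hq.tw _ _ (hq.symm _ _ h)) h1 ?_, h2⟩
    rintro rfl
    exact hF _ h2 ⟨w, h⟩

/-- partners have the same neighbours in `N F` -/
theorem qT28 (hq : G.QS q) (n9 : 9 ≤ Fintype.card V) {v w : V} (h : q v w) :
    G.tT q F v = G.tT q F w := by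
  classical
  have key : ∀ {v w : V}, q v w → G.tT q F v ⊆ G.tT q F w := by
    intro v w h x hx
    unfold tT at hx ⊢
    rw [mem_filter, mem_inter] at hx ⊢
    obtain ⟨⟨h1, h2⟩, h3⟩ := hx
    have h4 : x ≠ w := by
      rintro rfl
      exact h3 h
    refine ⟨⟨Tw_nb5 (hq.tw _ _ h) h1 h4, h2⟩, fun h5 => ?_⟩
    have h6 := q_uniq76 hq n9 h5 (hq.symm _ _ h)
    subst h6
    exact G.irr _ h1
  exact Finset.Subset.antisymm (key h) (key (hq.symm _ _ h))

/-- sums over classes -/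
theorem even28 (hq : G.QS q) (n9 : 9 ≤ Fintype.card V) {S : Finset V}
    (hS : ∀ v w, q v w → v ∈ S → w ∈ S) (g : V → ℤ) (hg : ∀ v w, q v w → g v = g w) :
    Even (∑ w ∈ S, G.wt3 q w * g w) := by
  classical
  rw [even_iff_two_dvd]
  have h0 : ((∑ w ∈ S, G.wt3 q w * g w : ℤ) : ZMod 2) = 0 := by
    rw [Int.cast_sum]
    have hp : ∀ a, ∃ b, (IsQ q a → q a b) ∧ (¬ IsQ q a → b = a) := by
      intro a
      by_cases h : IsQ q a
      · obtain ⟨b, hb⟩ := h
        exact ⟨b, fun _ => hb, fun h1 => absurd ⟨b, hb⟩ h1⟩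
      · exact ⟨a, fun h1 => absurd h1 h, fun _ => rfl⟩
    choose p hp1 hp2 using hp
    have hz : ∀ a, ¬ IsQ q a → ((G.wt3 q a * g a : ℤ) : ZMod 2) = 0 := by
      intro a ha
      unfold wt3
      rw [if_neg ha]
      split_ifs
      · push_cast
        have h2 : (2 : ZMod 2) = 0 := rfl
        rw [h2, zero_mul]
      · simp
    refine Finset.sum_involution (fun a _ => p a) ?_ ?_ ?_ ?_
    · intro a _
      by_cases h : IsQ q a
      · have h1 := hp1 a h
        have h2 : IsQ q (p a) := ⟨a, hq.symm _ _ h1⟩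
        have h3 : G.wt3 q a = 1 := by
          unfold wt3
          rw [if_neg (q_not_low76 hq h), if_pos h]
        have h4 : G.wt3 q (p a) = 1 := by
          unfold wt3
          rw [if_neg (q_not_low76 hq h2), if_pos h2]
        rw [h3, h4, ← hg _ _ h1, ← Int.cast_add, one_mul, ← two_mul]
        push_cast
        have h5 : (2 : ZMod 2) = 0 := rfl
        rw [h5, zero_mul]
      · have h1 : p a = a := hp2 a h
        rw [h1, hz a h, add_zero]
    · intro a _ h1 h2
      by_cases h : IsQ q a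
      · have h3 := q_ne76 hq (hp1 a h)
        exact h3 h2.symm
      · exact h1 (hz a h)
    · intro a ha
      by_cases h : IsQ q a
      · exact hS _ _ (hp1 a h) ha
      · rw [hp2 a h]
        exact ha
    · intro a ha
      by_cases h : IsQ q a
      · have h1 := hp1 a h
        have h2 := hp1 (p a) ⟨a, hq.symm _ _ h1⟩
        exact q_uniq76 hq n9 h2 (hq.symm _ _ h1)
      · have h1 := hp2 a h
        simp only [h1]
  exact (ZMod.intCast_zmod_eq_zero_iff_dvd _ 2).1 h0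

/-- counting the edges between `F` and `N F` in two ways -/
theorem swap28 (G : CG V) (F : Finset V) (g : V → ℤ) :
    ∑ z ∈ F, ∑ w ∈ G.Tz F z, g w = ∑ w ∈ G.N F, (G.d w F : ℤ) * g w := by
  have h1 : ∀ z, ∑ w ∈ G.Tz F z, g w = ∑ w ∈ G.N F, (if w ∈ G.nb z then g w else 0) := by
    intro z
    unfold Tz
    rw [inter_comm, ← filter_mem_eq_inter, sum_filter]
  rw [sum_congr rfl fun z _ => h1 z, sum_comm]
  refine sum_congr rfl fun w _ => ?_
  rw [← sum_filter, sum_const, nsmul_eq_mul]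
  have h2 : F.filter (fun z => w ∈ G.nb z) = G.nb w ∩ F := by
    ext z
    simp only [mem_filter, mem_inter]
    exact ⟨fun h => ⟨G.sym _ _ h.2, h.1⟩, fun h => ⟨h.2, G.sym _ _ h.1⟩⟩
  rw [h2]
  rfl

theorem wt3_low28 {v : V} (h : G.Low v) : G.wt3 q v = 2 := by
  unfold wt3
  rw [if_pos h]

theorem wt3_q28 (hq : G.QS q) {v : V} (h : IsQ q v) : G.wt3 q v = 1 := by
  unfold wt3
  rw [if_neg (q_not_low76 hq h), if_pos h]

theorem wt3_hub28 {v : V} (h : G.HubQ q v) : G.wt3 q v = 0 := by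
  unfold wt3
  rw [if_neg h.1, if_neg h.2]

/-- the number of neighbours of a low vertex -/
theorem bndl28 (h3 : G.St11Bas q) (hF : G.F3s q F) {w : V} (hw : w ∈ G.N F) (hl : G.Low w) :
    G.d w F + (G.nb w ∩ G.N F).card ≤ 5 := by
  have h1 := d_split76 (G := G) w F
  have h2 := h3.out F hF w hw
  have h4 : (G.nb w).card = 6 := hl
  omega

theorem tT_le28 (w : V) : (G.tT q F w).card ≤ (G.nb w ∩ G.N F).card := by
  classical
  unfold tT
  exact card_le_card (filter_subset _ _)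

/-- the number of neighbours of a vertex of a chosen pair -/
theorem bndq28 (h3 : G.St11Bas q) (hF : G.F3s q F) (hhub : ∀ z ∈ F, G.HubQ q z) {w : V}
    (hw : w ∈ G.N F) (hl : IsQ q w) : G.d w F + (G.tT q F w).card ≤ 4 := by
  classical
  have hl' := hl
  obtain ⟨w', hw'⟩ := hl
  have h1 := d_split76 (G := G) w F
  have h2 := h3.outq F hF w hw hl'
  have h4 := q_card76 hF.qs hl'
  have h5 : w' ∈ G.nb w ∩ G.N F :=
    mem_inter.2 ⟨q_nb76 hF.qs hw', qN28 hF.qs (fun z hz => (hhub z hz).2) hw hw'⟩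
  have h6 : (G.tT q F w).card < (G.nb w ∩ G.N F).card := by
    apply card_lt_card
    refine ⟨?_, fun h7 => ?_⟩
    · unfold tT
      exact filter_subset _ _
    · have h8 := h7 h5
      unfold tT at h8
      exact (mem_filter.1 h8).2 hw'
  omega

/-- the covers of the edges at `z` -/
theorem cover28 (hF : G.F3s q F) (hhub : ∀ z ∈ F, G.HubQ q z) (hcr : ∀ z, ¬ G.Cr F z) {z y : V}
    (hz : z ∈ F) (hy : y ∈ G.Tz F z) :
    (∃ w ∈ G.Tz F z, G.Low w ∧ y ∈ G.nb w) ∨
    (∃ v ∈ G.Tz F z, ∃ w ∈ G.Tz F z, q v w ∧ y ∈ G.nb v ∧ y ∈ G.nb w) ∨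
    (∃ a ∈ G.Tz F z, ∃ b ∈ G.Tz F z, G.HL a b y) ∨
    (∃ a ∈ G.Tz F z, ∃ b ∈ G.N F \ G.Tz F z, G.LL a b z y) := by
  have hy' := mem_Tz28.1 hy
  have hFT : ∀ w ∈ F ∪ G.N F, ¬ G.HubQ q w → w ∈ G.N F := by
    intro w hw h1
    rcases mem_union.1 hw with h2 | h2
    · exact absurd (hhub w h2) h1
    · exact h2
  have hlow : ∀ w, G.Low w → ¬ G.HubQ q w := fun w h1 h2 => h2.1 h1
  have hqq : ∀ v w, q v w → ¬ G.HubQ q v := fun v w h1 h2 => h2.2 ⟨w, h1⟩
  rcases hF.cov z hz y hy'.2 hy'.1 with h | h | h | h | h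
  · obtain ⟨w, hw, h1, h2, h4⟩ := h
    exact Or.inl ⟨w, mem_Tz28.2 ⟨G.sym _ _ h2, hFT w hw (hlow w h1)⟩, h1, h4⟩
  · obtain ⟨v, hv, w, hw, h1, h2, h4, h5, h6⟩ := h
    exact Or.inr (Or.inl ⟨v, mem_Tz28.2 ⟨G.sym _ _ h2, hFT v hv (hqq v w h1)⟩, w,
      mem_Tz28.2 ⟨G.sym _ _ h4, hFT w hw (hqq w v (hF.qs.symm _ _ h1))⟩, h1, h5, h6⟩)
  · obtain ⟨a, b, h1, h2, h4, h5⟩ := h
    rcases h5 with h5 | h5
    · exact absurd h1.2.1 (hhub b h5.2).1
    · exact Or.inr (Or.inr (Or.inl ⟨a, mem_Tz28.2 ⟨G.sym _ _ h4, h5.1⟩, b,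
        mem_Tz28.2 ⟨G.sym _ _ h2, h5.2⟩, h1⟩))
  · obtain ⟨a, b, h1, -⟩ := h
    exact absurd (hF.sat _ _ _ h1) (hhub z hz).1
  · obtain ⟨a, b, h1, h2⟩ := h
    rcases h2 with h2 | h2 | h2
    · exact absurd h1.1 (hhub a h2.1).1
    · have hb := hFT b h2.2 (hlow b h1.2.1)
      refine Or.inr (Or.inr (Or.inr ⟨a, mem_Tz28.2 ⟨G.sym _ _ (LL_t76 h1), h2.1⟩, b,
        mem_sdiff.2 ⟨hb, fun h4 => ?_⟩, h1⟩))
      exact (LL_tb76 h1).1 (G.sym _ _ (mem_Tz28.1 h4).1)
    · exact absurd ⟨a, h2.1, h2.2.2⟩ (hcr z)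

/-- if the lows of `N F` have two neighbours in `F` and the others are hubs with three, then every
edge between `F` and `N F` is covered by a low vertex of `N F` -/
theorem direct28 (hF : G.F3s q F) (hhub : ∀ z ∈ F, G.HubQ q z) (hcr : ∀ z, ¬ G.Cr F z)
    (hlo : ∀ w ∈ G.N F, G.Low w → G.d w F = 2) (hhi : ∀ w ∈ G.N F, ¬ G.Low w → G.d w F = 3)
    (hnq : ∀ w ∈ G.N F, ¬ IsQ q w) {z y : V} (hz : z ∈ F) (hy : y ∈ G.Tz F z) :
    ∃ w ∈ G.Tz F z, G.Low w ∧ y ∈ G.nb w := by
  have h3F : ∀ w, G.d w F = 3 → F ⊆ G.nb w := by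
    intro w hw
    have h1 : G.nb w ∩ F = F := by
      apply eq_of_subset_of_card_le inter_subset_right
      rw [hF.c3]
      exact hw.ge
    rw [← h1]
    exact inter_subset_left
  have h3F' : ∀ w, F ⊆ G.nb w → G.d w F = 3 := by
    intro w hw
    unfold d
    rw [inter_eq_right.2 hw, hF.c3]
  have hy' := mem_Tz28.1 hy
  have hyF : y ∉ F := (mem_N76.1 hy'.2).1
  rcases cover28 hF hhub hcr hz hy with h | h | h | h
  · exact h
  · obtain ⟨v, hv, w, hw, h1, -⟩ := h
    exact absurd ⟨w, h1⟩ (hnq v (mem_Tz28.1 hv).2)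
  · obtain ⟨a, ha, b, hb, h1⟩ := h
    exfalso
    have ha' := (mem_Tz28.1 ha).2
    have hb' := (mem_Tz28.1 hb).2
    have h2 := h3F a (hhi a ha' (HL_not_low76 h1))
    have h4 : F ⊆ G.nb b := by
      intro x hx
      have h5 : x ≠ y := by
        rintro rfl
        exact hyF hx
      rcases HL_sup76 h1 (h2 hx) h5 with h6 | h6
      · exact absurd hx (h6 ▸ (mem_N76.1 hb').1)
      · exact h6
    have h5 := h3F' b h4
    have h6 := hlo b hb' h1.2.1
    omega
  · obtain ⟨a, ha, b, hb, h1⟩ := h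
    exfalso
    have ha' := mem_Tz28.1 ha
    have hb' := (mem_sdiff.1 hb).1
    have hzb : z ∉ G.nb b := (LL_tb76 h1).1
    have h2 := hlo b hb' h1.2.1
    have h4 : G.nb b ∩ F = F.erase z := by
      apply eq_of_subset_of_card_le
      · intro x hx
        rw [mem_inter] at hx
        refine mem_erase.2 ⟨?_, hx.2⟩
        rintro rfl
        exact hzb hx.1
      · rw [card_erase_of_mem hz, hF.c3]
        exact h2.ge
    have h5 : F ⊆ G.nb a := by
      intro x hx
      by_cases hxz : x = z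
      · rw [hxz]
        exact G.sym _ _ ha'.1
      · have h6 : x ∈ G.nb b := by
          have h7 : x ∈ G.nb b ∩ F := by
            rw [h4]
            exact mem_erase.2 ⟨hxz, hx⟩
          exact (mem_inter.1 h7).1
        have h8 : x ≠ y := by
          rintro rfl
          exact hyF hx
        rcases LL_from76 h1 h6 h8 with h9 | h9
        · exact absurd hx (h9 ▸ (mem_N76.1 ha'.2).1)
        · exact h9
    have h6 := h3F' a h5
    have h7 := hlo a ha'.2 h1.1
    omega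

/-- the exceptional configuration does not occur -/
theorem except28 (h3 : G.St11Bas q) (hF : G.F3s q F) (hhub : ∀ z ∈ F, G.HubQ q z)
    (hcr : ∀ z, ¬ G.Cr F z)
    (hlo : ∀ w ∈ G.N F, G.Low w → G.d w F = 2) (hhi : ∀ w ∈ G.N F, ¬ G.Low w → G.d w F = 3)
    (hnq : ∀ w ∈ G.N F, ¬ IsQ q w) : 4 ≤ G.l (G.N F) := by
  classical
  have h6 : (G.N F).card = 6 := hF.big.1.2.1
  -- every vertex of `N F` has two low neighbours in `N F`
  have key : ∀ y ∈ G.N F, 2 ≤ (G.nb y ∩ (G.N F).filter fun w => G.Low w).card := by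
    intro y hy
    have hdir : ∀ z ∈ G.nb y ∩ F, ∃ w ∈ G.nb y ∩ (G.N F).filter (fun w => G.Low w), z ∈ G.nb w := by
      intro z hz
      rw [mem_inter] at hz
      obtain ⟨w, hw, h1, h2⟩ := direct28 hF hhub hcr hlo hhi hnq hz.2
        (mem_Tz28.2 ⟨G.sym _ _ hz.1, hy⟩)
      have hw' := mem_Tz28.1 hw
      exact ⟨w, mem_inter.2 ⟨G.sym _ _ h2, mem_filter.2 ⟨hw'.2, h1⟩⟩, G.sym _ _ hw'.1⟩
    by_contra hcon
    have hd2 : 2 ≤ G.d y F := by
      by_cases hl : G.Low y
      · exact (hlo y hy hl).ge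
      · rw [hhi y hy hl]
        norm_num
    have hne : (G.nb y ∩ F).Nonempty := by
      rw [← card_pos]
      exact lt_of_lt_of_le (by norm_num) hd2
    obtain ⟨z0, hz0⟩ := hne
    obtain ⟨w0, hw0, -⟩ := hdir z0 hz0
    have h1 : ∀ w ∈ G.nb y ∩ (G.N F).filter (fun w => G.Low w), w = w0 := by
      intro w hw
      by_contra hne
      exact hcon (two_le5 hw hw0 hne)
    have h2 : G.nb y ∩ F ⊆ G.nb w0 ∩ F := by
      intro z hz
      obtain ⟨w, hw, h4⟩ := hdir z hz
      rw [h1 w hw] at h4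
      exact mem_inter.2 ⟨h4, (mem_inter.1 hz).2⟩
    have hw1 := mem_filter.1 (mem_inter.1 hw0).2
    have h4 : (G.nb w0 ∩ F).card = 2 := hlo w0 hw1.1 hw1.2
    have h5 : (G.nb y ∩ F).card ≤ 2 := by
      rw [← h4]
      exact card_le_card h2
    have h7 : G.nb y ∩ F = G.nb w0 ∩ F := by
      apply eq_of_subset_of_card_le h2
      rw [h4]
      exact hd2
    have h8 : (F \ G.nb y).Nonempty := by
      rw [← card_pos]
      have h9 := card_sdiff_add_card_inter F (G.nb y)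
      rw [inter_comm, hF.c3] at h9
      omega
    obtain ⟨z, hz⟩ := h8
    rw [mem_sdiff] at hz
    have h9 : z ∉ G.nb w0 := by
      intro h10
      have h11 : z ∈ G.nb y ∩ F := by
        rw [h7]
        exact mem_inter.2 ⟨h10, hz.1⟩
      exact hz.2 (mem_inter.1 h11).1
    have h10 := h3.miss F hF z hz.1 (hhub z hz.1).1
    have hyw : y ≠ w0 := by
      rintro rfl
      exact G.irr _ (mem_inter.1 hw0).1
    have h11 : G.Tz F z ⊆ ((G.N F).erase y).erase w0 := by
      intro x hx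
      have hx' := mem_Tz28.1 hx
      refine mem_erase.2 ⟨?_, mem_erase.2 ⟨?_, hx'.2⟩⟩
      · rintro rfl
        exact h9 (G.sym _ _ hx'.1)
      · rintro rfl
        exact hz.2 (G.sym _ _ hx'.1)
    have h12 := card_le_card h11
    rw [card_erase_of_mem (mem_erase.2 ⟨hyw.symm, hw1.1⟩), card_erase_of_mem hy, h6] at h12
    omega
  -- count the edges
  have h7 : 12 ≤ ∑ y ∈ G.N F, (G.nb y ∩ (G.N F).filter fun w => G.Low w).card := by
    calc 12 = ∑ _y ∈ G.N F, 2 := by rw [sum_const, h6]; rfl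
      _ ≤ _ := sum_le_sum key
  have h8 : ∑ y ∈ G.N F, (G.nb y ∩ (G.N F).filter fun w => G.Low w).card =
      ∑ w ∈ (G.N F).filter (fun w => G.Low w), (G.nb w ∩ G.N F).card := by
    have e1 : ∀ (y : V) (S : Finset V), (G.nb y ∩ S).card = ∑ w ∈ S, if w ∈ G.nb y then 1 else 0 := by
      intro y S
      rw [← sum_filter, sum_const, nsmul_eq_mul, mul_one, inter_comm, ← filter_mem_eq_inter]
      rfl
    rw [sum_congr rfl fun y _ => e1 y _, sum_comm]
    refine sum_congr rfl fun w _ => ?_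
    rw [e1]
    refine sum_congr rfl fun y _ => ?_
    by_cases h9 : w ∈ G.nb y
    · rw [if_pos h9, if_pos (G.sym _ _ h9)]
    · rw [if_neg h9, if_neg fun h10 => h9 (G.sym _ _ h10)]
  have h9 : ∑ w ∈ (G.N F).filter (fun w => G.Low w), (G.nb w ∩ G.N F).card ≤
      ∑ _w ∈ (G.N F).filter (fun w => G.Low w), 3 := by
    refine sum_le_sum fun w hw => ?_
    rw [mem_filter] at hw
    have h10 := bndl28 h3 hF hw.1 hw.2
    have h11 := hlo w hw.1 hw.2
    omega
  rw [sum_const, smul_eq_mul] at h9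
  unfold l
  omega

open Classical in
theorem stF7_28 (G : CG V) (q : V → V → Prop) (h3 : G.St11Bas q) (h5 : G.St11Cnt q) :
    G.St11Y q := by
  intro F hF hhub hcr
  have hq := hF.qs
  have n9 : 9 ≤ Fintype.card V := le_trans (by norm_num) hF.n12
  have hFq : ∀ z ∈ F, ¬ IsQ q z := fun z hz => (hhub z hz).2
  have h6 : (G.N F).card = 6 := hF.big.1.2.1
  -- two or three neighbours in `F`
  have hd : ∀ w ∈ G.N F, G.d w F = 2 ∨ G.d w F = 3 := by
    intro w hw
    have h1 := h3.pos F hF w hw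
    have h2 : G.d w F ≤ 3 := by
      rw [← hF.c3]
      exact card_le_card inter_subset_right
    have h4 : G.d w F ≠ 1 := by
      intro h7
      obtain ⟨z, hz⟩ := card_eq_one.1 h7
      exact hcr z ⟨w, hw, hz⟩
    omega
  -- closed under the partners
  have hcl : ∀ v w, q v w → v ∈ G.N F → w ∈ G.N F := fun v w h hv => qN28 hq hFq hv h
  -- the counting lemma at the three vertices
  have hA : 2 * ∑ w ∈ G.N F, (G.d w F : ℤ) ≤
      ∑ w ∈ G.N F, (G.d w F : ℤ) * (G.wt3 q w * ((G.tT q F w).card : ℤ)) := by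
    rw [← swap28]
    have h1 : ∑ w ∈ G.N F, (G.d w F : ℤ) = ∑ z ∈ F, ((G.Tz F z).card : ℤ) := by
      have h2 := swap28 G F (fun _ => 1)
      simp only [mul_one, sum_const, nsmul_eq_mul] at h2
      exact h2.symm
    rw [h1, mul_sum]
    refine sum_le_sum fun z hz => ?_
    refine (h5 F hF (G.Tz F z) inter_subset_right ?_ z ?_).1
    · intro v w h hv
      have hv' := mem_Tz28.1 hv
      refine mem_Tz28.2 ⟨?_, hcl v w h hv'.2⟩
      have hzw : z ≠ w := by
        rintro rfl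
        exact hFq z hz ⟨v, hq.symm _ _ h⟩
      exact G.sym _ _ (Tw_nb5 (hq.tw _ _ h) (G.sym _ _ hv'.1) hzw)
    · intro y hy
      exact cover28 hF hhub hcr hz hy
  have hB : 15 ≤ ∑ w ∈ G.N F, (G.d w F : ℤ) := by
    have h1 : ∑ w ∈ G.N F, (G.d w F : ℤ) = ∑ z ∈ F, ((G.Tz F z).card : ℤ) := by
      have h2 := swap28 G F (fun _ => 1)
      simp only [mul_one, sum_const, nsmul_eq_mul] at h2
      exact h2.symm
    rw [h1]
    calc (15 : ℤ) = ∑ _z ∈ F, 5 := by rw [sum_const, hF.c3]; rfl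
      _ ≤ _ := sum_le_sum fun z hz => by
        have := h3.miss F hF z hz (hhub z hz).1
        exact_mod_cast this
  -- the sums
  obtain ⟨m, hm⟩ : ∃ m, m = ∑ w ∈ G.N F, (if G.d w F = 2 then (1 : ℤ) else 0) := ⟨_, rfl⟩
  obtain ⟨W2, hW2⟩ : ∃ x, x = ∑ w ∈ G.N F, G.wt3 q w * (if G.d w F = 2 then (1 : ℤ) else 0) :=
    ⟨_, rfl⟩
  obtain ⟨W3, hW3⟩ : ∃ x, x = ∑ w ∈ G.N F, G.wt3 q w * (if G.d w F = 3 then (1 : ℤ) else 0) :=
    ⟨_, rfl⟩
  obtain ⟨X2, hX2⟩ : ∃ x, x = ∑ w ∈ G.N F,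
    G.wt3 q w * (if G.d w F = 2 then ((G.tT q F w).card : ℤ) else 0) := ⟨_, rfl⟩
  obtain ⟨X3, hX3⟩ : ∃ x, x = ∑ w ∈ G.N F,
    G.wt3 q w * (if G.d w F = 3 then ((G.tT q F w).card : ℤ) else 0) := ⟨_, rfl⟩
  have hdq : ∀ v w, q v w → G.d v F = G.d w F := by
    intro v w h
    unfold d
    rw [qF28 hq hFq h]
  have eW2 : Even W2 := by
    rw [hW2]
    exact even28 hq n9 hcl _ fun v w h => by rw [hdq v w h]
  have eW3 : Even W3 := by
    rw [hW3]
    exact even28 hq n9 hcl _ fun v w h => by rw [hdq v w h]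
  have eX2 : Even X2 := by
    rw [hX2]
    exact even28 hq n9 hcl _ fun v w h => by rw [hdq v w h, qT28 hq n9 h]
  have eX3 : Even X3 := by
    rw [hX3]
    exact even28 hq n9 hcl _ fun v w h => by rw [hdq v w h, qT28 hq n9 h]
  have hval : ∑ w ∈ G.N F, G.val3 q F w = W2 + X2 + 3 * W3 + X3 := by
    rw [hW2, hX2, hW3, hX3, mul_sum, ← sum_add_distrib, ← sum_add_distrib, ← sum_add_distrib]
    refine sum_congr rfl fun w hw => ?_
    unfold val3
    rcases hd w hw with h | h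
    · rw [h]
      norm_num
      ring
    · rw [h]
      norm_num
      ring
  have hD : ∑ w ∈ G.N F, (G.d w F : ℤ) = 18 - m := by
    have h1 : ∑ w ∈ G.N F, (G.d w F : ℤ) = ∑ w ∈ G.N F, (3 - (if G.d w F = 2 then (1 : ℤ) else 0)) := by
      refine sum_congr rfl fun w hw => ?_
      rcases hd w hw with h | h
      · rw [h]; norm_num
      · rw [h]; norm_num
    rw [h1, sum_sub_distrib, sum_const, h6, ← hm]
    norm_num
  have hE : ∑ w ∈ G.N F, (G.d w F : ℤ) * (G.wt3 q w * ((G.tT q F w).card : ℤ)) =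
      2 * X2 + 3 * X3 := by
    rw [hX2, hX3, mul_sum, mul_sum, ← sum_add_distrib]
    refine sum_congr rfl fun w hw => ?_
    rcases hd w hw with h | h
    · rw [h]; norm_num
    · rw [h]; norm_num
  -- the bounds for one vertex
  have hb : ∀ w ∈ G.N F, (G.wt3 q w = 2 ∧ (G.d w F : ℤ) + ((G.tT q F w).card : ℤ) ≤ 5) ∨
      (G.wt3 q w = 1 ∧ (G.d w F : ℤ) + ((G.tT q F w).card : ℤ) ≤ 4) ∨ G.wt3 q w = 0 := by
    intro w hw
    rcases tri76 G q w with h | h | h
    · refine Or.inl ⟨wt3_low28 h, ?_⟩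
      have h1 := bndl28 h3 hF hw h
      have h2 := tT_le28 (G := G) (q := q) (F := F) w
      have h4 : G.d w F + (G.tT q F w).card ≤ 5 := by omega
      exact_mod_cast h4
    · refine Or.inr (Or.inl ⟨wt3_q28 hq h, ?_⟩)
      have h1 := bndq28 h3 hF hhub hw h
      exact_mod_cast h1
    · exact Or.inr (Or.inr (wt3_hub28 h))
  have hX2le : X2 ≤ 3 * W2 := by
    rw [hX2, hW2, mul_sum]
    refine sum_le_sum fun w hw => ?_
    have h1 := hb w hw
    rcases hd w hw with h | h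
    · rw [h] at h1 ⊢
      rcases h1 with h1 | h1 | h1
      · rw [h1.1]; have := h1.2; norm_num at this ⊢; omega
      · rw [h1.1]; have := h1.2; norm_num at this ⊢; omega
      · rw [h1]; norm_num
    · rw [h]; norm_num
  have hX3le : X3 ≤ 2 * W3 := by
    rw [hX3, hW3, mul_sum]
    refine sum_le_sum fun w hw => ?_
    have h1 := hb w hw
    rcases hd w hw with h | h
    · rw [h]; norm_num
    · rw [h] at h1 ⊢
      rcases h1 with h1 | h1 | h1
      · rw [h1.1]; have := h1.2; norm_num at this ⊢; omega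
      · rw [h1.1]; have := h1.2; norm_num at this ⊢; omega
      · rw [h1]; norm_num
  have hW2m : W2 ≤ 2 * m := by
    rw [hW2, hm, mul_sum]
    refine sum_le_sum fun w hw => ?_
    rcases hb w hw with h | h | h
    · rw [h.1]
    · rw [h.1]; split_ifs <;> norm_num
    · rw [h]; split_ifs <;> norm_num
  have hwt0 : ∀ w ∈ G.N F, 0 ≤ G.wt3 q w := by
    intro w hw
    rcases hb w hw with h | h | h
    · rw [h.1]; norm_num
    · rw [h.1]; norm_num
    · rw [h]
  have hW30 : 0 ≤ W3 := by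
    rw [hW3]
    refine sum_nonneg fun w hw => mul_nonneg (hwt0 w hw) ?_
    split_ifs <;> norm_num
  have hW20 : 0 ≤ W2 := by
    rw [hW2]
    refine sum_nonneg fun w hw => mul_nonneg (hwt0 w hw) ?_
    split_ifs <;> norm_num
  have hX20 : 0 ≤ X2 := by
    rw [hX2]
    refine sum_nonneg fun w hw => mul_nonneg (hwt0 w hw) ?_
    split_ifs
    · positivity
    · norm_num
  have hX30 : 0 ≤ X3 := by
    rw [hX3]
    refine sum_nonneg fun w hw => mul_nonneg (hwt0 w hw) ?_
    split_ifs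
    · positivity
    · norm_num
  -- the exceptional case
  have hexc : ¬ (W2 = 6 ∧ W3 = 0 ∧ m = 3) := by
    rintro ⟨e1, e2, e3⟩
    have hlo' : ∀ w ∈ G.N F, G.d w F = 2 → G.wt3 q w = 2 := by
      have h1 : ∑ w ∈ G.N F, (2 * (if G.d w F = 2 then (1 : ℤ) else 0) -
          G.wt3 q w * (if G.d w F = 2 then (1 : ℤ) else 0)) = 0 := by
        rw [sum_sub_distrib, ← mul_sum, ← hm, ← hW2, e1, e3]
        norm_num
      have h2 := (sum_eq_zero_iff_of_nonneg ?_).1 h1
      · intro w hw h4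
        have h7 := h2 w hw
        rw [if_pos h4] at h7
        linarith
      · intro w hw
        rcases hb w hw with h | h | h
        · rw [h.1]; norm_num
        · rw [h.1]; split_ifs <;> norm_num
        · rw [h]; split_ifs <;> norm_num
    have hhi' : ∀ w ∈ G.N F, G.d w F = 3 → G.wt3 q w = 0 := by
      rw [hW3] at e2
      have h2 := (sum_eq_zero_iff_of_nonneg ?_).1 e2
      · intro w hw h4
        have h7 := h2 w hw
        rw [if_pos h4] at h7
        linarith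
      · intro w hw
        refine mul_nonneg (hwt0 w hw) ?_
        split_ifs <;> norm_num
    have hlo : ∀ w ∈ G.N F, G.Low w → G.d w F = 2 := by
      intro w hw hl
      rcases hd w hw with h | h
      · exact h
      · have h1 := hhi' w hw h
        rw [wt3_low28 hl] at h1
        norm_num at h1
    have hnq : ∀ w ∈ G.N F, ¬ IsQ q w := by
      intro w hw hl
      rcases hd w hw with h | h
      · have h1 := hlo' w hw h
        rw [wt3_q28 hq hl] at h1
        norm_num at h1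
      · have h1 := hhi' w hw h
        rw [wt3_q28 hq hl] at h1
        norm_num at h1
    have hhi : ∀ w ∈ G.N F, ¬ G.Low w → G.d w F = 3 := by
      intro w hw hl
      rcases hd w hw with h | h
      · have h1 := hlo' w hw h
        rw [wt3_hub28 ⟨hl, hnq w hw⟩] at h1
        norm_num at h1
      · exact h
    have h1 := except28 h3 hF hhub hcr hlo hhi hnq
    have h2 : (G.l (G.N F) : ℤ) = m := by
      rw [hm, ← sum_filter, sum_const, nsmul_eq_mul, mul_one]
      unfold l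
      congr 2
      ext w
      simp only [mem_filter, and_congr_right_iff]
      intro hw
      constructor
      · exact hlo w hw
      · intro h4
        by_contra h7
        have h8 := hhi w hw h7
        omega
    omega
  rw [hval]
  rw [hE, hD] at hA
  rw [hD] at hB
  obtain ⟨u, hu⟩ := eW2
  obtain ⟨v, hv⟩ := eW3
  obtain ⟨x, hx⟩ := eX2
  obtain ⟨y, hy⟩ := eX3
  by_contra hcon
  apply hexc
  have b1 : 0 ≤ u := by omega
  have b2 : u ≤ 3 := by omega
  have b3 : 0 ≤ v := by omega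
  have b4 : v ≤ 4 := by omega
  interval_cases u <;> interval_cases v <;> omega

end CG

end Pool.Agent.Lib.MP_e95c01_co.N
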