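import Pool.Agent.Lib.MP_e95c01_co.T.StmtsF76
import Pool.Agent.Lib.MP_e95c01_co.T.Aux76

/-!
# F8: fragments with three vertices, a chosen pair and a hub
-/

namespace Pool.Agent.Lib.MP_e95c01_co.N

open Finset

variable {V : Type} [Fintype V] [DecidableEq V]

namespace CG

variable {G : CG V} {q : V → V → Prop}

theorem wt3_low76 {v : V} (h : G.Low v) : G.wt3 q v = 2 := by
  rw [wt3, if_pos h]

theorem wt3_q76 (hq : G.QS q) {v : V} (h : IsQ q v) : G.wt3 q v = 1 := by
  rw [wt3, if_neg (q_not_low76 hq h), if_pos h]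

theorem wt3_hub76 {v : V} (h : G.HubQ q v) : G.wt3 q v = 0 := by
  rw [wt3, if_neg h.1, if_neg h.2]

theorem wt3_nonneg76 (G : CG V) (q : V → V → Prop) (v : V) : 0 ≤ G.wt3 q v := by
  rw [wt3]
  split_ifs <;> omega

theorem F3s_n9_76 {F : Finset V} (hF : G.F3s q F) : 9 ≤ Fintype.card V := by
  have := hF.n12
  omega

/-- the partner of a vertex of `N F` -/
theorem F3s_partner76 {F : Finset V} (hF : G.F3s q F) {v w : V} (h : q v w) (hv : v ∈ G.N F)
    (hw : w ∉ F) {x : V} (hx : x ∈ F) (hxv : x ∈ G.nb v) : w ∈ G.N F := by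
  have h1 : x ≠ w := by
    rintro rfl
    exact hw hx
  exact mem_N76.2 ⟨hw, x, hx, G.sym _ _ (Tw_nb5 (hF.qs.tw _ _ h) hxv h1)⟩

variable (G q)

theorem st11Q_76 (h0 : G.St11V0 q) (hC : G.St11Cnt q) : G.St11Q q := by
  classical
  intro F hF v w z hFe hvw hzv hzw hz
  have n9 := F3s_n9_76 hF
  have hq := hF.qs
  have hvF : v ∈ F := by rw [hFe]; simp
  have hwF : w ∈ F := by rw [hFe]; simp
  have hzF : z ∈ F := by rw [hFe]; simp
  have hFm : ∀ x ∈ F, x = v ∨ x = w ∨ x = z := by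
    intro x hx
    rw [hFe] at hx
    simpa using hx
  have hne : v ≠ w := q_ne76 hq hvw
  have hwv : q w v := hq.symm _ _ hvw
  have hnolow : ∀ x ∈ F, ¬ G.Low x := by
    intro x hx
    rcases hFm x hx with h | h | h
    · rw [h]; exact q_not_low76 hq ⟨_, hvw⟩
    · rw [h]; exact q_not_low76 hq ⟨_, hwv⟩
    · rw [h]; exact hz.1
  -- neighbours of vertices of F
  have hnbF : ∀ x ∈ F, ∀ y ∈ G.nb x, y ∈ F ∨ y ∈ G.N F := by
    intro x hx y hy
    by_cases h : y ∈ F
    · exact Or.inl h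
    · exact Or.inr (mem_N76.2 ⟨h, x, hx, hy⟩)
  have hzv' : z ∈ G.nb v := by
    by_contra hno
    have h1 : z ∉ G.nb w := fun h => hno (Tw_nb5 (hq.tw _ _ hwv) h hzv)
    have h2 : G.nb z ⊆ G.N F := by
      intro y hy
      rcases hnbF z hzF y hy with h | h
      · exfalso
        rcases hFm y h with h3 | h3 | h3
        · rw [h3] at hy
          exact hno (G.sym _ _ hy)
        · rw [h3] at hy
          exact h1 (G.sym _ _ hy)
        · rw [h3] at hy
          exact G.irr _ hy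
      · exact h
    have h3 := Finset.card_le_card h2
    have h4 : (G.N F).card = 6 := hF.big.1.2.1
    have h5 := G.deg z
    exact hz.1 (by show (G.nb z).card = 6; omega)
  -- the set S
  set S := G.nb v ∩ G.N F with hS
  have hScard : S.card = 5 := by
    have h1 : (G.nb v).card = 7 := q_card76 hq ⟨_, hvw⟩
    have h2 : G.nb v = insert w (insert z S) := by
      ext y
      constructor
      · intro hy
        rcases hnbF v hvF y hy with h | h
        · rcases hFm y h with h3 | h3 | h3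
          · rw [h3] at hy
            exact absurd hy (G.irr _)
          · rw [h3]; exact mem_insert_self _ _
          · rw [h3]; exact mem_insert_of_mem (mem_insert_self _ _)
        · exact mem_insert_of_mem (mem_insert_of_mem (mem_inter.2 ⟨hy, h⟩))
      · intro hy
        rcases mem_insert.1 hy with h | h
        · rw [h]; exact q_nb76 hq hvw
        rcases mem_insert.1 h with h | h
        · rw [h]; exact hzv'
        · exact (mem_inter.1 h).1
    have h3 : z ∉ S := fun h => (mem_N76.1 (mem_inter.1 h).2).1 hzF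
    have h4 : w ∉ insert z S := by
      intro h
      rcases mem_insert.1 h with h | h
      · exact hzw h.symm
      · exact (mem_N76.1 (mem_inter.1 h).2).1 hwF
    rw [h2, card_insert_of_notMem h4, card_insert_of_notMem h3] at h1
    omega
  have hSN : S ⊆ G.N F := inter_subset_right
  have hnF : ∀ {x : V}, x ∈ G.N F → x ∉ F := fun h => (mem_N76.1 h).1
  have hqF : ∀ v' w', q v' w' → w' ∈ F → v' ∈ F := by
    intro v' w' h hw'
    rcases hFm w' hw' with h3 | h3 | h3
    · have h4 : w = v' := q_uniq76 hq n9 hvw (by rw [h3] at h; exact hq.symm _ _ h)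
      rw [← h4]; exact hwF
    · have h4 : v = v' := q_uniq76 hq n9 hwv (by rw [h3] at h; exact hq.symm _ _ h)
      rw [← h4]; exact hvF
    · exact absurd ⟨_, by rw [h3] at h; exact hq.symm _ _ h⟩ hz.2
  have hclosed : ∀ v' w', q v' w' → v' ∈ S → w' ∈ S := by
    intro v' w' h hv'
    have h1 := mem_inter.1 hv'
    have h2 : w' ∉ F := fun h3 => hnF h1.2 (hqF _ _ h h3)
    have h3 : v ≠ w' := by
      rintro rfl
      exact h2 hvF
    have h4 : v ∈ G.nb w' := Tw_nb5 (hq.tw _ _ h) (G.sym _ _ h1.1) h3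
    exact mem_inter.2 ⟨G.sym _ _ h4, mem_N76.2 ⟨h2, v, hvF, G.sym _ _ h4⟩⟩
  have hin : ∀ {x : V}, x ∈ G.N F → v ∈ G.nb x → x ∈ S := fun h h' =>
    mem_inter.2 ⟨G.sym _ _ h', h⟩
  -- covers
  have hcov : ∀ y ∈ S,
    (∃ w ∈ S, G.Low w ∧ y ∈ G.nb w) ∨ (∃ v ∈ S, ∃ w ∈ S, q v w ∧ y ∈ G.nb v ∧ y ∈ G.nb w) ∨
    (∃ a ∈ S, ∃ b ∈ S, G.HL a b y) := by
    intro y hy
    have hy' := mem_inter.1 hy
    rcases hF.cov v hvF y hy'.2 hy'.1 with h | h | h | h | h
    · obtain ⟨w0, h1, h2, h3, h4⟩ := h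
      rcases mem_union.1 h1 with h5 | h5
      · exact absurd h2 (hnolow _ h5)
      · exact Or.inl ⟨w0, hin h5 h3, h2, h4⟩
    · obtain ⟨v0, h1, w0, h2, h3, h4, h5, h6, h7⟩ := h
      have key : ∀ v0 w0, v0 ∈ F ∪ G.N F → q v0 w0 → v ∈ G.nb v0 → v ∈ G.nb w0 → v0 ∈ S := by
        intro v0 w0 h1 h3 h4 h5
        rcases mem_union.1 h1 with h8 | h8
        · exfalso
          rcases hFm v0 h8 with h9 | h9 | h9
          · rw [h9] at h4
            exact G.irr _ h4
          · have h10 : v = w0 := q_uniq76 hq n9 hwv (by rw [h9] at h3; exact h3)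
            rw [← h10] at h5
            exact G.irr _ h5
          · exact hz.2 ⟨_, by rw [h9] at h3; exact h3⟩
        · exact hin h8 h4
      exact Or.inr (Or.inl ⟨v0, key v0 w0 h1 h3 h4 h5, w0, key w0 v0 h2 (hq.symm _ _ h3) h5 h4,
        h3, h6, h7⟩)
    · obtain ⟨a, b, h1, h2, h3, h4 | h4⟩ := h
      · exact absurd h1.2.1 (hnolow _ h4.2)
      · exact Or.inr (Or.inr ⟨a, hin h4.1 h3, b, hin h4.2 h2, h1⟩)
    · obtain ⟨a, b, h1, -⟩ := h
      exact absurd (hF.sat _ _ _ h1) (hnolow v hvF)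
    · obtain ⟨a, b, h1, -⟩ := h
      exact absurd ⟨_, hq.tw _ _ hvw⟩ ((stTwHL_5 G).twLL _ _ _ _ h1).1
  have hcnt := (hC F hF S hSN hclosed v (fun y hy => by
    rcases hcov y hy with h | h | h
    · exact Or.inl h
    · exact Or.inr (Or.inl h)
    · exact Or.inr (Or.inr (Or.inl h)))).2
    (fun y _ a _ b _ h => absurd ⟨_, hq.tw _ _ hvw⟩ ((stTwHL_5 G).twLL _ _ _ _ h).1)
  rw [hScard] at hcnt
  -- weights
  have hW : (2 : ℤ) ≤ ∑ w ∈ S, G.wt3 q w := by
    have hne : S.Nonempty := by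
      rw [← Finset.card_pos]; omega
    obtain ⟨y, hy⟩ := hne
    have one : ∀ x ∈ S, G.Low x → (2 : ℤ) ≤ ∑ w ∈ S, G.wt3 q w := by
      intro x hx hl
      have h1 := Finset.single_le_sum (f := fun w => G.wt3 q w)
        (fun w _ => wt3_nonneg76 G q w) hx
      simp only [wt3_low76 hl] at h1
      exact h1
    rcases hcov y hy with h | h | h
    · obtain ⟨w0, h1, h2, -⟩ := h
      exact one w0 h1 h2
    · obtain ⟨v0, h1, w0, h2, h3, -, -⟩ := h
      have h4 : ({v0, w0} : Finset V) ⊆ S := by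
        intro x hx
        rcases mem_insert.1 hx with h | h
        · rw [h]; exact h1
        · rw [mem_singleton.1 h]; exact h2
      have h5 := Finset.sum_le_sum_of_subset_of_nonneg (f := fun w => G.wt3 q w) h4
        (fun w _ _ => wt3_nonneg76 G q w)
      rw [Finset.sum_pair (q_ne76 hq h3), wt3_q76 hq ⟨_, h3⟩,
        wt3_q76 hq ⟨_, hq.symm _ _ h3⟩] at h5
      linarith
    · obtain ⟨a, -, b, h2, h3⟩ := h
      exact one b h2 h3.2.1
  -- values
  have hval : ∀ w' ∈ S, G.wt3 q w' + G.wt3 q w' * ((G.tT q F w' ∩ S).card : ℤ) ≤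
      G.val3 q F w' := by
    intro w' hw'
    have h1 := mem_inter.1 hw'
    have h2 : w ≠ w' := by
      rintro rfl
      exact hnF h1.2 hwF
    have h3 : w' ∈ G.nb w := Tw_nb5 (hq.tw _ _ hvw) h1.1 (Ne.symm h2)
    have h4 : 2 ≤ G.d w' F :=
      two_le5 (mem_inter.2 ⟨G.sym _ _ h1.1, hvF⟩) (mem_inter.2 ⟨G.sym _ _ h3, hwF⟩) hne
    have h5 : (G.tT q F w' ∩ S).card ≤ (G.tT q F w').card :=
      Finset.card_le_card inter_subset_left
    have h6 := wt3_nonneg76 G q w'
    have h7 : (1 : ℤ) + ((G.tT q F w' ∩ S).card : ℤ) ≤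
        2 * (G.d w' F : ℤ) + ((G.tT q F w').card : ℤ) - 3 := by
      have : (2 : ℤ) ≤ (G.d w' F : ℤ) := by exact_mod_cast h4
      have : ((G.tT q F w' ∩ S).card : ℤ) ≤ ((G.tT q F w').card : ℤ) := by exact_mod_cast h5
      linarith
    rw [val3]
    nlinarith [mul_le_mul_of_nonneg_left h7 h6]
  have hsum : ∑ w' ∈ S, (G.wt3 q w' + G.wt3 q w' * ((G.tT q F w' ∩ S).card : ℤ)) ≤
      ∑ w' ∈ S, G.val3 q F w' := Finset.sum_le_sum hval
  rw [Finset.sum_add_distrib] at hsum
  have hsub := Finset.sum_le_sum_of_subset_of_nonneg (f := fun w => G.val3 q F w) hSN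
    (fun w' h _ => h0 F hF w' h)
  push_cast at hcnt
  linarith

end CG

end Pool.Agent.Lib.MP_e95c01_co.N
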