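import Pool.Agent.Lib.MP_e95c01_co.T.LfA11

/-!
# T10: leaves (third part): needy chosen twins, the sum of the charges
-/

namespace Pool.Agent.Lib.MP_e95c01_co.N

open Finset

variable {V : Type} [Fintype V] [DecidableEq V]

namespace CG

variable {G : CG V} {q : V → V → Prop} {F : Finset V}

namespace Cx11

/-- needy chosen twins: a good hub -/
theorem caseNq (k : Cx11 G q F) {w : V} (hw : G.Nq11 q F w)
    (hcl : 2 * G.tl {G.Co F} w + G.tq q {G.Co F} w = 2) : ∃ y ∈ G.nb w, G.Gd11 q F y := by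
  classical
  obtain ⟨hwT, ⟨w', hqw⟩, hd⟩ := hw
  have ht := k.hq.tw _ _ hqw
  have hwT' := k.c.twT hwT ht
  have hww : w ≠ w' := ne_of_nb5 ht.1
  have hwR := k.c.memR.2 (Or.inr hwT)
  -- two classes near `w` are equal
  have huniq : ∀ u1 u2, u1 ∈ G.nR {G.Co F} w → u2 ∈ G.nR {G.Co F} w → (G.Low u1 ∨ IsQ q u1) →
      (G.Low u2 ∨ IsQ q u2) → ¬ q w u1 → ¬ q w u2 → u1 = u2 ∨ q u1 u2 := by
    intro u1 u2 h1 h2 c1 c2 n1 n2
    by_contra hcon
    push Not at hcon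
    obtain ⟨m1, m2⟩ := hcon
    rcases c1 with c1 | c1 <;> rcases c2 with c2 | c2
    · have := tl_two5 h1 c1 h2 c2 m1
      omega
    · have e1 := tl_mem5 h1 c1
      have e2 := tq_pair76 k.hq k.tor.reg k.c.n9 h2 c2 n2
      omega
    · have e1 := tl_mem5 h2 c2
      have e2 := tq_pair76 k.hq k.tor.reg k.c.n9 h1 c1 n1
      omega
    · obtain ⟨v1, hv1⟩ := c1
      obtain ⟨v2, hv2⟩ := c2
      have z1 : w ≠ v1 := by
        rintro rfl
        exact n1 (k.hq.symm _ _ hv1)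
      have z2 : w ≠ v2 := by
        rintro rfl
        exact n2 (k.hq.symm _ _ hv2)
      have r1 := q_nR76 k.hq k.tor.reg h1 hv1 z1
      have r2 := q_nR76 k.hq k.tor.reg h2 hv2 z2
      have s1 : ¬ q w v1 := fun h => (ne_of_nb5 (mem_nR76.1 h1).1)
        (q_uniq76 k.hq k.c.n9 (k.hq.symm _ _ h) (k.hq.symm _ _ hv1))
      have s2 : ¬ q w v2 := fun h => (ne_of_nb5 (mem_nR76.1 h2).1)
        (q_uniq76 k.hq k.c.n9 (k.hq.symm _ _ h) (k.hq.symm _ _ hv2))
      have : 4 ≤ G.tq q {G.Co F} w := by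
        rw [tq]
        refine four_le5 (a := u1) (b := v1) (c := u2) (d := v2)
          (mem_filter.2 ⟨h1, ⟨v1, hv1⟩, n1⟩) (mem_filter.2 ⟨r1, ⟨u1, k.hq.symm _ _ hv1⟩, s1⟩)
          (mem_filter.2 ⟨h2, ⟨v2, hv2⟩, n2⟩) (mem_filter.2 ⟨r2, ⟨u2, k.hq.symm _ _ hv2⟩, s2⟩)
          ?_ ?_ ?_ ?_ ?_ ?_
        · exact q_ne76 k.hq hv1
        · exact m1
        · rintro rfl
          exact m2 (k.hq.symm _ _ hv2)
        · rintro rfl
          exact m2 hv1
        · rintro rfl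
          exact m1 (q_uniq76 k.hq k.c.n9 (k.hq.symm _ _ hv1) (k.hq.symm _ _ hv2))
        · exact q_ne76 k.hq hv2
      omega
  -- covers of the edges to `F`
  have hcov : ∀ x ∈ G.nb w, x ∈ F → ∃ u ∈ G.nR {G.Co F} w, (G.Low u ∨ IsQ q u) ∧ ¬ q w u ∧
      x ∈ G.nb u ∧ ¬ q u x := by
    intro x hx hxF
    have hm : G.m {G.Co F} w x = 0 := by
      rw [m_comm76]
      exact m_empty5 (k.c.I0 hxF)
    rcases cov3_76 k.hq k.tor hwR (k.inR hx (Or.inl hxF)) hm with g | g | g | g | g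
    · obtain ⟨u, hu, -, g1, g2⟩ := g
      exact ⟨u, hu, Or.inl g1, fun h => q_not_low76 k.hq ⟨w, k.hq.symm _ _ h⟩ g1, g2,
        fun h => q_not_low76 k.hq ⟨x, h⟩ g1⟩
    · obtain ⟨v, u, hv, hu, g1, g2, g3⟩ := g
      refine ⟨v, hv, Or.inr ⟨u, g1⟩, fun h => ?_, g2, fun h => ?_⟩
      · exact (ne_of_nb5 (mem_nR76.1 hu).1) (q_uniq76 k.hq k.c.n9 (k.hq.symm _ _ h) g1)
      · have := q_uniq76 k.hq k.c.n9 h g1
        subst this
        exact G.irr _ g3
    · obtain ⟨a, b, -, -, g1, -⟩ := g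
      exact absurd g1 (not_low33 ⟨w', ht⟩)
    · obtain ⟨a, b, hb, -, g1, g2, -⟩ := g
      exfalso
      have := tl_two5 hb g2.2.1 (k.inR hx (Or.inl hxF)) g1 (HL_bt76 g2).2.symm
      omega
    · obtain ⟨a, b, -, -, -, g1⟩ := g
      exact absurd ⟨w', ht⟩ (k.c.th.twLL _ _ _ _ g1).1
  have hqF : ∀ x ∈ F, ¬ q w x := fun x hxF h =>
    k.c.ndisj hxF (k.c.twT hwT (k.hq.tw _ _ h))
  have hhub : ∀ x ∈ G.nb w, x ∈ F → G.HubQ q x := by
    intro x hx hxF
    obtain ⟨u, hu, hc, hnq, hxu, hnx⟩ := hcov x hx hxF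
    rcases tri76 G q x with h | h | h
    · rcases huniq u x hu (k.inR hx (Or.inl hxF)) hc (Or.inl h) hnq (hqF x hxF) with e | e
      · subst e
        exact absurd hxu (G.irr _)
      · exact absurd e hnx
    · rcases huniq u x hu (k.inR hx (Or.inl hxF)) hc (Or.inr h) hnq (hqF x hxF) with e | e
      · subst e
        exact absurd hxu (G.irr _)
      · exact absurd e hnx
    · exact h
  obtain ⟨x1, x2, hx12, a1, a2, b1, b2, hall⟩ := k.exX hd
  obtain ⟨l, hl, hlc, hlq, hx1l, -⟩ := hcov x1 a1 a2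
  obtain ⟨u2, hu2, hc2, hq2, hx2u, -⟩ := hcov x2 b1 b2
  have hx2l : x2 ∈ G.nb l := by
    rcases huniq l u2 hl hu2 hlc hc2 hlq hq2 with e | e
    · rw [e]
      exact hx2u
    · refine (k.hq.tw _ _ (k.hq.symm _ _ e)).nb33 hx2u ?_
      rintro rfl
      exact (hhub x2 b1 b2).2 ⟨u2, e⟩
  have hlw := (mem_nR76.1 hl).1
  have hlT : l ∈ G.N F := by
    rcases k.c.memR.1 (mem_nR76.1 hl).2 with h | h
    · rcases hlc with h1 | h1
      · exact absurd h1 (hhub l hlw h).1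
      · exact absurd h1 (hhub l hlw h).2
    · exact h
  have hlw1 : l ≠ w := (ne_of_nb5 hlw).symm
  have hlw2 : l ≠ w' := by
    rintro rfl
    exact hlq hqw
  have hlw' : l ∈ G.nb w' := ht.nb33 hlw hlw2
  have hs : ({w, w'} : Finset V) ⊆ G.N F := by
    intro x hx
    simp only [mem_insert, mem_singleton] at hx
    rcases hx with rfl | rfl
    · exact hwT
    · exact hwT'
  have hc : ({w, w'} : Finset V).card = 2 := card_pair hww
  have hne : ({w, w'} : Finset V).Nonempty := insert_nonempty _ _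
  have hNX : ∀ x ∈ F, x ∈ G.N {w, w'} → x ∈ G.nb w := by
    intro x hxF hx
    obtain ⟨u, hu, hxu⟩ := (k.c.NZ hs hxF).1 hx
    simp only [mem_insert, mem_singleton] at hu
    rcases hu with rfl | rfl
    · exact hxu
    · exact ht.sym33.nb33 hxu (fun e => k.c.ndisj (e ▸ hxF) hwT)
  have hNX' : G.N {w, w'} ∩ F ⊆ G.nb w ∩ F := fun x hx =>
    mem_inter.2 ⟨hNX x (mem_inter.1 hx).2 (mem_inter.1 hx).1, (mem_inter.1 hx).2⟩
  have h5 := (k.expZ hne hs (by omega)).1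
  have h6 := card_le_card hNX'
  have h7 : (G.nb w ∩ F).card = G.d w F := rfl
  have he : (G.N {w, w'} ∩ F).card = ({w, w'} : Finset V).card := by omega
  obtain ⟨-, -, hNE⟩ := (k.expZ hne hs (by omega)).2 he
  have inN : ∀ x ∈ G.nb w, x ∈ F → x ∈ G.N {w, w'} := fun x hx hxF =>
    (k.c.NZ hs hxF).2 ⟨w, mem_insert_self _ _, hx⟩
  have hlE : l ∈ G.N (F \ G.N {w, w'}) := by
    rw [hNE]
    refine mem_union_left _ (mem_sdiff.2 ⟨hlT, ?_⟩)
    simp [hlw1, hlw2]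
  obtain ⟨-, c, hcE, hlc'⟩ := mem_N76.1 hlE
  rw [mem_sdiff] at hcE
  have hcl' : c ∈ G.nb l := G.sym _ _ hlc'
  have hcx : ∀ x ∈ G.nb w, x ∈ F → x ≠ c := by
    rintro x hx hxF rfl
    exact hcE.2 (inN x hx hxF)
  have hd3 : 3 ≤ G.d l F := d_three33 a2 hx1l b2 hx2l hcE.1 hcl' hx12 (hcx x1 a1 a2)
    (hcx x2 b1 b2)
  have hnl := k.Ny_not (w := l) (Or.inr hd3)
  have hh1 := hhub x1 a1 a2
  have hp : ∀ u ∈ G.nb x1, G.Low u → ¬ G.Ny11 q F u → ¬ ∃ b, G.HL x1 b u := by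
    intro u hu hul _
    refine k.paysG hwT (G.sym _ _ a1) (fun x hx hxF => (hhub x hx hxF).1) a2 hu ?_
    rintro rfl
    exact not_low33 ⟨w', ht⟩ hul
  obtain ⟨p, hp1, hp2, hp3⟩ := k.twoP hne hs (by omega) he a2 (inN x1 a1 a2) hh1
  have hpn : ¬ G.Ny11 q F p ∧ ¬ G.Nq11 q F p := by
    apply k.Ny_not
    rcases hp3 with h | h
    · exact Or.inl h
    · exact Or.inr (k.E_d a2 (inN x1 a1 a2) hp1 h)
  -- the class `l` is not adjacent to all of `F`
  have hbad : ¬ (2 ≤ (F \ G.N {w, w'}).card ∧ ∀ x ∈ F \ G.N {w, w'}, x ∈ G.nb l) := by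
    rintro ⟨g1, g2⟩
    have g3 : (F \ G.N {w, w'}) ∪ {x1, x2} ⊆ G.nb l ∩ F := by
      intro x hx
      rcases mem_union.1 hx with hx | hx
      · exact mem_inter.2 ⟨g2 x hx, (mem_sdiff.1 hx).1⟩
      · simp only [mem_insert, mem_singleton] at hx
        rcases hx with rfl | rfl
        · exact mem_inter.2 ⟨hx1l, a2⟩
        · exact mem_inter.2 ⟨hx2l, b2⟩
    have g4 : Disjoint (F \ G.N {w, w'}) {x1, x2} := by
      rw [disjoint_left]
      intro x hx hx'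
      simp only [mem_insert, mem_singleton] at hx'
      rcases hx' with rfl | rfl
      · exact (mem_sdiff.1 hx).2 (inN x a1 a2)
      · exact (mem_sdiff.1 hx).2 (inN x b1 b2)
    have g5 := card_le_card g3
    rw [card_union_of_disjoint g4, card_pair hx12] at g5
    have g6 : 2 ≤ G.d l (G.N F) := d_two33 hwT (G.sym _ _ hlw) hwT' (G.sym _ _ hlw') hww
    have g7 := k.c.vis hlT (hlc.imp id (q_isTw76 k.hq))
    have g8 : (G.nb l ∩ F).card = G.d l F := rfl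
    omega
  have hpl : p ≠ l ∧ ¬ q p l := by
    rcases hp3 with h | h
    · constructor
      · rintro rfl
        exact k.c.ndisj h hlT
      · intro hql
        exact k.c.ndisj (k.c.twF h (k.hq.tw _ _ hql)) hlT
    · constructor
      · rintro rfl
        exact hbad h
      · intro hql
        refine hbad ⟨h.1, fun x hx => ?_⟩
        exact (k.hq.tw _ _ hql).nb33 (h.2 x hx) (fun e => k.c.ndisj (e ▸ (mem_sdiff.1 hx).1) hlT)
  exact ⟨x1, a1, k.good_of a2 hh1 (k.inR hp1 (k.c.nbF a2 hp1))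
    (k.inR (G.sym _ _ hx1l) (Or.inr hlT)) hp2 hlc hpl.1 hpl.2 hpn hnl hp⟩

end Cx11

open Classical in
/-- the payments -/
noncomputable def pay11 (G : CG V) (q : V → V → Prop) (F : Finset V) (y z : V) : ℤ :=
  (if G.Gd11 q F y ∧ z ∈ G.nR {G.Co F} y ∧ G.Ny11 q F z then 2 else 0) +
  (if G.Gd11 q F y ∧ z ∈ G.nR {G.Co F} y ∧ G.Nq11 q F z then 1 else 0) +
  (if (y ∈ F ∧ ¬ G.Gd11 q F y) ∧ z ∈ G.nR {G.Co F} y ∧ G.Mut11 q F z then 1 else 0) +
  (if G.CL11 q F y z ∧ 2 * (G.cc11 q F y : ℤ) ≤ G.ch3 q {G.Co F} y then 2 else 0)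

theorem pay_nonneg11 (y z : V) : 0 ≤ G.pay11 q F y z := by
  rw [pay11]
  split_ifs <;> norm_num

omit [Fintype V] [DecidableEq V] in
theorem sum_ite11 (s : Finset V) (p : V → Prop) [DecidablePred p] (c : ℤ) :
    ∑ z ∈ s, (if p z then c else 0) = c * ((s.filter p).card : ℤ) := by
  rw [← sum_filter, sum_const, nsmul_eq_mul, mul_comm]

open Classical in
theorem out_eq11 (y : V) : ∑ z ∈ R {G.Co F}, G.pay11 q F y z =
    2 * (((R {G.Co F}).filter fun z => G.Gd11 q F y ∧ z ∈ G.nR {G.Co F} y ∧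
      G.Ny11 q F z).card : ℤ) +
    1 * (((R {G.Co F}).filter fun z => G.Gd11 q F y ∧ z ∈ G.nR {G.Co F} y ∧
      G.Nq11 q F z).card : ℤ) +
    1 * (((R {G.Co F}).filter fun z => (y ∈ F ∧ ¬ G.Gd11 q F y) ∧ z ∈ G.nR {G.Co F} y ∧
      G.Mut11 q F z).card : ℤ) +
    2 * (((R {G.Co F}).filter fun z => G.CL11 q F y z ∧
      2 * (G.cc11 q F y : ℤ) ≤ G.ch3 q {G.Co F} y).card : ℤ) := by
  simp only [pay11]
  rw [sum_add_distrib, sum_add_distrib, sum_add_distrib, sum_ite11, sum_ite11, sum_ite11,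
    sum_ite11]

namespace Cx11

open Classical in
theorem tp_ge (k : Cx11 G q F) {y : V} (hy : y ∈ F) :
    ((G.nR {G.Co F} y).filter fun w => G.Ny11 q F w).card + G.gl11 q F y ≤
      G.tp {G.Co F} y := by
  rw [gl11, tp, ← card_union_of_disjoint]
  · apply card_le_card
    intro w hw
    rcases mem_union.1 hw with hw | hw
    · rw [mem_filter] at hw ⊢
      exact ⟨hw.1, hw.2.2.1, (k.hubX hw.2 (G.sym _ _ (mem_nR76.1 hw.1).1) hy).2⟩
    · rw [mem_filter] at hw ⊢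
      exact ⟨hw.1, hw.2.1, hw.2.2.2⟩
  · rw [disjoint_left]
    intro w hw hw'
    rw [mem_filter] at hw hw'
    exact hw'.2.2.1 hw.2

open Classical in
theorem tq_ge (_ : Cx11 G q F) {y : V} (hyh : G.HubQ q y) :
    ((G.nR {G.Co F} y).filter fun w => G.Nq11 q F w).card + G.gt11 q F y ≤
      G.tq q {G.Co F} y := by
  rw [gt11, tq, ← card_union_of_disjoint]
  · apply card_le_card
    intro w hw
    rcases mem_union.1 hw with hw | hw
    · rw [mem_filter] at hw ⊢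
      exact ⟨hw.1, hw.2.2.1, fun h => hyh.2 ⟨w, h⟩⟩
    · rw [mem_filter] at hw ⊢
      exact ⟨hw.1, hw.2.1, fun h => hyh.2 ⟨w, h⟩⟩
  · rw [disjoint_left]
    intro w hw hw'
    rw [mem_filter] at hw hw'
    exact hw'.2.2 hw.2

/-- no payments of the last form from `F` -/
theorem noCL (k : Cx11 G q F) {y z : V} (hy : y ∈ F) : ¬ G.CL11 q F y z :=
  fun h => k.c.ndisj hy h.2.2.1

theorem out_good (k : Cx11 G q F) {y : V} (hy : G.Gd11 q F y) :
    ∑ z ∈ R {G.Co F}, G.pay11 q F y z ≤ G.ch3 q {G.Co F} y := by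
  classical
  rw [out_eq11]
  have h1 : ((R {G.Co F}).filter fun z => G.Gd11 q F y ∧ z ∈ G.nR {G.Co F} y ∧
      G.Ny11 q F z).card ≤ ((G.nR {G.Co F} y).filter fun w => G.Ny11 q F w).card := by
    apply card_le_card
    intro w hw
    rw [mem_filter] at hw ⊢
    exact hw.2.2
  have h2 : ((R {G.Co F}).filter fun z => G.Gd11 q F y ∧ z ∈ G.nR {G.Co F} y ∧
      G.Nq11 q F z).card ≤ ((G.nR {G.Co F} y).filter fun w => G.Nq11 q F w).card := by
    apply card_le_card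
    intro w hw
    rw [mem_filter] at hw ⊢
    exact hw.2.2
  have h3 : ((R {G.Co F}).filter fun z => (y ∈ F ∧ ¬ G.Gd11 q F y) ∧
      z ∈ G.nR {G.Co F} y ∧ G.Mut11 q F z).card = 0 := by
    rw [Finset.card_eq_zero, filter_eq_empty_iff]
    intro w _ h
    exact h.1.2 hy
  have h4 : ((R {G.Co F}).filter fun z => G.CL11 q F y z ∧
      2 * (G.cc11 q F y : ℤ) ≤ G.ch3 q {G.Co F} y).card = 0 := by
    rw [Finset.card_eq_zero, filter_eq_empty_iff]
    intro w _ h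
    exact k.noCL hy.1 h.1
  have h5 := (k.chF_hub hy.1 hy.2.1).1
  have h6 := k.tp_ge hy.1
  have h7 := k.tq_ge hy.2.1
  have h8 := hy.2.2
  rw [h3, h4, h5]
  omega

theorem out_F (k : Cx11 G q F) {y : V} (hy : y ∈ F) (hg : ¬ G.Gd11 q F y) :
    ∑ z ∈ R {G.Co F}, G.pay11 q F y z ≤ G.ch3 q {G.Co F} y := by
  classical
  rw [out_eq11]
  have h1 : ((R {G.Co F}).filter fun z => G.Gd11 q F y ∧ z ∈ G.nR {G.Co F} y ∧
      G.Ny11 q F z).card = 0 := by
    rw [Finset.card_eq_zero, filter_eq_empty_iff]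
    intro w _ h
    exact hg h.1
  have h2 : ((R {G.Co F}).filter fun z => G.Gd11 q F y ∧ z ∈ G.nR {G.Co F} y ∧
      G.Nq11 q F z).card = 0 := by
    rw [Finset.card_eq_zero, filter_eq_empty_iff]
    intro w _ h
    exact hg h.1
  have h4 : ((R {G.Co F}).filter fun z => G.CL11 q F y z ∧
      2 * (G.cc11 q F y : ℤ) ≤ G.ch3 q {G.Co F} y).card = 0 := by
    rw [Finset.card_eq_zero, filter_eq_empty_iff]
    intro w _ h
    exact k.noCL hy h.1
  have h0 : 0 ≤ G.ch3 q {G.Co F} y := by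
    rcases tri76 G q y with h | h | h
    · exact k.chF_low hy h
    · exact k.chF_q hy h
    · exact (k.chF_hub hy h).2
  rw [h1, h2, h4]
  by_cases hm : ∃ z ∈ G.nR {G.Co F} y, G.Mut11 q F z
  swap
  · have h3 : ((R {G.Co F}).filter fun z => (y ∈ F ∧ ¬ G.Gd11 q F y) ∧
        z ∈ G.nR {G.Co F} y ∧ G.Mut11 q F z).card = 0 := by
      rw [Finset.card_eq_zero, filter_eq_empty_iff]
      intro w _ h
      exact hm ⟨w, h.2.1, h.2.2⟩
    rw [h3]
    omega
  obtain ⟨z, hzy, hz, l, hl, hlz, hX⟩ := hm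
  have hyz : y ∈ G.nb z := G.sym _ _ (mem_nR76.1 hzy).1
  have hyl : y ∈ G.nb l := by
    have : y ∈ G.nb l ∩ F := by
      rw [hX]
      exact mem_inter.2 ⟨hyz, hy⟩
    exact (mem_inter.1 this).1
  have hyh := (k.hubX hz hyz hy).1
  have hly := k.inR (G.sym _ _ hyl) (Or.inr hl.1)
  have hzl : z ≠ l := ne_of_nb5 hlz
  have hs : ({z, l} : Finset V) ⊆ G.N F := by
    intro x hx
    simp only [mem_insert, mem_singleton] at hx
    rcases hx with rfl | rfl
    · exact hz.1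
    · exact hl.1
  have hc : ({z, l} : Finset V).card = 2 := card_pair hzl
  have hne : ({z, l} : Finset V).Nonempty := insert_nonempty _ _
  have hNX : G.N {z, l} ∩ F ⊆ G.nb z ∩ F := by
    intro x hx
    rw [mem_inter] at hx
    obtain ⟨u, hu, hxu⟩ := (k.c.NZ hs hx.2).1 hx.1
    simp only [mem_insert, mem_singleton] at hu
    rcases hu with rfl | rfl
    · exact mem_inter.2 ⟨hxu, hx.2⟩
    · rw [← hX]
      exact mem_inter.2 ⟨hxu, hx.2⟩
  have h5 := (k.expZ hne hs (by omega)).1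
  have h6 := card_le_card hNX
  have h7 : (G.nb z ∩ F).card = G.d z F := rfl
  have h8 := hz.2.2.1
  have he : (G.N {z, l} ∩ F).card = ({z, l} : Finset V).card := by omega
  have hyN : y ∈ G.N {z, l} := (k.c.NZ hs hy).2 ⟨z, mem_insert_self _ _, hyz⟩
  obtain ⟨p, hp, hpc, -, hpn⟩ := k.payer hne hs (by omega) he hy hyN hyh
  have hnl : 2 ≤ ((G.nR {G.Co F} y).filter fun w => G.Ny11 q F w).card :=
    two_le5 (mem_filter.2 ⟨hzy, hz⟩) (mem_filter.2 ⟨hly, hl⟩) hzl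
  have hmu : ((R {G.Co F}).filter fun z => (y ∈ F ∧ ¬ G.Gd11 q F y) ∧
      z ∈ G.nR {G.Co F} y ∧ G.Mut11 q F z).card ≤
      ((G.nR {G.Co F} y).filter fun w => G.Ny11 q F w).card := by
    apply card_le_card
    intro w hw
    rw [mem_filter] at hw ⊢
    exact ⟨hw.2.2.1, hw.2.2.2.1⟩
  have h9 := (k.chF_hub hy hyh).1
  have h10 := k.tp_ge hy
  rcases hpc with hpc | hpc
  · have h11 : 1 ≤ G.gl11 q F y := by
      rw [gl11, Nat.succ_le_iff, card_pos]
      exact ⟨p, mem_filter.2 ⟨hp, hpc, hpn.1, k.pays hz hyz hy p (mem_nR76.1 hp).1 hpc hpn.1⟩⟩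
    rw [h9]
    omega
  · have h11 := hub_tq76 k.hq k.tor.reg k.c.n9 hyh.2 hp hpc
    rw [h9]
    omega

theorem out_T (k : Cx11 G q F) {y : V} (hy : y ∈ G.N F) :
    ∑ z ∈ R {G.Co F}, G.pay11 q F y z = 0 ∨
      ∑ z ∈ R {G.Co F}, G.pay11 q F y z ≤ G.ch3 q {G.Co F} y := by
  classical
  rw [out_eq11]
  have hg : ¬ G.Gd11 q F y := fun h => k.c.ndisj h.1 hy
  have h1 : ((R {G.Co F}).filter fun z => G.Gd11 q F y ∧ z ∈ G.nR {G.Co F} y ∧
      G.Ny11 q F z).card = 0 := by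
    rw [Finset.card_eq_zero, filter_eq_empty_iff]
    intro w _ h
    exact hg h.1
  have h2 : ((R {G.Co F}).filter fun z => G.Gd11 q F y ∧ z ∈ G.nR {G.Co F} y ∧
      G.Nq11 q F z).card = 0 := by
    rw [Finset.card_eq_zero, filter_eq_empty_iff]
    intro w _ h
    exact hg h.1
  have h3 : ((R {G.Co F}).filter fun z => (y ∈ F ∧ ¬ G.Gd11 q F y) ∧
      z ∈ G.nR {G.Co F} y ∧ G.Mut11 q F z).card = 0 := by
    rw [Finset.card_eq_zero, filter_eq_empty_iff]
    intro w _ h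
    exact k.c.ndisj h.1.1 hy
  rw [h1, h2, h3]
  by_cases hc : 2 * (G.cc11 q F y : ℤ) ≤ G.ch3 q {G.Co F} y
  · right
    have h4 : ((R {G.Co F}).filter fun z => G.CL11 q F y z ∧
        2 * (G.cc11 q F y : ℤ) ≤ G.ch3 q {G.Co F} y).card ≤ G.cc11 q F y := by
      rw [cc11]
      apply card_le_card
      intro w hw
      rw [mem_filter] at hw ⊢
      exact ⟨mem_univ _, hw.2.1⟩
    omega
  · left
    have h4 : ((R {G.Co F}).filter fun z => G.CL11 q F y z ∧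
        2 * (G.cc11 q F y : ℤ) ≤ G.ch3 q {G.Co F} y).card = 0 := by
      rw [Finset.card_eq_zero, filter_eq_empty_iff]
      intro w _ h
      exact hc h.2
    rw [h4]
    norm_num

theorem in_nonneg (_ : Cx11 G q F) (z : V) : 0 ≤ ∑ y ∈ R {G.Co F}, G.pay11 q F y z :=
  sum_nonneg fun y _ => pay_nonneg11 y z

theorem in_one (_ : Cx11 G q F) {y z : V} (hy : y ∈ R {G.Co F}) :
    G.pay11 q F y z ≤ ∑ y ∈ R {G.Co F}, G.pay11 q F y z :=
  single_le_sum (f := fun y => G.pay11 q F y z) (fun y _ => pay_nonneg11 y z) hy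

theorem in_Ny (k : Cx11 G q F) {z : V} (hz : G.Ny11 q F z) :
    2 ≤ ∑ y ∈ R {G.Co F}, G.pay11 q F y z := by
  classical
  have A : (∃ y ∈ G.nb z, G.Gd11 q F y) → 2 ≤ ∑ y ∈ R {G.Co F}, G.pay11 q F y z := by
    rintro ⟨y, hy, hg⟩
    refine le_trans ?_ (k.in_one (k.c.memR.2 (Or.inl hg.1)))
    rw [pay11, if_pos ⟨hg, k.inR (G.sym _ _ hy) (Or.inr hz.1), hz⟩]
    split_ifs <;> norm_num
  have B : (∃ l, G.CL11 q F l z ∧ 2 * (G.cc11 q F l : ℤ) ≤ G.ch3 q {G.Co F} l) →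
      2 ≤ ∑ y ∈ R {G.Co F}, G.pay11 q F y z := by
    rintro ⟨l, hl, hc⟩
    refine le_trans ?_ (k.in_one (k.c.memR.2 (Or.inr hl.2.2.1)))
    rw [pay11, if_pos (c := G.CL11 q F l z ∧ _) ⟨hl, hc⟩]
    split_ifs <;> norm_num
  have C : G.Mut11 q F z → 2 ≤ ∑ y ∈ R {G.Co F}, G.pay11 q F y z := by
    intro hm
    by_cases hg : ∃ y ∈ G.nb z, G.Gd11 q F y
    · exact A hg
    obtain ⟨x1, x2, hx12, a1, a2, b1, b2, -⟩ := k.exX hz.2.2.1
    have key : ∀ x ∈ G.nb z, x ∈ F → 1 ≤ G.pay11 q F x z := by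
      intro x hx hxF
      rw [pay11, if_pos (c := (x ∈ F ∧ ¬ G.Gd11 q F x) ∧ _)
        ⟨⟨hxF, fun h => hg ⟨x, hx, h⟩⟩, k.inR (G.sym _ _ hx) (Or.inr hz.1), hm⟩]
      split_ifs <;> norm_num
    have h1 : ∑ y ∈ ({x1, x2} : Finset V), G.pay11 q F y z ≤
        ∑ y ∈ R {G.Co F}, G.pay11 q F y z := by
      apply sum_le_sum_of_subset_of_nonneg
      · intro x hx
        simp only [mem_insert, mem_singleton] at hx
        rcases hx with rfl | rfl
        · exact k.c.memR.2 (Or.inl a2)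
        · exact k.c.memR.2 (Or.inl b2)
      · intro y _ _
        exact pay_nonneg11 y z
    rw [sum_pair hx12] at h1
    have h2 := key x1 a1 a2
    have h3 := key x2 b1 b2
    omega
  rcases k.nd hz with ⟨l, h⟩ | ⟨a, b, h⟩
  · rcases k.caseLO hz h with h | h | h
    · exact A h
    · exact B h
    · exact C h
  · rcases k.caseHC hz h with h | h
    · exact A h
    · exact B h

theorem in_Nq (k : Cx11 G q F) {z : V} (hz : G.Nq11 q F z)
    (hcl : 2 * G.tl {G.Co F} z + G.tq q {G.Co F} z = 2) :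
    1 ≤ ∑ y ∈ R {G.Co F}, G.pay11 q F y z := by
  classical
  obtain ⟨y, hy, hg⟩ := k.caseNq hz hcl
  refine le_trans ?_ (k.in_one (k.c.memR.2 (Or.inl hg.1)))
  rw [pay11, if_pos (c := G.Gd11 q F y ∧ z ∈ G.nR {G.Co F} y ∧ G.Nq11 q F z)
    ⟨hg, k.inR (G.sym _ _ hy) (Or.inr hz.1), hz⟩]
  split_ifs <;> norm_num

/-- the final charge of every vertex is not negative -/
theorem final (k : Cx11 G q F) {z : V} (hz : z ∈ R {G.Co F}) :
    ∑ y ∈ R {G.Co F}, G.pay11 q F z y ≤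
      G.ch3 q {G.Co F} z + ∑ y ∈ R {G.Co F}, G.pay11 q F y z := by
  have hin := k.in_nonneg z
  rcases k.c.memR.1 hz with h | h
  · by_cases hg : G.Gd11 q F z
    · have := k.out_good hg
      omega
    · have := k.out_F h hg
      omega
  rcases k.out_T h with h0 | h0
  swap
  · omega
  rw [h0]
  rcases tri76 G q z with hc | hc | hc
  · obtain ⟨c1, c2, c3, j, c4⟩ := k.chT_low h hc
    have hd := k.c.exp1 h
    by_cases hny : G.Ny11 q F z
    · have h1 := k.in_Ny hny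
      have hfl : ¬ G.FL F z := fun h5 => by
        have := h5.2.2.1
        have := hny.2.2.1
        omega
      have := c2 hfl
      omega
    · by_cases hd4 : 4 ≤ G.d z F
      · omega
      have hfl : ¬ G.FL F z := fun h5 => by
        have := h5.2.2.1
        omega
      have h2 := c2 hfl
      by_cases hd2 : G.d z F = 2
      · have h3 : ¬ 2 * G.tl {G.Co F} z + G.tq q {G.Co F} z + 2 * G.tA {G.Co F} z = 2 :=
          fun h4 => hny ⟨h, hc, hd2, h4⟩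
        omega
      · omega
  · obtain ⟨c1, c2⟩ := k.chT_q h hc
    have hd := k.c.exp1 h
    by_cases hcl : G.d z F = 2 ∧ 2 * G.tl {G.Co F} z + G.tq q {G.Co F} z = 2
    · have := k.in_Nq ⟨h, hc, hcl.1⟩ hcl.2
      omega
    · omega
  · have := k.chT_hub h hc
    omega

theorem sum_nonneg' (k : Cx11 G q F) : 0 ≤ ∑ z ∈ R {G.Co F}, G.ch3 q {G.Co F} z := by
  have h1 : ∑ z ∈ R {G.Co F}, ∑ y ∈ R {G.Co F}, G.pay11 q F z y ≤
      ∑ z ∈ R {G.Co F}, (G.ch3 q {G.Co F} z + ∑ y ∈ R {G.Co F}, G.pay11 q F y z) :=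
    sum_le_sum fun z hz => k.final hz
  rw [sum_add_distrib, sum_comm (s := R {G.Co F}) (t := R {G.Co F})
    (f := fun z y => G.pay11 q F y z)] at h1
  linarith

end Cx11

/-- leaves -/
theorem leaf_11 (G : CG V) (q : V → V → Prop) (hleaf : G.StLeaf) (hC : G.StCh3 q)
    (hH : G.StHub3 q) (hL : G.StLow3 q) (hN : G.StNd3 q) (hq : G.QS q) (F : Finset V)
    (hF : G.Leaf F) : 0 ≤ G.P3 q F := by
  have k : Cx11 G q F := ⟨⟨hF, hleaf, stTwHL_5 G⟩, hq, hC, hH, hL, hN⟩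
  have h1 := G.stId3_11 q _ k.tor.reg
  have h2 := G.stPs3_11 q F hF.big.1
  rw [sum_singleton] at h1
  have h3 := k.sum_nonneg'
  linarith

/-- row T10 -/
theorem stLf45_11 (G : CG V) (q : V → V → Prop) (hleaf : G.StLeaf) (hC : G.StCh3 q)
    (hH : G.StHub3 q) (hL : G.StLow3 q) (hN : G.StNd3 q) : G.StLf45 q :=
  fun hq F hF _ => G.leaf_11 q hleaf hC hH hL hN hq F hF

/-- row T10b (the proof covers all leaves) -/
theorem stLf6_11 (G : CG V) (q : V → V → Prop) (hleaf : G.StLeaf) (hC : G.StCh3 q)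
    (hH : G.StHub3 q) (hL : G.StLow3 q) (hN : G.StNd3 q) : G.StLf6 q :=
  fun hq F hF _ => G.leaf_11 q hleaf hC hH hL hN hq F hF

end CG

end Pool.Agent.Lib.MP_e95c01_co.N
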