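import Pool.Agent.Lib.MP_e95c01_co.T.Aux76
import Pool.Agent.Lib.MP_e95c01_co.T.StmtsF76

/-!
# F9: fragments with a low vertex and two hubs
-/

namespace Pool.Agent.Lib.MP_e95c01_co.N

open Finset

variable {V : Type} [Fintype V] [DecidableEq V]

namespace CG

variable {G : CG V} {q : V → V → Prop} {F : Finset V} {u z z' : V}

/-- covered by a low vertex, a chosen pair or an `HL` inside `S` -/
def Cy50 (G : CG V) (q : V → V → Prop) (S : Finset V) (y : V) : Prop :=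
  (∃ w ∈ S, G.Low w ∧ y ∈ G.nb w) ∨ (∃ v ∈ S, ∃ w ∈ S, q v w ∧ y ∈ G.nb v ∧ y ∈ G.nb w) ∨
    (∃ a ∈ S, ∃ b ∈ S, G.HL a b y)

/-- the situation in F9 -/
structure S50 (G : CG V) (q : V → V → Prop) (F : Finset V) (u z z' : V) : Prop where
  h : G.F3s q F
  eF : F = {u, z, z'}
  lo : G.Low u
  n1 : u ≠ z
  n2 : u ≠ z'
  n3 : z ≠ z'
  hz : G.HubQ q z
  hz' : G.HubQ q z'

theorem S50.swap (s : S50 G q F u z z') : S50 G q F u z' z :=
  ⟨s.h, by rw [s.eF, pair_comm], s.lo, s.n2, s.n1, s.n3.symm, s.hz', s.hz⟩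

theorem S50.memF (s : S50 G q F u z z') {x : V} : x ∈ F ↔ x = u ∨ x = z ∨ x = z' := by
  rw [s.eF, mem_insert, mem_insert, mem_singleton]

theorem S50.u_mem (s : S50 G q F u z z') : u ∈ F := s.memF.2 (Or.inl rfl)

theorem S50.z_mem (s : S50 G q F u z z') : z ∈ F := s.memF.2 (Or.inr (Or.inl rfl))

theorem S50.z'_mem (s : S50 G q F u z z') : z' ∈ F := s.memF.2 (Or.inr (Or.inr rfl))

theorem S50.lowF (s : S50 G q F u z z') {x : V} (hx : x ∈ F) (hl : G.Low x) : x = u := by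
  rcases s.memF.1 hx with h | h | h
  · exact h
  · exact absurd (h ▸ hl) s.hz.1
  · exact absurd (h ▸ hl) s.hz'.1

theorem S50.qF (s : S50 G q F u z z') {x : V} (hx : x ∈ F) : ¬ IsQ q x := by
  intro hq
  rcases s.memF.1 hx with h | h | h
  · exact q_not_low76 s.h.qs hq (h ▸ s.lo)
  · exact s.hz.2 (h ▸ hq)
  · exact s.hz'.2 (h ▸ hq)

theorem notF50 {x : V} (hx : x ∈ G.N F) : x ∉ F := (mem_N76.1 hx).1

theorem neF50 {x y : V} (hx : x ∈ G.N F) (hy : y ∈ F) : x ≠ y := fun h => notF50 hx (h ▸ hy)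

theorem S50.n9 (s : S50 G q F u z z') : 9 ≤ Fintype.card V := le_trans (by norm_num) s.h.n12

theorem ne_nb50 {x y : V} (h : x ∈ G.nb y) : x ≠ y := fun e => G.irr y (e ▸ h)

/-- the partner of a vertex of `N F` -/
theorem S50.qT (s : S50 G q F u z z') {v w : V} (hv : v ∈ G.N F) (h : q v w) : w ∈ G.N F := by
  obtain ⟨hvF, x, hx, hvx⟩ := mem_N76.1 hv
  have hw : w ∉ F := fun hw => s.qF hw ⟨v, s.h.qs.symm _ _ h⟩
  refine mem_N76.2 ⟨hw, x, hx, G.sym _ _ ?_⟩
  exact (q_nb_iff76 s.h.qs h (fun e => hvF (e ▸ hx)) (fun e => hw (e ▸ hx))).1 (G.sym _ _ hvx)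

/-- partners have the same number of neighbours in `F` -/
theorem S50.dq (s : S50 G q F u z z') {v w : V} (hv : v ∈ G.N F) (h : q v w) :
    G.d w F = G.d v F := by
  have hw := s.qT hv h
  unfold d
  congr 1
  ext x
  rw [mem_inter, mem_inter]
  refine and_congr_left fun hx => ?_
  exact (q_nb_iff76 s.h.qs h (fun e => notF50 hv (e ▸ hx)) (fun e => notF50 hw (e ▸ hx))).symm

/-! ### the covers -/

/-- edges at the low vertex -/
theorem S50.covU (s : S50 G q F u z z') {y : V} (hy : y ∈ G.N F) (hyu : y ∈ G.nb u) :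
    Cy50 G q (G.N F) y ∨ ∃ a ∈ G.N F, G.nb a ∩ F = {u} ∧ a ≠ y := by
  rcases s.h.cov u s.u_mem y hy hyu with h | h | h | h | h
  · obtain ⟨w, hw, hl, huw, hyw⟩ := h
    rcases mem_union.1 hw with hw | hw
    · exact absurd huw ((s.lowF hw hl).symm ▸ G.irr u)
    · exact Or.inl (Or.inl ⟨w, hw, hl, hyw⟩)
  · obtain ⟨v, hv, w, hw, hq, -, -, hyv, hyw⟩ := h
    rcases mem_union.1 hv with hv | hv
    · exact absurd ⟨w, hq⟩ (s.qF hv)
    rcases mem_union.1 hw with hw | hw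
    · exact absurd ⟨v, s.h.qs.symm _ _ hq⟩ (s.qF hw)
    · exact Or.inl (Or.inr (Or.inl ⟨v, hv, w, hw, hq, hyv, hyw⟩))
  · obtain ⟨a, b, hab, hub, -, ⟨-, hb⟩ | ⟨ha, hb⟩⟩ := h
    · exact absurd hub ((s.lowF hb hab.2.1).symm ▸ G.irr u)
    · exact Or.inl (Or.inr (Or.inr ⟨a, ha, b, hb, hab⟩))
  · obtain ⟨a, b, hab, hyb, hya, ⟨-, hb⟩ | ⟨ha, hb⟩ | ⟨ha, -, hc⟩⟩ := h
    · exact absurd (s.lowF hb hab.2.1).symm (HL_bt76 hab).2
    · exact Or.inl (Or.inl ⟨b, hb, hab.2.1, hyb⟩)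
    · exact Or.inr ⟨a, ha, hc, (ne_nb50 hya).symm⟩
  · obtain ⟨a, b, hab, ⟨ha, -⟩ | ⟨ha, hb⟩ | ⟨ha, -, hc⟩⟩ := h
    · exact absurd (LL_t76 hab) ((s.lowF ha hab.1).symm ▸ G.irr u)
    · rcases mem_union.1 hb with hb | hb
      · exact absurd (s.lowF hb hab.2.1).symm (LL_tb76 hab).2
      · exact Or.inl (Or.inl ⟨b, hb, hab.2.1, LL_u76 hab⟩)
    · exact Or.inr ⟨a, ha, hc, (LL_ua76 hab).2.symm⟩

/-- edges at a hub -/
theorem S50.covZ (s : S50 G q F u z z') {y : V} (hy : y ∈ G.N F) (hyu : y ∉ G.nb u)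
    (hyz : y ∈ G.nb z) :
    Cy50 G q (G.N F) y ∨ G.HL z' u y ∨ ∃ a ∈ G.N F, G.nb a ∩ F = {z} ∧ a ≠ y := by
  rcases s.h.cov z s.z_mem y hy hyz with h | h | h | h | h
  · obtain ⟨w, hw, hl, -, hyw⟩ := h
    rcases mem_union.1 hw with hw | hw
    · exact absurd ((s.lowF hw hl) ▸ hyw) hyu
    · exact Or.inl (Or.inl ⟨w, hw, hl, hyw⟩)
  · obtain ⟨v, hv, w, hw, hq, -, -, hyv, hyw⟩ := h
    rcases mem_union.1 hv with hv | hv
    · exact absurd ⟨w, hq⟩ (s.qF hv)
    rcases mem_union.1 hw with hw | hw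
    · exact absurd ⟨v, s.h.qs.symm _ _ hq⟩ (s.qF hw)
    · exact Or.inl (Or.inr (Or.inl ⟨v, hv, w, hw, hq, hyv, hyw⟩))
  · obtain ⟨a, b, hab, -, hza, ⟨ha, hb⟩ | ⟨ha, hb⟩⟩ := h
    · have hbu := s.lowF hb hab.2.1
      subst hbu
      rcases s.memF.1 ha with e | e | e
      · exact absurd s.lo (e ▸ HL_not_low76 hab)
      · exact absurd hza (e ▸ G.irr a)
      · exact Or.inr (Or.inl (e ▸ hab))
    · exact Or.inl (Or.inr (Or.inr ⟨a, ha, b, hb, hab⟩))
  · obtain ⟨a, b, hab, -⟩ := h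
    exact absurd (s.h.sat _ _ _ hab) s.hz.1
  · obtain ⟨a, b, hab, ⟨-, hb⟩ | ⟨-, hb⟩ | ⟨ha, -, hc⟩⟩ := h
    · rcases mem_union.1 hb with hb | hb
      · exact absurd ((s.lowF hb hab.2.1) ▸ LL_u76 hab) hyu
      · exact Or.inl (Or.inl ⟨b, hb, hab.2.1, LL_u76 hab⟩)
    · rcases mem_union.1 hb with hb | hb
      · exact absurd ((s.lowF hb hab.2.1) ▸ LL_u76 hab) hyu
      · exact Or.inl (Or.inl ⟨b, hb, hab.2.1, LL_u76 hab⟩)
    · exact Or.inr (Or.inr ⟨a, ha, hc, (LL_ua76 hab).2.symm⟩)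

theorem S50.cT (s : S50 G q F u z z') : (G.N F).card = 6 := s.h.big.1.2.1

/-- a vertex that is only adjacent to `x` in `F` -/
theorem only50 {a x v : V} (hax : G.nb a ∩ F = {x}) (hv : v ∈ F) (hvx : v ≠ x) : a ∉ G.nb v := by
  intro h
  have h1 : v ∈ G.nb a ∩ F := mem_inter.2 ⟨G.sym _ _ h, hv⟩
  rw [hax] at h1
  exact hvx (mem_singleton.1 h1)

/-- a vertex of `F` that is not low and misses `a` -/
theorem S50.full (hB : G.St11Bas q) (s : S50 G q F u z z') {a v : V} (ha : a ∈ G.N F)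
    (hv : v ∈ F) (hl : ¬ G.Low v) (hav : a ∉ G.nb v) {y : V} (hy : y ∈ G.N F) (hya : y ≠ a) :
    y ∈ G.nb v := by
  have h1 : G.Tz F v ⊆ (G.N F).erase a := by
    intro x hx
    rw [Tz, mem_inter] at hx
    exact mem_erase.2 ⟨fun e => hav (e ▸ hx.1), hx.2⟩
  have h2 : G.Tz F v = (G.N F).erase a := by
    refine eq_of_subset_of_card_le h1 ?_
    rw [card_erase_of_mem ha, s.cT]
    exact hB.miss F s.h v hv hl
  have h3 : y ∈ G.Tz F v := by
    rw [h2]
    exact mem_erase.2 ⟨hya, hy⟩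
  exact (mem_inter.1 h3).1

/-- three vertices that are not adjacent to `u` -/
theorem S50.three (hB : G.St11Bas q) (s : S50 G q F u z z') {a b c : V} (ha : a ∈ G.N F)
    (hb : b ∈ G.N F) (hc : c ∈ G.N F) (hab : a ≠ b) (hac : a ≠ c) (hbc : b ≠ c)
    (hau : a ∉ G.nb u) (hbu : b ∉ G.nb u) (hcu : c ∉ G.nb u) : False := by
  have h1 : G.Tz F u ⊆ (((G.N F).erase a).erase b).erase c := by
    intro x hx
    rw [Tz, mem_inter] at hx
    refine mem_erase.2 ⟨fun e => hcu (e ▸ hx.1), mem_erase.2 ⟨fun e => hbu (e ▸ hx.1),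
      mem_erase.2 ⟨fun e => hau (e ▸ hx.1), hx.2⟩⟩⟩
  have h2 := card_le_card h1
  have h3 := hB.missl F s.h u s.u_mem
  rw [card_erase_of_mem (mem_erase.2 ⟨hbc.symm, mem_erase.2 ⟨hac.symm, hc⟩⟩),
    card_erase_of_mem (mem_erase.2 ⟨hab.symm, hb⟩), card_erase_of_mem ha, s.cT] at h2
  omega

/-- `y` is not adjacent to the low vertex -/
theorem S50.cyz (hB : G.St11Bas q) (s : S50 G q F u z z') {y : V} (hy : y ∈ G.N F)
    (hyu : y ∉ G.nb u) (hyz : y ∈ G.nb z) : Cy50 G q (G.N F) y := by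
  have key : ∀ {a v v' : V}, a ∈ G.N F → G.nb a ∩ F = {v} → v ≠ u → a ≠ y → v ∈ F →
      ¬ G.HL v u y := by
    intro a v v' ha hav hvu hay hv h2
    have h3 : v ∈ G.nb a := by
      have : v ∈ G.nb a ∩ F := by rw [hav]; exact mem_singleton_self _
      exact (mem_inter.1 this).1
    rcases HL_sup76 h2 (G.sym _ _ h3) hay with h4 | h4
    · exact neF50 ha s.u_mem h4
    · exact only50 hav s.u_mem hvu.symm h4
  rcases s.covZ hy hyu hyz with h | h | ⟨a, ha, haz, hay⟩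
  · exact h
  · have e : y ∈ G.nb z' := HL_t76 h
    rcases s.swap.covZ hy hyu e with h2 | h2 | ⟨a, ha, haz, hay⟩
    · exact h2
    · exact absurd ((stTwHL_5 G).one s.n9 _ _ _ _ h2 h) s.n3
    · exact absurd h (key (v' := z) ha haz s.n2.symm hay s.z'_mem)
  · have e : y ∈ G.nb z' :=
      s.full hB ha s.z'_mem s.hz'.1 (only50 haz s.z'_mem s.n3.symm) hy hay.symm
    rcases s.swap.covZ hy hyu e with h2 | h2 | ⟨b, hb, hbz, hby⟩
    · exact h2
    · exact absurd h2 (key (v' := z) ha haz s.n1.symm hay s.z_mem)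
    · refine (s.three hB ha hb hy ?_ hay hby (only50 haz s.u_mem s.n1)
        (only50 hbz s.u_mem s.n2) hyu).elim
      rintro rfl
      rw [haz] at hbz
      exact s.n3 (singleton_injective hbz)

/-- every vertex of `N F` is covered -/
theorem S50.cy (hB : G.St11Bas q) (s : S50 G q F u z z') {y : V} (hy : y ∈ G.N F) :
    Cy50 G q (G.N F) y := by
  by_cases hyu : y ∈ G.nb u
  · rcases s.covU hy hyu with h | ⟨a, ha, hau, hay⟩
    · exact h
    have tw : G.Tw z z' := hB.twin F s.h u ⟨a, ha, hau⟩ z s.z_mem z' s.z'_mem s.n3 s.n1.symm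
      s.n2.symm s.hz.1 s.hz'.1
    have nq : ¬ q z z' := fun hh => s.hz.2 ⟨z', hh⟩
    have haz := only50 hau s.z_mem s.n1.symm
    have e1 : y ∈ G.nb z := s.full hB ha s.z_mem s.hz.1 haz hy hay.symm
    have e2 : u ∈ G.nb z := by
      by_contra hu
      have h1 : G.nb z ⊆ insert z' ((G.N F).erase a) := by
        intro x hx
        by_cases hxF : x ∈ F
        · rcases s.memF.1 hxF with e | e | e
          · exact absurd (e ▸ hx) hu
          · exact absurd hx (e ▸ G.irr x)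
          · exact e ▸ mem_insert_self _ _
        · refine mem_insert_of_mem (mem_erase.2 ⟨fun e => haz (e ▸ hx), ?_⟩)
          exact mem_N76.2 ⟨hxF, z, s.z_mem, hx⟩
      have h2 := card_le_card h1
      have h3 := card_insert_le z' ((G.N F).erase a)
      rw [card_erase_of_mem ha, s.cT] at h3
      have h4 : (G.nb z).card = 7 := tw.2.1
      omega
    rcases s.h.qs.cov z z' tw nq u y e2 s.n2 e1 (neF50 hy s.z'_mem) hyu with
      ⟨w, hl, huw, hyw⟩ | ⟨v, w, hq, huv, huw, hyv, hyw⟩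
    · by_cases hwF : w ∈ F
      · exact absurd huw ((s.lowF hwF hl).symm ▸ G.irr u)
      · exact Or.inl ⟨w, mem_N76.2 ⟨hwF, u, s.u_mem, G.sym _ _ huw⟩, hl, hyw⟩
    · have hvF : v ∉ F := fun h => s.qF h ⟨w, hq⟩
      have hvT : v ∈ G.N F := mem_N76.2 ⟨hvF, u, s.u_mem, G.sym _ _ huv⟩
      exact Or.inr (Or.inl ⟨v, hvT, w, s.qT hvT hq, hq, hyv,
        (q_nb_iff76 s.h.qs hq (ne_nb50 hyv) hyw).1 hyv⟩)
  · obtain ⟨-, x, hx, hyx⟩ := mem_N76.1 hy
    rcases s.memF.1 hx with e | e | e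
    · exact absurd (e ▸ hyx) hyu
    · exact s.cyz hB hy hyu (e ▸ hyx)
    · exact s.swap.cyz hB hy hyu (e ▸ hyx)

/-! ### counting -/

theorem dc50 (G : CG V) (F : Finset V) : ∑ w ∈ G.N F, G.d w F = ∑ x ∈ F, (G.Tz F x).card := by
  unfold d Tz
  have e1 : ∀ w, (G.nb w ∩ F).card = ∑ x ∈ F, if x ∈ G.nb w then 1 else 0 := by
    intro w
    rw [← card_filter, filter_mem_eq_inter, inter_comm]
  have e2 : ∀ x, (G.nb x ∩ G.N F).card = ∑ w ∈ G.N F, if w ∈ G.nb x then 1 else 0 := by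
    intro x
    rw [← card_filter, filter_mem_eq_inter, inter_comm]
  simp_rw [e1, e2]
  rw [sum_comm]
  refine sum_congr rfl fun x _ => sum_congr rfl fun w _ => ?_
  by_cases h : x ∈ G.nb w
  · rw [if_pos h, if_pos (G.sym _ _ h)]
  · rw [if_neg h, if_neg (fun h' => h (G.sym _ _ h'))]

theorem S50.sumF (s : S50 G q F u z z') (f : V → ℕ) : ∑ x ∈ F, f x = f u + (f z + f z') := by
  have h1 : u ∉ ({z, z'} : Finset V) := by
    rw [mem_insert, mem_singleton, not_or]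
    exact ⟨s.n1, s.n2⟩
  have h2 : z ∉ ({z'} : Finset V) := by
    rw [mem_singleton]
    exact s.n3
  rw [s.eF, sum_insert h1, sum_insert h2, sum_singleton]

theorem S50.sumd (hB : G.St11Bas q) (s : S50 G q F u z z') : 14 ≤ ∑ w ∈ G.N F, G.d w F := by
  rw [dc50, s.sumF]
  have h1 := hB.missl F s.h u s.u_mem
  have h2 := hB.miss F s.h z s.z_mem s.hz.1
  have h3 := hB.miss F s.h z' s.z'_mem s.hz'.1
  omega

theorem S50.d_le (s : S50 G q F u z z') (w : V) : G.d w F ≤ 3 := by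
  rw [← s.h.c3]
  exact card_le_card inter_subset_right

/-- the vertices with one neighbour in `F` -/
def S1 (G : CG V) (F : Finset V) : Finset V := (G.N F).filter fun w => G.d w F = 1

/-- the other vertices of `N F` -/
def S2 (G : CG V) (F : Finset V) : Finset V := (G.N F).filter fun w => ¬ G.d w F = 1

theorem S50.numbers (hB : G.St11Bas q) (s : S50 G q F u z z') : (S1 G F).card ≤ 2 ∧
    ((S1 G F).card = 2 → ∀ w ∈ S2 G F, G.d w F = 3) := by
  have h1 : (S1 G F).card + (S2 G F).card = 6 := by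
    rw [← s.cT]
    exact card_filter_add_card_filter_not _
  have h2 := s.sumd hB
  rw [← sum_filter_add_sum_filter_not (G.N F) (fun w => G.d w F = 1)] at h2
  have h3 : ∑ w ∈ S1 G F, G.d w F = (S1 G F).card := by
    rw [card_eq_sum_ones]
    exact sum_congr rfl fun w hw => (mem_filter.1 hw).2
  have h4 : ∑ w ∈ S2 G F, G.d w F ≤ (S2 G F).card * 3 :=
    sum_le_card_nsmul _ _ _ fun w _ => s.d_le w
  change 14 ≤ ∑ w ∈ S1 G F, G.d w F + ∑ w ∈ S2 G F, G.d w F at h2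
  refine ⟨by omega, fun h5 w hw => ?_⟩
  have h6 : ∑ x ∈ S2 G F, G.d x F = G.d w F + ∑ x ∈ (S2 G F).erase w, G.d x F :=
    (add_sum_erase _ _ hw).symm
  have h7 : ∑ x ∈ (S2 G F).erase w, G.d x F ≤ ((S2 G F).erase w).card * 3 :=
    sum_le_card_nsmul _ _ _ fun w _ => s.d_le w
  rw [card_erase_of_mem hw] at h7
  have h8 := s.d_le w
  omega

/-- no vertex of `S1` is adjacent to `u` if there are two of them -/
theorem S50.notu (hB : G.St11Bas q) (s : S50 G q F u z z') (h2 : (S1 G F).card = 2) {w : V}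
    (hw : w ∈ S1 G F) : u ∉ G.nb w := by
  intro hu
  obtain ⟨w2, hw2, hne⟩ := exists_mem_ne (by omega : 1 < (S1 G F).card) w
  obtain ⟨hwT, hw1⟩ := mem_filter.1 hw
  obtain ⟨hw2T, hw21⟩ := mem_filter.1 hw2
  obtain ⟨x, hx⟩ := card_eq_one.1 hw1
  obtain ⟨y, hy⟩ := card_eq_one.1 hw21
  have hxu : u = x := by
    have : u ∈ G.nb w ∩ F := mem_inter.2 ⟨hu, s.u_mem⟩
    rw [hx] at this
    exact mem_singleton.1 this
  subst hxu
  have key : ∀ v ∈ F, ¬ G.Low v → v ≠ u → v ≠ y → False := by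
    intro v hv hl hvu hvy
    exact only50 hy hv hvy (s.full hB hwT hv hl (only50 hx hv hvu) hw2T hne)
  by_cases e : z = y
  · exact key z' s.z'_mem s.hz'.1 s.n2.symm (fun e' => s.n3 (e.trans e'.symm))
  · exact key z s.z_mem s.hz.1 s.n1.symm e

/-- two vertices in `S1`, the others are hubs with three neighbours in `F`: impossible -/
theorem S50.uncov (hB : G.St11Bas q) (s : S50 G q F u z z') (h2 : (S1 G F).card = 2)
    (hH : ∀ w ∈ S2 G F, G.HubQ q w) : False := by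
  obtain ⟨-, h3⟩ := s.numbers hB
  have h3 := h3 h2
  have h1 : (S1 G F).card + (S2 G F).card = 6 := by
    rw [← s.cT]
    exact card_filter_add_card_filter_not _
  have hone : ∀ w ∈ G.N F, u ∈ G.nb w → G.HubQ q w ∧ G.d w F = 3 := by
    intro w hw hu
    by_cases h4 : G.d w F = 1
    · exact absurd hu (s.notu hB h2 (mem_filter.2 ⟨hw, h4⟩))
    · have h5 : w ∈ S2 G F := mem_filter.2 ⟨hw, h4⟩
      exact ⟨hH w h5, h3 w h5⟩
  obtain ⟨h, hh⟩ := card_pos.1 (by omega : 0 < (S2 G F).card)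
  have hhT := (mem_filter.1 hh).1
  have hhu : u ∈ G.nb h := by
    have h5 : G.nb h ∩ F = F :=
      eq_of_subset_of_card_le inter_subset_right (by rw [s.h.c3]; exact (h3 h hh).ge)
    have h6 : u ∈ G.nb h ∩ F := by
      rw [h5]
      exact s.u_mem
    exact (mem_inter.1 h6).1
  rcases s.h.cov u s.u_mem h hhT (G.sym _ _ hhu) with c | c | c | c | c
  · obtain ⟨w, hw, hl, huw, -⟩ := c
    rcases mem_union.1 hw with hw | hw
    · exact absurd huw ((s.lowF hw hl).symm ▸ G.irr u)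
    · exact (hone w hw huw).1.1 hl
  · obtain ⟨v, hv, w, hw, hq, huv, -⟩ := c
    rcases mem_union.1 hv with hv | hv
    · exact s.qF hv ⟨w, hq⟩
    · exact (hone v hv huv).1.2 ⟨w, hq⟩
  · obtain ⟨a, b, hab, hub, -, ⟨-, hb⟩ | ⟨-, hb⟩⟩ := c
    · exact absurd hub ((s.lowF hb hab.2.1).symm ▸ G.irr u)
    · exact (hone b hb hub).1.1 hab.2.1
  · obtain ⟨a, b, hab, -, -, ⟨-, hb⟩ | ⟨ha, hb⟩ | ⟨ha, -, hc⟩⟩ := c
    · exact (HL_bt76 hab).2 (s.lowF hb hab.2.1).symm
    · have h5 := (hone a ha (HL_t76 hab)).2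
      have h6 : G.nb a ∩ F = F :=
        eq_of_subset_of_card_le inter_subset_right (by rw [s.h.c3]; exact h5.ge)
      have h7 : ∀ v ∈ F, v ≠ u → v ∈ G.nb b := by
        intro v hv hvu
        have h8 : v ∈ G.nb a ∩ F := by
          rw [h6]
          exact hv
        rcases HL_sup76 hab (mem_inter.1 h8).1 hvu with h9 | h9
        · exact absurd h9.symm (neF50 hb hv)
        · exact h9
      have h8 : G.d b F ≠ 1 := by
        intro h9
        obtain ⟨x, hx⟩ := card_eq_one.1 h9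
        have h10 : z ∈ G.nb b ∩ F := mem_inter.2 ⟨h7 z s.z_mem s.n1.symm, s.z_mem⟩
        have h11 : z' ∈ G.nb b ∩ F := mem_inter.2 ⟨h7 z' s.z'_mem s.n2.symm, s.z'_mem⟩
        rw [hx, mem_singleton] at h10 h11
        exact s.n3 (h10.trans h11.symm)
      exact (hH b (mem_filter.2 ⟨hb, h8⟩)).1 hab.2.1
    · have h5 := (hone a ha (HL_t76 hab)).2
      unfold d at h5
      rw [hc, card_singleton] at h5
      omega
  · obtain ⟨a, b, hab, ⟨ha, -⟩ | ⟨ha, -⟩ | ⟨ha, -, -⟩⟩ := c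
    · exact absurd (LL_t76 hab) ((s.lowF ha hab.1).symm ▸ G.irr u)
    · exact (hone a ha (LL_t76 hab)).1.1 hab.1
    · exact (hone a ha (LL_t76 hab)).1.1 hab.1

/-! ### the values -/

theorem wt_hub50 {w : V} (h : G.HubQ q w) : G.wt3 q w = 0 := by
  unfold wt3
  rw [if_neg h.1, if_neg h.2]

theorem wt_nonneg50 (w : V) : 0 ≤ G.wt3 q w := by
  unfold wt3
  split_ifs <;> norm_num

theorem wt_le50 (w : V) : G.wt3 q w ≤ 2 := by
  unfold wt3
  split_ifs <;> norm_num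

theorem wt_low50 {w : V} (h : G.Low w) : G.wt3 q w = 2 := by
  unfold wt3
  rw [if_pos h]

theorem wt_q50 (hq : G.QS q) {w : V} (h : IsQ q w) : G.wt3 q w = 1 := by
  unfold wt3
  rw [if_neg (q_not_low76 hq h), if_pos h]

/-- F9 -/
theorem st11L_50 (G : CG V) (q : V → V → Prop) (hB : G.St11Bas q) (hC : G.St11Cnt q) :
    G.St11L q := by
  intro F h u z z' eF lo n1 n2 n3 hz hz'
  have s : S50 G q F u z z' := ⟨h, eF, lo, n1, n2, n3, hz, hz'⟩
  obtain ⟨c1, c2⟩ := s.numbers hB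
  have h1 : 2 * ((G.N F).card : ℤ) ≤ ∑ w ∈ G.N F, G.wt3 q w * ((G.tT q F w).card : ℤ) := by
    refine (hC F h (G.N F) (Subset.refl _) (fun v w hvw hv => s.qT hv hvw) u
      fun y hy => ?_).1
    rcases s.cy hB hy with h1 | h1 | h1
    · exact Or.inl h1
    · exact Or.inr (Or.inl h1)
    · exact Or.inr (Or.inr (Or.inl h1))
  rw [s.cT] at h1
  have h2 : ∑ w ∈ G.N F, G.val3 q F w = ∑ w ∈ G.N F, G.wt3 q w * (2 * (G.d w F : ℤ) - 3) +
      ∑ w ∈ G.N F, G.wt3 q w * ((G.tT q F w).card : ℤ) := by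
    rw [← sum_add_distrib]
    refine sum_congr rfl fun w _ => ?_
    unfold val3
    ring
  have h3 : ∑ w ∈ G.N F, G.wt3 q w * (2 * (G.d w F : ℤ) - 3) =
      ∑ w ∈ S1 G F, G.wt3 q w * (2 * (G.d w F : ℤ) - 3) +
      ∑ w ∈ S2 G F, G.wt3 q w * (2 * (G.d w F : ℤ) - 3) :=
    (sum_filter_add_sum_filter_not (G.N F) (fun w => G.d w F = 1) _).symm
  have h4 : -(2 * ((S1 G F).card : ℤ)) ≤ ∑ w ∈ S1 G F, G.wt3 q w * (2 * (G.d w F : ℤ) - 3) := by
    have h5 : ∑ w ∈ S1 G F, (-2 : ℤ) ≤ ∑ w ∈ S1 G F, G.wt3 q w * (2 * (G.d w F : ℤ) - 3) := by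
      refine sum_le_sum fun w hw => ?_
      rw [(mem_filter.1 hw).2]
      have := wt_le50 (G := G) (q := q) w
      push_cast
      linarith
    rw [sum_const, nsmul_eq_mul] at h5
    linarith
  have hd2 : ∀ w ∈ S2 G F, (2 : ℤ) ≤ (G.d w F : ℤ) := by
    intro w hw
    obtain ⟨h5, h6⟩ := mem_filter.1 hw
    have h7 := hB.pos F h w h5
    have : 2 ≤ G.d w F := by omega
    exact_mod_cast this
  by_cases hW : ∀ w ∈ S2 G F, G.HubQ q w
  · -- all weights are in `S1`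
    exfalso
    have h5 : ∑ w ∈ G.N F, G.wt3 q w * ((G.tT q F w).card : ℤ) =
        ∑ w ∈ S1 G F, G.wt3 q w * ((G.tT q F w).card : ℤ) := by
      rw [← sum_filter_add_sum_filter_not (G.N F) (fun w => G.d w F = 1)]
      have h6 : ∑ w ∈ S2 G F, G.wt3 q w * ((G.tT q F w).card : ℤ) = 0 :=
        sum_eq_zero fun w hw => by rw [wt_hub50 (hW w hw), zero_mul]
      change ∑ w ∈ S1 G F, _ + ∑ w ∈ S2 G F, _ = _
      rw [h6, add_zero]
    have h6 : ∑ w ∈ S1 G F, G.wt3 q w * ((G.tT q F w).card : ℤ) ≤ ∑ w ∈ S1 G F, (10 : ℤ) := by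
      refine sum_le_sum fun w hw => ?_
      have h7 : (G.tT q F w).card ≤ 5 := by
        have h8 : G.tT q F w ⊆ (G.N F).erase w := by
          classical
          intro x hx
          rw [tT, mem_filter] at hx
          have h9 := mem_inter.1 hx.1
          exact mem_erase.2 ⟨ne_nb50 h9.1, h9.2⟩
        have h9 := card_le_card h8
        rw [card_erase_of_mem (mem_filter.1 hw).1, s.cT] at h9
        exact h9
      have h8 : ((G.tT q F w).card : ℤ) ≤ 5 := by exact_mod_cast h7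
      have h9 := wt_le50 (G := G) (q := q) w
      have h10 := wt_nonneg50 (G := G) (q := q) w
      nlinarith
    rw [sum_const, nsmul_eq_mul] at h6
    rw [h5] at h1
    have h7 : ¬ (S1 G F).card = 2 := fun h8 => s.uncov hB h8 hW
    have h8 : ((S1 G F).card : ℤ) ≤ 1 := by
      have : (S1 G F).card ≤ 1 := by omega
      exact_mod_cast this
    push_cast at h1
    linarith
  · push Not at hW
    obtain ⟨w, hw, hwH⟩ := hW
    obtain ⟨hwT, hw1⟩ := mem_filter.1 hw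
    -- the weight of `S2`
    have h5 : 2 ≤ ∑ x ∈ S2 G F, G.wt3 q x := by
      rcases tri76 G q w with h6 | h6 | h6
      · rw [← wt_low50 (q := q) h6]
        exact single_le_sum (fun x _ => wt_nonneg50 x) hw
      · obtain ⟨w', hw'⟩ := h6
        have h7 : w' ∈ S2 G F := mem_filter.2 ⟨s.qT hwT hw', by rw [s.dq hwT hw']; exact hw1⟩
        have h8 : ({w, w'} : Finset V) ⊆ S2 G F := by
          intro x hx
          rcases mem_insert.1 hx with e | e
          · exact e ▸ hw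
          · exact (mem_singleton.1 e) ▸ h7
        have h9 := sum_le_sum_of_subset_of_nonneg (f := fun x => G.wt3 q x) h8
          (fun x _ _ => wt_nonneg50 x)
        rw [sum_pair (q_ne76 h.qs hw'), wt_q50 h.qs ⟨w', hw'⟩,
          wt_q50 h.qs ⟨w, h.qs.symm _ _ hw'⟩] at h9
        linarith
      · exact absurd h6 hwH
    have h6 : 2 * ((S1 G F).card : ℤ) ≤
        ∑ x ∈ S2 G F, G.wt3 q x * (2 * (G.d x F : ℤ) - 3) := by
      by_cases h7 : (S1 G F).card = 2
      · have h8 : ∑ x ∈ S2 G F, G.wt3 q x * (2 * (G.d x F : ℤ) - 3) =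
            3 * ∑ x ∈ S2 G F, G.wt3 q x := by
          rw [mul_sum]
          refine sum_congr rfl fun x hx => ?_
          rw [c2 h7 x hx]
          push_cast
          ring
        rw [h8, h7]
        push_cast
        linarith
      · have h8 : ∑ x ∈ S2 G F, G.wt3 q x ≤
            ∑ x ∈ S2 G F, G.wt3 q x * (2 * (G.d x F : ℤ) - 3) := by
          refine sum_le_sum fun x hx => ?_
          have h9 := hd2 x hx
          have h10 := wt_nonneg50 (G := G) (q := q) x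
          nlinarith
        have h9 : ((S1 G F).card : ℤ) ≤ 1 := by
          have : (S1 G F).card ≤ 1 := by omega
          exact_mod_cast this
        linarith
    rw [h2, h3]
    push_cast at h1
    linarith

end CG

end Pool.Agent.Lib.MP_e95c01_co.N
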