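import Pool.Agent.Lib.MP_e95c01_co.U.StCh4_11
import Pool.Agent.Lib.MP_e95c01_co.T.Defs76

/-!
# T2: the charges
-/

namespace Pool.Agent.Lib.MP_e95c01_co.N

open Finset

variable {V : Type} [Fintype V] [DecidableEq V]

namespace CG

variable {G : CG V} {q : V → V → Prop} {Fa : Finset (Finset V)}

/-! ### the gifts -/

theorem isq_tw50 (hQ : G.QS q) {z : V} (hz : IsQ q z) : G.IsTw z := by
  obtain ⟨w, hw⟩ := hz
  exact ⟨w, hQ.tw _ _ hw⟩

theorem isq_not_low50 (hQ : G.QS q) {z : V} (hz : IsQ q z) : ¬ G.Low z :=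
  tw_not_low11 (isq_tw50 hQ hz)

theorem pi3_to_low50 (hQ : G.QS q) {x z : V} (hz : G.Low z) : G.pi3 q x z = 0 := by
  classical
  unfold pi3
  have h0 : ¬ IsQ q z := fun h => isq_not_low50 hQ h hz
  by_cases h1 : G.Low x
  · rw [if_pos h1, if_neg h0, if_neg (fun h => h.1 hz)]
  · rw [if_neg h1]
    by_cases h2 : IsQ q x
    · rw [if_pos h2, if_neg (fun h : G.HubQ q z => h.1 hz)]
    · rw [if_neg h2]

open Classical in
theorem pi3_from_low50 (hQ : G.QS q) (h7 : G.StTwHL) (h9 : 9 ≤ Fintype.card V) {x z : V}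
    (hz : G.Low z) : G.pi3 q z x =
    2 - 2 * (if G.Low x then (1 : ℤ) else 0) - (if IsQ q x then (1 : ℤ) else 0) -
      2 * (if ∃ b, G.HL x b z then (1 : ℤ) else 0) := by
  unfold pi3
  rw [if_pos hz]
  by_cases h1 : G.Low x
  · have h2 : ¬ ∃ b, G.HL x b z := fun ⟨b, hb⟩ => hl_not_low11 hb h1
    have h3 : ¬ IsQ q x := fun h => isq_not_low50 hQ h h1
    rw [if_neg h3, if_neg (fun h => h.1 h1), if_pos h1, if_neg h3, if_neg h2]
    norm_num
  · by_cases h3 : IsQ q x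
    · have h2 : ¬ ∃ b, G.HL x b z := fun ⟨b, hb⟩ => h7.notHL h9 _ _ _ hb (isq_tw50 hQ h3)
      rw [if_pos h3, if_neg h1, if_pos h3, if_neg h2]
      norm_num
    · by_cases h2 : ∃ b, G.HL x b z
      · rw [if_neg h3, if_neg (fun h => h.2 h2), if_neg h1, if_neg h3, if_pos h2]
        norm_num
      · rw [if_neg h3, if_pos ⟨h1, h2⟩, if_neg h1, if_neg h3, if_neg h2]
        norm_num

open Classical in
theorem pi3_to_q50 {x z : V} (hz : IsQ q z) : G.pi3 q x z =
    (if G.Low x then (1 : ℤ) else 0) := by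
  unfold pi3
  by_cases h1 : G.Low x
  · rw [if_pos h1, if_pos hz, if_pos h1]
  · rw [if_neg h1, if_neg h1]
    by_cases h2 : IsQ q x
    · rw [if_pos h2, if_neg (fun h : G.HubQ q z => h.2 hz)]
    · rw [if_neg h2]

open Classical in
theorem pi3_from_q50 (hQ : G.QS q) {x z : V} (hz : IsQ q z) : G.pi3 q z x =
    1 - (if G.Low x then (1 : ℤ) else 0) - (if IsQ q x then (1 : ℤ) else 0) := by
  unfold pi3
  rw [if_neg (isq_not_low50 hQ hz), if_pos hz]
  by_cases h1 : G.Low x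
  · have h2 : ¬ IsQ q x := fun h => isq_not_low50 hQ h h1
    rw [if_neg (fun h : G.HubQ q x => h.1 h1), if_pos h1, if_neg h2]
    norm_num
  · by_cases h2 : IsQ q x
    · rw [if_neg (fun h : G.HubQ q x => h.2 h2), if_neg h1, if_pos h2]
      norm_num
    · have h3 : G.HubQ q x := ⟨h1, h2⟩
      rw [if_pos h3, if_neg h1, if_neg h2]
      norm_num

open Classical in
theorem pi3_to_hub50 (hQ : G.QS q) {x z : V} (hz : G.HubQ q z) : G.pi3 q x z =
    2 * (if G.Low x ∧ ¬ ∃ b, G.HL z b x then (1 : ℤ) else 0) +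
      (if IsQ q x then (1 : ℤ) else 0) := by
  unfold pi3
  by_cases h1 : G.Low x
  · have h2 : ¬ IsQ q x := fun h => isq_not_low50 hQ h h1
    rw [if_pos h1, if_neg hz.2, if_neg h2]
    by_cases h3 : ∃ b, G.HL z b x
    · rw [if_neg (fun h => h.2 h3), if_neg (fun h => h.2 h3)]
      norm_num
    · rw [if_pos ⟨hz.1, h3⟩, if_pos ⟨h1, h3⟩]
      norm_num
  · have h3 : ¬ (G.Low x ∧ ¬ ∃ b, G.HL z b x) := fun h => h1 h.1
    rw [if_neg h1, if_neg h3]
    by_cases h2 : IsQ q x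
    · rw [if_pos h2, if_pos hz, if_pos h2]
      norm_num
    · rw [if_neg h2, if_neg h2]
      norm_num

theorem pi3_from_hub50 {x z : V} (hz : G.HubQ q z) : G.pi3 q z x = 0 := by
  unfold pi3
  rw [if_neg hz.1, if_neg hz.2]

/-! ### the numbers -/

open Classical in
theorem tq_sum50 {z : V} (hz : ∀ x, ¬ q z x) : ∑ x ∈ G.nR Fa z,
    (if IsQ q x then (1 : ℤ) else 0) = (G.tq q Fa z : ℤ) := by
  rw [tq, card_filter]
  push_cast
  refine sum_congr rfl fun x _ => ?_
  by_cases h2 : IsQ q x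
  · rw [if_pos h2, if_pos ⟨h2, hz x⟩]
  · rw [if_neg h2, if_neg (fun h => h2 h.1)]

open Classical in
theorem tq_sum50' (hQ : G.QS q) (h7 : G.StTwHL) (h9 : 9 ≤ Fintype.card V) (h : G.Reg Fa) {z : V}
    (hzR : z ∈ R Fa) (hz : IsQ q z) : ∑ x ∈ G.nR Fa z,
    (if IsQ q x then (1 : ℤ) else 0) = (G.tq q Fa z : ℤ) + 1 := by
  obtain ⟨w, hqw⟩ := hz
  have hw := hQ.tw _ _ hqw
  have hwR := (h7.twI Fa h z hzR w hw).1
  have hwn : w ∈ G.nR Fa z := mem_inter.2 ⟨hw.1, hwR⟩
  have h1 : ∑ x ∈ G.nR Fa z, (if x = w then (1 : ℤ) else 0) = 1 := by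
    rw [sum_ite_eq' (G.nR Fa z) w, if_pos hwn]
  have e : (G.tq q Fa z : ℤ) + 1 =
      (G.tq q Fa z : ℤ) + ∑ x ∈ G.nR Fa z, (if x = w then (1 : ℤ) else 0) := by rw [h1]
  rw [e, tq, card_filter]
  push_cast
  rw [← sum_add_distrib]
  refine sum_congr rfl fun x _ => ?_
  by_cases h2 : x = w
  · subst h2
    rw [if_pos ⟨z, hQ.symm _ _ hqw⟩, if_neg (fun h => h.2 hqw), if_pos rfl]
    norm_num
  · have h3 : ¬ q z x := fun h => h2 (h7.uniq h9 z x w (hQ.tw _ _ h) hw)
    rw [if_neg h2]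
    by_cases h4 : IsQ q x
    · rw [if_pos h4, if_pos ⟨h4, h3⟩]
      norm_num
    · rw [if_neg h4, if_neg (fun h => h4 h.1)]
      norm_num

open Classical in
theorem fl_empty50 {z : V} (hz : ¬ G.Low z) (f : Finset V → Finset V) :
    (((G.I Fa z).filter fun B => G.FL (f B) z).card : ℤ) = 0 := by
  rw [filter_eq_empty_iff.2 (fun B _ h => hz h.1)]
  simp

open Classical in
/-- flags of a vertex in one neighbourhood -/
theorem fl_single50 {z : V} {B : Finset V} (hI : G.I Fa z = {B}) (f : Finset V → Finset V) :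
    2 * (((G.I Fa z).filter fun B => G.FL (f B) z).card : ℤ) =
      (if G.FL (f B) z then 2 else 0) := by
  rw [hI, filter_singleton]
  split_ifs <;> simp

/-! ### the three kinds of vertices -/

open Classical in
theorem ch3_low50 (hQ : G.QS q) (h7 : G.StTwHL) (h9 : 9 ≤ Fintype.card V) {z : V} (hz : G.Low z)
    (hm : ∀ x, G.m Fa x z ≤ 1) : G.ch3 q Fa z =
      8 * (((G.I Fa z).card : ℤ) - 2) +
      2 * (((G.nR Fa z).card : ℤ) - ∑ x ∈ G.nR Fa z, (G.m Fa x z : ℤ)) +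
      2 * (G.tl Fa z : ℤ) + (G.tq q Fa z : ℤ) + 2 * (G.tA Fa z : ℤ) +
      2 * (((G.I Fa z).filter fun B => G.FL B z).card : ℤ) -
      2 * (((G.I Fa z).filter fun B => G.FL (G.Co B) z).card : ℤ) := by
  have hq : ∀ x, ¬ q z x := fun x hx => isq_not_low50 hQ ⟨x, hx⟩ hz
  have h1 : ∑ x ∈ G.nR Fa z, (if G.m Fa x z ≤ 1 then G.pi3 q x z - G.pi3 q z x else 0) =
      - 2 * ((G.nR Fa z).card : ℤ) + 2 * (G.tl Fa z : ℤ) + (G.tq q Fa z : ℤ) +
        2 * (G.tA Fa z : ℤ) := by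
    rw [← tl_sum11, ← tA_sum11, ← tq_sum50 hq, mul_sum, mul_sum]
    have h2 : - 2 * ((G.nR Fa z).card : ℤ) = ∑ x ∈ G.nR Fa z, (-2 : ℤ) := by
      rw [sum_const, nsmul_eq_mul]
      ring
    rw [h2, ← sum_add_distrib, ← sum_add_distrib, ← sum_add_distrib]
    refine sum_congr rfl fun x _ => ?_
    rw [if_pos (hm x), pi3_to_low50 hQ hz, pi3_from_low50 hQ h7 h9 hz]
    ring
  have h6 : (G.nb z).card = 6 := hz
  rw [ch3, h1, a3, c3, if_pos hz, if_pos hz, h6, sum_sub_distrib, sum_const, nsmul_eq_mul]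
  push_cast
  ring

theorem ch3_q50 (hQ : G.QS q) (h7 : G.StTwHL) (h9 : 9 ≤ Fintype.card V) (h : G.Reg Fa) {z : V}
    (hzR : z ∈ R Fa) (hz : IsQ q z) (hm : ∀ x, G.m Fa x z ≤ 1) : G.ch3 q Fa z =
      6 * (((G.I Fa z).card : ℤ) - 2) +
      (((G.nR Fa z).card : ℤ) - ∑ x ∈ G.nR Fa z, (G.m Fa x z : ℤ)) +
      2 * (G.tl Fa z : ℤ) + (G.tq q Fa z : ℤ) + 1 := by
  classical
  have h1 : ∑ x ∈ G.nR Fa z, (if G.m Fa x z ≤ 1 then G.pi3 q x z - G.pi3 q z x else 0) =
      - ((G.nR Fa z).card : ℤ) + 2 * (G.tl Fa z : ℤ) + ((G.tq q Fa z : ℤ) + 1) := by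
    rw [← tl_sum11, ← tq_sum50' hQ h7 h9 h hzR hz, mul_sum]
    have h2 : - ((G.nR Fa z).card : ℤ) = ∑ x ∈ G.nR Fa z, (-1 : ℤ) := by
      rw [sum_const, nsmul_eq_mul]
      ring
    rw [h2, ← sum_add_distrib, ← sum_add_distrib]
    refine sum_congr rfl fun x _ => ?_
    rw [if_pos (hm x), pi3_to_q50 hz, pi3_from_q50 hQ hz]
    ring
  have h6 := tw_card11 (isq_tw50 hQ hz)
  have hl := isq_not_low50 hQ hz
  have e1 := fl_empty50 (Fa := Fa) hl (fun B => B)
  have e2 := fl_empty50 (Fa := Fa) hl G.Co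
  rw [ch3, h1, a3, c3, if_neg hl, if_neg hl, if_pos hz, if_pos hz, h6,
    sum_sub_distrib, sum_const, nsmul_eq_mul, e1, e2]
  push_cast
  ring

theorem ch3_hub50 (hQ : G.QS q) {z : V} (hz : G.HubQ q z)
    (hm : ∀ x, G.m Fa x z ≤ 1) : G.ch3 q Fa z =
      (2 - ((G.I Fa z).card : ℤ)) * (-2) + 2 * (G.tp Fa z : ℤ) + (G.tq q Fa z : ℤ) := by
  classical
  have hq : ∀ x, ¬ q z x := fun x hx => hz.2 ⟨x, hx⟩
  have h1 : ∑ x ∈ G.nR Fa z, (if G.m Fa x z ≤ 1 then G.pi3 q x z - G.pi3 q z x else 0) =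
      2 * (G.tp Fa z : ℤ) + (G.tq q Fa z : ℤ) := by
    rw [← tp_sum11, ← tq_sum50 hq, mul_sum, ← sum_add_distrib]
    refine sum_congr rfl fun x _ => ?_
    rw [if_pos (hm x), pi3_to_hub50 hQ hz, pi3_from_hub50 hz]
    ring
  have e1 := fl_empty50 (Fa := Fa) hz.1 (fun B => B)
  have e2 := fl_empty50 (Fa := Fa) hz.1 G.Co
  rw [ch3, h1, a3, c3, if_neg hz.1, if_neg hz.1, if_neg hz.2, if_neg hz.2, e1, e2]
  ring

/-- the term of a neighbour at a low vertex -/
theorem low_term50 (hQ : G.QS q) (h7 : G.StTwHL) (h9 : 9 ≤ Fintype.card V) {x z : V}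
    (hz : G.Low z) (c : ℤ) (hc : (G.m Fa x z : ℤ) - 2 ≤ c) (hc0 : 0 ≤ c) :
    G.w3 q Fa x z - 2 * c ≤
      2 * (2 - (G.m Fa x z : ℤ)) +
        (if G.m Fa x z ≤ 1 then G.pi3 q x z - G.pi3 q z x else 0) := by
  classical
  have h1 : G.m Fa x z = 0 ∨ G.m Fa x z = 1 ∨ 2 ≤ G.m Fa x z := by omega
  rcases h1 with h1 | h1 | h1
  · rw [if_pos (by omega), pi3_to_low50 hQ hz, pi3_from_low50 hQ h7 h9 hz, w3, h1]
    by_cases a1 : G.Low x
    · have h2 : ¬ ∃ b, G.HL x b z := fun ⟨b, hb⟩ => hl_not_low11 hb a1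
      have h3 : ¬ IsQ q x := fun h => isq_not_low50 hQ h a1
      rw [if_pos a1, if_pos (by norm_num), if_pos a1, if_neg h3, if_neg h2]
      push_cast
      linarith
    · by_cases a2 : IsQ q x
      · have h2 : ¬ ∃ b, G.HL x b z := fun ⟨b, hb⟩ => h7.notHL h9 _ _ _ hb (isq_tw50 hQ a2)
        rw [if_neg a1, if_pos a2, if_pos rfl, if_neg a1, if_pos a2, if_neg h2]
        push_cast
        linarith
      · rw [if_neg a1, if_neg a2, if_pos rfl, if_neg a1, if_neg a2]
        split_ifs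
        · push_cast
          linarith
        · push_cast
          linarith
  · rw [if_pos (by omega), pi3_to_low50 hQ hz, pi3_from_low50 hQ h7 h9 hz, w3, h1]
    by_cases a1 : G.Low x
    · have h2 : ¬ ∃ b, G.HL x b z := fun ⟨b, hb⟩ => hl_not_low11 hb a1
      have h3 : ¬ IsQ q x := fun h => isq_not_low50 hQ h a1
      rw [if_pos a1, if_pos (by norm_num), if_pos a1, if_neg h3, if_neg h2]
      push_cast
      linarith
    · by_cases a2 : IsQ q x
      · have h2 : ¬ ∃ b, G.HL x b z := fun ⟨b, hb⟩ => h7.notHL h9 _ _ _ hb (isq_tw50 hQ a2)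
        rw [if_neg a1, if_pos a2, if_neg (by norm_num), if_pos rfl, if_neg a1, if_pos a2,
          if_neg h2]
        push_cast
        linarith
      · rw [if_neg a1, if_neg a2, if_neg (by norm_num), if_neg a1, if_neg a2]
        by_cases a3 : ∃ b, G.HL x b z
        · rw [if_pos ⟨rfl, a3⟩, if_pos a3]
          push_cast
          linarith
        · rw [if_neg (fun h => a3 h.2), if_neg a3]
          push_cast
          linarith
  · have h2 : G.w3 q Fa x z = 0 := by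
      unfold w3
      by_cases a1 : G.Low x
      · rw [if_pos a1, if_neg (by omega)]
      · by_cases a2 : IsQ q x
        · rw [if_neg a1, if_pos a2, if_neg (by omega), if_neg (by omega)]
        · rw [if_neg a1, if_neg a2, if_neg (by omega), if_neg (fun h => absurd h.1 (by omega))]
    rw [h2, if_neg (by omega)]
    linarith

open Classical in
/-- lower bound for the charge of a low vertex -/
theorem ch3_low_ge50 (hQ : G.QS q) (h7 : G.StTwHL) (h9 : 9 ≤ Fintype.card V) {z : V}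
    (hz : G.Low z) (c : V → ℤ) (hc : ∀ x ∈ G.nR Fa z, (G.m Fa x z : ℤ) - 2 ≤ c x)
    (hc0 : ∀ x ∈ G.nR Fa z, 0 ≤ c x) :
    ∑ x ∈ G.nR Fa z, G.w3 q Fa x z + 8 * (((G.I Fa z).card : ℤ) - 2) -
      2 * ∑ x ∈ G.nR Fa z, c x +
      2 * (((G.I Fa z).filter fun B => G.FL B z).card : ℤ) -
      2 * (((G.I Fa z).filter fun B => G.FL (G.Co B) z).card : ℤ) ≤ G.ch3 q Fa z := by
  have h1 := sum_le_sum fun x (hx : x ∈ G.nR Fa z) =>
    low_term50 (x := x) hQ h7 h9 hz (c x) (hc x hx) (hc0 x hx)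
  rw [sum_sub_distrib, sum_add_distrib, ← mul_sum, ← mul_sum] at h1
  have h6 : (G.nb z).card = 6 := hz
  rw [ch3, a3, c3, if_pos hz, if_pos hz, h6]
  push_cast
  linarith

open Classical in
/-- a low vertex in at least three neighbourhoods -/
theorem ch3_low_three50 (hQ : G.QS q) (h7 : G.StTwHL) (h9 : 9 ≤ Fintype.card V) (h : G.Reg Fa)
    {z : V} (hzR : z ∈ R Fa) (hz : G.Low z) (hk : 3 ≤ (G.I Fa z).card) :
    ∑ x ∈ G.nR Fa z, G.w3 q Fa x z ≤ G.ch3 q Fa z := by
  have h6 : (G.nb z).card = 6 := hz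
  have hn := nR_le11 h hzR
  rw [h6] at hn
  push_cast at hn
  have hf0 : (0 : ℤ) ≤ (((G.I Fa z).filter fun B => G.FL B z).card : ℤ) := by positivity
  have hf1 : (((G.I Fa z).filter fun B => G.FL (G.Co B) z).card : ℤ) ≤ ((G.I Fa z).card : ℤ) := by
    exact_mod_cast card_filter_le _ _
  have hk' : (3 : ℤ) ≤ ((G.I Fa z).card : ℤ) := by exact_mod_cast hk
  by_cases hf : (G.I Fa z).card = 3 ∧ ∃ B ∈ G.I Fa z, G.FL (G.Co B) z
  · obtain ⟨h3, B, hB, -, -, -, a, b, -, -, -, hab⟩ := hf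
    have hBF := (mem_I76.1 hB).1
    rw [(stCo_37 G B (h.frag B hBF)).2.1] at hab
    have key := ch3_low_ge50 (Fa := Fa) hQ h7 h9 hz (fun x => if x = a then 1 else 0)
      (fun x hx => by
        by_cases hxa : x = a
        · simp only [if_pos hxa]
          have := m_le11 (G := G) (Fa := Fa) x z
          rw [h3] at this
          have h5 : (G.m Fa x z : ℤ) ≤ 3 := by exact_mod_cast this
          linarith
        · simp only [if_neg hxa]
          have h5 : G.m Fa x z ≤ 2 := by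
            by_contra h8
            have h9' : G.I Fa x ∩ G.I Fa z = G.I Fa z :=
              eq_of_subset_of_card_le inter_subset_right (by rw [h3]; unfold m at h8; omega)
            have h10 : B ∈ G.I Fa x := mem_of_mem_inter_left (h9'.symm ▸ hB)
            have h11 : x ∈ G.nb z ∩ G.N B :=
              mem_inter.2 ⟨(mem_inter.1 hx).1, (mem_I76.1 h10).2⟩
            rw [hab] at h11
            exact hxa (mem_singleton.1 h11)
          have h5' : (G.m Fa x z : ℤ) ≤ 2 := by exact_mod_cast h5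
          linarith)
      (fun x _ => by split_ifs <;> norm_num)
    have hs : ∑ x ∈ G.nR Fa z, (if x = a then (1 : ℤ) else 0) ≤ 1 := by
      rw [sum_ite_eq']
      split_ifs <;> norm_num
    have h3' : ((G.I Fa z).card : ℤ) = 3 := by exact_mod_cast h3
    rw [h3'] at key hf1
    linarith
  · have key := ch3_low_ge50 (Fa := Fa) hQ h7 h9 hz (fun _ => ((G.I Fa z).card : ℤ) - 2)
      (fun x _ => by
        have := m_le11 (G := G) (Fa := Fa) x z
        have h5 : (G.m Fa x z : ℤ) ≤ ((G.I Fa z).card : ℤ) := by exact_mod_cast this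
        linarith)
      (fun x _ => by linarith)
    rw [sum_const, nsmul_eq_mul] at key
    by_cases h3 : (G.I Fa z).card = 3
    · have h4 : (G.I Fa z).filter (fun B => G.FL (G.Co B) z) = ∅ :=
        filter_eq_empty_iff.2 fun B hB hB' => hf ⟨h3, B, hB, hB'⟩
      rw [h4, card_empty] at key
      have h3' : ((G.I Fa z).card : ℤ) = 3 := by exact_mod_cast h3
      rw [h3'] at key hn
      push_cast at key
      linarith
    · have h4 : (4 : ℤ) ≤ ((G.I Fa z).card : ℤ) := by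
        have : 4 ≤ (G.I Fa z).card := by omega
        exact_mod_cast this
      have h5 : ((G.nR Fa z).card : ℤ) * (((G.I Fa z).card : ℤ) - 2) ≤
          (6 - ((G.I Fa z).card : ℤ)) * (((G.I Fa z).card : ℤ) - 2) :=
        mul_le_mul_of_nonneg_right hn (by linarith)
      nlinarith

/-- T2 -/
theorem stCh3_50 (G : CG V) (q : V → V → Prop) (h7 : G.StTwHL) : G.StCh3 q := by
  classical
  intro hQ h9 Fa h _ z hzR
  refine ⟨fun hz => ⟨fun hI => ?_, fun B hI => ?_, fun hk => ?_, fun hk => ?_⟩,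
    fun hz => ⟨fun hI => ?_, fun B hI => ?_, fun hk => ?_⟩,
    fun hz => ⟨fun hI => ?_, fun B hI => ?_, fun hk => ?_⟩⟩
  · rw [ch3_low50 hQ h7 h9 hz (m_empty11 hI)]
    obtain ⟨h1, h2⟩ := nR_empty11 h hzR hI
    have h6 : (G.nb z).card = 6 := hz
    rw [h2, h1, hI, card_empty, h6, filter_empty, filter_empty, card_empty]
    push_cast
    ring
  · have e1 := fl_single50 hI (fun B => B)
    have e2 := fl_single50 hI G.Co
    rw [ch3_low50 hQ h7 h9 hz (m_single11 hI), nR_single11 h hzR hI, e1, e2, hI, card_singleton]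
    push_cast
    ring
  · have key := ch3_low_ge50 (Fa := Fa) hQ h7 h9 hz (fun _ => 0)
      (fun x _ => by
        have := m_le11 (G := G) (Fa := Fa) x z
        rw [hk] at this
        have h5 : (G.m Fa x z : ℤ) ≤ 2 := by exact_mod_cast this
        linarith)
      (fun x _ => le_rfl)
    rw [hk] at key
    simp only [sum_const_zero] at key
    push_cast at key
    linarith
  · exact ch3_low_three50 hQ h7 h9 h hzR hz hk
  · rw [ch3_q50 hQ h7 h9 h hzR hz (m_empty11 hI)]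
    obtain ⟨h1, h2⟩ := nR_empty11 h hzR hI
    rw [h2, h1, hI, card_empty, tw_card11 (isq_tw50 hQ hz)]
    push_cast
    ring
  · rw [ch3_q50 hQ h7 h9 h hzR hz (m_single11 hI), nR_single11 h hzR hI, hI, card_singleton]
    push_cast
    ring
  · have hk' : (2 : ℤ) ≤ ((G.I Fa z).card : ℤ) := by exact_mod_cast hk
    have h1 : ∀ x ∈ G.nR Fa z,
        (if IsQ q x ∧ ¬ q z x ∧ G.m Fa x z ≤ 1 then (1 : ℤ) else 0) -
          (((G.I Fa z).card : ℤ) - 2) ≤
        (2 - (G.m Fa x z : ℤ)) +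
          (if G.m Fa x z ≤ 1 then G.pi3 q x z - G.pi3 q z x else 0) := by
      intro x _
      have h2 : (G.m Fa x z : ℤ) ≤ ((G.I Fa z).card : ℤ) := by exact_mod_cast m_le11 x z
      by_cases h4 : G.m Fa x z ≤ 1
      · have h5 : (G.m Fa x z : ℤ) ≤ 1 := by exact_mod_cast h4
        rw [if_pos h4, pi3_to_q50 hz, pi3_from_q50 hQ hz]
        by_cases a1 : IsQ q x
        · have a2 : ¬ G.Low x := isq_not_low50 hQ a1
          rw [if_pos a1, if_neg a2]
          split_ifs <;> linarith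
        · rw [if_neg (fun hh => a1 hh.1), if_neg a1]
          split_ifs <;> linarith
      · rw [if_neg h4, if_neg (fun hh => h4 hh.2.2)]
        linarith
    have h2 := sum_le_sum h1
    rw [sum_sub_distrib, sum_const, nsmul_eq_mul, sum_add_distrib] at h2
    have h3 := nR_le11 h hzR
    have h6 := tw_card11 (isq_tw50 hQ hz)
    have hl := isq_not_low50 hQ hz
    have e1 := fl_empty50 (Fa := Fa) hl (fun B => B)
    have e2 := fl_empty50 (Fa := Fa) hl G.Co
    rw [ch3, a3, c3, if_neg hl, if_neg hl, if_pos hz, if_pos hz, h6, e1, e2]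
    rw [h6] at h3
    rw [card_filter]
    push_cast at h3 ⊢
    have h4 : 0 ≤ (((G.I Fa z).card : ℤ) - 2) * (6 - ((G.nR Fa z).card : ℤ)) :=
      mul_nonneg (by linarith) (by linarith)
    nlinarith
  · rw [ch3_hub50 hQ hz (m_empty11 hI), hI, card_empty]
    push_cast
    ring
  · rw [ch3_hub50 hQ hz (m_single11 hI), hI, card_singleton]
    push_cast
    ring
  · have hk' : (2 : ℤ) ≤ ((G.I Fa z).card : ℤ) := by exact_mod_cast hk
    have h1 : 2 * (((G.nR Fa z).filter fun x =>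
        G.Low x ∧ G.m Fa x z ≤ 1 ∧ ¬ ∃ b, G.HL z b x).card : ℤ) ≤ ∑ x ∈ G.nR Fa z,
        (if G.m Fa x z ≤ 1 then G.pi3 q x z - G.pi3 q z x else 0) := by
      rw [card_filter]
      push_cast
      rw [mul_sum]
      refine sum_le_sum fun x _ => ?_
      by_cases hm : G.m Fa x z ≤ 1
      · rw [if_pos hm, pi3_to_hub50 hQ hz, pi3_from_hub50 hz]
        by_cases a1 : G.Low x ∧ ¬ ∃ b, G.HL z b x
        · rw [if_pos ⟨a1.1, hm, a1.2⟩, if_pos a1]
          split_ifs <;> norm_num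
        · rw [if_neg (fun hh => a1 ⟨hh.1, hh.2.2⟩), if_neg a1]
          split_ifs <;> norm_num
      · rw [if_neg hm, if_neg (fun hh => hm hh.2.1)]
        norm_num
    have e1 := fl_empty50 (Fa := Fa) hz.1 (fun B => B)
    have e2 := fl_empty50 (Fa := Fa) hz.1 G.Co
    rw [ch3, a3, c3, if_neg hz.1, if_neg hz.1, if_neg hz.2, if_neg hz.2, e1, e2]
    linarith

end CG

end Pool.Agent.Lib.MP_e95c01_co.N
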