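import Pool.Agent.Lib.MP_e95c01_co.T.Aux76

/-!
# T3: covers inside `R`
-/

namespace Pool.Agent.Lib.MP_e95c01_co.N

open Finset

variable {V : Type} [Fintype V] [DecidableEq V]

namespace CG

variable {G : CG V} {q : V → V → Prop} {Fa : Finset (Finset V)}

/-- a common neighbour of `x` and `z` is in `R` when `m x z = 0` -/
theorem common_R11 {x z w : V} (hx : x ∈ R Fa) (hz : z ∈ R Fa) (hm : G.m Fa x z = 0)
    (h1 : x ∈ G.nb w) (h2 : z ∈ G.nb w) : w ∈ R Fa := by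
  by_contra h
  have h3 : ∃ B ∈ Fa, w ∈ B := by
    by_contra h4
    push Not at h4
    apply h
    rw [R, mem_compl, mem_biUnion]
    rintro ⟨B, hB, hw⟩
    exact h4 B hB hw
  obtain ⟨B, hB, hw⟩ := h3
  have h5 : B ∈ G.I Fa x := I_of_nb76 hx hB (G.sym _ _ h1) hw
  have h6 : B ∈ G.I Fa z := I_of_nb76 hz hB (G.sym _ _ h2) hw
  rw [m, Finset.card_eq_zero] at hm
  have h7 : B ∈ G.I Fa x ∩ G.I Fa z := mem_inter.2 ⟨h5, h6⟩
  rw [hm] at h7
  exact Finset.notMem_empty _ h7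

theorem stCov3_11 (G : CG V) (q : V → V → Prop) : G.StCov3 q := by
  intro hq Fa _ x hx z hz hzx hm hc
  rcases hc with h | h | h | h | h
  · exact Or.inl h
  · obtain ⟨v, hv, w, hw, ht, h1, h2, h3, h4⟩ := h
    by_cases hvw : q v w
    · exact Or.inr (Or.inl ⟨v, hv, w, hw, hvw, h1, h2, h3, h4⟩)
    · rcases hq.cov v w ht hvw x z h1 h3 h2 h4 hzx with h5 | h5
      · obtain ⟨u, hu, h6, h7⟩ := h5
        exact Or.inl ⟨u, common_R11 hx hz hm h6 h7, hu, h6, h7⟩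
      · obtain ⟨v', w', h6, h7, h8, h9, h10⟩ := h5
        have h11 := hq.tw _ _ h6
        exact Or.inr (Or.inl ⟨v', common_R11 hx hz hm h7 h9, w',
          common_R11 hx hz hm (Tw_nb5 h11 h7 h8) (Tw_nb5 h11 h9 h10), h6, h7, h9, h8, h10⟩)
  · exact Or.inr (Or.inr (Or.inl h))
  · exact Or.inr (Or.inr (Or.inr (Or.inl h)))
  · exact Or.inr (Or.inr (Or.inr (Or.inr h)))

end CG

end Pool.Agent.Lib.MP_e95c01_co.N
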