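import Pool.Agent.Lib.MP_e95c01_co.T.Aux76
import Pool.Agent.Lib.MP_e95c01_co.N.Basic37

/-!
# T6b: flagged vertices with negative charge
-/

namespace Pool.Agent.Lib.MP_e95c01_co.N

open Finset

variable {V : Type} [Fintype V] [DecidableEq V]

namespace CG

variable {G : CG V} {q : V → V → Prop} {Fa : Finset (Finset V)}

theorem w3_nonneg76 (x z : V) : 0 ≤ G.w3 q Fa x z := by
  classical
  unfold w3
  split_ifs <;> norm_num

theorem w3_low76 {x z : V} (h : G.Low x) (hm : G.m Fa x z ≤ 1) : G.w3 q Fa x z = 2 := by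
  classical
  unfold w3
  rw [if_pos h, if_pos hm]

theorem w3_zero76 {x z : V} (hm : G.m Fa x z = 0) : G.w3 q Fa x z = 2 := by
  classical
  unfold w3
  rw [hm]
  simp

theorem w3_q76 {x z : V} (h : G.QS q) (hx : IsQ q x) (hm : G.m Fa x z ≤ 1) :
    1 ≤ G.w3 q Fa x z := by
  classical
  unfold w3
  rw [if_neg (q_not_low76 h hx), if_pos hx]
  have h2 : G.m Fa x z = 0 ∨ G.m Fa x z = 1 := by omega
  rcases h2 with h2 | h2 <;> rw [h2] <;> norm_num

theorem w3_HL76 {x z b : V} (h : G.QS q) (n9 : 9 ≤ Fintype.card V) (hx : G.HL x b z)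
    (hm : G.m Fa x z ≤ 1) : G.w3 q Fa x z = 2 := by
  classical
  have h1 := HL_hub76 h n9 hx
  unfold w3
  rw [if_neg h1.1, if_neg h1.2]
  have h2 : G.m Fa x z = 0 ∨ G.m Fa x z = 1 := by omega
  rcases h2 with h2 | h2
  · rw [if_pos h2]
  · rw [if_neg (by omega), if_pos ⟨h2, b, hx⟩]

theorem w3_sum76 {z x : V} (hx : x ∈ G.nR Fa z) :
    G.w3 q Fa x z ≤ ∑ y ∈ G.nR Fa z, G.w3 q Fa y z :=
  single_le_sum (f := fun y => G.w3 q Fa y z) (fun y _ => w3_nonneg76 y z) hx

theorem w3_sum2_76 {z x x' : V} (hx : x ∈ G.nR Fa z) (hx' : x' ∈ G.nR Fa z) (hne : x ≠ x') :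
    G.w3 q Fa x z + G.w3 q Fa x' z ≤ ∑ y ∈ G.nR Fa z, G.w3 q Fa y z := by
  have h1 : ({x, x'} : Finset V) ⊆ G.nR Fa z := by
    intro y hy
    rw [mem_insert, mem_singleton] at hy
    rcases hy with rfl | rfl <;> assumption
  have h2 := sum_le_sum_of_subset_of_nonneg (f := fun y => G.w3 q Fa y z) h1
    (fun y _ _ => w3_nonneg76 y z)
  rw [sum_pair hne] at h2
  exact h2

/-- the data of a flag -/
theorem FL_data76 (hr : G.Reg Fa) {B : Finset V} (hB : B ∈ Fa) {t : V} (h : G.FL (G.Co B) t) :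
    G.Low t ∧ t ∈ G.N B ∧ G.d t (G.Co B) = 4 ∧ G.d t B = 1 ∧
      ∃ a b, G.HL a b t ∧ a ∈ G.N B ∧ b ∈ G.N B ∧ G.nb t ∩ G.N B = {a} := by
  obtain ⟨h1, h2, h3, a, b, h4, h5, h6, h7⟩ := h
  obtain ⟨-, hN, -⟩ := G.stCo_37 B (hr.frag B hB)
  rw [hN] at h2 h5 h6 h7
  refine ⟨h1, h2, h3, ?_, a, b, h4, h5, h6, h7⟩
  have h8 := d_split76 (G := G) t B
  rw [h7, card_singleton] at h8
  have h9 : (G.nb t).card = 6 := h1
  omega

theorem stFg3_76 (G : CG V) (q : V → V → Prop) (hch : G.StCh3 q) : G.StFg3 q := by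
  classical
  intro hq Fa hT t ht
  obtain ⟨htR, hlow, hc2, hneg⟩ := ht
  have n9 := hT.n9
  have hreg := hT.reg
  have hb := ((hch hq n9 Fa hreg hT.big t htR).1 hlow).2.2.1 hc2
  set W := ∑ x ∈ G.nR Fa t, G.w3 q Fa x t with hW
  have hW0 : 0 ≤ W := sum_nonneg fun y _ => w3_nonneg76 y t
  obtain ⟨B1, B2, hne, hI⟩ := card_eq_two.1 hc2
  have hB1 : B1 ∈ G.I Fa t := by rw [hI]; exact mem_insert_self _ _
  have hB2 : B2 ∈ G.I Fa t := by rw [hI]; exact mem_insert_of_mem (mem_singleton_self _)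
  -- `m`
  have hm0 : ∀ C D, G.I Fa t = {C, D} → ∀ x, C ∉ G.I Fa x → D ∉ G.I Fa x → G.m Fa x t = 0 := by
    intro C D hI x h1 h2
    rw [m, hI, card_eq_zero, eq_empty_iff_forall_notMem]
    intro E hE
    rw [mem_inter, mem_insert, mem_singleton] at hE
    rcases hE with ⟨h3, rfl | rfl⟩
    · exact h1 h3
    · exact h2 h3
  have hm1 : ∀ C D, G.I Fa t = {C, D} → ∀ x, C ∉ G.I Fa x → G.m Fa x t ≤ 1 := by
    intro C D hI x h1
    have : G.I Fa x ∩ G.I Fa t ⊆ {D} := by
      intro E hE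
      rw [hI, mem_inter, mem_insert, mem_singleton] at hE
      rw [mem_singleton]
      rcases hE with ⟨h3, rfl | rfl⟩
      · exact absurd h3 h1
      · rfl
    have := card_le_card this
    rw [card_singleton] at this
    exact this
  have hNI : ∀ C ∈ G.I Fa t, ∀ x, x ∈ G.N C ↔ C ∈ G.I Fa x := by
    intro C hC x
    rw [mem_I76]
    exact ⟨fun h => ⟨(mem_I76.1 hC).1, h⟩, fun h => h.2⟩
  -- one flag
  have key : ∀ C D, C ≠ D → G.I Fa t = {C, D} → G.FL (G.Co C) t → ¬ G.FL (G.Co D) t →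
      -2 ≤ G.ch3 q Fa t ∧ ∃ a b, G.HL a b t ∧ a ∈ G.nR Fa t ∧
        a ∈ G.N C ∧ a ∈ G.N D ∧ G.nb t ∩ G.N C = {a} ∧ (∃ x ∈ G.nR Fa t, x ≠ a) ∧
        ∀ x ∈ G.nR Fa t, x ≠ a → G.HubQ q x ∧ x ∈ G.N D ∧ x ∉ G.N C ∧ ¬ ∃ b', G.HL x b' t := by
    intro C D hCD hI hC hD
    have hCm : C ∈ G.I Fa t := by rw [hI]; exact mem_insert_self _ _
    have hDm : D ∈ G.I Fa t := by rw [hI]; exact mem_insert_of_mem (mem_singleton_self _)
    obtain ⟨-, h2, h3, h4, a, b, h5, h6, h7, h8⟩ := FL_data76 hreg (mem_I76.1 hCm).1 hC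
    have hminus : ((G.I Fa t).filter fun B => G.FL (G.Co B) t) = {C} := by
      rw [hI, filter_insert, if_pos hC, filter_singleton, if_neg hD, insert_empty_eq]
    rw [hminus, card_singleton] at hb
    have hpl : (0 : ℤ) ≤ (((G.I Fa t).filter fun B => G.FL B t).card : ℤ) := by positivity
    have hge : -2 ≤ G.ch3 q Fa t := by
      push_cast at hb
      linarith
    have hWlt : W < 2 := by
      push_cast at hb
      linarith
    have hpl0 : ∀ B ∈ G.I Fa t, ¬ G.FL B t := by
      intro B hB hf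
      have h9 : 1 ≤ ((G.I Fa t).filter fun B => G.FL B t).card :=
        card_pos.2 ⟨B, mem_filter.2 ⟨hB, hf⟩⟩
      have h10 : (1 : ℤ) ≤ (((G.I Fa t).filter fun B => G.FL B t).card : ℤ) := by
        exact_mod_cast h9
      push_cast at hb
      linarith
    have ham : a ∈ G.nb t ∩ G.N C := by rw [h8]; exact mem_singleton_self _
    have haR : a ∈ R Fa := N_sub_R76 hreg (mem_I76.1 hCm).1 h6
    have hbR : b ∈ R Fa := N_sub_R76 hreg (mem_I76.1 hCm).1 h7
    have hanR : a ∈ G.nR Fa t := mem_nR76.2 ⟨(mem_inter.1 ham).1, haR⟩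
    have hIab := HL_I76 h5 haR hbR htR
    have hI' : G.I Fa t = {D, C} := by rw [hI, pair_comm]
    have haD : a ∈ G.N D := by
      by_contra hc
      have h9 := w3_HL76 hq n9 h5 (hm1 D C hI' a (fun h => hc ((hNI D hDm a).2 h)))
      have h10 := w3_sum76 (q := q) hanR
      rw [h9] at h10
      linarith
    have hoth : ∀ x ∈ G.nR Fa t, x ≠ a → x ∉ G.N C := by
      intro x hx hxa hxC
      have : x ∈ G.nb t ∩ G.N C := mem_inter.2 ⟨(mem_nR76.1 hx).1, hxC⟩
      rw [h8, mem_singleton] at this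
      exact hxa this
    have hothI : ∀ x ∈ G.nR Fa t, x ≠ a → C ∉ G.I Fa x := fun x hx hxa h =>
      hoth x hx hxa ((hNI C hCm x).2 h)
    refine ⟨hge, a, b, h5, hanR, h6, haD, h8, ?_, ?_⟩
    · by_contra hc
      push Not at hc
      have hRe : G.nR Fa t = {a} := by
        ext x
        rw [mem_singleton]
        exact ⟨fun h => hc x h, fun h => by rw [h]; exact hanR⟩
      have hsp := nb_split76 hreg htR
      rw [hRe, card_singleton, hI, sum_pair hCD, h4] at hsp
      have h6' : ((G.nb t).card : ℤ) = 6 := by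
        have : (G.nb t).card = 6 := hlow
        exact_mod_cast this
      have hd4 : G.d t D = 4 := by
        have : (G.d t D : ℤ) = 4 := by
          push_cast at hsp
          linarith
        exact_mod_cast this
      apply hpl0 D hDm
      refine ⟨hlow, (mem_I76.1 hDm).2, hd4, a, b, h5, haD, ?_, ?_⟩
      · rw [hNI D hDm, ← hIab, ← hNI D hDm]
        exact haD
      · ext x
        rw [mem_inter, mem_singleton]
        constructor
        · rintro ⟨k1, k2⟩
          exact hc x (mem_nR76.2 ⟨k1, N_sub_R76 hreg (mem_I76.1 hDm).1 k2⟩)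
        · rintro rfl
          exact ⟨(mem_inter.1 ham).1, haD⟩
    · intro x hx hxa
      have hxC := hothI x hx hxa
      have hxD : x ∈ G.N D := by
        by_contra hc
        have h9 := w3_zero76 (q := q) (hm0 C D hI x hxC (fun h => hc ((hNI D hDm x).2 h)))
        have h10 := w3_sum76 (q := q) hx
        rw [h9] at h10
        linarith
      have hxm := hm1 C D hI x hxC
      have hxl : ¬ G.Low x := by
        intro h
        have h9 := w3_low76 (q := q) h hxm
        have h10 := w3_sum76 (q := q) hx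
        rw [h9] at h10
        linarith
      have hxq : ¬ IsQ q x := by
        intro h
        obtain ⟨y, hy⟩ := h
        have htq := not_q_of_low76 hq hlow
        have hty : t ≠ y := by
          rintro rfl
          exact htq ⟨x, hq.symm _ _ hy⟩
        have hyR := q_nR76 hq hreg hx hy hty
        have hIy := (q_I76 hq hreg (mem_nR76.1 hx).2 hy).2
        have hym : G.m Fa y t ≤ 1 := hm1 C D hI y (by rw [hIy]; exact hxC)
        have h9 := w3_q76 hq ⟨y, hy⟩ hxm
        have h10 := w3_q76 hq ⟨x, hq.symm _ _ hy⟩ hym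
        have h11 := w3_sum2_76 (q := q) hx hyR (q_ne76 hq hy)
        linarith
      refine ⟨⟨hxl, hxq⟩, hxD, hoth x hx hxa, ?_⟩
      rintro ⟨b', hb'⟩
      have h9 := w3_HL76 hq n9 hb' hxm
      have h10 := w3_sum76 (q := q) hx
      rw [h9] at h10
      linarith
  by_cases f1 : G.FL (G.Co B1) t <;> by_cases f2 : G.FL (G.Co B2) t
  · -- both flagged
    exfalso
    obtain ⟨-, h2, h3, h4, a, b, h5, h6, h7, h8⟩ := FL_data76 hreg (mem_I76.1 hB1).1 f1
    obtain ⟨-, k2, k3, k4, a', b', k5, k6, k7, k8⟩ := FL_data76 hreg (mem_I76.1 hB2).1 f2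
    have hminus : ((G.I Fa t).filter fun B => G.FL (G.Co B) t).card ≤ 2 := by
      rw [← hc2]
      exact card_le_card (filter_subset _ _)
    have hpl : (0 : ℤ) ≤ (((G.I Fa t).filter fun B => G.FL B t).card : ℤ) := by positivity
    have hminus' : (((G.I Fa t).filter fun B => G.FL (G.Co B) t).card : ℤ) ≤ 2 := by
      exact_mod_cast hminus
    have hW4 : W < 4 := by linarith
    have ham : a ∈ G.nb t ∩ G.N B1 := by rw [h8]; exact mem_singleton_self _
    have ham' : a' ∈ G.nb t ∩ G.N B2 := by rw [k8]; exact mem_singleton_self _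
    have hanR : a ∈ G.nR Fa t :=
      mem_nR76.2 ⟨(mem_inter.1 ham).1, N_sub_R76 hreg (mem_I76.1 hB1).1 h6⟩
    have hanR' : a' ∈ G.nR Fa t :=
      mem_nR76.2 ⟨(mem_inter.1 ham').1, N_sub_R76 hreg (mem_I76.1 hB2).1 k6⟩
    have hI' : G.I Fa t = {B2, B1} := by rw [hI, pair_comm]
    by_cases haa : a = a'
    · -- three others
      have hsp := nb_split76 hreg htR
      rw [hI, sum_pair hne, h4, k4] at hsp
      have h6' : ((G.nb t).card : ℤ) = 6 := by
        have : (G.nb t).card = 6 := hlow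
        exact_mod_cast this
      have hR4 : (G.nR Fa t).card = 4 := by
        have : ((G.nR Fa t).card : ℤ) = 4 := by
          push_cast at hsp
          linarith
        exact_mod_cast this
      have h3' : 2 ≤ ((G.nR Fa t).erase a).card := by
        rw [card_erase_of_mem hanR]
        omega
      obtain ⟨x, hx, y, hy, hxy⟩ := one_lt_card.1 (show 1 < ((G.nR Fa t).erase a).card by omega)
      have hz : ∀ x ∈ (G.nR Fa t).erase a, x ∈ G.nR Fa t ∧ G.m Fa x t = 0 := by
        intro x hx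
        have hxa := ne_of_mem_erase hx
        have hxR := mem_of_mem_erase hx
        refine ⟨hxR, hm0 B1 B2 hI x ?_ ?_⟩
        · intro h
          have : x ∈ G.nb t ∩ G.N B1 := mem_inter.2 ⟨(mem_nR76.1 hxR).1, (hNI B1 hB1 x).2 h⟩
          rw [h8, mem_singleton] at this
          exact hxa this
        · intro h
          have : x ∈ G.nb t ∩ G.N B2 := mem_inter.2 ⟨(mem_nR76.1 hxR).1, (hNI B2 hB2 x).2 h⟩
          rw [k8, mem_singleton] at this
          exact hxa (this.trans haa.symm)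
      have h9 := w3_zero76 (q := q) (hz x hx).2
      have h10 := w3_zero76 (q := q) (hz y hy).2
      have h11 := w3_sum2_76 (q := q) (hz x hx).1 (hz y hy).1 hxy
      linarith
    · have ha2 : B2 ∉ G.I Fa a := by
        intro h
        have : a ∈ G.nb t ∩ G.N B2 := mem_inter.2 ⟨(mem_inter.1 ham).1, (hNI B2 hB2 a).2 h⟩
        rw [k8, mem_singleton] at this
        exact haa this
      have ha1 : B1 ∉ G.I Fa a' := by
        intro h
        have : a' ∈ G.nb t ∩ G.N B1 := mem_inter.2 ⟨(mem_inter.1 ham').1, (hNI B1 hB1 a').2 h⟩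
        rw [h8, mem_singleton] at this
        exact haa this.symm
      have h9 := w3_HL76 hq n9 h5 (hm1 B2 B1 hI' a ha2)
      have h10 := w3_HL76 hq n9 k5 (hm1 B1 B2 hI a' ha1)
      have h11 := w3_sum2_76 (q := q) hanR hanR' haa
      linarith
  · obtain ⟨h1, a, b, h2⟩ := key B1 B2 hne hI f1 f2
    exact ⟨h1, B1, B2, a, b, hne, hI, h2⟩
  · obtain ⟨h1, a, b, h2⟩ := key B2 B1 (Ne.symm hne) (by rw [hI, pair_comm]) f2 f1
    exact ⟨h1, B2, B1, a, b, Ne.symm hne, by rw [hI, pair_comm], h2⟩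
  · exfalso
    have hminus : ((G.I Fa t).filter fun B => G.FL (G.Co B) t) = ∅ := by
      rw [hI, filter_insert, if_neg f1, filter_singleton, if_neg f2]
    rw [hminus, card_empty] at hb
    have hpl : (0 : ℤ) ≤ (((G.I Fa t).filter fun B => G.FL B t).card : ℤ) := by positivity
    push_cast at hb
    linarith

end CG

end Pool.Agent.Lib.MP_e95c01_co.N
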