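import Pool.Agent.Lib.MP_e95c01_co.T.Defs76
import Pool.Agent.Lib.MP_e95c01_co.U.Aux5

/-!
# T9: torsos with expansion (counting).  helper12
-/

namespace Pool.Agent.Lib.MP_e95c01_co.N

open Finset

variable {V : Type} [Fintype V] [DecidableEq V]

namespace CG

namespace Gen12

variable {G : CG V} {q : V → V → Prop} {Fa : Finset (Finset V)}

theorem w3_nonneg (x z : V) : 0 ≤ G.w3 q Fa x z := by
  unfold w3
  split_ifs <;> norm_num

theorem sing {z : V} {B : Finset V} (h : G.I Fa z = {B}) : B ∈ Fa ∧ z ∈ G.N B := by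
  have : B ∈ G.I Fa z := by
    rw [h]
    exact mem_singleton_self _
  exact mem_I76.1 this

open Classical in
/-- low vertices with a negative charge -/
theorem low_neg (hC : G.StCh3 q) (hL : G.StLow3 q) (hq : G.QS q) (g : G.Gen3 q Fa) {z : V}
    (hz : z ∈ R Fa) (hl : G.Low z) (hn : G.ch3 q Fa z < 0) :
    (G.Nd3 q Fa z ∧ -2 ≤ G.ch3 q Fa z) ∨ G.Fg3 q Fa z := by
  have t := g.tor
  obtain ⟨c0, c1, c2, c3⟩ := (hC hq t.n9 Fa t.reg t.big z hz).1 hl
  obtain ⟨l1, -, hev⟩ := hL hq Fa t z hz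
  obtain ⟨l0, l1⟩ := l1 hl
  have hw : 0 ≤ ∑ x ∈ G.nR Fa z, G.w3 q Fa x z := sum_nonneg fun x _ => w3_nonneg x z
  rcases lt_trichotomy (G.I Fa z).card 2 with h | h | h
  · rcases Nat.lt_or_ge (G.I Fa z).card 1 with h' | h'
    · exfalso
      have hI := card_eq_zero.1 (by omega : (G.I Fa z).card = 0)
      have h1 := c0 hI
      have h2 := l0 hI
      omega
    · left
      obtain ⟨B, hB⟩ := card_eq_one.1 (by omega : (G.I Fa z).card = 1)
      have h1 := c1 B hB
      have h2 := g.h1 z hz B hB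
      have h3 := l1 B hB (by omega)
      have h4 : G.FL (G.Co B) z → G.d z (G.Co B) = 4 := fun h => h.2.2.1
      obtain ⟨e, he⟩ := hev
      have h5 : (0 : ℤ) ≤ if G.FL B z then 2 else 0 := by split_ifs <;> norm_num
      have key : G.d z (G.Co B) = 2 ∧ 2 * G.tl Fa z + G.tq q Fa z + 2 * G.tA Fa z = 2 ∧
          -2 ≤ G.ch3 q Fa z := by
        by_cases hF : G.FL (G.Co B) z
        · exfalso
          rw [if_pos hF] at h1
          have h6 := h4 hF
          omega
        · rw [if_neg hF] at h1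
          refine ⟨?_, ?_, ?_⟩ <;> omega
      exact ⟨⟨hz, hl, B, hB, key.1, key.2.1⟩, key.2.2⟩
  · exact Or.inr ⟨hz, hl, h, hn⟩
  · exfalso
    have h1 := c3 (by omega)
    linarith

/-- the other vertices have no negative charge -/
theorem other (hC : G.StCh3 q) (hH : G.StHub3 q) (hL : G.StLow3 q) (hq : G.QS q)
    (g : G.Gen3 q Fa) {z : V} (hz : z ∈ R Fa) (hl : ¬ G.Low z) : 0 ≤ G.ch3 q Fa z := by
  have t := g.tor
  by_cases hQ : IsQ q z
  · obtain ⟨c0, c1, c2⟩ := (hC hq t.n9 Fa t.reg t.big z hz).2.1 hQ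
    obtain ⟨l0, l1⟩ := (hL hq Fa t z hz).2.1 hQ
    rcases Nat.lt_or_ge (G.I Fa z).card 2 with h | h
    · rcases Nat.lt_or_ge (G.I Fa z).card 1 with h' | h'
      · have hI := card_eq_zero.1 (by omega : (G.I Fa z).card = 0)
        have h1 := c0 hI
        have h2 := l0 hI
        omega
      · obtain ⟨B, hB⟩ := card_eq_one.1 (by omega : (G.I Fa z).card = 1)
        have h1 := c1 B hB
        have h2 := g.hq z hz B hB hQ
        have h3 := l1 B hB (by omega)
        omega
    · exact le_trans (Int.natCast_nonneg _) (c2 h)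
  · have hu : G.HubQ q z := ⟨hl, hQ⟩
    obtain ⟨c0, c1, c2⟩ := (hC hq t.n9 Fa t.reg t.big z hz).2.2 hu
    obtain ⟨l0, l1⟩ := hH hq Fa t z hz hu
    rcases Nat.lt_or_ge (G.I Fa z).card 2 with h | h
    · rcases Nat.lt_or_ge (G.I Fa z).card 1 with h' | h'
      · have hI := card_eq_zero.1 (by omega : (G.I Fa z).card = 0)
        have h1 := c0 hI
        have h2 := l0 hI
        omega
      · obtain ⟨B, hB⟩ := card_eq_one.1 (by omega : (G.I Fa z).card = 1)
        have h1 := c1 B hB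
        have h2 := g.h1 z hz B hB
        have h3 := l1 B hB h2
        omega
    · exact le_trans (by positivity) (c2 h)

/-- a needy vertex is paid -/
theorem paidN (hN : G.StNd3 q) (hq : G.QS q) (g : G.Gen3 q Fa) {z : V} (hn : G.Nd3 q Fa z) :
    (∃ l, G.CLL q Fa l z) ∨ ∃ x, G.CLH q Fa x z := by
  have t := g.tor
  obtain ⟨hz, hl, B, hB, hd, hs⟩ := hn
  have hn' : G.Nd3 q Fa z := ⟨hz, hl, B, hB, hd, hs⟩
  have hyp : ∀ y ∈ G.nb z, IsQ q y → G.I Fa y = {B} → 3 ≤ ((G.nb y ∪ G.nb z) ∩ G.Co B).card := by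
    intro y _ hy hIy
    have hyR : y ∈ R Fa := N_sub_R76 t.reg (sing hIy).1 (sing hIy).2
    refine (g.hq y hyR B hIy hy).trans (card_le_card ?_)
    exact inter_subset_inter_right subset_union_left
  have hX : ∀ B', G.I Fa z = {B'} → B' = B := by
    intro B' h
    rw [hB] at h
    exact (singleton_injective h).symm
  rcases hN hq Fa t z hn' B hB hyp with h | h
  · obtain ⟨l, hlR, hll, hBl, -, -, -, hx⟩ := h
    by_cases hc : ∀ x ∈ G.nb z ∩ G.Co B, G.I Fa x = ∅
    · left
      refine ⟨l, hn', hll, (mem_nR76.1 hlR).2, ?_, Or.inl (mem_nR76.1 hlR).1⟩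
      intro B' h
      rw [hX B' h]
      exact hc
    · right
      push Not at hc
      obtain ⟨x, hx1, hx2⟩ := hc
      have hx3 : G.I Fa x ≠ ∅ := hx2.ne_empty
      have hm : G.m Fa x z = 0 := by
        rw [m_comm76]
        exact m_Co5 hB (mem_inter.1 hx1).2
      exact ⟨x, nR_Co5 hz hB hx1, (hx x hx1).1, hx3, Or.inl ⟨hn', hm⟩⟩
  · obtain ⟨a, ha, b, hb, hHL, -, -, hhub, -, hx⟩ := h
    by_cases hc : ∀ x ∈ G.nb z ∩ G.Co B, G.I Fa x = ∅
    · left
      refine ⟨b, hn', hHL.2.1, hb, ?_, Or.inr ⟨a, ha, hHL⟩⟩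
      intro B' h
      rw [hX B' h]
      exact hc
    · right
      push Not at hc
      obtain ⟨x, hx1, hx2⟩ := hc
      have hx3 : G.I Fa x ≠ ∅ := hx2.ne_empty
      have hm : G.m Fa x z = 0 := by
        rw [m_comm76]
        exact m_Co5 hB (mem_inter.1 hx1).2
      exact ⟨x, nR_Co5 hz hB hx1, hhub x (nR_Co5 hz hB hx1), hx3, Or.inl ⟨hn', hm⟩⟩

/-- a flagged vertex is paid -/
theorem paidF (hF : G.StFg3 q) (hq : G.QS q) (g : G.Gen3 q Fa) {z : V} (hn : G.Fg3 q Fa z) :
    -2 ≤ G.ch3 q Fa z ∧ ∃ x, G.CLH q Fa x z := by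
  have t := g.tor
  obtain ⟨h1, B, B', a, b, hne, hI, -, -, -, -, -, ⟨x, hx, hxa⟩, hall⟩ := hF hq Fa t z hn
  obtain ⟨h2, h3, -, h5⟩ := hall x hx hxa
  refine ⟨h1, x, hx, h2, ?_, Or.inr ⟨hn, h5⟩⟩
  have hB' : B' ∈ Fa := by
    have : B' ∈ G.I Fa z := by
      rw [hI]
      simp
    exact (mem_I76.1 this).1
  intro h
  have : B' ∈ G.I Fa x := mem_I76.2 ⟨hB', h3⟩
  rw [h] at this
  exact notMem_empty _ this

end Gen12

open Classical Gen12 in
theorem stGen3_12 (G : CG V) (q : V → V → Prop) (hC : G.StCh3 q) (hH : G.StHub3 q)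
    (hL : G.StLow3 q) (hN : G.StNd3 q) (hF : G.StFg3 q) (hCL : G.StCapL3 q)
    (hCH : G.StCapH3 q) : G.StGen3 q := by
  intro hq Fa g
  set L : V → V → Prop := fun x z => G.CLL q Fa x z ∨ G.CLH q Fa x z with hLd
  -- claims
  set cl : V → ℤ := fun x => ((univ.filter fun z => L x z).card : ℤ) with hcl
  have hlow : ∀ x z, G.CLL q Fa x z → x ∈ R Fa ∧ G.Low x := fun x z h => ⟨h.2.2.1, h.2.1⟩
  have hhub : ∀ x z, G.CLH q Fa x z → x ∈ R Fa ∧ G.HubQ q x ∧ G.I Fa x ≠ ∅ := fun x z h =>
    ⟨(mem_nR76.1 h.1).2, h.2.1, h.2.2.1⟩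
  have cl0 : ∀ x, x ∉ R Fa → cl x = 0 := by
    intro x hx
    rw [hcl]
    simp only
    rw [filter_eq_empty_iff.2, card_empty]
    · rfl
    · rintro z - (h | h)
      · exact hx (hlow x z h).1
      · exact hx (hhub x z h).1
  have hcap : ∀ x ∈ R Fa, 0 < cl x → 2 * cl x ≤ G.ch3 q Fa x := by
    intro x hx hpos
    have hne : (univ.filter fun z => L x z).Nonempty := by
      rw [← card_pos]
      rw [hcl] at hpos
      simp only at hpos
      exact_mod_cast hpos
    obtain ⟨z, hz⟩ := hne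
    have hz' := (mem_filter.1 hz).2
    by_cases hl : G.Low x
    · have e : (univ.filter fun z => L x z) = univ.filter fun z => G.CLL q Fa x z := by
        ext y
        simp only [mem_filter, mem_univ, true_and]
        constructor
        · rintro (h | h)
          · exact h
          · exact absurd hl (hhub x y h).2.1.1
        · exact Or.inl
      have hz2 : G.CLL q Fa x z := by
        rcases hz' with h | h
        · exact h
        · exact absurd hl (hhub x z h).2.1.1
      have := hCL hq Fa g x hx hl ⟨z, hz2⟩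
      rw [hcl]
      simp only
      rw [e]
      exact this
    · have e : (univ.filter fun z => L x z) = univ.filter fun z => G.CLH q Fa x z := by
        ext y
        simp only [mem_filter, mem_univ, true_and]
        constructor
        · rintro (h | h)
          · exact absurd (hlow x y h).2 hl
          · exact h
        · exact Or.inr
      have hz2 : G.CLH q Fa x z := by
        rcases hz' with h | h
        · exact absurd (hlow x z h).2 hl
        · exact h
      have := hCH hq Fa g x hx (hhub x z hz2).2.1 (hhub x z hz2).2.2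
      rw [hcl]
      simp only
      rw [e]
      exact this
  -- negative vertices
  have hneg : ∀ z ∈ R Fa, G.ch3 q Fa z < 0 → -2 ≤ G.ch3 q Fa z ∧ ∃ x, L x z := by
    intro z hz hn
    have hl : G.Low z := by
      by_contra h
      exact absurd (other hC hH hL hq g hz h) (not_le.2 hn)
    rcases low_neg hC hL hq g hz hl hn with ⟨h1, h2⟩ | h1
    · refine ⟨h2, ?_⟩
      rcases paidN hN hq g h1 with ⟨l, h⟩ | ⟨x, h⟩
      · exact ⟨l, Or.inl h⟩
      · exact ⟨x, Or.inr h⟩
    · obtain ⟨h2, x, h3⟩ := paidF hF hq g h1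
      exact ⟨h2, x, Or.inr h3⟩
  -- pointwise
  set pd : V → ℤ := fun z => ((univ.filter fun x => L x z).card : ℤ) with hpd
  have hpt : ∀ z ∈ R Fa, 2 * cl z - 2 * (if G.ch3 q Fa z < 0 then 1 else 0) ≤ G.ch3 q Fa z := by
    intro z hz
    have hc0 : 0 ≤ cl z := Int.natCast_nonneg _
    rcases hc0.eq_or_lt with h | h
    · rw [← h]
      split_ifs with h1
      · have := (hneg z hz h1).1
        linarith
      · push Not at h1
        linarith
    · have h1 := hcap z hz h
      rw [if_neg (by linarith)]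
      linarith
  have hpd0 : ∀ z, 0 ≤ pd z := fun z => Int.natCast_nonneg _
  have hpd1 : ∀ z ∈ R Fa, (if G.ch3 q Fa z < 0 then (1 : ℤ) else 0) ≤ pd z := by
    intro z hz
    split_ifs with h
    · obtain ⟨-, x, hx⟩ := hneg z hz h
      have h1 : 0 < (univ.filter fun x => L x z).card :=
        card_pos.2 ⟨x, mem_filter.2 ⟨mem_univ _, hx⟩⟩
      rw [hpd]
      simp only
      exact_mod_cast h1
    · exact hpd0 z
  have e1 : ∑ z : V, pd z = ∑ x : V, cl x := by
    have h1 : ∀ z, pd z = ∑ x : V, if L x z then (1 : ℤ) else 0 := by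
      intro z
      rw [hpd]
      simp only
      rw [card_filter]
      push_cast
      rfl
    have h2 : ∀ x, cl x = ∑ z : V, if L x z then (1 : ℤ) else 0 := by
      intro x
      rw [hcl]
      simp only
      rw [card_filter]
      push_cast
      rfl
    rw [sum_congr rfl fun z _ => h1 z, sum_congr rfl fun x _ => h2 x, sum_comm]
  have e2 : ∑ z ∈ R Fa, cl z = ∑ z : V, cl z :=
    sum_subset (subset_univ _) fun z _ hz => cl0 z hz
  have e3 : ∑ z ∈ R Fa, (if G.ch3 q Fa z < 0 then (1 : ℤ) else 0) ≤ ∑ z : V, pd z :=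
    (sum_le_sum hpd1).trans (sum_le_univ_sum_of_nonneg hpd0)
  have h := sum_le_sum hpt
  rw [sum_sub_distrib, ← mul_sum, ← mul_sum, e2] at h
  linarith

end CG

end Pool.Agent.Lib.MP_e95c01_co.N
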