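import Pool.Agent.Lib.MP_e95c01_co.T.Defs76
import Pool.Agent.Lib.MP_e95c01_co.U.Aux5

/-!
# T5: low vertices and vertices of chosen pairs; parity
-/

namespace Pool.Agent.Lib.MP_e95c01_co.N

open Finset

variable {V : Type} [Fintype V] [DecidableEq V]

namespace CG

variable {G : CG V} {q : V → V → Prop} {Fa : Finset (Finset V)}

/-- the five forms of a cover of the edge `z x`, seen from `z` -/
theorem cov3_38 (hQ : G.QS q) (hT : G.Torso3 q Fa) {z x : V} (hz : z ∈ R Fa) (hx : x ∈ G.nR Fa z)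
    (hm : G.m Fa z x = 0) :
    (∃ w, w ∈ G.nR Fa z ∧ G.Low w ∧ x ∈ G.nb w) ∨
    (∃ v w, v ∈ G.nR Fa z ∧ w ∈ G.nR Fa z ∧ q v w ∧ z ≠ w ∧ x ∈ G.nb v ∧ x ≠ w) ∨
    (∃ a b, a ∈ G.nR Fa z ∧ G.HL a b z ∧ x ≠ a) ∨
    (∃ a b, b ∈ G.nR Fa z ∧ G.HL a b x ∧ z ≠ a) ∨
    (∃ a b, a ∈ G.nR Fa z ∧ G.LL a b z x) := by
  rw [mem_nR76] at hx
  rcases hT.cov z hz x hx.2 hx.1 hm with h | h | h | h | h
  · obtain ⟨w, hw, h1, h2, h3⟩ := h
    exact Or.inl ⟨w, mem_nR76.2 ⟨G.sym _ _ h2, hw⟩, h1, h3⟩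
  · obtain ⟨v, hv, w, hw, h1, h2, h3, h4, h5⟩ := h
    exact Or.inr (Or.inl ⟨v, w, mem_nR76.2 ⟨G.sym _ _ h2, hv⟩,
      mem_nR76.2 ⟨G.sym _ _ (Tw_nb5 (hQ.tw _ _ h1) h2 h4), hw⟩, h1, h4, h3, h5⟩)
  · obtain ⟨a, ha, b, hb, h1, h2, h3⟩ := h
    exact Or.inr (Or.inr (Or.inl ⟨a, b, mem_nR76.2 ⟨G.sym _ _ (HL_nb5 h1), ha⟩, h1, h3⟩))
  · obtain ⟨a, ha, b, hb, h1, h2, h3⟩ := h
    exact Or.inr (Or.inr (Or.inr (Or.inl ⟨a, b, mem_nR76.2 ⟨G.sym _ _ h2, hb⟩, h1, h3⟩)))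
  · obtain ⟨a, ha, b, hb, h1⟩ := h
    exact Or.inr (Or.inr (Or.inr (Or.inr ⟨a, b, mem_nR76.2 ⟨G.sym _ _ (LL_nb5 h1), ha⟩, h1⟩)))

/-- a vertex of a chosen pair is not low -/
theorem notLow38 (hQ : G.QS q) {z : V} (h : IsQ q z) : ¬ G.Low z := by
  obtain ⟨w, hw⟩ := h
  have h1 := (hQ.tw _ _ hw).2.1
  intro h2
  unfold Low at h2
  omega

theorem tq_two38 {z v w : V} (h1 : v ∈ G.nR Fa z) (h2 : IsQ q v ∧ ¬ q z v)
    (h3 : w ∈ G.nR Fa z) (h4 : IsQ q w ∧ ¬ q z w) (h5 : v ≠ w) : 2 ≤ G.tq q Fa z := by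
  classical
  rw [tq]
  refine two_le5 (a := v) (b := w) ?_ ?_ h5 <;> rw [mem_filter]
  exacts [⟨h1, h2⟩, ⟨h3, h4⟩]

theorem tq_four38 {z v w v' w' : V} (h1 : v ∈ G.nR Fa z) (h2 : IsQ q v ∧ ¬ q z v)
    (h3 : w ∈ G.nR Fa z) (h4 : IsQ q w ∧ ¬ q z w)
    (h5 : v' ∈ G.nR Fa z) (h6 : IsQ q v' ∧ ¬ q z v')
    (h7 : w' ∈ G.nR Fa z) (h8 : IsQ q w' ∧ ¬ q z w')
    (e1 : v ≠ w) (e2 : v ≠ v') (e3 : v ≠ w') (e4 : w ≠ v') (e5 : w ≠ w') (e6 : v' ≠ w') :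
    4 ≤ G.tq q Fa z := by
  classical
  rw [tq]
  refine four_le5 (a := v) (b := w) (c := v') (d := w') ?_ ?_ ?_ ?_ e1 e2 e3 e4 e5 e6 <;>
    rw [mem_filter]
  exacts [⟨h1, h2⟩, ⟨h3, h4⟩, ⟨h5, h6⟩, ⟨h7, h8⟩]

theorem tA_two38 {z a a' b b' : V} (h1 : a ∈ G.nR Fa z) (h2 : G.HL a b z)
    (h3 : a' ∈ G.nR Fa z) (h4 : G.HL a' b' z) (h5 : a ≠ a') : 2 ≤ G.tA Fa z := by
  classical
  rw [tA]
  refine two_le5 (a := a) (b := a') ?_ ?_ h5 <;> rw [mem_filter]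
  exacts [⟨h1, b, h2⟩, ⟨h3, b', h4⟩]

/-- the members of a chosen pair covering `z x` are counted -/
theorem pair38 (h7 : G.StTwHL) (n9 : 9 ≤ Fintype.card V) (hQ : G.QS q) {z v w : V}
    (hv : v ∈ G.nR Fa z) (h : q v w) (hw : w ∈ G.nR Fa z) :
    (IsQ q v ∧ ¬ q z v) ∧ (IsQ q w ∧ ¬ q z w) ∧ v ≠ w := by
  have hzv : z ≠ v := ne_of_nb5 (mem_nR76.1 hv).1
  have hzw : z ≠ w := ne_of_nb5 (mem_nR76.1 hw).1
  refine ⟨⟨⟨w, h⟩, ?_⟩, ⟨⟨v, hQ.symm _ _ h⟩, ?_⟩, ne_of_nb5 (hQ.tw _ _ h).1⟩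
  · intro h1
    exact hzw (h7.uniq n9 _ _ _ (hQ.tw _ _ (hQ.symm _ _ h1)) (hQ.tw _ _ h))
  · intro h1
    exact hzv (h7.uniq n9 _ _ _ (hQ.tw _ _ (hQ.symm _ _ h1)) (hQ.tw _ _ (hQ.symm _ _ h)))

/-- one class near `z` (or, for a low `z`, one vertex `a` with `HL a b z`) -/
theorem one38 (hQ : G.QS q) (hT : G.Torso3 q Fa) {z x : V} (hz : z ∈ R Fa)
    (hx : x ∈ G.nR Fa z) (hm : G.m Fa z x = 0) :
    (∃ w ∈ G.nR Fa z, G.Low w) ∨ (∃ v w, v ∈ G.nR Fa z ∧ w ∈ G.nR Fa z ∧ q v w) ∨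
    ∃ a b, a ∈ G.nR Fa z ∧ G.HL a b z := by
  rcases cov3_38 hQ hT hz hx hm with h | h | h | h | h
  · obtain ⟨w, h1, h2, -⟩ := h
    exact Or.inl ⟨w, h1, h2⟩
  · obtain ⟨v, w, h1, h2, h3, -⟩ := h
    exact Or.inr (Or.inl ⟨v, w, h1, h2, h3⟩)
  · obtain ⟨a, b, h1, h2, -⟩ := h
    exact Or.inr (Or.inr ⟨a, b, h1, h2⟩)
  · obtain ⟨a, b, h1, h2, -⟩ := h
    exact Or.inl ⟨b, h1, h2.2.1⟩
  · obtain ⟨a, b, h1, h2⟩ := h
    exact Or.inl ⟨a, h1, h2.1⟩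

theorem two38 (h7 : G.StTwHL) (hQ : G.QS q) (hT : G.Torso3 q Fa) {z x : V} (hz : z ∈ R Fa)
    (hx : x ∈ G.nR Fa z) (hm : G.m Fa z x = 0) :
    2 ≤ 2 * G.tl Fa z + G.tq q Fa z + 2 * G.tA Fa z := by
  rcases one38 hQ hT hz hx hm with h | h | h
  · obtain ⟨w, h1, h2⟩ := h
    have := tl_mem5 h1 h2
    omega
  · obtain ⟨v, w, h1, h2, h3⟩ := h
    obtain ⟨k1, k2, k3⟩ := pair38 h7 hT.n9 hQ h1 h3 h2
    have := tq_two38 h1 k1 h2 k2 k3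
    omega
  · obtain ⟨a, b, h1, h2⟩ := h
    have := tA_mem5 h1 h2
    omega

/-- `I z = ∅`: two classes -/
theorem four38 (h7 : G.StTwHL) (hQ : G.QS q) (hT : G.Torso3 q Fa) {z : V} (hz : z ∈ R Fa)
    (hI : G.I Fa z = ∅) : 4 ≤ 2 * G.tl Fa z + G.tq q Fa z + 2 * G.tA Fa z := by
  have hnR : ∀ x ∈ G.nb z, x ∈ G.nR Fa z := by
    intro x hx
    refine nR_of5 hz hx ?_
    intro B hB
    rw [hI] at hB
    exact absurd hB (Finset.notMem_empty _)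
  have hne : (G.nb z).Nonempty := by
    rw [← Finset.card_pos]
    have := G.deg z
    omega
  obtain ⟨x, hx⟩ := hne
  have hm : ∀ y, G.m Fa z y = 0 := fun y => m_empty5 hI
  rcases one38 hQ hT hz (hnR x hx) (hm x) with h | h | h
  · obtain ⟨w, h1, h2⟩ := h
    have hw := tl_mem5 h1 h2
    rcases cov3_38 hQ hT hz h1 (hm w) with k | k | k | k | k
    · obtain ⟨w', k1, k2, k3⟩ := k
      have := tl_two5 h1 h2 k1 k2 (ne_of_nb5 k3).symm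
      omega
    · obtain ⟨v, w', k1, k2, k3, -⟩ := k
      obtain ⟨l1, l2, l3⟩ := pair38 h7 hT.n9 hQ k1 k3 k2
      have := tq_two38 k1 l1 k2 l2 l3
      omega
    · obtain ⟨a, b, k1, k2, -⟩ := k
      have := tA_mem5 k1 k2
      omega
    · obtain ⟨a, b, k1, k2, -⟩ := k
      have hne : w ≠ b := by
        intro e
        subst e
        exact k2.2.2.2.1 (by rw [cl]; exact mem_insert_self _ _)
      have := tl_two5 h1 h2 k1 k2.2.1 hne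
      omega
    · obtain ⟨a, b, k1, k2⟩ := k
      have hne : w ≠ a := by
        intro e
        subst e
        exact k2.2.2.2.2.2.1 (by rw [cl]; exact mem_insert_self _ _)
      have := tl_two5 h1 h2 k1 k2.1 hne
      omega
  · obtain ⟨v, w, h1, h2, h3⟩ := h
    obtain ⟨p1, p2, p3⟩ := pair38 h7 hT.n9 hQ h1 h3 h2
    have htq := tq_two38 h1 p1 h2 p2 p3
    rcases cov3_38 hQ hT hz h1 (hm v) with k | k | k | k | k
    · obtain ⟨w', k1, k2, k3⟩ := k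
      have := tl_mem5 k1 k2
      omega
    · obtain ⟨v', w', k1, k2, k3, k4, k5, k6⟩ := k
      obtain ⟨l1, l2, l3⟩ := pair38 h7 hT.n9 hQ k1 k3 k2
      have e1 : v' ≠ v := ne_of_nb5 k5
      have e2 : w ≠ v' := by
        intro e
        subst e
        exact k6 (h7.uniq hT.n9 _ _ _ (hQ.tw _ _ (hQ.symm _ _ h3)) (hQ.tw _ _ k3))
      have e3 : w ≠ w' := by
        intro e
        subst e
        exact e1 (h7.uniq hT.n9 _ _ _ (hQ.tw _ _ (hQ.symm _ _ k3)) (hQ.tw _ _ (hQ.symm _ _ h3)))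
      have := tq_four38 h1 p1 h2 p2 k1 l1 k2 l2 p3 e1.symm k6 e2 e3 l3
      omega
    · obtain ⟨a, b, k1, k2, -⟩ := k
      have := tA_mem5 k1 k2
      omega
    · obtain ⟨a, b, k1, k2, -⟩ := k
      have := tl_mem5 k1 k2.2.1
      omega
    · obtain ⟨a, b, k1, k2⟩ := k
      have := tl_mem5 k1 k2.1
      omega
  · obtain ⟨a, b, h1, h2⟩ := h
    have htA := tA_mem5 h1 h2
    rcases cov3_38 hQ hT hz h1 (hm a) with k | k | k | k | k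
    · obtain ⟨w', k1, k2, k3⟩ := k
      have := tl_mem5 k1 k2
      omega
    · obtain ⟨v, w', k1, k2, k3, -⟩ := k
      obtain ⟨l1, l2, l3⟩ := pair38 h7 hT.n9 hQ k1 k3 k2
      have := tq_two38 k1 l1 k2 l2 l3
      omega
    · obtain ⟨a', b', k1, k2, k3⟩ := k
      have := tA_two38 h1 h2 k1 k2 k3
      omega
    · obtain ⟨a', b', k1, k2, -⟩ := k
      have := tl_mem5 k1 k2.2.1
      omega
    · obtain ⟨a', b', k1, k2⟩ := k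
      have := tl_mem5 k1 k2.1
      omega

/-- a vertex that is not low has no `a` with `HL a b z` -/
theorem tA_zero38 (hT : G.Torso3 q Fa) {z : V} (hz : ¬ G.Low z) : G.tA Fa z = 0 := by
  classical
  rw [tA, Finset.card_eq_zero, Finset.eq_empty_iff_forall_notMem]
  intro x hx
  rw [mem_filter] at hx
  obtain ⟨-, b, hb⟩ := hx
  exact hz (hT.sat _ _ _ hb)

/-- parity -/
theorem even38 (h7 : G.StTwHL) (n9 : 9 ≤ Fintype.card V) (hR : G.Reg Fa) (hQ : G.QS q) (z : V) :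
    Even (G.tq q Fa z) := by
  classical
  have key : ∀ x ∈ (G.nR Fa z).filter (fun x => IsQ q x ∧ ¬ q z x), ∃ y,
      q x y ∧ y ∈ (G.nR Fa z).filter (fun x => IsQ q x ∧ ¬ q z x) := by
    intro x hx
    rw [mem_filter] at hx
    obtain ⟨h1, ⟨y, hy⟩, h2⟩ := hx
    have hzy : z ≠ y := by
      intro e
      subst e
      exact h2 (hQ.symm _ _ hy)
    have h3 : z ∈ G.nb y := Tw_nb5 (hQ.tw _ _ hy) (G.sym _ _ (mem_nR76.1 h1).1) hzy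
    have h4 : y ∈ G.nR Fa z := mem_nR76.2 ⟨G.sym _ _ h3,
      (h7.twI Fa hR x (mem_nR76.1 h1).2 y (hQ.tw _ _ hy)).1⟩
    exact ⟨y, hy, mem_filter.2 ⟨h4, (pair38 h7 n9 hQ h1 hy h4).2.1⟩⟩
  choose! g hg1 hg2 using key
  have h0 : ∑ x ∈ (G.nR Fa z).filter (fun x => IsQ q x ∧ ¬ q z x), (1 : ZMod 2) = 0 := by
    refine Finset.sum_involution (fun x _ => g x) ?_ ?_ ?_ ?_
    · intro a _
      decide
    · intro a ha _
      exact (ne_of_nb5 (hQ.tw _ _ (hg1 a ha)).1).symm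
    · intro a ha
      exact hg2 a ha
    · intro a ha
      exact h7.uniq n9 _ _ _ (hQ.tw _ _ (hg1 _ (hg2 a ha)))
        (hQ.tw _ _ (hQ.symm _ _ (hg1 a ha)))
  rw [Finset.sum_const, nsmul_eq_mul, mul_one, ZMod.natCast_eq_zero_iff_even] at h0
  rw [tq]
  exact h0

theorem stLow3_38 (G : CG V) (q : V → V → Prop) (h7 : G.StTwHL) : G.StLow3 q := by
  intro hQ Fa hT z hz
  have hone : ∀ B, G.I Fa z = {B} → 1 ≤ G.d z (G.Co B) →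
      2 ≤ 2 * G.tl Fa z + G.tq q Fa z + 2 * G.tA Fa z := by
    intro B hI hd
    have h1 : (G.nb z ∩ G.Co B).Nonempty := by
      rw [← Finset.card_pos]
      unfold d at hd
      omega
    obtain ⟨x, hx⟩ := h1
    exact two38 h7 hQ hT hz (nR_Co5 hz hI hx) (m_Co5 hI (mem_inter.1 hx).2)
  refine ⟨fun _ => ⟨fun hI => four38 h7 hQ hT hz hI, hone⟩, fun hq => ?_,
    even38 h7 hT.n9 hT.reg hQ z⟩
  have h0 := tA_zero38 hT (notLow38 hQ hq)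
  refine ⟨fun hI => ?_, fun B hI hd => ?_⟩
  · have := four38 h7 hQ hT hz hI
    omega
  · have := hone B hI hd
    omega

end CG

end Pool.Agent.Lib.MP_e95c01_co.N
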