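import Pool.Agent.Lib.MP_e95c01_co.U.MainU37
import Pool.Agent.Lib.MP_e95c01_co.T.Aux76

/-!
# T15: the main lemma for low vertices and chosen pairs
-/

set_option autoImplicit false

namespace Pool.Agent.Lib.MP_e95c01_co.N

open Finset

variable {V : Type} [Fintype V] [DecidableEq V]

namespace CG

/-- expansion of sets with at most two vertices -/
theorem wide96 {G : CG V} (htw : G.StTwHL) {Fb : Finset (Finset V)} (hreg : G.Reg Fb)
    {B : Finset V} {z : V} (hz : z ∈ R Fb) (hI : G.I Fb z = {B})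
    (he : ∀ Z : Finset V, Z.Nonempty → Z.card ≤ 2 → (∀ y ∈ Z, y ∈ R Fb ∧ G.I Fb y = {B}) →
      Z.card < (G.N Z ∩ G.Co B).card) :
    2 ≤ G.d z (G.Co B) ∧ (G.IsTw z → 3 ≤ G.d z (G.Co B)) := by
  refine ⟨?_, ?_⟩
  · have h1 := he {z} (singleton_nonempty _) (by simp) (by
      intro y hy
      rw [mem_singleton] at hy
      rw [hy]
      exact ⟨hz, hI⟩)
    rw [card_singleton, N_single37] at h1
    exact h1
  · rintro ⟨w, hw⟩
    obtain ⟨hwR, hwI⟩ := htw.twI Fb hreg z hz w hw
    have hne : z ≠ w := fun h => G.irr z (by have := hw.1; rw [← h] at this; exact this)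
    have h1 := he {z, w} (insert_nonempty _ _) card_le_two (by
      intro y hy
      rw [mem_insert, mem_singleton] at hy
      rcases hy with rfl | rfl
      · exact ⟨hz, hI⟩
      · exact ⟨hwR, hwI.trans hI⟩)
    rw [card_pair hne] at h1
    refine lt_of_lt_of_le h1 (card_le_card ?_)
    intro x hx
    rw [mem_inter] at hx ⊢
    refine ⟨?_, hx.2⟩
    obtain ⟨h2, u, hu, hxu⟩ := mem_N37.1 hx.1
    rw [mem_insert, mem_singleton] at hu
    rcases hu with rfl | rfl
    · exact hxu
    · have h3 : x ∈ G.cl z := by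
        rw [hw.2.2]
        exact mem_cl37.2 (Or.inr hxu)
      rcases mem_cl37.1 h3 with h3 | h3
      · exact absurd (mem_insert.2 (Or.inl h3)) h2
      · exact h3

theorem stMn3_96 (G : CG V) (q : V → V → Prop) (hst : G.StStruct) (htw : G.StTwHL)
    (hsm : G.StSmall) (hcovU : G.StCovU) (hcov3 : G.StCov3 q) (hid : G.StId3 q)
    (hps : G.StPs3 q) (hgen : G.StGen3 q) (ht1 : G.StTh1 q) (ht2 : G.StTh2 q)
    (hl45 : G.StLf45 q) (hl6 : G.StLf6 q) (h3 : G.StT3 q) : G.StMn3 q := by
  classical
  have h6 := G.stN6_37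
  have hco := G.stCo_37
  have hfam := G.stFamE_37 h6 G.stUnion_37 hst
  intro hcr hqs hsat F
  induction hn : F.card using Nat.strong_induction_on generalizing F with
  | _ n ih =>
  intro hF
  subst hn
  have hcardV := G.card_V37 hF.1
  have hF3 := hF.2.1
  have hCF3 := hF.2.2
  by_cases hc3 : F.card = 3
  · refine h3 hqs hsat F hF hc3 ?_
    intro z hz v hv hvF
    by_contra hcov
    rcases hst hcr F hF z hz v hv hcov with ⟨B, hB, hBF, -⟩ | ⟨-, h⟩
    · have h1 := card_lt_card hBF
      have h2 := hB.2.1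
      omega
    · exact hvF h
  have h4 : 4 ≤ F.card := by omega
  obtain ⟨Fa, a1, a2, a3, a4, a5, a6, a7⟩ := hfam hcr F hF h4
  by_cases hFa : Fa = ∅
  · have hleaf : G.Leaf F := by
      refine ⟨hF, by omega, hsat, h4, a6 hFa, ?_⟩
      intro z hz v hv
      by_contra hcov
      obtain ⟨A, hA, -⟩ := a3 z hz (by simp [hFa]) v hv hcov
      simp [hFa] at hA
    rcases (by omega : F.card = 4 ∨ F.card = 5 ∨ 6 ≤ F.card) with h | h | h
    · exact hl45 hqs F hleaf (Or.inl h)
    · exact hl45 hqs F hleaf (Or.inr h)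
    · exact hl6 hqs F hleaf h
  -- the family with the opposite side
  have hFane : Fa.Nonempty := nonempty_iff_ne_empty.2 hFa
  obtain ⟨hCf, hCN, hCC⟩ := hco F hF.1
  have hCoF : ∀ A ∈ Fa, Disjoint (G.Co F) A := by
    intro A hA
    rw [disjoint_left]
    intro v hv hvA
    exact (mem_Co37.1 hv).1 ((a1 A hA).2.1 hvA)
  have hCne : ∀ A ∈ Fa, G.Co F ≠ A := by
    intro A hA h
    obtain ⟨v, hv⟩ := (a1 A hA).1.1.1
    exact (disjoint_left.1 (hCoF A hA)) (by rw [h]; exact hv) hv
  have hCnot : G.Co F ∉ Fa := fun h => hCne _ h rfl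
  have hNCo : ∀ A ∈ Fa, Disjoint (G.N A) (G.Co F) := by
    intro A hA
    rw [disjoint_left]
    intro v hv hvC
    rcases mem_union.1 (N_subset37 (a1 A hA).2.1 hv) with h | h
    · exact (mem_Co37.1 hvC).1 h
    · exact (mem_Co37.1 hvC).2 h
  set Fb := insert (G.Co F) Fa with hFb
  have hreg : G.Reg Fb := by
    constructor
    · intro B hB
      rcases mem_insert.1 hB with rfl | hB
      · exact hCf
      · exact (a1 B hB).1.1
    · intro B hB B' hB' hne
      rcases mem_insert.1 hB with h1 | h1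
      · rcases mem_insert.1 hB' with h2 | h2
        · exact absurd (h1.trans h2.symm) hne
        · rw [h1, hCN]
          refine ⟨hCoF B' h2, ?_⟩
          rw [disjoint_left]
          intro v hv hvB
          exact (mem_N37.1 hv).1 ((a1 B' h2).2.1 hvB)
      · rcases mem_insert.1 hB' with h2 | h2
        · rw [h2]
          exact ⟨(hCoF B h1).symm, hNCo B h1⟩
        · exact a2 B h1 B' h2 hne
  have hbig3 : ∀ B ∈ Fb, 3 ≤ B.card := by
    intro B hB
    rcases mem_insert.1 hB with rfl | hB
    · exact hCF3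
    · exact (a1 B hB).1.2.1
  have hR : ∀ z, z ∈ R Fb ↔ z ∉ G.Co F ∧ ∀ A ∈ Fa, z ∉ A := by
    intro z
    rw [R, mem_compl, mem_biUnion]
    constructor
    · intro h
      refine ⟨fun h1 => h ⟨G.Co F, mem_insert_self _ _, h1⟩, fun A hA h1 => ?_⟩
      exact h ⟨A, mem_insert_of_mem hA, h1⟩
    · rintro ⟨h1, h2⟩ ⟨A, hA, h3⟩
      rcases mem_insert.1 hA with rfl | hA
      · exact h1 h3
      · exact h2 A hA h3
  have hIC : ∀ z, G.Co F ∈ G.I Fb z ↔ z ∈ G.N F := by
    intro z
    rw [I, mem_filter, hCN]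
    simp [hFb]
  have hIA : ∀ z, ∀ A ∈ Fa, (A ∈ G.I Fb z ↔ z ∈ G.N A) := by
    intro z A hA
    rw [I, mem_filter]
    simp [hFb, hA]
  have hinF : ∀ z ∈ R Fb, G.Co F ∉ G.I Fb z → z ∈ F := by
    intro z hz h
    rw [hIC] at h
    by_contra hzF
    exact ((hR z).1 hz).1 (mem_Co37.2 ⟨hzF, h⟩)
  -- expansion, with one exception
  have hexp : ∀ B ∈ Fb, ∀ Z : Finset V, Z.Nonempty → (∀ y ∈ Z, y ∈ R Fb ∧ G.I Fb y = {B}) →
      Z.card < (G.N Z ∩ G.Co B).card ∨
        ∃ B1, Fa = {B1} ∧ F \ B1 = G.N B1 ∩ F ∧ Z.card = (F \ B1).card := by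
    intro B hB Z hZ hK
    rcases mem_insert.1 hB with h1 | h1
    · rw [h1, hCC]
      have hZF : Z ⊆ G.N F := by
        intro z hz
        rw [← hIC z, (hK z hz).2, h1]
        exact mem_singleton_self _
      have hZA : ∀ z ∈ Z, ∀ A ∈ Fa, z ∉ G.N A := by
        intro z hz A hA h
        have h2 := (hIA z A hA).2 h
        rw [(hK z hz).2, h1, mem_singleton] at h2
        exact hCne A hA h2.symm
      rcases a5 hFane Z hZ hZF hZA with h2 | ⟨B1, hB1, h2, h3⟩
      · exact Or.inl h2
      right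
      refine ⟨B1, hB1, ?_, h3.symm⟩
      have hB1m : B1 ∈ Fa := by rw [hB1]; exact mem_singleton_self _
      symm
      apply eq_of_subset_of_card_le
      · intro v hv
        rw [mem_inter] at hv
        exact mem_sdiff.2 ⟨hv.2, (mem_N37.1 hv.1).1⟩
      · rw [h3]
        have h4 : Z ⊆ G.N F \ G.N B1 := fun z hz =>
          mem_sdiff.2 ⟨hZF hz, hZA z hz B1 hB1m⟩
        have h5 := card_le_card h4
        have h7 : (G.N F \ G.N B1).card + (G.N F ∩ G.N B1).card = 6 := by
          rw [← hF.1.2.1]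
          exact card_sdiff_add_card_inter _ _
        have h8 : (G.N B1 ∩ F).card + (G.N F ∩ G.N B1).card = 6 := by
          rw [← (a1 B1 hB1m).1.1.2.1, ← card_union_of_disjoint]
          · congr 1
            ext v
            rw [mem_union, mem_inter, mem_inter]
            constructor
            · rintro (h | h)
              · exact h.1
              · exact h.2
            · intro h
              rcases mem_union.1 (N_subset37 (a1 B1 hB1m).2.1 h) with h9 | h9
              · exact Or.inl ⟨h, h9⟩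
              · exact Or.inr ⟨h9, h⟩
          · rw [disjoint_left]
            intro v hv hv'
            rw [mem_inter] at hv hv'
            exact (mem_N37.1 hv'.1).1 hv.2
        omega
    · have hzF : Z ⊆ F := by
        intro z hz
        apply hinF z (hK z hz).1
        rw [(hK z hz).2, mem_singleton]
        exact hCne B h1
      have hzB : Z ⊆ G.N B := by
        intro z hz
        rw [← hIA z B h1, (hK z hz).2]
        exact mem_singleton_self _
      have hzA : ∀ z ∈ Z, ∀ A ∈ Fa, A ≠ B → z ∉ G.N A := by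
        intro z hz A hA hAB h
        have h2 := (hIA z A hA).2 h
        rw [(hK z hz).2, mem_singleton] at h2
        exact hAB h2
      rcases a4 B h1 Z hZ hzF hzB hzA with h2 | ⟨h2, h3⟩
      · exact Or.inl h2
      right
      refine ⟨B, h2, ?_, by rw [h3]⟩
      ext v
      rw [mem_inter, ← h3]
      constructor
      · intro h
        exact ⟨hzB h, hzF h⟩
      · rintro ⟨h5, h7⟩
        rw [h3, mem_sdiff]
        exact ⟨h7, (mem_N37.1 h5).1⟩
  -- every edge of `R` with `m = 0` is small-covered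
  have hscov : ∀ x ∈ R Fb, ∀ z ∈ R Fb, z ∈ G.nb x → G.m Fb x z = 0 → G.SCov x z := by
    intro x hx z hz hxz hm
    rw [m, card_eq_zero] at hm
    have key : ∀ x' ∈ R Fb, ∀ z' ∈ R Fb, z' ∈ G.nb x' → G.I Fb x' ∩ G.I Fb z' = ∅ → x' ∈ F →
        G.SCov x' z' := by
      intro x' hx' z' hz' hxz' hm' hxF
      by_contra hc
      obtain ⟨A, hA, h1, h2⟩ := a3 x' hxF ((hR x').1 hx').2 z' hxz' hc
      rcases h2 with h2 | h2
      · exact ((hR z').1 hz').2 A hA h2
      · have h3 : A ∈ G.I Fb x' ∩ G.I Fb z' :=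
          mem_inter.2 ⟨(hIA x' A hA).2 h1, (hIA z' A hA).2 h2⟩
        rw [hm'] at h3
        exact notMem_empty _ h3
    by_cases hxF : x ∈ F
    · exact key x hx z hz hxz hm hxF
    by_cases hzF : z ∈ F
    · have hs := key z hz x hx (G.sym _ _ hxz) (by rw [inter_comm]; exact hm) hzF
      obtain ⟨E, h1, h2, h3, h4⟩ := hs
      exact ⟨E, h1, h2, h4, h3⟩
    · exfalso
      have h1 : G.Co F ∈ G.I Fb x ∩ G.I Fb z := by
        refine mem_inter.2 ⟨?_, ?_⟩
        · by_contra h
          exact hxF (hinF x hx h)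
        · by_contra h
          exact hzF (hinF z hz h)
      rw [hm] at h1
      exact notMem_empty _ h1
  have hIB : ∀ z, ∀ B, G.I Fb z = {B} → B ∈ Fb := by
    intro z B hI
    have : B ∈ G.I Fb z := by rw [hI]; exact mem_singleton_self _
    exact (mem_filter.1 this).1
  -- the identity
  have hid' := hid Fb hreg
  rw [hFb, sum_insert hCnot, ← hFb] at hid'
  have hps' := hps F hF.1
  have hnn : 0 ≤ ∑ A ∈ Fa, G.P3 q A := by
    apply sum_nonneg
    intro A hA
    exact ih A.card (card_lt_card (a1 A hA).2) A rfl (a1 A hA).1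
  have hn9 : 9 ≤ Fintype.card V := by omega
  -- the covers
  have hcovg : (∀ z ∈ R Fb, ∀ B, G.I Fb z = {B} → 2 ≤ G.d z (G.Co B)) → G.CovU3 q Fb := by
    intro hk x hx z hz hxz hm
    exact hcov3 hqs Fb hreg x hx z hz hxz hm
      (hcovU hsm Fb hreg hk x hx z hz hxz hm (hscov x hx z hz hxz hm))
  -- the generic case
  have hgeneric : (∀ B ∈ Fb, ∀ Z : Finset V, Z.Nonempty → Z.card ≤ 2 →
      (∀ y ∈ Z, y ∈ R Fb ∧ G.I Fb y = {B}) → Z.card < (G.N Z ∩ G.Co B).card) →
      ((∀ z ∈ R Fb, G.I Fb z ≠ ∅) ∨ ∀ B ∈ Fb, ∀ Z : Finset V, Z.Nonempty → Z.card ≤ 3 →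
        (∀ y ∈ Z, y ∈ R Fb ∧ G.I Fb y = {B}) → Z.card < (G.N Z ∩ G.Co B).card) →
      0 ≤ G.P3 q F := by
    intro he he3
    have hw : ∀ z ∈ R Fb, ∀ B, G.I Fb z = {B} → 2 ≤ G.d z (G.Co B) ∧
        (G.IsTw z → 3 ≤ G.d z (G.Co B)) := by
      intro z hz B hI
      exact wide96 htw hreg hz hI (he B (hIB z B hI))
    refine (?_ : 0 ≤ G.P3 q F)
    have hG3 : G.Gen3 q Fb := by
      refine ⟨⟨hreg, hbig3, hn9, hsat, hcovg fun z hz B hI => (hw z hz B hI).1⟩,
        fun z hz B hI => (hw z hz B hI).1,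
        fun z hz B hI hzq => (hw z hz B hI).2 (q_isTw76 hqs hzq), ?_, ?_⟩
      · intro y hy z hz B hyI hzI hne
        have h1 := he B (hIB z B hzI) {y, z} (insert_nonempty _ _) card_le_two (by
          intro v hv
          rw [mem_insert, mem_singleton] at hv
          rcases hv with rfl | rfl
          · exact ⟨hy, hyI⟩
          · exact ⟨hz, hzI⟩)
        rw [card_pair hne] at h1
        refine lt_of_lt_of_le h1 (card_le_card ?_)
        intro x hx
        rw [mem_inter] at hx ⊢
        refine ⟨?_, hx.2⟩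
        obtain ⟨-, u, hu, hxu⟩ := mem_N37.1 hx.1
        rw [mem_insert, mem_singleton] at hu
        rw [mem_union]
        rcases hu with rfl | rfl
        · exact Or.inl hxu
        · exact Or.inr hxu
      · rcases he3 with he3 | he3
        · exact Or.inl he3
        · right
          intro x hx y hy z hz B hxI hyI hzI hxy hxz hyz
          have hc : ({x, y, z} : Finset V).card = 3 := by
            rw [card_insert_of_notMem (by simp [hxy, hxz]), card_insert_of_notMem (by simp [hyz]),
              card_singleton]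
          have h1 := he3 B (hIB z B hzI) {x, y, z} (insert_nonempty _ _) hc.le (by
            intro v hv
            rw [mem_insert, mem_insert, mem_singleton] at hv
            rcases hv with rfl | rfl | rfl
            · exact ⟨hx, hxI⟩
            · exact ⟨hy, hyI⟩
            · exact ⟨hz, hzI⟩)
          rw [hc] at h1
          refine lt_of_lt_of_le h1 (card_le_card ?_)
          intro v hv
          rw [mem_inter] at hv ⊢
          refine ⟨?_, hv.2⟩
          obtain ⟨-, u, hu, hvu⟩ := mem_N37.1 hv.1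
          rw [mem_insert, mem_insert, mem_singleton] at hu
          rw [mem_union, mem_union]
          rcases hu with rfl | rfl | rfl
          · exact Or.inl (Or.inl hvu)
          · exact Or.inl (Or.inr hvu)
          · exact Or.inr hvu
    have := hgen hqs Fb hG3
    linarith
  by_cases hthin : ∃ B1, Fa = {B1} ∧ F \ B1 = G.N B1 ∩ F ∧ (F \ B1).card ≤ 3
  swap
  · have hall : ∀ B ∈ Fb, ∀ Z : Finset V, Z.Nonempty → Z.card ≤ 3 →
        (∀ y ∈ Z, y ∈ R Fb ∧ G.I Fb y = {B}) → Z.card < (G.N Z ∩ G.Co B).card := by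
      intro B hB Z hZ hZ3 hK
      rcases hexp B hB Z hZ hK with h | ⟨B1, h1, h2, h3'⟩
      · exact h
      · exact absurd ⟨B1, h1, h2, by omega⟩ hthin
    exact hgeneric (fun B hB Z hZ hZ2 hK => hall B hB Z hZ (by omega) hK) (Or.inr hall)
  obtain ⟨B1, hB1, hth, hth3⟩ := hthin
  have hB1m : B1 ∈ Fa := by rw [hB1]; exact mem_singleton_self _
  have hFb2 : Fb = {G.Co F, B1} := by rw [hFb, hB1]
  have hexp' : ∀ B ∈ Fb, ∀ Z : Finset V, Z.Nonempty → Z.card < (F \ B1).card →
      (∀ y ∈ Z, y ∈ R Fb ∧ G.I Fb y = {B}) → Z.card < (G.N Z ∩ G.Co B).card := by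
    intro B hB Z hZ hlt hK
    rcases hexp B hB Z hZ hK with h | ⟨B2, h1, h2, h3'⟩
    · exact h
    · exfalso
      have : B2 = B1 := by
        have h5 : B1 ∈ ({B2} : Finset (Finset V)) := by rw [← h1]; exact hB1m
        exact (mem_singleton.1 h5).symm
      rw [this] at h3'
      omega
  have h7 : (G.N F \ G.N B1).card + (G.N F ∩ G.N B1).card = 6 := by
    rw [← hF.1.2.1]
    exact card_sdiff_add_card_inter _ _
  have h8 : (G.N B1 ∩ F).card + (G.N F ∩ G.N B1).card = 6 := by
    rw [← (a1 B1 hB1m).1.1.2.1, ← card_union_of_disjoint]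
    · congr 1
      ext v
      rw [mem_union, mem_inter, mem_inter]
      constructor
      · rintro (h | h)
        · exact h.1
        · exact h.2
      · intro h
        rcases mem_union.1 (N_subset37 (a1 B1 hB1m).2.1 h) with h9 | h9
        · exact Or.inl ⟨h, h9⟩
        · exact Or.inr ⟨h9, h⟩
    · rw [disjoint_left]
      intro v hv hv'
      rw [mem_inter] at hv hv'
      exact (mem_N37.1 hv'.1).1 hv.2
  have hstrip : G.Strip (G.Co F) B1 := by
    refine ⟨hCne B1 hB1m, by rw [← hFb2]; exact hreg, hCF3, (a1 B1 hB1m).1.2.1, hn9, hsat, ?_⟩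
    intro z hz
    rw [← hFb2, hR] at hz
    rw [hCN, mem_union]
    by_cases hzF : z ∈ F
    · right
      have : z ∈ F \ B1 := mem_sdiff.2 ⟨hzF, hz.2 B1 hB1m⟩
      rw [hth] at this
      exact (mem_inter.1 this).1
    · left
      by_contra h
      exact hz.1 (mem_Co37.2 ⟨hzF, h⟩)
  have hP4 : G.P3 q F = G.P3 q B1 + ∑ z ∈ R {G.Co F, B1}, G.ch3 q {G.Co F, B1} z := by
    rw [← hFb2]
    rw [hB1, sum_singleton] at hid'
    linarith
  have hB1nn : 0 ≤ G.P3 q B1 := by
    rw [hB1, sum_singleton] at hnn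
    exact hnn
  have hane : (F \ B1).card ≠ 0 := by
    intro h
    rw [card_eq_zero, sdiff_eq_empty_iff_subset] at h
    exact (a1 B1 hB1m).2.2 h
  have ha : (G.N (G.Co F) \ G.N B1).card = (F \ B1).card := by
    rw [hCN, hth]
    omega
  rcases (by omega : (F \ B1).card = 1 ∨ (F \ B1).card = 2 ∨ (F \ B1).card = 3) with hc | hc | hc
  · -- one vertex
    have hcov1 : ∀ y ∈ G.N B1 \ G.N (G.Co F), ∀ s ∈ G.N (G.Co F) \ G.N B1, s ∈ G.nb y →
        G.SCov y s := by
      intro y hy s hs hys
      rw [hCN] at hy hs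
      rw [mem_sdiff] at hy hs
      have hyR : y ∈ R Fb := by
        rw [hR]
        refine ⟨fun h => ?_, fun A hA h => ?_⟩
        · exact (disjoint_left.1 (hNCo B1 hB1m)) hy.1 h
        · rw [hB1, mem_singleton] at hA
          rw [hA] at h
          exact (mem_N37.1 hy.1).1 h
      have hsR : s ∈ R Fb := by
        rw [hR]
        refine ⟨fun h => (mem_Co37.1 h).2 hs.1, fun A hA h => ?_⟩
        exact (mem_N37.1 hs.1).1 ((a1 A hA).2.1 h)
      apply hscov y hyR s hsR hys
      rw [m, card_eq_zero, eq_empty_iff_forall_notMem]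
      intro A hA
      rw [mem_inter] at hA
      rcases mem_insert.1 (mem_filter.1 hA.1).1 with h | h
      · exact hy.2 ((hIC y).1 (by rw [← h]; exact hA.1))
      · have h9 : A = B1 := by
          rw [hB1, mem_singleton] at h
          exact h
        exact hs.2 ((hIA s B1 hB1m).1 (by rw [← h9]; exact hA.2))
    have := ht1 hqs (G.Co F) B1 hstrip (by rw [ha]; exact hc) hcov1
    linarith
  · -- two vertices
    have hk : ∀ z ∈ R Fb, ∀ B, G.I Fb z = {B} → 2 ≤ G.d z (G.Co B) := by
      intro z hz B hI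
      have h1 := hexp' B (hIB z B hI) {z} (singleton_nonempty _) (by simp [hc]) (by
        intro y hy
        rw [mem_singleton] at hy
        rw [hy]
        exact ⟨hz, hI⟩)
      rw [card_singleton, N_single37] at h1
      exact h1
    have := ht2 hqs (G.Co F) B1 hstrip (by rw [ha]; exact hc)
      (by rw [← hFb2]; exact hcovg hk) (by rw [← hFb2]; exact hk)
    linarith
  · -- three vertices
    refine hgeneric (fun B hB Z hZ hZ2 hK => hexp' B hB Z hZ (by omega) hK) (Or.inl ?_)
    intro z hz h0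
    have h9 := hstrip.sub (by rw [← hFb2]; exact hz)
    rw [hCN, mem_union] at h9
    rcases h9 with h9 | h9
    · have h10 := (hIC z).2 h9
      rw [h0] at h10
      exact notMem_empty _ h10
    · have h10 := (hIA z B1 hB1m).2 h9
      rw [h0] at h10
      exact notMem_empty _ h10

end CG

end Pool.Agent.Lib.MP_e95c01_co.N
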