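import Pool.Agent.Lib.MP_e95c01_co.T.Aux76

/-!
# T6: needy vertices
-/

namespace Pool.Agent.Lib.MP_e95c01_co.N

open Finset

variable {V : Type} [Fintype V] [DecidableEq V]

namespace CG

variable {G : CG V} {q : V → V → Prop} {Fa : Finset (Finset V)}

theorem tl_zero76 {z : V} (h : G.tl Fa z = 0) {y : V} (hy : y ∈ G.nR Fa z) : ¬ G.Low y := by
  intro h1
  have := tl_mem5 hy h1
  omega

theorem tl_one76 {z : V} (h : G.tl Fa z = 1) {y l : V} (hy : y ∈ G.nR Fa z) (h1 : G.Low y)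
    (hl : l ∈ G.nR Fa z) (h2 : G.Low l) : y = l := by
  by_contra h3
  have := tl_two5 hy h1 hl h2 h3
  omega

theorem tl_ex76 {z : V} (h : 1 ≤ G.tl Fa z) : ∃ l ∈ G.nR Fa z, G.Low l := by
  classical
  rw [tl, Nat.succ_le_iff, Finset.card_pos] at h
  obtain ⟨l, hl⟩ := h
  rw [mem_filter] at hl
  exact ⟨l, hl⟩

theorem tq_zero76 {z : V} (hz : ¬ IsQ q z) (h : G.tq q Fa z = 0) {y : V}
    (hy : y ∈ G.nR Fa z) : ¬ IsQ q y := by
  intro h1
  have := tq_mem76 hy ⟨h1, fun h2 => hz ⟨y, h2⟩⟩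
  omega

theorem tq_ex76 {z : V} (h : 1 ≤ G.tq q Fa z) : ∃ y ∈ G.nR Fa z, IsQ q y ∧ ¬ q z y := by
  classical
  rw [tq, Nat.succ_le_iff, Finset.card_pos] at h
  obtain ⟨l, hl⟩ := h
  rw [mem_filter] at hl
  exact ⟨l, hl⟩

theorem tA_zero76 {z : V} (h : G.tA Fa z = 0) {y : V} (hy : y ∈ G.nR Fa z) :
    ¬ ∃ b, G.HL y b z := by
  rintro ⟨b, hb⟩
  have := tA_mem5 hy hb
  omega

theorem tA_one76 {z : V} (h : G.tA Fa z = 1) {y a : V} (hy : y ∈ G.nR Fa z)
    (h1 : ∃ b, G.HL y b z) (ha : a ∈ G.nR Fa z) (h2 : ∃ b, G.HL a b z) : y = a := by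
  classical
  by_contra h3
  have h4 : 2 ≤ G.tA Fa z := by
    rw [tA]
    refine two_le5 (a := y) (b := a) ?_ ?_ h3 <;> rw [mem_filter]
    exacts [⟨hy, h1⟩, ⟨ha, h2⟩]
  omega

/-- chosen pairs near `z` if there is exactly one -/
theorem tq_two_eq76 (hq : G.QS q) (hr : G.Reg Fa) {z : V}
    (hz : ¬ IsQ q z) (h : G.tq q Fa z = 2) {v w x : V} (hv : v ∈ G.nR Fa z) (hvw : q v w)
    (hx : x ∈ G.nR Fa z) (hxq : IsQ q x) : x = v ∨ x = w := by
  classical
  by_contra hc
  push Not at hc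
  have hzw : z ≠ w := by
    rintro rfl
    exact hz ⟨v, hq.symm _ _ hvw⟩
  have hw := q_nR76 hq hr hv hvw hzw
  have h3 : 3 ≤ G.tq q Fa z := by
    have h4 : ({x, v, w} : Finset V) ⊆ (G.nR Fa z).filter (fun x => IsQ q x ∧ ¬ q z x) := by
      intro y hy
      rw [mem_insert, mem_insert, mem_singleton] at hy
      rw [mem_filter]
      have hn : ∀ y, ¬ q z y := fun y h => hz ⟨y, h⟩
      rcases hy with rfl | rfl | rfl
      · exact ⟨hx, hxq, hn _⟩
      · exact ⟨hv, ⟨_, hvw⟩, hn _⟩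
      · exact ⟨hw, ⟨_, hq.symm _ _ hvw⟩, hn _⟩
    have h5 := card_le_card h4
    rw [card_insert_of_notMem (by simp [hc.1, hc.2]), card_pair (q_ne76 hq hvw)] at h5
    rw [tq]
    exact h5
  omega

theorem stNd3_76 (G : CG V) (q : V → V → Prop) : G.StNd3 q := by
  classical
  intro hq Fa hT z hz B hI hex
  obtain ⟨hzR, hlow, B', hI', hr, h2⟩ := hz
  have hBB : B' = B := by
    rw [hI] at hI'
    exact (singleton_injective hI').symm
  subst hBB
  have n9 := hT.n9
  have h7 := stTwHL_5 G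
  have hreg := hT.reg
  have hzq := not_q_of_low76 hq hlow
  have hBm : B' ∈ G.I Fa z := by rw [hI]; exact mem_singleton_self _
  have hX : ∀ x ∈ G.nb z ∩ G.Co B', x ∈ G.nR Fa z ∧ B' ∉ G.I Fa x :=
    fun x hx => (mem_X76 hzR hI).1 hx
  have hm : ∀ x, B' ∉ G.I Fa x → G.m Fa z x = 0 := fun x hx => (m_X76 hI hx).1
  have hcases : (G.tl Fa z = 1 ∧ G.tq q Fa z = 0 ∧ G.tA Fa z = 0) ∨
      (G.tl Fa z = 0 ∧ G.tq q Fa z = 2 ∧ G.tA Fa z = 0) ∨
      (G.tl Fa z = 0 ∧ G.tq q Fa z = 0 ∧ G.tA Fa z = 1) := by omega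
  rcases hcases with ⟨h3, h4, h5⟩ | ⟨h3, h4, h5⟩ | ⟨h3, h4, h5⟩
  · -- one low vertex
    left
    obtain ⟨l, hl, hll⟩ := tl_ex76 (G := G) (Fa := Fa) (z := z) (by omega)
    have hu : ∀ y ∈ G.nR Fa z, G.Low y → y = l := fun y hy h => tl_one76 h3 hy h hl hll
    have hnq : ∀ y ∈ G.nR Fa z, ¬ IsQ q y := fun y hy => tq_zero76 hzq h4 hy
    have hnA : ∀ y ∈ G.nR Fa z, ¬ ∃ b, G.HL y b z := fun y hy => tA_zero76 h5 hy
    have hBl : B' ∈ G.I Fa l := by
      by_contra hc
      rcases cov3_76 hq hT hzR hl (hm l hc) with h | h | h | h | h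
      · obtain ⟨w, h1, -, h2, h3⟩ := h
        have := hu w h1 h2
        subst this
        exact G.irr _ h3
      · obtain ⟨v, w, h1, -, h2, -⟩ := h
        exact hnq v h1 ⟨w, h2⟩
      · obtain ⟨a, b, h1, -, -, h2, -⟩ := h
        exact hnA a h1 ⟨b, h2⟩
      · obtain ⟨a, b, h1, -, -, h2, -⟩ := h
        have := hu b h1 h2.2.1
        subst this
        exact (HL_bt76 h2).2 rfl
      · obtain ⟨a, b, h1, -, -, h2⟩ := h
        have := hu a h1 h2.1
        subst this
        exact (LL_ua76 h2).2 rfl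
    refine ⟨l, hl, hll, hBl, hu, hnq, hnA, ?_⟩
    intro x hx
    obtain ⟨hxR, hxB⟩ := hX x hx
    have hxl : ¬ G.Low x := by
      intro h
      have := hu x hxR h
      subst this
      exact hxB hBl
    refine ⟨⟨hxl, hnq x hxR⟩, ?_⟩
    rcases cov3_76 hq hT hzR hxR (hm x hxB) with h | h | h | h | h
    · obtain ⟨w, h1, -, h2, h3⟩ := h
      have := hu w h1 h2
      subst this
      exact Or.inl h3
    · obtain ⟨v, w, h1, -, h2, -⟩ := h
      exact absurd ⟨w, h2⟩ (hnq v h1)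
    · obtain ⟨a, b, h1, -, -, h2, -⟩ := h
      exact absurd ⟨b, h2⟩ (hnA a h1)
    · obtain ⟨a, b, -, -, h1, -⟩ := h
      exact absurd h1 hxl
    · obtain ⟨a, b, h1, h2, -, h3⟩ := h
      have := hu a h1 h3.1
      subst this
      exact Or.inr ⟨b, h2, h3⟩
  · -- a chosen pair: impossible
    exfalso
    obtain ⟨v, hv, ⟨w, hvw⟩, -⟩ := tq_ex76 (G := G) (q := q) (Fa := Fa) (z := z) (by omega)
    have hzw : z ≠ w := by
      rintro rfl
      exact hzq ⟨v, hq.symm _ _ hvw⟩
    have hw := q_nR76 hq hreg hv hvw hzw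
    have hnl : ∀ y ∈ G.nR Fa z, ¬ G.Low y := fun y hy => tl_zero76 h3 hy
    have hnA : ∀ y ∈ G.nR Fa z, ¬ ∃ b, G.HL y b z := fun y hy => tA_zero76 h5 hy
    have hqe : ∀ x ∈ G.nR Fa z, IsQ q x → x = v ∨ x = w := fun x hx hxq =>
      tq_two_eq76 hq hreg hzq h4 hv hvw hx hxq
    have hvwne := q_ne76 hq hvw
    -- covers at `z` are by `v, w`
    have hcv : ∀ x ∈ G.nR Fa z, B' ∉ G.I Fa x → x ∈ G.nb v ∧ x ∈ G.nb w := by
      intro x hxR hxB
      rcases cov3_76 hq hT hzR hxR (hm x hxB) with h | h | h | h | h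
      · obtain ⟨w, h1, -, h2, h3⟩ := h
        exact absurd h2 (hnl w h1)
      · obtain ⟨v', w', h1, h1', h2, h3, h4⟩ := h
        rcases hqe v' h1 ⟨_, h2⟩ with e | e <;> rcases hqe w' h1' ⟨_, hq.symm _ _ h2⟩ with e' | e'
        · rw [e, e'] at h2
          exact absurd rfl (q_ne76 hq h2)
        · rw [e] at h3
          rw [e'] at h4
          exact ⟨h3, h4⟩
        · rw [e] at h3
          rw [e'] at h4
          exact ⟨h4, h3⟩
        · rw [e, e'] at h2
          exact absurd rfl (q_ne76 hq h2)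
      · obtain ⟨a, b, h1, -, -, h2, -⟩ := h
        exact absurd ⟨b, h2⟩ (hnA a h1)
      · obtain ⟨a, b, h1, -, -, h2, -⟩ := h
        exact absurd h2.2.1 (hnl b h1)
      · obtain ⟨a, b, h1, -, -, h2⟩ := h
        exact absurd h2.1 (hnl a h1)
    have hvR := (mem_nR76.1 hv).2
    have hBv : B' ∈ G.I Fa v := by
      by_contra hc
      exact G.irr _ (hcv v hv hc).1
    obtain ⟨hwR, hIw⟩ := q_I76 hq hreg hvR hvw
    -- the neighbours of `v` in `R`
    have hXv : ∀ x ∈ G.nb z ∩ G.Co B', x ∈ G.nR Fa v := by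
      intro x hx
      obtain ⟨h1, h2⟩ := hX x hx
      exact mem_nR76.2 ⟨(hcv x h1 h2).1, (mem_nR76.1 h1).2⟩
    have hzv : z ∈ G.nR Fa v := mem_nR76.2 ⟨G.sym _ _ (mem_nR76.1 hv).1, hzR⟩
    have hwv : w ∈ G.nR Fa v := mem_nR76.2 ⟨q_nb76 hq hvw, hwR⟩
    have hXne : ∀ x ∈ G.nb z ∩ G.Co B', x ≠ z ∧ x ≠ w ∧ x ≠ v := by
      intro x hx
      obtain ⟨h1, h2⟩ := hX x hx
      refine ⟨?_, ?_, ?_⟩
      · intro e
        exact h2 (by rw [e]; exact hBm)
      · intro e
        exact h2 (by rw [e, hIw]; exact hBv)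
      · intro e
        exact h2 (by rw [e]; exact hBv)
    have hsub : insert w (insert z (G.nb z ∩ G.Co B')) ⊆ G.nR Fa v := by
      intro x hx
      rw [mem_insert, mem_insert] at hx
      rcases hx with rfl | rfl | hx
      · exact hwv
      · exact hzv
      · exact hXv x hx
    have hc4 : (insert w (insert z (G.nb z ∩ G.Co B'))).card = 4 := by
      rw [card_insert_of_notMem, card_insert_of_notMem]
      · unfold d at hr
        rw [hr]
      · intro h
        exact (hXne z h).1 rfl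
      · intro h
        rcases mem_insert.1 h with h | h
        · exact hzw h.symm
        · exact (hXne w h).2.1 rfl
    have h4R := card_le_card hsub
    rw [hc4] at h4R
    have hsplit := nb_split76 hreg hvR
    have hcv7 : ((G.nb v).card : ℤ) = 7 := by exact_mod_cast q_card76 hq ⟨w, hvw⟩
    have hid := h7.hid Fa hreg hT.big v hvR (q_isTw76 hq ⟨w, hvw⟩)
    by_cases hk : G.I Fa v = {B'}
    · -- one neighbourhood
      have h3' := hex v (mem_nR76.1 hv).1 ⟨w, hvw⟩ hk
      have hXX : (G.nb v ∪ G.nb z) ∩ G.Co B' = G.nb v ∩ G.Co B' := by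
        ext x
        rw [mem_inter, mem_inter, mem_union]
        constructor
        · rintro ⟨h | h, h'⟩
          · exact ⟨h, h'⟩
          · exact ⟨(mem_nR76.1 (hXv x (mem_inter.2 ⟨h, h'⟩))).1, h'⟩
        · rintro ⟨h, h'⟩
          exact ⟨Or.inl h, h'⟩
      rw [hXX] at h3'
      have hXv' : ∀ x ∈ G.nb v ∩ G.Co B', x ∈ G.nR Fa v ∧ B' ∉ G.I Fa x :=
        fun x hx => (mem_X76 hvR hk).1 hx
      have hsub2 : insert w (insert z (G.nb v ∩ G.Co B')) ⊆ G.nR Fa v := by
        intro x hx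
        rw [mem_insert, mem_insert] at hx
        rcases hx with rfl | rfl | hx
        · exact hwv
        · exact hzv
        · exact (hXv' x hx).1
      have hzn : z ∉ G.nb v ∩ G.Co B' := fun h => (hXv' z h).2 hBm
      have hwn : w ∉ insert z (G.nb v ∩ G.Co B') := by
        intro h
        rcases mem_insert.1 h with h | h
        · exact hzw h.symm
        · exact (hXv' w h).2 (by rw [hIw]; exact hBv)
      have hc5 : (insert w (insert z (G.nb v ∩ G.Co B'))).card = (G.nb v ∩ G.Co B').card + 2 := by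
        rw [card_insert_of_notMem hwn, card_insert_of_notMem hzn]
      have hle := card_le_card hsub2
      rw [hc5] at hle
      have hd : 2 ≤ G.d v B' := hid B' hBv
      have hsum : ∑ B ∈ G.I Fa v, (G.d v B : ℤ) = (G.d v B' : ℤ) := by
        rw [hk, sum_singleton]
      have hR5 : (G.nR Fa v).card ≤ 5 := by
        rw [hsum, hcv7] at hsplit
        have : (2 : ℤ) ≤ (G.d v B' : ℤ) := by exact_mod_cast hd
        have h8 : ((G.nR Fa v).card : ℤ) ≤ 5 := by linarith
        exact_mod_cast h8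
      have heq : insert w (insert z (G.nb v ∩ G.Co B')) = G.nR Fa v :=
        eq_of_subset_of_card_le hsub2 (by omega)
      have hc3 : (G.nb v ∩ G.Co B').card = 3 := by omega
      have hXsub : G.nb z ∩ G.Co B' ⊆ G.nb v ∩ G.Co B' := by
        intro x hx
        exact mem_inter.2 ⟨(mem_nR76.1 (hXv x hx)).1, (mem_inter.1 hx).2⟩
      have hd2 : (G.nb z ∩ G.Co B').card = 2 := hr
      have hdiff : ((G.nb v ∩ G.Co B') \ (G.nb z ∩ G.Co B')).card = 1 := by
        rw [card_sdiff_of_subset hXsub]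
        omega
      obtain ⟨x3, hx3⟩ := card_eq_one.1 hdiff
      have hx3m : x3 ∈ (G.nb v ∩ G.Co B') \ (G.nb z ∩ G.Co B') := by
        rw [hx3]; exact mem_singleton_self _
      rw [mem_sdiff] at hx3m
      obtain ⟨hx3v, hx3z⟩ := hx3m
      have hx3nz : x3 ∉ G.nb z := fun h => hx3z (mem_inter.2 ⟨h, (mem_inter.1 hx3v).2⟩)
      -- the vertices of `nR v`
      have hnr : ∀ x ∈ G.nR Fa v, x = w ∨ x = z ∨ x ∈ G.nb z ∩ G.Co B' ∨ x = x3 := by
        intro x hx
        rw [← heq, mem_insert, mem_insert] at hx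
        rcases hx with h | h | h
        · exact Or.inl h
        · exact Or.inr (Or.inl h)
        · by_cases h9 : x ∈ G.nb z ∩ G.Co B'
          · exact Or.inr (Or.inr (Or.inl h9))
          · right; right; right
            have : x ∈ (G.nb v ∩ G.Co B') \ (G.nb z ∩ G.Co B') := mem_sdiff.2 ⟨h, h9⟩
            rw [hx3, mem_singleton] at this
            exact this
      have hXhub : ∀ x ∈ G.nb z ∩ G.Co B', ¬ G.Low x ∧ ¬ IsQ q x := by
        intro x hx
        refine ⟨hnl x (hX x hx).1, fun h => ?_⟩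
        rcases hqe x (hX x hx).1 h with e | e
        · exact (hXne x hx).2.2 e
        · exact (hXne x hx).2.1 e
      obtain ⟨hx3R, hx3B⟩ := hXv' x3 hx3v
      rcases cov3_76 hq hT hvR hx3R (m_X76 hk hx3B).1 with h | h | h | h | h
      · obtain ⟨y, k1, -, k2, k3⟩ := h
        rcases hnr y k1 with e | e | h9 | e
        · rw [e] at k2
          exact q_not_low76 hq ⟨v, hq.symm _ _ hvw⟩ k2
        · rw [e] at k3
          exact hx3nz k3
        · exact (hXhub y h9).1 k2
        · rw [e] at k3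
          exact G.irr _ k3
      · obtain ⟨y, y', k1, k1', k2, k3, k4⟩ := h
        rcases hnr y k1 with e | e | h9 | e
        · rw [e] at k2
          have e2 := q_uniq76 hq n9 k2 (hq.symm _ _ hvw)
          rw [e2] at k1'
          exact G.irr _ (mem_nR76.1 k1').1
        · rw [e] at k2
          exact hzq ⟨y', k2⟩
        · exact (hXhub y h9).2 ⟨y', k2⟩
        · rw [e] at k3
          exact G.irr _ k3
      · obtain ⟨a, b, -, -, h1, -⟩ := h
        exact q_not_low76 hq ⟨w, hvw⟩ h1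
      · obtain ⟨a, b, k1, haR, k2, k3, k4⟩ := h
        rcases hnr b k1 with e | e | h9 | e
        · have k5 := k3.2.1
          rw [e] at k5
          exact q_not_low76 hq ⟨v, hq.symm _ _ hvw⟩ k5
        · rw [e] at k3
          have h5' := HL_sub76 k3 (mem_nR76.1 hv).1 k4
          have h6' : a ∈ G.nR Fa v := mem_nR76.2 ⟨G.sym _ _ h5', haR⟩
          have hIa := HL_I76 k3 haR hzR (mem_nR76.1 hx3R).2
          have hah := HL_hub76 hq n9 k3
          rcases hnr a h6' with e' | e' | h9 | e'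
          · rw [e'] at hah
            exact hah.2 ⟨v, hq.symm _ _ hvw⟩
          · rw [e'] at hah
            exact hah.1 hlow
          · exact (hX a h9).2 (by rw [hIa]; exact hBm)
          · exact hx3B (by rw [← e', hIa]; exact hBm)
        · exact (hXhub b h9).1 k3.2.1
        · exact (HL_bt76 k3).2 e.symm
      · obtain ⟨a, b, -, -, -, h1⟩ := h
        exact (h7.twLL _ _ _ _ h1).1 (q_isTw76 hq ⟨w, hvw⟩)
    · -- two neighbourhoods
      have h2' : ∃ B2 ∈ G.I Fa v, B2 ≠ B' := by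
        by_contra hc
        push Not at hc
        apply hk
        ext C
        rw [mem_singleton]
        exact ⟨fun h => hc C h, fun h => by rw [h]; exact hBv⟩
      obtain ⟨B2, hB2, hne⟩ := h2'
      have h5' : ({B', B2} : Finset (Finset V)) ⊆ G.I Fa v := by
        intro C hC
        rw [mem_insert, mem_singleton] at hC
        rcases hC with rfl | rfl <;> assumption
      have h6' : ∑ B ∈ ({B', B2} : Finset (Finset V)), (G.d v B : ℤ) ≤
          ∑ B ∈ G.I Fa v, (G.d v B : ℤ) :=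
        sum_le_sum_of_subset_of_nonneg h5' (fun _ _ _ => by positivity)
      rw [sum_pair (Ne.symm hne)] at h6'
      have h8 : (2 : ℤ) ≤ (G.d v B' : ℤ) := by exact_mod_cast hid B' hBv
      have h9 : (2 : ℤ) ≤ (G.d v B2 : ℤ) := by exact_mod_cast hid B2 hB2
      have h10 : (4 : ℤ) ≤ ((G.nR Fa v).card : ℤ) := by exact_mod_cast h4R
      linarith
  · -- `HL`
    right
    have hnl : ∀ y ∈ G.nR Fa z, ¬ G.Low y := fun y hy => tl_zero76 h3 hy
    have hnq : ∀ y ∈ G.nR Fa z, ¬ IsQ q y := fun y hy => tq_zero76 hzq h4 hy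
    have hcv : ∀ x ∈ G.nR Fa z, B' ∉ G.I Fa x → ∃ a b, a ∈ G.nR Fa z ∧ b ∈ R Fa ∧
        G.HL a b z ∧ x ∈ G.nb b ∧ x ≠ a := by
      intro x hxR hxB
      rcases cov3_76 hq hT hzR hxR (hm x hxB) with h | h | h | h | h
      · obtain ⟨w, h1, -, h2, h3⟩ := h
        exact absurd h2 (hnl w h1)
      · obtain ⟨v', w', h1, h1', h2, h3, h4⟩ := h
        exact absurd ⟨_, h2⟩ (hnq v' h1)
      · obtain ⟨a, b, h1, h2, -, h3, h4, h5⟩ := h
        exact ⟨a, b, h1, h2, h3, h4, h5⟩
      · obtain ⟨a, b, h1, -, -, h2, -⟩ := h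
        exact absurd h2.2.1 (hnl b h1)
      · obtain ⟨a, b, h1, -, -, h2⟩ := h
        exact absurd h2.1 (hnl a h1)
    have hne : (G.nb z ∩ G.Co B').Nonempty := by
      rw [← card_pos]
      unfold d at hr
      omega
    obtain ⟨x0, hx0⟩ := hne
    obtain ⟨a, b, ha, hb, hab, -, -⟩ := hcv x0 (hX x0 hx0).1 (hX x0 hx0).2
    have hua : ∀ y ∈ G.nR Fa z, (∃ b', G.HL y b' z) → y = a := fun y hy h =>
      tA_one76 h5 hy h ha ⟨b, hab⟩
    have haR := (mem_nR76.1 ha).2
    have hIab := HL_I76 hab haR hb hzR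
    have hBa : B' ∈ G.I Fa a := by
      by_contra hc
      obtain ⟨a', b', h1, h2, h3, h4, h5⟩ := hcv a ha hc
      exact h5 (hua a' h1 ⟨b', h3⟩).symm
    refine ⟨a, ha, b, hb, hab, hBa, hIab, fun y hy => ⟨hnl y hy, hnq y hy⟩, hua, ?_⟩
    intro x hx
    obtain ⟨h1, h2⟩ := hX x hx
    obtain ⟨a', b', h3, h4, h5, h6, h7'⟩ := hcv x h1 h2
    have e := hua a' h3 ⟨b', h5⟩
    subst e
    have hbb : b' = b := by
      by_contra hbb
      have h8 : b' ∈ G.cl b := by
        have h9 : b' ∈ insert z (G.cl b) := by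
          rw [← hab.2.2.2.2]
          exact mem_clT76.2 (Or.inr (HL_b76 h5))
        rcases mem_insert.1 h9 with h9 | h9
        · exact absurd h9.symm (HL_bt76 h5).2
        · exact h9
      -- two adjacent low vertices with the same closed neighbourhood
      exact hbb (b_uniq_5 n9 h5 hab)
    subst hbb
    exact ⟨h7', h6⟩

end CG

end Pool.Agent.Lib.MP_e95c01_co.N
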