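import Pool.Agent.Lib.MP_e95c01_co.T.Aux76
import Pool.Agent.Lib.MP_e95c01_co.U.StSat5

/-!
# T14: adding an edge, with chosen pairs of twins
-/

set_option autoImplicit false

namespace Pool.Agent.Lib.MP_e95c01_co.N

open Finset

variable {V : Type} [Fintype V] [DecidableEq V]

namespace CG

variable {G : CG V} {q : V → V → Prop}

/-- the neighbourhoods of the other vertices do not change -/
theorem nb_addE96 {b t : V} {h : b ≠ t} {v : V} (hb : v ≠ b) (ht : v ≠ t) :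
    (G.addE5 b t h).nb v = G.nb v := by
  ext x
  rw [mem_addE5]
  constructor
  · rintro (h1 | h1 | h1)
    · exact h1
    · exact absurd h1.1 hb
    · exact absurd h1.1 ht
  · exact Or.inl

theorem cl_addE96 {b t : V} {h : b ≠ t} {v : V} (hb : v ≠ b) (ht : v ≠ t) :
    (G.addE5 b t h).cl v = G.cl v := by
  rw [cl, cl, nb_addE96 hb ht]

theorem cardb_addE96 {b t : V} (h : b ≠ t) (htb : t ∉ G.nb b) :
    ((G.addE5 b t h).nb b).card = (G.nb b).card + 1 := by
  have h1 : (G.addE5 b t h).nb b = insert t (G.nb b) := by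
    ext x
    rw [mem_addE5, mem_insert]
    constructor
    · rintro (h1 | h1 | h1)
      · exact Or.inr h1
      · exact Or.inl h1.2
      · exact absurd h1.1 h
    · rintro (h1 | h1)
      · exact Or.inr (Or.inl ⟨rfl, h1⟩)
      · exact Or.inl h1
  rw [h1, Finset.card_insert_of_notMem htb]

theorem cardt_addE96 {b t : V} (h : b ≠ t) (htb : t ∉ G.nb b) :
    ((G.addE5 b t h).nb t).card = (G.nb t).card + 1 := by
  have h1 : (G.addE5 b t h).nb t = insert b (G.nb t) := by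
    ext x
    rw [mem_addE5, mem_insert]
    constructor
    · rintro (h1 | h1 | h1)
      · exact Or.inr h1
      · exact absurd h1.1 h.symm
      · exact Or.inl h1.2
    · rintro (h1 | h1)
      · exact Or.inr (Or.inr ⟨rfl, h1⟩)
      · exact Or.inl h1
  rw [h1, Finset.card_insert_of_notMem fun h2 => htb (G.sym _ _ h2)]

/-- the chosen pairs of the new graph -/
def addQ96 (q : V → V → Prop) (a b : V) (v w : V) : Prop :=
  q v w ∨ (v = a ∧ w = b) ∨ (v = b ∧ w = a)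

/-- the third vertex of `HL` has no twin -/
theorem HL_noTw96 {a b t : V} (h : G.HL a b t) (w : V) (ht : G.Tw t w) : False := by
  have hat : a ∈ G.nb t := G.sym _ _ (HL_t76 h)
  have hbt := HL_bt76 h
  have hw7 : (G.nb w).card = 7 := ((stTwHL_5 G).symm _ _ ht).2.1
  have hba : b ∈ G.nb a := HL_b76 h
  have hbw : b ∈ G.cl w → False := by
    intro h1
    rw [← ht.2.2, mem_clT76] at h1
    rcases h1 with h1 | h1
    · exact hbt.2 h1.symm
    · exact hbt.1 (G.sym _ _ h1)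
  have haw : a ∈ G.cl w := by
    rw [← ht.2.2]
    exact mem_clT76.2 (Or.inr hat)
  rcases mem_clT76.1 haw with h1 | h1
  · apply hbw
    rw [← h1]
    exact mem_clT76.2 (Or.inr hba)
  · have hwa : w ∈ G.nb a := G.sym _ _ h1
    have hwt : w ≠ t := (ne_of_nb5 ht.1).symm
    have hwb : w ≠ b := by
      rintro rfl
      exact absurd h.2.1 (by rw [Low, hw7]; norm_num)
    have h2 : w ∈ G.nb b := by
      rcases HL_sup76 h hwa hwt with h3 | h3
      · exact absurd h3 hwb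
      · exact h3
    exact hbw (mem_clT76.2 (Or.inr (G.sym _ _ h2)))

theorem not_b96 {a b t : V} (h : G.HL a b t) {v w : V} (hv : G.Tw v w) :
    v ≠ b ∧ v ≠ t ∧ w ≠ b ∧ w ≠ t := by
  have hs := (stTwHL_5 G).symm _ _ hv
  have hb : (G.nb b).card = 6 := h.2.1
  refine ⟨?_, ?_, ?_, ?_⟩
  · rintro rfl
    have := hv.2.1
    omega
  · rintro rfl
    exact HL_noTw96 h _ hv
  · rintro rfl
    have := hs.2.1
    omega
  · rintro rfl
    exact HL_noTw96 h _ hs

theorem tw_add96 {a b t : V} (h : G.HL a b t) (hbt : b ≠ t) {v w : V} (hv : G.Tw v w) :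
    (G.addE5 b t hbt).Tw v w := by
  obtain ⟨h1, h2, h3, h4⟩ := not_b96 h hv
  refine ⟨?_, ?_, ?_⟩
  · rw [nb_addE96 h1 h2]
    exact hv.1
  · rw [nb_addE96 h1 h2]
    exact hv.2.1
  · rw [cl_addE96 h1 h2, cl_addE96 h3 h4]
    exact hv.2.2

theorem tw_ab96 {a b t : V} (h : G.HL a b t) (hbt : b ≠ t) : (G.addE5 b t hbt).Tw a b := by
  have hab : a ≠ b := ne_of_nb5 (HL_b76 h)
  have hat : a ≠ t := ne_of_nb5 (HL_t76 h)
  refine ⟨?_, ?_, ?_⟩
  · rw [nb_addE96 hab hat]
    exact HL_b76 h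
  · rw [nb_addE96 hab hat]
    exact h.1
  · rw [cl_addE96 hab hat, h.2.2.2.2]
    ext x
    rw [mem_insert, mem_clT76, mem_clT76, mem_addE5]
    constructor
    · rintro (h1 | h1 | h1)
      · exact Or.inr (Or.inr (Or.inl ⟨rfl, h1⟩))
      · exact Or.inl h1
      · exact Or.inr (Or.inl h1)
    · rintro (h1 | h1 | h1 | h1)
      · exact Or.inr (Or.inl h1)
      · exact Or.inr (Or.inr h1)
      · exact Or.inl h1.2
      · exact absurd h1.1 hbt

/-- twins of the new graph are old twins or the new pair -/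
theorem tw_old96 (n9 : 9 ≤ Fintype.card V) {a b t : V} (h : G.HL a b t) (ht : ¬ G.Low t)
    (hbt : b ≠ t) {v w : V} (hv : (G.addE5 b t hbt).Tw v w) (hq : ¬ addQ96 q a b v w) :
    G.Tw v w := by
  have hs := (stTwHL_5 (G.addE5 b t hbt)).symm _ _ hv
  have hab := tw_ab96 h hbt
  have hba := (stTwHL_5 (G.addE5 b t hbt)).symm _ _ hab
  have hb' := HL_bt76 h
  have ht7 : 7 ≤ (G.nb t).card := by
    have h1 := G.deg t
    rcases Nat.lt_or_ge (G.nb t).card 7 with h2 | h2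
    · exact absurd (show G.Low t by rw [Low]; omega) ht
    · exact h2
  have ht8 := cardt_addE96 hbt hb'.1
  have hvt : v ≠ t := by
    rintro rfl
    have := hv.2.1
    omega
  have hwt : w ≠ t := by
    rintro rfl
    have := hs.2.1
    omega
  have hvb : v ≠ b := by
    rintro rfl
    have h1 := (stTwHL_5 (G.addE5 v t hbt)).uniq n9 _ _ _ hv hba
    exact hq (Or.inr (Or.inr ⟨rfl, h1⟩))
  have hwb : w ≠ b := by
    rintro rfl
    have h1 := (stTwHL_5 (G.addE5 w t hbt)).uniq n9 _ _ _ hs hba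
    exact hq (Or.inr (Or.inl ⟨h1, rfl⟩))
  refine ⟨?_, ?_, ?_⟩
  · rw [← nb_addE96 (h := hbt) hvb hvt]
    exact hv.1
  · rw [← nb_addE96 (h := hbt) hvb hvt]
    exact hv.2.1
  · rw [← cl_addE96 (h := hbt) hvb hvt, ← cl_addE96 (h := hbt) hwb hwt]
    exact hv.2.2

/-- covered in the new graph, by a low vertex or a chosen pair -/
def CQ96 (G : CG V) (q : V → V → Prop) (x y : V) : Prop :=
  G.Cov x y ∨ ∃ v' w', q v' w' ∧ x ∈ G.nb v' ∧ x ≠ w' ∧ y ∈ G.nb v' ∧ y ≠ w'

theorem CQ_symm96 {x y : V} (h : CQ96 G q x y) : CQ96 G q y x := by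
  rcases h with ⟨w, h1, h2, h3⟩ | ⟨v, w, h1, h2, h3, h4, h5⟩
  · exact Or.inl ⟨w, h1, h3, h2⟩
  · exact Or.inr ⟨v, w, h1, h4, h5, h2, h3⟩

/-- a low vertex other than `b` stays low -/
theorem low_add96 {b t : V} (hbt : b ≠ t) (ht : ¬ G.Low t) {w : V} (hw : G.Low w) (hwb : w ≠ b) :
    (G.addE5 b t hbt).Low w ∧ (G.addE5 b t hbt).nb w = G.nb w := by
  have hwt : w ≠ t := by
    rintro rfl
    exact ht hw
  have h1 := nb_addE96 (G := G) (h := hbt) hwb hwt
  refine ⟨?_, h1⟩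
  show ((G.addE5 b t hbt).nb w).card = 6
  rw [h1]
  exact hw

theorem pair_add96 {a b t : V} (hbt : b ≠ t) {x y v w : V} (hvw : q v w)
    (hx : x ∈ G.nb v) (hxw : x ≠ w) (hy : y ∈ G.nb v) (hyw : y ≠ w) :
    CQ96 (G.addE5 b t hbt) (addQ96 q a b) x y :=
  Or.inr ⟨v, w, Or.inl hvw, mem_addE5.2 (Or.inl hx), hxw, mem_addE5.2 (Or.inl hy), hyw⟩

/-- an edge `a y` in the neighbourhood of an unchosen pair of twins -/
theorem edge_a96 (hq : G.QS q) (n9 : 9 ≤ Fintype.card V) {a b t : V} (h : G.HL a b t)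
    (ht : ¬ G.Low t) (hbt : b ≠ t) {v w y : V} (hv : G.Tw v w) (hn : ¬ q v w)
    (ha : a ∈ G.nb v) (hy : y ∈ G.nb v) (hyw : y ≠ w) (hyb : y ∈ G.nb b) (hya : y ≠ a) :
    CQ96 (G.addE5 b t hbt) (addQ96 q a b) a y := by
  obtain ⟨h1, h2, h3, h4⟩ := not_b96 h hv
  have hbv : b ∈ G.nb v := by
    rcases HL_sup76 h (G.sym _ _ ha) h2 with h5 | h5
    · exact absurd h5 h1
    · exact G.sym _ _ h5
  have hnt : ¬ G.IsTw a := (stTwHL_5 G).notHL n9 a b t h
  rcases hq.cov v w hv hn b y hbv (Ne.symm h3) hy hyw hyb with ⟨w2, k1, k2, k3⟩ |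
      ⟨d, d', k1, k2, k3, k4, k5⟩
  · have hwb : w2 ≠ b := (ne_of_nb5 k2)
    have hwa : w2 ≠ a := by
      rintro rfl
      exact HL_not_low76 h k1
    obtain ⟨l1, l2⟩ := low_add96 hbt ht k1 hwb
    refine Or.inl ⟨w2, l1, ?_, ?_⟩
    · rw [l2]
      exact G.sym _ _ (HL_sub76 h (G.sym _ _ k2) hwa)
    · rw [l2]
      exact k3
  · have hd := hq.tw _ _ k1
    have hda : d ≠ a := by
      rintro rfl
      exact hnt ⟨_, hd⟩
    have hd'a : a ≠ d' := by
      rintro rfl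
      exact hnt ⟨_, (stTwHL_5 G).symm _ _ hd⟩
    exact pair_add96 hbt k1 (G.sym _ _ (HL_sub76 h (G.sym _ _ k2) hda)) hd'a k4 k5

/-- the new edge -/
theorem edge_bt96 (hq : G.QS q) (n9 : 9 ≤ Fintype.card V) {a b t : V} (h : G.HL a b t)
    (ht : ¬ G.Low t) (hbt : b ≠ t) {v w : V} (hv : G.Tw v w) (hn : ¬ q v w)
    (hb : b ∈ G.nb v) (htv : t ∈ G.nb v) :
    CQ96 (G.addE5 b t hbt) (addQ96 q a b) b t := by
  obtain ⟨h1, h2, h3, h4⟩ := not_b96 h hv
  have hnt : ¬ G.IsTw a := (stTwHL_5 G).notHL n9 a b t h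
  have hva : v ≠ a := by
    rintro rfl
    exact hnt ⟨_, hv⟩
  have haw : a ≠ w := by
    rintro rfl
    exact hnt ⟨_, (stTwHL_5 G).symm _ _ hv⟩
  have hav : a ∈ G.nb v := G.sym _ _ (HL_sub76 h (G.sym _ _ hb) hva)
  have hbn := (HL_bt76 h).1
  rcases hq.cov v w hv hn a t hav haw htv (Ne.symm h4) (HL_t76 h) with ⟨w2, k1, k2, k3⟩ |
      ⟨d, d', k1, k2, k3, k4, k5⟩
  · have hwb : w2 ≠ b := by
      rintro rfl
      exact hbn k3
    obtain ⟨l1, l2⟩ := low_add96 hbt ht k1 hwb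
    refine Or.inl ⟨w2, l1, ?_, ?_⟩
    · rw [l2]
      rcases HL_sup76 h (G.sym _ _ k2) (ne_of_nb5 k3) with h5 | h5
      · exact absurd h5 hwb
      · exact G.sym _ _ h5
    · rw [l2]
      exact k3
  · have hd := hq.tw _ _ k1
    obtain ⟨e1, e2, e3, e4⟩ := not_b96 h hd
    refine pair_add96 hbt k1 ?_ (Ne.symm e3) k4 k5
    rcases HL_sup76 h (G.sym _ _ k2) e2 with h5 | h5
    · exact absurd h5 e1
    · exact G.sym _ _ h5

theorem cov_add96 (hq : G.QS q) (n9 : 9 ≤ Fintype.card V) {a b t : V} (h : G.HL a b t)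
    (ht : ¬ G.Low t) (hbt : b ≠ t) {v w x y : V} (hv : G.Tw v w) (hn : ¬ q v w)
    (hx : x ∈ G.nb v) (hxw : x ≠ w) (hy : y ∈ G.nb v) (hyw : y ≠ w)
    (hxy : y ∈ (G.addE5 b t hbt).nb x) :
    CQ96 (G.addE5 b t hbt) (addQ96 q a b) x y := by
  rcases mem_addE5.1 hxy with h1 | ⟨rfl, rfl⟩ | ⟨rfl, rfl⟩
  · rcases hq.cov v w hv hn x y hx hxw hy hyw h1 with ⟨w1, k1, k2, k3⟩ |
      ⟨d, d', k1, k2, k3, k4, k5⟩
    · by_cases hwb : w1 = b
      · subst hwb
        by_cases hxa : x = a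
        · subst hxa
          exact edge_a96 hq n9 h ht hbt hv hn hx hy hyw k3 (ne_of_nb5 h1).symm
        · by_cases hya : y = a
          · subst hya
            exact CQ_symm96 (edge_a96 hq n9 h ht hbt hv hn hy hx hxw k2 (ne_of_nb5 h1))
          · exact Or.inr ⟨w1, a, Or.inr (Or.inr ⟨rfl, rfl⟩), mem_addE5.2 (Or.inl k2), hxa,
              mem_addE5.2 (Or.inl k3), hya⟩
      · obtain ⟨l1, l2⟩ := low_add96 hbt ht k1 hwb
        exact Or.inl ⟨w1, l1, by rw [l2]; exact k2, by rw [l2]; exact k3⟩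
    · exact pair_add96 hbt k1 k2 k3 k4 k5
  · exact edge_bt96 hq n9 h ht hbt hv hn hx hy
  · exact CQ_symm96 (edge_bt96 hq n9 h ht hbt hv hn hy hx)

/-- T14 -/
theorem stSa3_96 (G : CG V) (q : V → V → Prop) : G.StSa3 q := by
  classical
  intro hG hq n9 a b t h ht
  have hbt : b ≠ t := (HL_bt76 h).2.symm
  have hmono : ∀ v, G.nb v ⊆ (G.addE5 b t hbt).nb v := fun v x hx => mem_addE5.2 (Or.inl hx)
  have hb6 : (G.nb b).card = 6 := h.2.1
  have hb7 := cardb_addE96 hbt (HL_bt76 h).1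
  refine ⟨G.addE5 b t hbt, addQ96 q a b, crit_addE5 hG h ht hbt, ⟨?_, ?_, ?_⟩, ?_, ?_⟩
  · rintro v w (h1 | ⟨rfl, rfl⟩ | ⟨rfl, rfl⟩)
    · exact tw_add96 h hbt (hq.tw _ _ h1)
    · exact tw_ab96 h hbt
    · exact (stTwHL_5 (G.addE5 v t hbt)).symm _ _ (tw_ab96 h hbt)
  · rintro v w (h1 | ⟨rfl, rfl⟩ | ⟨rfl, rfl⟩)
    · exact Or.inl (hq.symm _ _ h1)
    · exact Or.inr (Or.inr ⟨rfl, rfl⟩)
    · exact Or.inr (Or.inl ⟨rfl, rfl⟩)
  · intro v w hv hn x y hx hxw hy hyw hxy
    have hold := tw_old96 (q := q) n9 h ht hbt hv hn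
    obtain ⟨h1, h2, h3, h4⟩ := not_b96 h hold
    rw [nb_addE96 h1 h2] at hx hy
    exact cov_add96 hq n9 h ht hbt hold (fun h5 => hn (Or.inl h5)) hx hxw hy hyw hxy
  · have e1 : (G.addE5 b t hbt).l univ + 1 ≤ G.l univ := by
      rw [l, l]
      have h1 : (univ.filter fun v => (G.addE5 b t hbt).Low v) ⊆
          (univ.filter fun v => G.Low v).erase b := by
        intro v hv
        rw [mem_filter] at hv
        rw [mem_erase, mem_filter]
        have h3 : ((G.addE5 b t hbt).nb v).card = 6 := hv.2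
        refine ⟨?_, mem_univ _, ?_⟩
        · rintro rfl
          omega
        · have h1 := Finset.card_le_card (hmono v)
          have h2 := G.deg v
          show (G.nb v).card = 6
          omega
      have h2 := Finset.card_le_card h1
      have h3 : b ∈ univ.filter fun v => G.Low v := mem_filter.2 ⟨mem_univ _, hb6⟩
      rw [Finset.card_erase_of_mem h3] at h2
      have h4 := Finset.card_pos.2 ⟨b, h3⟩
      omega
    have e2 : qcard (addQ96 q a b) univ ≤ qcard q univ + 2 := by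
      rw [qcard, qcard]
      have h1 : (univ.filter fun v => IsQ (addQ96 q a b) v) ⊆
          insert a (insert b (univ.filter fun v => IsQ q v)) := by
        intro v hv
        rw [mem_filter] at hv
        obtain ⟨-, w, hw⟩ := hv
        rw [mem_insert, mem_insert, mem_filter]
        rcases hw with h2 | h2 | h2
        · exact Or.inr (Or.inr ⟨mem_univ _, w, h2⟩)
        · exact Or.inl h2.1
        · exact Or.inr (Or.inl h2.1)
      refine (Finset.card_le_card h1).trans ((Finset.card_insert_le _ _).trans ?_)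
      have := Finset.card_insert_le b (univ.filter fun v => IsQ q v)
      omega
    omega
  · refine Finset.sum_lt_sum (fun v _ => Finset.card_le_card (hmono v)) ⟨b, mem_univ _, ?_⟩
    omega

end CG

end Pool.Agent.Lib.MP_e95c01_co.N
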