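import Pool.Agent.Lib.MP_e95c01_co.T.Aux76
import Pool.Agent.Lib.MP_e95c01_co.U.StThin2_37

/-!
# T13: thin torsos with two vertices on each side
-/

namespace Pool.Agent.Lib.MP_e95c01_co.N

open Finset

variable {V : Type} [Fintype V] [DecidableEq V]

namespace CG

variable {G : CG V} {q : V → V → Prop} {A B : Finset V}

/-! ### the total -/

/-- the payments cancel -/
theorem pay_zero57 (Fa : Finset (Finset V)) :
    ∑ z ∈ R Fa, ∑ x ∈ G.nR Fa z,
      (if G.m Fa x z ≤ 1 then G.pi3 q x z - G.pi3 q z x else 0) = 0 := by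
  have h1 : ∀ z, ∑ x ∈ G.nR Fa z, (if G.m Fa x z ≤ 1 then G.pi3 q x z - G.pi3 q z x else 0) =
      ∑ x ∈ R Fa, (if x ∈ G.nb z then
        (if G.m Fa x z ≤ 1 then G.pi3 q x z - G.pi3 q z x else 0) else 0) := by
    intro z
    unfold nR
    rw [inter_comm, ← filter_mem_eq_inter, sum_filter]
  rw [sum_congr rfl fun z _ => h1 z]
  set f : V → V → ℤ := fun z x => if x ∈ G.nb z then
        (if G.m Fa x z ≤ 1 then G.pi3 q x z - G.pi3 q z x else 0) else 0 with hf
  have h2 : ∀ z x, f z x = - f x z := by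
    intro z x
    rw [hf]
    simp only
    by_cases h3 : x ∈ G.nb z
    · rw [if_pos h3, if_pos (G.sym _ _ h3), m_symm1 x z]
      split_ifs
      · ring
      · rfl
    · rw [if_neg h3, if_neg fun h => h3 (G.sym _ _ h)]
      rfl
  have h3 : ∑ z ∈ R Fa, ∑ x ∈ R Fa, f z x = - ∑ z ∈ R Fa, ∑ x ∈ R Fa, f z x := by
    calc ∑ z ∈ R Fa, ∑ x ∈ R Fa, f z x = ∑ x ∈ R Fa, ∑ z ∈ R Fa, f z x := sum_comm
      _ = ∑ x ∈ R Fa, ∑ z ∈ R Fa, - f x z := sum_congr rfl fun x _ => sum_congr rfl fun z _ => h2 z x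
      _ = - ∑ z ∈ R Fa, ∑ x ∈ R Fa, f z x := by
        rw [← sum_neg_distrib]
        exact sum_congr rfl fun x _ => sum_neg_distrib _
  linarith

/-- the charge without the payments and the flags -/
noncomputable def D57 (G : CG V) (q : V → V → Prop) (Fa : Finset (Finset V)) (z : V) : ℤ :=
  (2 - ((G.I Fa z).card : ℤ)) * G.a3 q z +
    G.c3 q z * ((((G.I Fa z).card : ℤ) - 2) * ((G.nb z).card : ℤ) +
      ∑ x ∈ G.nR Fa z, (2 - (G.m Fa x z : ℤ)))

open Classical in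
/-- the flags -/
noncomputable def E57 (G : CG V) (Fa : Finset (Finset V)) (z : V) : ℤ :=
  2 * (((G.I Fa z).filter fun B => G.FL B z).card : ℤ) -
    2 * (((G.I Fa z).filter fun B => G.FL (G.Co B) z).card : ℤ)

theorem sum_ch3_57 (Fa : Finset (Finset V)) :
    ∑ z ∈ R Fa, G.ch3 q Fa z = ∑ z ∈ R Fa, G.D57 q Fa z + ∑ z ∈ R Fa, G.E57 Fa z := by
  have h1 := pay_zero57 (G := G) (q := q) Fa
  have h2 : ∀ z ∈ R Fa, G.ch3 q Fa z = G.D57 q Fa z + (∑ x ∈ G.nR Fa z,
      (if G.m Fa x z ≤ 1 then G.pi3 q x z - G.pi3 q z x else 0)) + G.E57 Fa z := by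
    intro z _
    unfold ch3 D57 E57
    ring
  rw [sum_congr rfl h2, sum_add_distrib, sum_add_distrib, h1, add_zero]

/-- the contribution of a vertex in exactly one of the two neighbourhoods, together with what it
brings to the common part -/
noncomputable def W57 (G : CG V) (q : V → V → Prop) (A B : Finset V) (x : V) : ℤ :=
  G.a3 q x + G.c3 q x * ((G.d x (G.Co A) : ℤ) - (G.d x A : ℤ)) +
    ∑ c ∈ G.nb x ∩ (G.N A ∩ G.N B), G.c3 q c

theorem St1.D57s (h : G.St1 A B) {x : V} (hx : x ∈ G.N A \ G.N B) :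
    G.D57 q {A, B} x = G.a3 q x + G.c3 q x * ((G.d x (G.Co A) : ℤ) - (G.d x A : ℤ)) := by
  have hI := St1.IA hx
  have hxA := h.NA (mem_sdiff.1 hx).1
  have hnR : G.nR {A, B} x = (G.nb x ∩ G.Co A) ∪ (G.nb x ∩ G.N A) := by
    ext v
    unfold nR
    rw [mem_inter, memR2_1, mem_union, mem_inter, mem_inter, mem_Co1]
    constructor
    · rintro ⟨h1, h2, -⟩
      by_cases h3 : v ∈ G.N A
      · exact Or.inr ⟨h1, h3⟩
      · exact Or.inl ⟨h1, h2, h3⟩
    · rintro (⟨h1, h2, -⟩ | ⟨h1, h2⟩)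
      · exact ⟨h1, h2, h.notB hx h1⟩
      · exact ⟨h1, h.NA h2⟩
  have hdis : Disjoint (G.nb x ∩ G.Co A) (G.nb x ∩ G.N A) := by
    rw [disjoint_left]
    intro v h3 h4
    exact (mem_Co1.1 (mem_inter.1 h3).2).2 (mem_inter.1 h4).2
  have h1 : ∀ v ∈ G.nb x ∩ G.Co A, (2 - (G.m {A, B} v x : ℤ)) = 2 := by
    intro v hv
    have h2 : G.m {A, B} v x = 0 := by
      unfold m
      rw [hI, card_eq_zero]
      ext D
      simp only [mem_inter, mem_singleton, notMem_empty, iff_false, not_and]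
      intro h3 h4
      subst h4
      exact (mem_Co1.1 (mem_inter.1 hv).2).2 (memI2_1.1 h3).2
    rw [h2]
    norm_num
  have h2 : ∀ v ∈ G.nb x ∩ G.N A, (2 - (G.m {A, B} v x : ℤ)) = 1 := by
    intro v hv
    have h2 : G.m {A, B} v x = 1 := by
      unfold m
      rw [hI, inter_singleton_of_mem (memI2_1.2 ⟨Or.inl rfl, (mem_inter.1 hv).2⟩), card_singleton]
    rw [h2]
    norm_num
  have hdeg := deg_split2 (G := G) A x
  unfold D57
  rw [hI, card_singleton, hnR, sum_union hdis, sum_congr rfl h1, sum_congr rfl h2, sum_const,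
    sum_const, hdeg]
  unfold d
  push_cast
  simp only [nsmul_eq_mul]
  ring

theorem St1.D57c (h : G.St1 A B) {c : V} (hc : c ∈ G.N A ∩ G.N B) :
    G.D57 q {A, B} c = ∑ x ∈ G.N A \ G.N B, (if x ∈ G.nb c then G.c3 q c else 0) +
      ∑ x ∈ G.N B \ G.N A, (if x ∈ G.nb c then G.c3 q c else 0) := by
  have hI := St1.IC hc
  have h1 : ∑ x ∈ G.nR {A, B} c, (2 - (G.m {A, B} x c : ℤ)) =
      ∑ x ∈ G.N A \ G.N B, (if x ∈ G.nb c then (1 : ℤ) else 0) +
      ∑ x ∈ G.N B \ G.N A, (if x ∈ G.nb c then (1 : ℤ) else 0) := by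
    unfold nR
    rw [inter_comm, ← filter_mem_eq_inter, sum_filter, h.sum]
    have h2 : ∑ x ∈ G.N A ∩ G.N B, (if x ∈ G.nb c then (2 - (G.m {A, B} x c : ℤ)) else 0) = 0 := by
      apply sum_eq_zero
      intro x hx
      have h3 : G.m {A, B} x c = 2 := by
        unfold m
        rw [St1.IC hx, hI, inter_self, card_pair h.ne]
      rw [h3]
      norm_num
    have h4 : ∀ x ∈ G.N A \ G.N B, (if x ∈ G.nb c then (2 - (G.m {A, B} x c : ℤ)) else 0) =
        (if x ∈ G.nb c then (1 : ℤ) else 0) := by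
      intro x hx
      have h3 : G.m {A, B} x c = 1 := by
        unfold m
        rw [St1.IA hx, hI, singleton_inter_of_mem (mem_insert_self _ _), card_singleton]
      rw [h3]
      norm_num
    have h5 : ∀ x ∈ G.N B \ G.N A, (if x ∈ G.nb c then (2 - (G.m {A, B} x c : ℤ)) else 0) =
        (if x ∈ G.nb c then (1 : ℤ) else 0) := by
      intro x hx
      have h6 : G.I {A, B} x = {B} := by
        rw [pair_comm]
        exact St1.IA hx
      have h3 : G.m {A, B} x c = 1 := by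
        unfold m
        rw [h6, hI, singleton_inter_of_mem (by simp), card_singleton]
      rw [h3]
      norm_num
    rw [h2, sum_congr rfl h4, sum_congr rfl h5]
    ring
  unfold D57
  rw [h1, hI, card_pair h.ne, mul_add, mul_add, mul_sum, mul_sum]
  have h6 : ∀ x : V, G.c3 q c * (if x ∈ G.nb c then (1 : ℤ) else 0) =
      (if x ∈ G.nb c then G.c3 q c else 0) := by
    intro x
    split_ifs <;> ring
  simp only [h6]
  push_cast
  ring

theorem St1.total57 (h : G.St1 A B) :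
    ∑ z ∈ R {A, B}, G.D57 q {A, B} z = ∑ x ∈ G.N A \ G.N B, G.W57 q A B x +
      ∑ x ∈ G.N B \ G.N A, G.W57 q B A x := by
  have hcomm : ({B, A} : Finset (Finset V)) = {A, B} := pair_comm B A
  rw [h.sum, sum_congr rfl fun x hx => h.D57s hx]
  have h1 : ∀ x ∈ G.N B \ G.N A, G.D57 q {A, B} x =
      G.a3 q x + G.c3 q x * ((G.d x (G.Co B) : ℤ) - (G.d x B : ℤ)) := by
    intro x hx
    rw [← hcomm]
    exact h.symm.D57s hx
  rw [sum_congr rfl h1, sum_congr rfl fun c hc => h.D57c hc,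
    sum_add_distrib (s := G.N A ∩ G.N B)]
  have h2 : ∀ S : Finset V, ∑ c ∈ G.N A ∩ G.N B, ∑ x ∈ S, (if x ∈ G.nb c then G.c3 q c else 0) =
      ∑ x ∈ S, ∑ c ∈ G.nb x ∩ (G.N A ∩ G.N B), G.c3 q c := by
    intro S
    rw [sum_comm]
    apply sum_congr rfl
    intro u _
    rw [← sum_filter]
    apply sum_congr _ fun _ _ => rfl
    ext c
    constructor
    · intro h3
      rw [mem_filter] at h3
      exact mem_inter.2 ⟨G.sym _ _ h3.2, h3.1⟩
    · intro h3
      obtain ⟨h4, h5⟩ := mem_inter.1 h3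
      exact mem_filter.2 ⟨h5, G.sym _ _ h4⟩
  rw [h2, h2]
  have h3 : ∀ (S : Finset V) (f g : V → ℤ), ∑ x ∈ S, f x + ∑ x ∈ S, g x = ∑ x ∈ S, (f x + g x) :=
    fun S f g => sum_add_distrib.symm
  unfold W57
  rw [inter_comm (G.N B) (G.N A), ← h3 (G.N A \ G.N B)
    (fun x => G.a3 q x + G.c3 q x * ((G.d x (G.Co A) : ℤ) - (G.d x A : ℤ))), ← h3 (G.N B \ G.N A)
    (fun x => G.a3 q x + G.c3 q x * ((G.d x (G.Co B) : ℤ) - (G.d x B : ℤ)))]
  ring

/-! ### the setting -/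

/-- two vertices on each side -/
structure S57 (G : CG V) (q : V → V → Prop) (A B : Finset V) : Prop where
  st : G.St1 A B
  cS : (G.N A \ G.N B).card = 2
  cY : (G.N B \ G.N A).card = 2
  adj : ∀ x ∈ G.N A \ G.N B, ∀ y ∈ G.N B \ G.N A, y ∈ G.nb x
  rS : ∀ x ∈ G.N A \ G.N B, G.d x (G.Co A) = 2
  rY : ∀ y ∈ G.N B \ G.N A, G.d y (G.Co B) = 2
  n9 : 9 ≤ Fintype.card V
  sat : G.Sat
  cov : G.CovU3 q {A, B}
  qs : G.QS q

theorem S57.mk2 (hq : G.QS q) (hst : G.Strip A B) (hc : (G.N A \ G.N B).card = 2)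
    (hcov : G.CovU3 q {A, B})
    (hd : ∀ z ∈ R {A, B}, ∀ D, G.I {A, B} z = {D} → 2 ≤ G.d z (G.Co D)) : G.S57 q A B := by
  have h : G.St1 A B := ⟨hst.ne, hst.reg, hst.sub⟩
  have hc' : (G.N B \ G.N A).card = 2 := h.card_eq.symm.trans hc
  have hdS : ∀ x ∈ G.N A \ G.N B, 2 ≤ G.d x (G.Co A) := by
    intro x hx
    exact hd x (by rw [memR2_1]; exact h.NA (mem_sdiff.1 hx).1) A (St1.IA hx)
  have hdY : ∀ x ∈ G.N B \ G.N A, 2 ≤ G.d x (G.Co B) := by
    intro x hx
    refine hd x (by rw [memR2_1]; exact (h.symm.NA (mem_sdiff.1 hx).1).symm) B ?_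
    rw [pair_comm]
    exact St1.IA hx
  refine ⟨h, hc, hc', ?_, ?_, ?_, hst.n9, hst.sat, hcov, hq⟩
  · intro x hx y hy
    have h1 := h.comp2 hc' hx (hdS x hx)
    rw [← h1] at hy
    exact (mem_inter.1 hy).1
  · intro x hx
    unfold d
    rw [h.comp2 hc' hx (hdS x hx), hc']
  · intro x hx
    unfold d
    rw [h.symm.comp2 hc hx (hdY x hx), hc]

theorem S57.symm (h : G.S57 q A B) : G.S57 q B A := by
  refine ⟨h.st.symm, h.cY, h.cS, ?_, h.rY, h.rS, h.n9, h.sat, ?_, h.qs⟩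
  · intro x hx y hy
    exact G.sym _ _ (h.adj y hy x hx)
  · rw [pair_comm]
    exact h.cov

theorem S57.NCo (h : G.S57 q A B) : G.N (G.Co A) = G.N A :=
  (G.stCo_37 A (h.st.reg.frag A (by simp))).2.1

theorem S57.RS (h : G.S57 q A B) {x : V} (hx : x ∈ G.N A) : x ∈ R {A, B} := by
  rw [memR2_1]
  exact h.st.NA hx

theorem S57.RY (h : G.S57 q A B) {x : V} (hx : x ∈ G.N B) : x ∈ R {A, B} := by
  rw [memR2_1]
  exact (h.st.symm.NA hx).symm

theorem S57.loc (h : G.S57 q A B) {w : V} (hw : w ∈ R {A, B}) :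
    w ∈ G.N A \ G.N B ∨ w ∈ G.N B \ G.N A ∨ w ∈ G.N A ∩ G.N B := by
  rw [memR2_1] at hw
  exact h.st.cases hw.1 hw.2

/-- three different vertices on one side are impossible -/
theorem S57.no3 (h : G.S57 q A B) {x y z : V} (hx : x ∈ G.N A \ G.N B) (hy : y ∈ G.N A \ G.N B)
    (hz : z ∈ G.N A \ G.N B) (h1 : x ≠ y) (h2 : x ≠ z) (h3 : y ≠ z) : False := by
  have h4 : ({x, y, z} : Finset V) ⊆ G.N A \ G.N B := by
    intro u hu
    simp only [mem_insert, mem_singleton] at hu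
    rcases hu with rfl | rfl | rfl <;> assumption
  have h5 := card_le_card h4
  rw [h.cS, card_eq_three.2 ⟨x, y, z, h1, h2, h3, rfl⟩] at h5
  omega

/-- vertices of `R` with the same `I` are in the same part -/
theorem S57.part (h : G.S57 q A B) {a b : V} (ha : a ∈ R {A, B})
    (hI : G.I {A, B} a = G.I {A, B} b) :
    (a ∈ G.N A \ G.N B ∧ b ∈ G.N A \ G.N B) ∨ (a ∈ G.N B \ G.N A ∧ b ∈ G.N B \ G.N A) ∨
      (a ∈ G.N A ∩ G.N B ∧ b ∈ G.N A ∩ G.N B) := by
  have k1 : a ∈ G.N A ↔ b ∈ G.N A := by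
    have h1 : A ∈ G.I {A, B} a ↔ A ∈ G.I {A, B} b := by rw [hI]
    rw [memI2_1, memI2_1] at h1
    simpa using h1
  have k2 : a ∈ G.N B ↔ b ∈ G.N B := by
    have h1 : B ∈ G.I {A, B} a ↔ B ∈ G.I {A, B} b := by rw [hI]
    rw [memI2_1, memI2_1] at h1
    simpa using h1
  rcases h.loc ha with h1 | h1 | h1
  · left
    refine ⟨h1, ?_⟩
    rw [mem_sdiff] at h1 ⊢
    exact ⟨k1.1 h1.1, fun h2 => h1.2 (k2.2 h2)⟩
  · right
    left
    refine ⟨h1, ?_⟩
    rw [mem_sdiff] at h1 ⊢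
    exact ⟨k2.1 h1.1, fun h2 => h1.2 (k1.2 h2)⟩
  · right
    right
    refine ⟨h1, ?_⟩
    rw [mem_inter] at h1 ⊢
    exact ⟨k1.1 h1.1, k2.1 h1.2⟩

/-! ### flags -/

open Classical in
/-- flagged vertices of the common part without a neighbour in `N A \ N B` -/
noncomputable def F1 (G : CG V) (A B : Finset V) : Finset V :=
  (G.N A ∩ G.N B).filter fun c => G.FL (G.Co A) c ∧ G.nb c ∩ (G.N A \ G.N B) = ∅

open Classical in
/-- flagged vertices of the common part with a neighbour in `N A \ N B` -/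
noncomputable def F2 (G : CG V) (A B : Finset V) : Finset V :=
  (G.N A ∩ G.N B).filter fun c => G.FL (G.Co A) c ∧ G.nb c ∩ (G.N A \ G.N B) ≠ ∅

theorem mem_F1 {c : V} : c ∈ G.F1 A B ↔
    c ∈ G.N A ∩ G.N B ∧ G.FL (G.Co A) c ∧ G.nb c ∩ (G.N A \ G.N B) = ∅ := by
  classical
  rw [F1, mem_filter]

theorem mem_F2 {c : V} : c ∈ G.F2 A B ↔
    c ∈ G.N A ∩ G.N B ∧ G.FL (G.Co A) c ∧ G.nb c ∩ (G.N A \ G.N B) ≠ ∅ := by
  classical
  rw [F2, mem_filter]

/-- what a flag means -/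
theorem S57.flag (h : G.S57 q A B) {c : V} (hf : G.FL (G.Co A) c) :
    G.Low c ∧ c ∈ G.N A ∧ G.d c (G.Co A) = 4 ∧
      ∃ a b, G.HL a b c ∧ a ∈ G.N A ∧ b ∈ G.N A ∧ G.nb c ∩ G.N A = {a} := by
  rw [FL, h.NCo] at hf
  exact hf

/-- no vertex on a side is flagged -/
theorem S57.E_side (h : G.S57 q A B) {x : V} (hx : x ∈ G.N A \ G.N B) :
    G.E57 {A, B} x = 0 := by
  classical
  have h1 : ¬ G.FL A x := by
    rintro ⟨h1, h2, h3, a, b, h4, h5, h6, h7⟩
    have h8 := d_split76 (G := G) x A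
    rw [h7, card_singleton, h.rS x hx, h3] at h8
    have h9 : (G.nb x).card = 6 := h1
    omega
  have h2 : ¬ G.FL (G.Co A) x := by
    intro h2
    have h3 := (h.flag h2).2.2.1
    rw [h.rS x hx] at h3
    omega
  unfold E57
  rw [St1.IA hx, filter_singleton, filter_singleton, if_neg h1, if_neg h2]
  simp

theorem S57.E_common (h : G.S57 q A B) {c : V} (hc : c ∈ G.N A ∩ G.N B) :
    G.E57 {A, B} c = 2 * (open Classical in if G.FL A c then 1 else 0) +
      2 * (open Classical in if G.FL B c then 1 else 0) -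
      2 * (open Classical in if G.FL (G.Co A) c then 1 else 0) -
      2 * (open Classical in if G.FL (G.Co B) c then 1 else 0) := by
  classical
  have h1 : ∀ p : Finset V → Prop, (((({A, B} : Finset (Finset V)).filter p).card : ℕ) : ℤ) =
      (if p A then 1 else 0) + (if p B then 1 else 0) := by
    intro p
    rw [card_filter, sum_pair h.st.ne]
    push_cast
    rfl
  unfold E57
  rw [St1.IC hc, h1, h1]
  ring

theorem S57.CoA (h : G.S57 q A B) {v : V} (hv : v ∈ G.Co A) : v ∈ B ∨ v ∈ G.N B \ G.N A := by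
  rw [mem_Co1] at hv
  by_cases h1 : v ∈ B
  · exact Or.inl h1
  · rcases h.st.cases hv.1 h1 with h2 | h2 | h2
    · exact absurd (mem_sdiff.1 h2).1 hv.2
    · exact Or.inr h2
    · exact absurd (mem_inter.1 h2).1 hv.2

/-- no vertex is flagged on both sides -/
theorem S57.F_disj (h : G.S57 q A B) {c : V} (h1 : G.FL (G.Co A) c) (h2 : G.FL (G.Co B) c) :
    False := by
  obtain ⟨k1, -, k2, a, -, -, -, -, k3⟩ := h.flag h1
  obtain ⟨-, -, k4, a', -, -, -, -, k5⟩ := h.symm.flag h2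
  have h3 := d_split76 (G := G) c B
  rw [k4, k5, card_singleton] at h3
  have h4 : (G.nb c).card = 6 := k1
  have h5 : G.nb c ∩ G.Co A ⊆ (G.nb c ∩ B) ∪ (G.nb c ∩ G.N B) := by
    intro v hv
    rw [mem_inter] at hv
    rw [mem_union, mem_inter, mem_inter]
    rcases h.CoA hv.2 with h6 | h6
    · exact Or.inl ⟨hv.1, h6⟩
    · exact Or.inr ⟨hv.1, (mem_sdiff.1 h6).1⟩
  have h6 := (card_le_card h5).trans (card_union_le _ _)
  rw [k5, card_singleton] at h6
  unfold d at h3 k2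
  omega

theorem S57.F1_props (h : G.S57 q A B) {c : V} (hc : c ∈ G.F1 A B) :
    G.Low c ∧ (∀ s ∈ G.N A \ G.N B, s ∉ G.nb c) ∧
      ∃ a b, G.HL a b c ∧ G.nb c ∩ G.N A = {a} := by
  obtain ⟨-, h2, h3⟩ := mem_F1.1 hc
  obtain ⟨k1, -, -, a, b, k2, -, -, k3⟩ := h.flag h2
  refine ⟨k1, fun s hs h4 => ?_, a, b, k2, k3⟩
  have h5 : s ∈ G.nb c ∩ (G.N A \ G.N B) := mem_inter.2 ⟨h4, hs⟩
  rw [h3] at h5
  exact absurd h5 (notMem_empty _)

theorem S57.F2_props (h : G.S57 q A B) {c : V} (hc : c ∈ G.F2 A B) :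
    G.Low c ∧ ∃ a b, G.HL a b c ∧ a ∈ G.N A \ G.N B ∧ b ∈ G.N A \ G.N B ∧ c ∈ G.nb a ∧
      G.nb c ∩ G.N A = {a} := by
  obtain ⟨h1, h2, h3⟩ := mem_F2.1 hc
  obtain ⟨k1, -, -, a, b, k2, k3, k4, k5⟩ := h.flag h2
  obtain ⟨s, hs⟩ := nonempty_iff_ne_empty.2 h3
  rw [mem_inter] at hs
  have h4 : s ∈ G.nb c ∩ G.N A := mem_inter.2 ⟨hs.1, (mem_sdiff.1 hs.2).1⟩
  rw [k5, mem_singleton] at h4
  subst h4
  have hI := HL_I76 k2 (h.RS k3) (h.RS k4) (h.RS (mem_inter.1 h1).1)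
  have hb : b ∈ G.N A \ G.N B := by
    rcases h.part (h.RS k3) hI with h5 | h5 | h5
    · exact h5.2
    · exact absurd (mem_sdiff.1 hs.2).1 (mem_sdiff.1 h5.1).2
    · exact absurd (mem_inter.1 h5.1).2 (mem_sdiff.1 hs.2).2
  exact ⟨k1, s, b, k2, hs.2, hb, HL_t76 k2, k5⟩

/-! ### values -/

theorem c3_low57 {v : V} (h : G.Low v) : G.c3 q v = 2 := by
  classical
  unfold c3
  rw [if_pos h]

theorem c3_q57 (hq : G.QS q) {v : V} (h : IsQ q v) : G.c3 q v = 1 := by
  classical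
  unfold c3
  rw [if_neg (q_not_low76 hq h), if_pos h]

theorem c3_nonneg57 (v : V) : 0 ≤ G.c3 q v := by
  classical
  unfold c3
  split_ifs <;> norm_num

theorem a3_low57 {v : V} (h : G.Low v) : G.a3 q v = 4 := by
  classical
  unfold a3
  rw [if_pos h]

theorem a3_q57 (hq : G.QS q) {v : V} (h : IsQ q v) : G.a3 q v = 1 := by
  classical
  unfold a3
  rw [if_neg (q_not_low76 hq h), if_pos h]

theorem S57.W_low (h : G.S57 q A B) {x : V} (hx : x ∈ G.N A \ G.N B) (hl : G.Low x) :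
    G.W57 q A B x = 2 * ((G.nb x ∩ G.N A).card : ℤ) +
      ∑ c ∈ G.nb x ∩ (G.N A ∩ G.N B), G.c3 q c := by
  have h1 := d_split76 (G := G) x A
  rw [h.rS x hx] at h1
  have h2 : (G.nb x).card = 6 := hl
  unfold W57
  rw [a3_low57 hl, c3_low57 hl, h.rS x hx]
  have h3 : (G.d x A : ℤ) = 4 - ((G.nb x ∩ G.N A).card : ℤ) := by omega
  rw [h3]
  push_cast
  ring

theorem S57.W_q (h : G.S57 q A B) {x : V} (hx : x ∈ G.N A \ G.N B) (hl : IsQ q x) :
    G.W57 q A B x = -2 + ((G.nb x ∩ G.N A).card : ℤ) +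
      ∑ c ∈ G.nb x ∩ (G.N A ∩ G.N B), G.c3 q c := by
  have h1 := d_split76 (G := G) x A
  rw [h.rS x hx] at h1
  have h2 := q_card76 h.qs hl
  unfold W57
  rw [a3_q57 h.qs hl, c3_q57 h.qs hl, h.rS x hx]
  have h3 : (G.d x A : ℤ) = 5 - ((G.nb x ∩ G.N A).card : ℤ) := by omega
  rw [h3]
  push_cast
  ring

theorem W57_hub {x : V} (hx : G.HubQ q x) :
    G.W57 q A B x = -2 + ∑ c ∈ G.nb x ∩ (G.N A ∩ G.N B), G.c3 q c := by
  classical
  unfold W57 a3 c3
  rw [if_neg hx.1, if_neg hx.2, if_neg hx.1, if_neg hx.2]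
  ring

theorem S57.sumc (h : G.S57 q A B) {x : V} {U : Finset V}
    (hU : U ⊆ G.nb x ∩ (G.N A ∩ G.N B)) (hd : Disjoint U (G.F1 B A)) :
    2 * ((G.F1 B A ∩ G.nb x).card : ℤ) + ∑ c ∈ U, G.c3 q c ≤
      ∑ c ∈ G.nb x ∩ (G.N A ∩ G.N B), G.c3 q c := by
  have h1 : (G.F1 B A ∩ G.nb x) ∪ U ⊆ G.nb x ∩ (G.N A ∩ G.N B) := by
    intro c hc
    rcases mem_union.1 hc with h2 | h2
    · obtain ⟨h3, h4⟩ := mem_inter.1 h2
      have h5 := (mem_F1.1 h3).1
      rw [inter_comm] at h5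
      exact mem_inter.2 ⟨h4, h5⟩
    · exact hU h2
  have h2 : Disjoint (G.F1 B A ∩ G.nb x) U := by
    rw [disjoint_left]
    intro c hc hc'
    exact (disjoint_left.1 hd) hc' (mem_inter.1 hc).1
  have h3 := sum_le_sum_of_subset_of_nonneg (f := fun c => G.c3 q c) h1
    (fun c _ _ => c3_nonneg57 c)
  rw [sum_union h2] at h3
  have h4 : ∑ c ∈ G.F1 B A ∩ G.nb x, G.c3 q c = 2 * ((G.F1 B A ∩ G.nb x).card : ℤ) := by
    have h5 : ∀ c ∈ G.F1 B A ∩ G.nb x, G.c3 q c = 2 := by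
      intro c hc
      exact c3_low57 (h.symm.F1_props (mem_inter.1 hc).1).1
    rw [sum_congr rfl h5, sum_const, nsmul_eq_mul, mul_comm]
  rw [h4] at h3
  exact h3

theorem S57.sumc0 (h : G.S57 q A B) (x : V) :
    2 * ((G.F1 B A ∩ G.nb x).card : ℤ) ≤ ∑ c ∈ G.nb x ∩ (G.N A ∩ G.N B), G.c3 q c := by
  have h1 := h.sumc (x := x) (U := ∅) (empty_subset _) (disjoint_empty_left _)
  rwa [sum_empty, add_zero] at h1

/-- contribution of a vertex minus the flagged vertices of the other side next to it -/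
noncomputable def Z57 (G : CG V) (q : V → V → Prop) (A B : Finset V) (x : V) : ℤ :=
  G.W57 q A B x - 2 * ((G.F1 B A ∩ G.nb x).card : ℤ)

theorem S57.Z_low (h : G.S57 q A B) {x : V} (hx : x ∈ G.N A \ G.N B) (hl : G.Low x) :
    2 * ((G.nb x ∩ G.N A).card : ℤ) ≤ G.Z57 q A B x := by
  have h1 := h.sumc0 x
  have h2 := h.W_low hx hl
  unfold Z57
  linarith

theorem S57.Z_low2 (h : G.S57 q A B) {x x' : V} (hx : x ∈ G.N A \ G.N B) (hl : G.Low x)
    (hx' : x' ∈ G.N A \ G.N B) (hn : x' ∈ G.nb x) : 2 ≤ G.Z57 q A B x := by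
  have h1 := h.Z_low hx hl
  have h2 : 0 < (G.nb x ∩ G.N A).card :=
    card_pos.2 ⟨x', mem_inter.2 ⟨hn, (mem_sdiff.1 hx').1⟩⟩
  have h3 : (1 : ℤ) ≤ ((G.nb x ∩ G.N A).card : ℤ) := by exact_mod_cast h2
  linarith

theorem S57.Z_ge (h : G.S57 q A B) {x : V} (hx : x ∈ G.N A \ G.N B) : -2 ≤ G.Z57 q A B x := by
  rcases tri76 G q x with h1 | h1 | h1
  · have h2 := h.Z_low hx h1
    have h3 : (0 : ℤ) ≤ ((G.nb x ∩ G.N A).card : ℤ) := Int.natCast_nonneg _
    linarith
  · have h2 := h.W_q hx h1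
    have h3 := h.sumc0 x
    have h4 : (0 : ℤ) ≤ ((G.nb x ∩ G.N A).card : ℤ) := Int.natCast_nonneg _
    unfold Z57
    linarith
  · have h2 := W57_hub (A := A) (B := B) h1
    have h3 := h.sumc0 x
    unfold Z57
    linarith

/-- partner of a chosen vertex of a side -/
theorem S57.partner (h : G.S57 q A B) {x w : V} (hx : x ∈ G.N A \ G.N B) (hw : q x w) :
    w ∈ G.N A \ G.N B := by
  have hxR := h.RS (mem_sdiff.1 hx).1
  have h1 := q_I76 h.qs h.st.reg hxR hw
  rcases h.part hxR h1.2.symm with h2 | h2 | h2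
  · exact h2.2
  · exact absurd (mem_sdiff.1 hx).1 (mem_sdiff.1 h2.1).2
  · exact absurd (mem_inter.1 h2.1).2 (mem_sdiff.1 hx).2

/-- a vertex with a negative value -/
theorem S57.deficient (h : G.S57 q A B) {x : V} (hx : x ∈ G.N A \ G.N B)
    (hneg : G.Z57 q A B x < 0) :
    ¬ G.Low x ∧ (∀ w ∈ G.nb x ∩ (G.N A ∩ G.N B), G.Low w → w ∈ G.F1 B A) ∧
      (∀ v ∈ G.nb x ∩ (G.N A ∩ G.N B), ∀ w ∈ G.nb x ∩ (G.N A ∩ G.N B), IsQ q v → IsQ q w →
        v = w) := by
  have hnl : ¬ G.Low x := by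
    intro h1
    have h2 := h.Z_low hx h1
    have h3 : (0 : ℤ) ≤ ((G.nb x ∩ G.N A).card : ℤ) := Int.natCast_nonneg _
    linarith
  rcases tri76 G q x with h1 | h1 | h1
  · exact absurd h1 hnl
  · -- chosen: no neighbour in the common part
    have hno : ∀ w, w ∉ G.nb x ∩ (G.N A ∩ G.N B) := by
      intro w hw
      obtain ⟨x', hx'⟩ := h1
      have h2 := h.partner hx hx'
      have h3 := q_nb76 h.qs hx'
      have h4 : x' ≠ w := by
        rintro rfl
        exact (mem_sdiff.1 h2).2 (mem_inter.1 (mem_inter.1 hw).2).2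
      have h5 : 2 ≤ (G.nb x ∩ G.N A).card :=
        two_le5 (mem_inter.2 ⟨h3, (mem_sdiff.1 h2).1⟩)
          (mem_inter.2 ⟨(mem_inter.1 hw).1, (mem_inter.1 (mem_inter.1 hw).2).1⟩) h4
      have h6 := h.W_q hx ⟨x', hx'⟩
      have h7 := h.sumc0 x
      unfold Z57 at hneg
      have h8 : (2 : ℤ) ≤ ((G.nb x ∩ G.N A).card : ℤ) := by exact_mod_cast h5
      linarith
    exact ⟨hnl, fun w hw => absurd hw (hno w), fun v hv => absurd hv (hno v)⟩
  · have h2 := W57_hub (A := A) (B := B) h1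
    unfold Z57 at hneg
    refine ⟨hnl, ?_, ?_⟩
    · intro w hw hl
      by_contra h3
      have h4 := h.sumc (x := x) (U := {w}) (by
        intro u hu
        rw [mem_singleton] at hu
        subst hu
        exact hw) (by
        rw [disjoint_singleton_left]
        exact h3)
      rw [sum_singleton, c3_low57 hl] at h4
      linarith
    · intro v hv w hw h3 h4
      by_contra h5
      have h6 := h.sumc (x := x) (U := {v, w}) (by
        intro u hu
        rw [mem_insert, mem_singleton] at hu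
        rcases hu with rfl | rfl
        · exact hv
        · exact hw) (by
        rw [disjoint_left]
        intro u hu hu'
        have h7 := (h.symm.F1_props hu').1
        rw [mem_insert, mem_singleton] at hu
        rcases hu with rfl | rfl
        · exact q_not_low76 h.qs h3 h7
        · exact q_not_low76 h.qs h4 h7)
      rw [sum_pair h5, c3_q57 h.qs h3, c3_q57 h.qs h4] at h6
      linarith

/-! ### covers -/

theorem S57.m0 (h : G.S57 q A B) {x y : V} (hx : x ∈ G.N A \ G.N B) (hy : y ∈ G.N B \ G.N A) :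
    G.m {A, B} x y = 0 := m_zero2 h.st hx hy

/-- the cover of an edge at a vertex with a negative value -/
theorem S57.cover (h : G.S57 q A B) {x y : V} (hx : x ∈ G.N A \ G.N B)
    (hy : y ∈ G.N B \ G.N A) (hneg : G.Z57 q A B x < 0) :
    (∃ x' ∈ G.N A \ G.N B, G.Low x' ∧ x' ∈ G.nb x) ∨
      ∃ y' ∈ G.N B \ G.N A, G.Low y' ∧ y' ∈ G.nb y := by
  obtain ⟨hnl, hd1, hd2⟩ := h.deficient hx hneg
  have hxR := h.RS (mem_sdiff.1 hx).1
  have hyR := h.RY (mem_sdiff.1 hy).1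
  rcases h.cov x hxR y hyR (h.adj x hx y hy) (h.m0 hx hy) with
    ⟨w, hw, h1, h2, h3⟩ | ⟨v, hv, w, hw, h1, h2, h3, h4, h5⟩ | ⟨a, ha, b, hb, h1, h2, h3⟩ |
    ⟨a, ha, b, hb, h1, h2, h3⟩ | ⟨a, ha, b, hb, h1⟩
  · rcases h.loc hw with k | k | k
    · exact Or.inl ⟨w, k, h1, G.sym _ _ h2⟩
    · exact Or.inr ⟨w, k, h1, G.sym _ _ h3⟩
    · exfalso
      have k1 := hd1 w (mem_inter.2 ⟨G.sym _ _ h2, k⟩) h1
      exact (h.symm.F1_props k1).2.1 y hy h3
  · exfalso
    have hxv : x ≠ v := fun h6 => by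
      subst h6
      exact G.irr _ h2
    have hyv : y ≠ v := fun h6 => by
      subst h6
      exact G.irr _ h3
    have h6 := q_I76 h.qs h.st.reg hv h1
    have hvw := q_ne76 h.qs h1
    rcases h.part hv h6.2.symm with k | k | k
    · exact h.no3 hx k.1 k.2 hxv h4 hvw
    · exact h.symm.no3 hy k.1 k.2 hyv h5 hvw
    · have k1 : x ∈ G.nb w := Tw_nb5 (h.qs.tw _ _ h1) h2 h4
      exact hvw (hd2 v (mem_inter.2 ⟨G.sym _ _ h2, k.1⟩) w (mem_inter.2 ⟨G.sym _ _ k1, k.2⟩)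
        ⟨w, h1⟩ ⟨v, h.qs.symm _ _ h1⟩)
  · exact absurd (h.sat a b x h1) hnl
  · exfalso
    have hI := HL_I76 h1 ha hb hyR
    have hab : a ≠ b := ne_of_nb5 (HL_b76 h1)
    have hxb : x ≠ b := fun h6 => by
      subst h6
      exact G.irr _ h2
    have hya : y ≠ a := fun h6 => ne_of_nb5 (HL_t76 h1) h6.symm
    have hyb : y ≠ b := (HL_bt76 h1).2
    rcases h.part ha hI with k | k | k
    · exact h.no3 hx k.1 k.2 h3 hxb hab
    · exact h.symm.no3 hy k.1 k.2 hya hyb hab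
    · have k1 := hd1 b (mem_inter.2 ⟨G.sym _ _ h2, k.2⟩) h1.2.1
      obtain ⟨-, -, a', b', k2, k3⟩ := h.symm.F1_props k1
      have k4 : a ∈ G.nb b ∩ G.N B := mem_inter.2 ⟨G.sym _ _ (HL_b76 h1), (mem_inter.1 k.1).2⟩
      rw [k3, mem_singleton] at k4
      subst k4
      exact (stTwHL_5 G).nomut h.n9 _ _ _ _ _ k2 h1 rfl
  · exfalso
    have hI := LL_I76 h1 ha hb hxR hyR
    have hab : a ≠ b := ne_of_nb5 (LL_ab76 h1)
    have hxa : x ≠ a := fun h6 => ne_of_nb5 (LL_t76 h1) h6.symm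
    have hxb : x ≠ b := (LL_tb76 h1).2
    have hya : y ≠ a := (LL_ua76 h1).2
    have hyb : y ≠ b := fun h6 => ne_of_nb5 (LL_u76 h1) h6.symm
    rcases h.part ha hI with k | k | k
    · exact h.no3 hx k.1 k.2 hxa hxb hab
    · exact h.symm.no3 hy k.1 k.2 hya hyb hab
    · have k1 := hd1 a (mem_inter.2 ⟨G.sym _ _ (LL_t76 h1), k.1⟩) h1.1
      obtain ⟨-, -, a', b', k2, k3⟩ := h.symm.F1_props k1
      have k4 : b ∈ G.nb a ∩ G.N B := mem_inter.2 ⟨LL_ab76 h1, (mem_inter.1 k.2).2⟩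
      rw [k3, mem_singleton] at k4
      subst k4
      exact HL_not_low76 k2 h1.2.1

/-! ### one side -/

/-- value of a side -/
noncomputable def DS57 (G : CG V) (q : V → V → Prop) (A B : Finset V) : ℤ :=
  ∑ x ∈ G.N A \ G.N B, G.Z57 q A B x - 2 * ((G.F2 A B).card : ℤ)

theorem S57.side_F2 (h : G.S57 q A B) (hne : (G.F2 A B).Nonempty) : 0 ≤ G.DS57 q A B := by
  obtain ⟨c, hc⟩ := hne
  obtain ⟨-, a, b, h1, ha, hb, -, -⟩ := h.F2_props hc
  have hab : a ≠ b := ne_of_nb5 (HL_b76 h1)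
  have hbl : G.Low b := h1.2.1
  have hS : G.N A \ G.N B = {a, b} := by
    symm
    apply eq_of_subset_of_card_le
    · intro u hu
      rw [mem_insert, mem_singleton] at hu
      rcases hu with rfl | rfl
      · exact ha
      · exact hb
    · rw [h.cS, card_pair hab]
  have hsub : G.F2 A B ⊆ G.nb a ∩ (G.N A ∩ G.N B) := by
    intro c' hc'
    obtain ⟨-, a', b', k1, k2, -, k4, -⟩ := h.F2_props hc'
    have k5 : a' = a := by
      rw [hS, mem_insert, mem_singleton] at k2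
      rcases k2 with k2 | k2
      · exact k2
      · subst k2
        exact absurd hbl (HL_not_low76 k1)
    subst k5
    exact mem_inter.2 ⟨k4, (mem_F2.1 hc').1⟩
  have hdis : Disjoint (G.F2 A B) (G.F1 B A) := by
    rw [disjoint_left]
    intro u hu hu'
    exact h.F_disj (mem_F2.1 hu).2.1 (mem_F1.1 hu').2.1
  have h2 := h.sumc hsub hdis
  have h3 : ∑ c ∈ G.F2 A B, G.c3 q c = 2 * ((G.F2 A B).card : ℤ) := by
    have h5 : ∀ c ∈ G.F2 A B, G.c3 q c = 2 := by
      intro c hc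
      exact c3_low57 (h.F2_props hc).1
    rw [sum_congr rfl h5, sum_const, nsmul_eq_mul, mul_comm]
  rw [h3] at h2
  have h4 := W57_hub (A := A) (B := B) (HL_hub76 h.qs h.n9 h1)
  have h5 := h.Z_low2 hb hbl ha (G.sym _ _ (HL_b76 h1))
  unfold DS57
  rw [hS, sum_pair hab]
  unfold Z57 at h5 ⊢
  linarith

theorem S57.side_pair (h : G.S57 q A B) (hF : G.F2 A B = ∅) {x x' : V}
    (hS : G.N A \ G.N B = {x, x'}) (hne : x ≠ x') (hneg : G.Z57 q A B x < 0) :
    0 ≤ G.DS57 q A B ∨ ∀ y ∈ G.N B \ G.N A, G.Low y ∧ ∃ y' ∈ G.N B \ G.N A, y' ∈ G.nb y := by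
  have hx : x ∈ G.N A \ G.N B := by rw [hS]; simp
  have hx' : x' ∈ G.N A \ G.N B := by rw [hS]; simp
  by_cases hlow : G.Low x' ∧ x' ∈ G.nb x
  · left
    have h1 := h.Z_low2 hx' hlow.1 hx (G.sym _ _ hlow.2)
    have h2 := h.Z_ge hx
    unfold DS57
    rw [hF, card_empty, hS, sum_pair hne]
    push_cast
    linarith
  · right
    have key : ∀ y ∈ G.N B \ G.N A, ∃ y' ∈ G.N B \ G.N A, G.Low y' ∧ y' ∈ G.nb y := by
      intro y hy
      rcases h.cover hx hy hneg with ⟨u, h1, h2, h3⟩ | h1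
      · exfalso
        rw [hS, mem_insert, mem_singleton] at h1
        rcases h1 with h1 | h1
        · subst h1
          exact G.irr _ h3
        · subst h1
          exact hlow ⟨h2, h3⟩
      · exact h1
    intro y hy
    obtain ⟨y', h1, h2, h3⟩ := key y hy
    obtain ⟨y'', h4, h5, h6⟩ := key y' h1
    have h7 : y'' = y := by
      by_contra h8
      exact h.symm.no3 hy h1 h4 (ne_of_nb5 h3) (fun h9 => h8 h9.symm) (ne_of_nb5 h6)
    subst h7
    exact ⟨h5, y', h1, h3⟩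

theorem S57.side (h : G.S57 q A B) : 0 ≤ G.DS57 q A B ∨
    (-4 ≤ G.DS57 q A B ∧
      ∀ y ∈ G.N B \ G.N A, G.Low y ∧ ∃ y' ∈ G.N B \ G.N A, y' ∈ G.nb y) := by
  rcases (G.F2 A B).eq_empty_or_nonempty with hF | hF
  · obtain ⟨s, s', hne, hS⟩ := card_eq_two.1 h.cS
    have hs : s ∈ G.N A \ G.N B := by rw [hS]; simp
    have hs' : s' ∈ G.N A \ G.N B := by rw [hS]; simp
    have hval : G.DS57 q A B = G.Z57 q A B s + G.Z57 q A B s' := by
      unfold DS57
      rw [hF, card_empty, hS, sum_pair hne]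
      push_cast
      ring
    have h1 := h.Z_ge hs
    have h2 := h.Z_ge hs'
    by_cases k1 : G.Z57 q A B s < 0
    · rcases h.side_pair hF hS hne k1 with h3 | h3
      · exact Or.inl h3
      · exact Or.inr ⟨by linarith, h3⟩
    by_cases k2 : G.Z57 q A B s' < 0
    · rcases h.side_pair hF (by rw [hS, pair_comm]) hne.symm k2 with h3 | h3
      · exact Or.inl h3
      · exact Or.inr ⟨by linarith, h3⟩
    · left
      linarith
  · exact Or.inl (h.side_F2 hF)

theorem S57.side_low (h : G.S57 q A B)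
    (hl : ∀ y ∈ G.N A \ G.N B, G.Low y ∧ ∃ y' ∈ G.N A \ G.N B, y' ∈ G.nb y) :
    4 ≤ G.DS57 q A B := by
  have hF : G.F2 A B = ∅ := by
    rw [← not_nonempty_iff_eq_empty]
    rintro ⟨c, hc⟩
    obtain ⟨-, a, b, h1, ha, -, -, -⟩ := h.F2_props hc
    exact HL_not_low76 h1 (hl a ha).1
  obtain ⟨s, s', hne, hS⟩ := card_eq_two.1 h.cS
  have hs : s ∈ G.N A \ G.N B := by rw [hS]; simp
  have hs' : s' ∈ G.N A \ G.N B := by rw [hS]; simp
  obtain ⟨l1, u, hu, hu'⟩ := hl s hs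
  obtain ⟨l2, w, hw, hw'⟩ := hl s' hs'
  have h1 := h.Z_low2 hs l1 hu hu'
  have h2 := h.Z_low2 hs' l2 hw hw'
  unfold DS57
  rw [hF, card_empty, hS, sum_pair hne]
  push_cast
  linarith

/-! ### the flags together -/

open Classical in
theorem S57.flag_count (h : G.S57 q A B) :
    ((G.N A ∩ G.N B).filter fun c => G.FL (G.Co A) c).card ≤
      ((G.N A ∩ G.N B).filter fun c => G.FL B c).card +
        ∑ y ∈ G.N B \ G.N A, (G.F1 A B ∩ G.nb y).card + (G.F2 A B).card := by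
  have h1 : ((G.N A ∩ G.N B).filter fun c => G.FL (G.Co A) c) ⊆
      (((G.N A ∩ G.N B).filter fun c => G.FL B c) ∪
        (G.N B \ G.N A).biUnion fun y => G.F1 A B ∩ G.nb y) ∪ G.F2 A B := by
    intro c hc
    obtain ⟨hc1, hc2⟩ := mem_filter.1 hc
    by_cases h2 : G.nb c ∩ (G.N A \ G.N B) = ∅
    · apply mem_union_left
      by_cases h3 : ∃ y ∈ G.N B \ G.N A, y ∈ G.nb c
      · apply mem_union_right
        obtain ⟨y, hy, hy'⟩ := h3
        rw [mem_biUnion]
        exact ⟨y, hy, mem_inter.2 ⟨mem_F1.2 ⟨hc1, hc2, h2⟩, G.sym _ _ hy'⟩⟩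
      · apply mem_union_left
        rw [mem_filter]
        refine ⟨hc1, ?_⟩
        obtain ⟨k1, k2, k3, a, b, k4, k5, k6, k7⟩ := h.flag hc2
        have ha : a ∈ G.nb c := by
          have h4 : a ∈ G.nb c ∩ G.N A := by rw [k7]; exact mem_singleton_self _
          exact (mem_inter.1 h4).1
        have haB : a ∈ G.N B := by
          by_contra h4
          have h5 : a ∈ G.nb c ∩ (G.N A \ G.N B) := mem_inter.2 ⟨ha, mem_sdiff.2 ⟨k5, h4⟩⟩
          rw [h2] at h5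
          exact absurd h5 (notMem_empty _)
        have hI := HL_I76 k4 (h.RS k5) (h.RS k6) (h.RS k2)
        have hbB : b ∈ G.N B := by
          rcases h.part (h.RS k5) hI with h5 | h5 | h5
          · exact absurd haB (mem_sdiff.1 h5.1).2
          · exact (mem_sdiff.1 h5.2).1
          · exact (mem_inter.1 h5.2).2
        refine ⟨k1, (mem_inter.1 hc1).2, ?_, a, b, k4, haB, hbB, ?_⟩
        · rw [← k3]
          unfold d
          congr 1
          ext v
          rw [mem_inter, mem_inter]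
          constructor
          · rintro ⟨h5, h6⟩
            refine ⟨h5, mem_Co1.2 ⟨?_, ?_⟩⟩
            · exact fun h7 => (disjoint_left.1 (h.st.reg.dis A (by simp) B (by simp) h.st.ne).1)
                h7 h6
            · exact fun h7 => (h.st.NA h7).2 h6
          · rintro ⟨h5, h6⟩
            refine ⟨h5, ?_⟩
            rcases h.CoA h6 with h7 | h7
            · exact h7
            · exact absurd ⟨v, h7, h5⟩ h3
        · ext v
          rw [mem_inter, mem_singleton]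
          constructor
          · rintro ⟨h5, h6⟩
            have h7 : v ∈ G.N A := by
              by_contra h8
              exact h3 ⟨v, mem_sdiff.2 ⟨h6, h8⟩, h5⟩
            have h8 : v ∈ G.nb c ∩ G.N A := mem_inter.2 ⟨h5, h7⟩
            rw [k7, mem_singleton] at h8
            exact h8
          · rintro rfl
            exact ⟨ha, haB⟩
    · apply mem_union_right
      exact mem_F2.2 ⟨hc1, hc2, h2⟩
  refine (card_le_card h1).trans ((card_union_le _ _).trans ?_)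
  refine Nat.add_le_add_right ((card_union_le _ _).trans ?_) _
  exact Nat.add_le_add_left card_biUnion_le _

theorem S57.main (h : G.S57 q A B) : 0 ≤ ∑ z ∈ R {A, B}, G.ch3 q {A, B} z := by
  classical
  have hcomm : ({B, A} : Finset (Finset V)) = {A, B} := pair_comm B A
  have e1 : ∑ z ∈ G.N A \ G.N B, G.E57 {A, B} z = 0 := sum_eq_zero fun z hz => h.E_side hz
  have e2 : ∑ z ∈ G.N B \ G.N A, G.E57 {A, B} z = 0 := by
    rw [← hcomm]
    exact sum_eq_zero fun z hz => h.symm.E_side hz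
  have e3 : ∑ z ∈ G.N A ∩ G.N B, G.E57 {A, B} z =
      2 * (((G.N A ∩ G.N B).filter fun c => G.FL A c).card : ℤ) +
      2 * (((G.N A ∩ G.N B).filter fun c => G.FL B c).card : ℤ) -
      2 * (((G.N A ∩ G.N B).filter fun c => G.FL (G.Co A) c).card : ℤ) -
      2 * (((G.N A ∩ G.N B).filter fun c => G.FL (G.Co B) c).card : ℤ) := by
    rw [sum_congr rfl fun z hz => h.E_common hz, sum_sub_distrib, sum_sub_distrib,
      sum_add_distrib, ← mul_sum, ← mul_sum, ← mul_sum, ← mul_sum]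
    simp only [card_filter]
    push_cast
    rfl
  have f1 := h.flag_count
  have f2 := h.symm.flag_count
  rw [inter_comm (G.N B) (G.N A)] at f2
  have f1' : (((G.N A ∩ G.N B).filter fun c => G.FL (G.Co A) c).card : ℤ) ≤
      (((G.N A ∩ G.N B).filter fun c => G.FL B c).card : ℤ) +
        ∑ y ∈ G.N B \ G.N A, ((G.F1 A B ∩ G.nb y).card : ℤ) + ((G.F2 A B).card : ℤ) := by
    exact_mod_cast f1
  have f2' : (((G.N A ∩ G.N B).filter fun c => G.FL (G.Co B) c).card : ℤ) ≤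
      (((G.N A ∩ G.N B).filter fun c => G.FL A c).card : ℤ) +
        ∑ y ∈ G.N A \ G.N B, ((G.F1 B A ∩ G.nb y).card : ℤ) + ((G.F2 B A).card : ℤ) := by
    exact_mod_cast f2
  have d1 : G.DS57 q A B = ∑ x ∈ G.N A \ G.N B, G.W57 q A B x -
      2 * ∑ x ∈ G.N A \ G.N B, ((G.F1 B A ∩ G.nb x).card : ℤ) - 2 * ((G.F2 A B).card : ℤ) := by
    unfold DS57 Z57
    rw [sum_sub_distrib, mul_sum]
  have d2 : G.DS57 q B A = ∑ x ∈ G.N B \ G.N A, G.W57 q B A x -
      2 * ∑ x ∈ G.N B \ G.N A, ((G.F1 A B ∩ G.nb x).card : ℤ) - 2 * ((G.F2 B A).card : ℤ) := by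
    unfold DS57 Z57
    rw [sum_sub_distrib, mul_sum]
  have tot : G.DS57 q A B + G.DS57 q B A ≤ ∑ z ∈ R {A, B}, G.ch3 q {A, B} z := by
    rw [sum_ch3_57, h.st.total57, h.st.sum (fun z => G.E57 {A, B} z), e1, e2, e3]
    linarith
  refine le_trans ?_ tot
  rcases h.side with s1 | ⟨s1, s2⟩
  · rcases h.symm.side with t1 | ⟨t1, t2⟩
    · linarith
    · have := h.side_low t2
      linarith
  · have := h.symm.side_low s2
    linarith

/-- T13 -/
theorem stTh2_57 (G : CG V) (q : V → V → Prop) : G.StTh2 q := by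
  intro hq A B hst hc hcov hd
  exact (S57.mk2 hq hst hc hcov hd).main

end CG

end Pool.Agent.Lib.MP_e95c01_co.N
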