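import Pool.Agent.Lib.MP_e95c01_co.T.Aux76
import Pool.Agent.Lib.MP_e95c01_co.U.StThin1_1

/-!
# T12: thin torsos with one vertex on each side
-/

namespace Pool.Agent.Lib.MP_e95c01_co.N

open Finset

variable {V : Type} [Fintype V] [DecidableEq V]

namespace CG

variable {G : CG V} {q : V → V → Prop}

/-- the payments cancel -/
theorem pay_zero28 (q : V → V → Prop) (Fa : Finset (Finset V)) :
    ∑ z ∈ R Fa, ∑ x ∈ G.nR Fa z,
      (if G.m Fa x z ≤ 1 then G.pi3 q x z - G.pi3 q z x else 0) = 0 := by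
  have h1 : ∀ z, ∑ x ∈ G.nR Fa z, (if G.m Fa x z ≤ 1 then G.pi3 q x z - G.pi3 q z x else 0) =
      ∑ x ∈ R Fa, (if x ∈ G.nb z then
        (if G.m Fa x z ≤ 1 then G.pi3 q x z - G.pi3 q z x else 0) else 0) := by
    intro z
    unfold nR
    rw [inter_comm, ← filter_mem_eq_inter, sum_filter]
  rw [sum_congr rfl fun z _ => h1 z]
  set f : V → V → ℤ := fun z x => if x ∈ G.nb z then
        (if G.m Fa x z ≤ 1 then G.pi3 q x z - G.pi3 q z x else 0) else 0 with hf
  have h2 : ∀ z x, f z x = - f x z := by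
    intro z x
    rw [hf]
    simp only
    by_cases h3 : x ∈ G.nb z
    · rw [if_pos h3, if_pos (G.sym _ _ h3), m_symm1 x z]
      split_ifs
      · ring
      · rfl
    · rw [if_neg h3, if_neg fun h => h3 (G.sym _ _ h)]
      rfl
  have h3 : ∑ z ∈ R Fa, ∑ x ∈ R Fa, f z x = - ∑ z ∈ R Fa, ∑ x ∈ R Fa, f z x := by
    calc ∑ z ∈ R Fa, ∑ x ∈ R Fa, f z x = ∑ x ∈ R Fa, ∑ z ∈ R Fa, f z x := sum_comm
      _ = ∑ x ∈ R Fa, ∑ z ∈ R Fa, - f x z := sum_congr rfl fun x _ => sum_congr rfl fun z _ => h2 z x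
      _ = - ∑ z ∈ R Fa, ∑ x ∈ R Fa, f z x := by
        rw [← sum_neg_distrib]
        exact sum_congr rfl fun x _ => sum_neg_distrib _
  linarith

/-- the charge without payments and flags -/
noncomputable def D28 (G : CG V) (q : V → V → Prop) (Fa : Finset (Finset V)) (z : V) : ℤ :=
  (2 - ((G.I Fa z).card : ℤ)) * G.a3 q z +
    G.c3 q z * ((((G.I Fa z).card : ℤ) - 2) * ((G.nb z).card : ℤ) +
      ∑ x ∈ G.nR Fa z, (2 - (G.m Fa x z : ℤ)))

open Classical in
/-- the flags -/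
noncomputable def F28 (G : CG V) (Fa : Finset (Finset V)) (z : V) : ℤ :=
  2 * (((G.I Fa z).filter fun B => G.FL B z).card : ℤ) -
    2 * (((G.I Fa z).filter fun B => G.FL (G.Co B) z).card : ℤ)

theorem sum_ch3_28 (q : V → V → Prop) (Fa : Finset (Finset V)) :
    ∑ z ∈ R Fa, G.ch3 q Fa z = ∑ z ∈ R Fa, G.D28 q Fa z + ∑ z ∈ R Fa, G.F28 Fa z := by
  have h1 := pay_zero28 (G := G) q Fa
  have h2 : ∀ z, G.ch3 q Fa z = G.D28 q Fa z + (∑ x ∈ G.nR Fa z,
      (if G.m Fa x z ≤ 1 then G.pi3 q x z - G.pi3 q z x else 0)) + G.F28 Fa z := by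
    intro z
    unfold ch3 D28 F28
    ring
  rw [sum_congr rfl fun z _ => h2 z, sum_add_distrib, sum_add_distrib, h1, add_zero]

/-! ### the coefficients -/

theorem c3_low28 {v : V} (h : G.Low v) : G.c3 q v = 2 := by
  unfold c3
  rw [if_pos h]

theorem c3_q28 (hq : G.QS q) {v : V} (h : IsQ q v) : G.c3 q v = 1 := by
  unfold c3
  rw [if_neg (q_not_low76 hq h), if_pos h]

theorem c3_hub28 {v : V} (h : ¬ G.Low v) (h' : ¬ IsQ q v) : G.c3 q v = 0 := by
  unfold c3
  rw [if_neg h, if_neg h']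

theorem c3_nonneg28 (v : V) : 0 ≤ G.c3 q v := by
  unfold c3
  split_ifs <;> norm_num

section one

variable {A B : Finset V} {s y : V}

theorem St1.Ds28 (hq : G.QS q) (h : G.St1 A B) (hS : G.N A \ G.N B = {s})
    (hY : G.N B \ G.N A = {y}) :
    G.D28 q {A, B} s = -2 - G.c3 q s + ∑ _c ∈ G.nb s ∩ (G.N A ∩ G.N B), G.c3 q s := by
  have hys := h.adj hS hY
  have hs : s ∈ G.N A \ G.N B := by rw [hS]; exact mem_singleton_self s
  have hy : y ∈ G.N B \ G.N A := by rw [hY]; exact mem_singleton_self y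
  have hI := St1.IA hs
  have hIy : G.I {A, B} y = {B} := by
    rw [pair_comm]
    exact St1.IA hy
  have hyC : y ∉ G.nb s ∩ (G.N A ∩ G.N B) := by
    intro h1
    exact (mem_sdiff.1 hy).2 (mem_inter.1 (mem_inter.1 h1).2).1
  have hsum : ∑ x ∈ G.nR {A, B} s, (2 - (G.m {A, B} x s : ℤ)) =
      2 + ((G.nb s ∩ (G.N A ∩ G.N B)).card : ℤ) := by
    rw [h.nRs hS hY, sum_insert hyC]
    have h1 : G.m {A, B} y s = 0 := by
      unfold m
      rw [hIy, hI, card_eq_zero, ← disjoint_iff_inter_eq_empty, disjoint_singleton]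
      exact h.ne.symm
    have h2 : ∀ x ∈ G.nb s ∩ (G.N A ∩ G.N B), (2 - (G.m {A, B} x s : ℤ)) = 1 := by
      intro x hx
      unfold m
      rw [St1.IC (mem_inter.1 hx).2, hI, inter_singleton_of_mem (mem_insert_self _ _),
        card_singleton]
      norm_num
    rw [h1, sum_congr rfl h2, sum_const, nsmul_eq_mul, mul_one]
    norm_num
  unfold D28
  rw [hI, card_singleton, hsum, sum_const, nsmul_eq_mul]
  by_cases hl : G.Low s
  · rw [c3_low28 hl]
    unfold a3
    rw [if_pos hl]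
    have h6 : (G.nb s).card = 6 := hl
    rw [h6]
    push_cast
    ring
  · have hnq : ¬ IsQ q s := fun h1 => h.notTw hS hY (q_isTw76 hq h1)
    rw [c3_hub28 hl hnq]
    unfold a3
    rw [if_neg hl, if_neg hnq]
    norm_num

theorem St1.Dc28 (h : G.St1 A B) (hS : G.N A \ G.N B = {s}) (hY : G.N B \ G.N A = {y}) {c : V}
    (hc : c ∈ G.N A ∩ G.N B) :
    G.D28 q {A, B} c =
      (if s ∈ G.nb c then G.c3 q c else 0) + (if y ∈ G.nb c then G.c3 q c else 0) := by
  have hs : s ∈ G.N A \ G.N B := by rw [hS]; exact mem_singleton_self s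
  have hy : y ∈ G.N B \ G.N A := by rw [hY]; exact mem_singleton_self y
  have hI := St1.IC hc
  have hIs : G.I {A, B} s = {A} := St1.IA hs
  have hIy : G.I {A, B} y = {B} := by
    rw [pair_comm]
    exact St1.IA hy
  have h1 : ∑ x ∈ G.nR {A, B} c, (2 - (G.m {A, B} x c : ℤ)) =
      (if s ∈ G.nb c then 1 else 0) + (if y ∈ G.nb c then 1 else 0) := by
    unfold nR
    rw [inter_comm, ← filter_mem_eq_inter, sum_filter, h.sum, hS, hY, sum_singleton, sum_singleton]
    have h2 : ∑ x ∈ G.N A ∩ G.N B, (if x ∈ G.nb c then (2 - (G.m {A, B} x c : ℤ)) else 0) = 0 := by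
      apply sum_eq_zero
      intro x hx
      have h3 : G.m {A, B} x c = 2 := by
        unfold m
        rw [St1.IC hx, hI, inter_self, card_pair h.ne]
      rw [h3]
      norm_num
    have h4 : G.m {A, B} s c = 1 := by
      unfold m
      rw [hIs, hI, singleton_inter_of_mem (mem_insert_self _ _), card_singleton]
    have h5 : G.m {A, B} y c = 1 := by
      unfold m
      rw [hIy, hI, singleton_inter_of_mem (by simp), card_singleton]
    rw [h2, h4, h5]
    norm_num
  unfold D28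
  rw [h1, hI, card_pair h.ne]
  split_ifs <;> push_cast <;> ring

/-- the value of a vertex in both neighbourhoods -/
noncomputable def val28 (G : CG V) (q : V → V → Prop) (A B : Finset V) (s y c : V) : ℤ :=
  (if s ∈ G.nb c then G.c3 q s + G.c3 q c else 0) +
    (if y ∈ G.nb c then G.c3 q y + G.c3 q c else 0) + G.F28 {A, B} c

theorem St1.total28 (hq : G.QS q) (h : G.St1 A B) (hS : G.N A \ G.N B = {s})
    (hY : G.N B \ G.N A = {y}) :
    ∑ z ∈ R {A, B}, G.ch3 q {A, B} z = -4 - G.c3 q s - G.c3 q y + G.F28 {A, B} s +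
      G.F28 {A, B} y + ∑ c ∈ G.N A ∩ G.N B, G.val28 q A B s y c := by
  rw [sum_ch3_28, h.sum, h.sum, hS, hY, sum_singleton, sum_singleton, sum_singleton,
    sum_singleton, h.Ds28 hq hS hY, sum_congr rfl fun c hc => h.Dc28 hS hY hc, sum_add_distrib]
  have h1 : G.D28 q {A, B} y = -2 - G.c3 q y + ∑ c ∈ G.nb y ∩ (G.N A ∩ G.N B), G.c3 q y := by
    have h2 := h.symm.Ds28 hq hY hS
    rw [pair_comm, inter_comm (G.N B)] at h2
    exact h2
  have h2 : ∀ (u : V) (f : V → ℤ), ∑ c ∈ G.N A ∩ G.N B, (if u ∈ G.nb c then f c else 0) =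
      ∑ c ∈ G.nb u ∩ (G.N A ∩ G.N B), f c := by
    intro u f
    rw [← sum_filter]
    apply sum_congr _ fun _ _ => rfl
    ext c
    constructor
    · intro h3
      rw [mem_filter] at h3
      exact mem_inter.2 ⟨G.sym _ _ h3.2, h3.1⟩
    · intro h3
      obtain ⟨h4, h5⟩ := mem_inter.1 h3
      exact mem_filter.2 ⟨h5, G.sym _ _ h4⟩
  unfold val28
  rw [h1, sum_add_distrib, sum_add_distrib, h2, h2, h2, h2, sum_add_distrib, sum_add_distrib]
  ring

/-! ### the flags -/

theorem F28_C (hne : A ≠ B) {c : V} (hc : c ∈ G.N A ∩ G.N B) :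
    (∃ u v : ℤ, 0 ≤ u ∧ 0 ≤ v ∧ (G.FL A c → u = 2) ∧ (G.FL B c → v = 2) ∧
      ∃ u' v' : ℤ, (G.FL (G.Co A) c → u' = 2) ∧ (¬ G.FL (G.Co A) c → u' = 0) ∧
        (G.FL (G.Co B) c → v' = 2) ∧ (¬ G.FL (G.Co B) c → v' = 0) ∧
        G.F28 {A, B} c = u + v - u' - v') := by
  classical
  refine ⟨if G.FL A c then 2 else 0, if G.FL B c then 2 else 0, by split_ifs <;> norm_num,
    by split_ifs <;> norm_num, fun h => if_pos h, fun h => if_pos h,
    if G.FL (G.Co A) c then 2 else 0, if G.FL (G.Co B) c then 2 else 0, fun h => if_pos h,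
    fun h => if_neg h, fun h => if_pos h, fun h => if_neg h, ?_⟩
  unfold F28
  rw [St1.IC hc]
  have h1 : ∀ P : Finset V → Prop, ((({A, B} : Finset (Finset V)).filter fun S => P S).card : ℤ) =
      (if P A then 1 else 0) + (if P B then 1 else 0) := by
    intro P
    rw [card_filter, sum_pair hne]
    push_cast
    rfl
  have h2 := h1 fun S => G.FL S c
  have h3 := h1 fun S => G.FL (G.Co S) c
  have h2' : (((({A, B} : Finset (Finset V)).filter fun S => G.FL S c).card : ℕ) : ℤ) =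
      (if G.FL A c then 1 else 0) + (if G.FL B c then 1 else 0) := by
    convert h2
  have h3' : (((({A, B} : Finset (Finset V)).filter fun S => G.FL (G.Co S) c).card : ℕ) : ℤ) =
      (if G.FL (G.Co A) c then 1 else 0) + (if G.FL (G.Co B) c then 1 else 0) := by
    convert h3
  rw [h2', h3']
  split_ifs <;> norm_num

/-- the neighbours of a vertex of `C` in `Co A` -/
theorem St1.nbCo28 (h : G.St1 A B) (hY : G.N B \ G.N A = {y}) {c : V} (hyc : y ∉ G.nb c) :
    G.nb c ∩ G.Co A = G.nb c ∩ B := by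
  ext u
  rw [mem_inter, mem_inter, mem_Co1]
  constructor
  · rintro ⟨h1, h2, h3⟩
    refine ⟨h1, ?_⟩
    by_contra h4
    rcases h.cases h2 h4 with h5 | h5 | h5
    · exact h3 (mem_sdiff.1 h5).1
    · rw [hY, mem_singleton] at h5
      subst h5
      exact hyc h1
    · exact h3 (mem_inter.1 h5).1
  · rintro ⟨h1, h2⟩
    have h3 := h.reg.dis A (by simp) B (by simp) h.ne
    exact ⟨h1, disjoint_right.1 h3.1 h2, disjoint_right.1 h3.2 h2⟩

/-- a vertex of `C` with the flag `Co A` -/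
theorem St1.flag28 (h : G.St1 A B) (hS : G.N A \ G.N B = {s}) (hY : G.N B \ G.N A = {y})
    {c : V} (hcA : c ∈ G.N A) (hcB : c ∈ G.N B) (hf : G.FL (G.Co A) c) :
    G.Low c ∧ s ∉ G.nb c ∧ (∃ a b, G.HL a b c ∧ G.nb c ∩ G.N A = {a}) ∧
      (y ∉ G.nb c → G.FL B c) := by
  have hs : s ∈ G.N A \ G.N B := by rw [hS]; exact mem_singleton_self s
  rw [mem_sdiff] at hs
  obtain ⟨hsA, hsB⟩ := h.NA hs.1
  have hNA := (G.stCo_37 A (h.reg.frag A (by simp))).2.1
  obtain ⟨hl, -, hd, a, b, hab, ha, hb, hna⟩ := hf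
  rw [hNA] at ha hb hna
  have hac : a ∈ G.nb c := by
    have h1 : a ∈ G.nb c ∩ G.N A := by rw [hna]; exact mem_singleton_self a
    exact (mem_inter.1 h1).1
  -- a vertex of `N A` different from `s` is in `C`
  have hC : ∀ v ∈ G.N A, v ≠ s → v ∈ G.N B := by
    intro v hv hvs
    by_contra h1
    have h2 : v ∈ G.N A \ G.N B := mem_sdiff.2 ⟨hv, h1⟩
    rw [hS, mem_singleton] at h2
    exact hvs h2
  -- `s` is far from `B`
  have key : ∀ u ∈ B, u ∈ G.cl s → False := by
    intro u hu h1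
    rcases mem_clT76.1 h1 with h2 | h2
    · subst h2
      exact hsB hu
    · exact hs.2 (mem_N1.2 ⟨hsB, u, hu, G.sym _ _ h2⟩)
  have has : a ≠ s := by
    rintro rfl
    have h1 : b ∈ G.N B := hC b hb (fun h2 => by
      subst h2
      exact G.irr _ (HL_b76 hab))
    obtain ⟨-, u, hu, hbu⟩ := mem_N1.1 h1
    refine key u hu ?_
    rw [hab.2.2.2.2]
    exact mem_insert_of_mem (mem_clT76.2 (Or.inr (G.sym _ _ hbu)))
  have haB := hC a ha has
  have hbs : b ≠ s := by
    rintro rfl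
    obtain ⟨-, u, hu, hau⟩ := mem_N1.1 haB
    have h1 : u ∈ G.cl a := mem_clT76.2 (Or.inr (G.sym _ _ hau))
    rw [hab.2.2.2.2, mem_insert] at h1
    rcases h1 with h1 | h1
    · subst h1
      exact (h.NA hcA).2 hu
    · exact key u hu h1
  have hbB := hC b hb hbs
  have hsc : s ∉ G.nb c := by
    intro h1
    have h2 : s ∈ G.nb c ∩ G.N A := mem_inter.2 ⟨h1, hs.1⟩
    rw [hna, mem_singleton] at h2
    exact has h2.symm
  refine ⟨hl, hsc, ⟨a, b, hab, hna⟩, fun hyc => ⟨hl, hcB, ?_, a, b, hab, haB, hbB, ?_⟩⟩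
  · have h1 := h.nbCo28 hY hyc
    unfold d at hd ⊢
    rw [← h1]
    exact hd
  · ext v
    rw [mem_inter, mem_singleton]
    constructor
    · rintro ⟨h1, h2⟩
      by_cases h3 : v ∈ G.N A
      · have h4 : v ∈ G.nb c ∩ G.N A := mem_inter.2 ⟨h1, h3⟩
        rwa [hna, mem_singleton] at h4
      · have h4 : v ∈ G.N B \ G.N A := mem_sdiff.2 ⟨h2, h3⟩
        rw [hY, mem_singleton] at h4
        subst h4
        exact absurd h1 hyc
    · rintro rfl
      exact ⟨hac, haB⟩

/-- `s` has no negative flag -/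
theorem St1.Fs28 (h : G.St1 A B) (hS : G.N A \ G.N B = {s}) (hY : G.N B \ G.N A = {y}) :
    0 ≤ G.F28 {A, B} s ∧ (G.FL A s → G.F28 {A, B} s = 2) := by
  classical
  have hs : s ∈ G.N A \ G.N B := by rw [hS]; exact mem_singleton_self s
  have hI := St1.IA hs
  rw [mem_sdiff] at hs
  obtain ⟨hsA, hsB⟩ := h.NA hs.1
  have hnf : ¬ G.FL (G.Co A) s := by
    rintro ⟨-, -, hd, -⟩
    have h1 : G.nb s ∩ G.Co A ⊆ {y} := by
      intro u hu
      rw [mem_inter, mem_Co1] at hu
      have huB : u ∉ B := fun h2 => hs.2 (mem_N1.2 ⟨hsB, u, h2, G.sym _ _ hu.1⟩)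
      rcases h.cases hu.2.1 huB with h5 | h5 | h5
      · exact absurd (mem_sdiff.1 h5).1 hu.2.2
      · rwa [hY] at h5
      · exact absurd (mem_inter.1 h5).1 hu.2.2
    have h2 := card_le_card h1
    rw [card_singleton] at h2
    unfold d at hd
    omega
  have h1 : ((({A} : Finset (Finset V)).filter fun S => G.FL (G.Co S) s).card : ℤ) = 0 := by
    rw [filter_singleton, if_neg hnf]
    rfl
  unfold F28
  rw [hI]
  constructor
  · have h2 : ((({A} : Finset (Finset V)).filter fun S => G.FL (G.Co S) s).card : ℤ) = 0 := by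
      convert h1
    rw [h2, mul_zero, sub_zero]
    exact mul_nonneg (by norm_num) (Int.natCast_nonneg _)
  · intro h3
    have h2 : ((({A} : Finset (Finset V)).filter fun S => G.FL (G.Co S) s).card : ℤ) = 0 := by
      convert h1
    have h4 : ((({A} : Finset (Finset V)).filter fun S => G.FL S s).card : ℤ) = 1 := by
      rw [filter_singleton, if_pos h3]
      rfl
    rw [h2, h4]
    norm_num

/-! ### the values -/

/-- the symmetric form of `flag28` -/
theorem St1.flag28' (h : G.St1 A B) (hS : G.N A \ G.N B = {s}) (hY : G.N B \ G.N A = {y})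
    {c : V} (hcA : c ∈ G.N A) (hcB : c ∈ G.N B) (hf : G.FL (G.Co B) c) :
    G.Low c ∧ y ∉ G.nb c ∧ (∃ a b, G.HL a b c ∧ G.nb c ∩ G.N B = {a}) ∧
      (s ∉ G.nb c → G.FL A c) := h.symm.flag28 hY hS hcB hcA hf

/-- without negative flags -/
theorem St1.val_ge28 (h : G.St1 A B) {c : V} (hc : c ∈ G.N A ∩ G.N B)
    (h1 : ¬ G.FL (G.Co A) c) (h2 : ¬ G.FL (G.Co B) c) :
    (if s ∈ G.nb c then G.c3 q s + G.c3 q c else 0) +
      (if y ∈ G.nb c then G.c3 q y + G.c3 q c else 0) ≤ G.val28 q A B s y c := by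
  obtain ⟨u, v, hu, hv, -, -, u', v', -, h3, -, h4, h5⟩ := F28_C (G := G) h.ne hc
  unfold val28
  rw [h5, h3 h1, h4 h2]
  linarith

theorem St1.val_nonneg28 (h : G.St1 A B) (hS : G.N A \ G.N B = {s}) (hY : G.N B \ G.N A = {y})
    {c : V} (hc : c ∈ G.N A ∩ G.N B) : 0 ≤ G.val28 q A B s y c := by
  obtain ⟨hcA, hcB⟩ := mem_inter.1 hc
  have n1 := c3_nonneg28 (G := G) (q := q) s
  have n2 := c3_nonneg28 (G := G) (q := q) y
  have n3 := c3_nonneg28 (G := G) (q := q) c
  have p1 : 0 ≤ (if s ∈ G.nb c then G.c3 q s + G.c3 q c else 0) := by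
    split_ifs <;> linarith
  have p2 : 0 ≤ (if y ∈ G.nb c then G.c3 q y + G.c3 q c else 0) := by
    split_ifs <;> linarith
  obtain ⟨u, v, hu, hv, hu1, hv1, u', v', h3, h3', h4, h4', h5⟩ := F28_C (G := G) h.ne hc
  by_cases f1 : G.FL (G.Co A) c
  · obtain ⟨hl, hsc, -, hB⟩ := h.flag28 hS hY hcA hcB f1
    have hc2 : G.c3 q c = 2 := c3_low28 hl
    by_cases f2 : G.FL (G.Co B) c
    · obtain ⟨-, hyc, -, hA⟩ := h.flag28' hS hY hcA hcB f2
      unfold val28
      rw [h5, h3 f1, h4 f2, hu1 (hA hsc), hv1 (hB hyc)]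
      linarith
    · unfold val28
      rw [h5, h3 f1, h4' f2]
      by_cases hyc : y ∈ G.nb c
      · rw [if_pos hyc]
        linarith
      · rw [hv1 (hB hyc)]
        linarith
  · by_cases f2 : G.FL (G.Co B) c
    · obtain ⟨hl, hyc, -, hA⟩ := h.flag28' hS hY hcA hcB f2
      have hc2 : G.c3 q c = 2 := c3_low28 hl
      unfold val28
      rw [h5, h3' f1, h4 f2]
      by_cases hsc : s ∈ G.nb c
      · rw [if_pos hsc]
        linarith
      · rw [hu1 (hA hsc)]
        linarith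
    · unfold val28
      rw [h5, h3' f1, h4' f2]
      linarith

/-- a neighbour of the low vertex `y` gives two -/
theorem St1.val_two28 (h : G.St1 A B) (hS : G.N A \ G.N B = {s}) (hY : G.N B \ G.N A = {y})
    {c : V} (hc : c ∈ G.N A ∩ G.N B) (hyl : G.Low y) (hyc : y ∈ G.nb c) :
    2 ≤ G.val28 q A B s y c := by
  obtain ⟨hcA, hcB⟩ := mem_inter.1 hc
  have n1 := c3_nonneg28 (G := G) (q := q) s
  have n2 : G.c3 q y = 2 := c3_low28 hyl
  have n3 := c3_nonneg28 (G := G) (q := q) c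
  have p1 : 0 ≤ (if s ∈ G.nb c then G.c3 q s + G.c3 q c else 0) := by
    split_ifs <;> linarith
  obtain ⟨u, v, hu, hv, hu1, hv1, u', v', h3, h3', h4, h4', h5⟩ := F28_C (G := G) h.ne hc
  by_cases f2 : G.FL (G.Co B) c
  · exact absurd hyc (h.flag28' hS hY hcA hcB f2).2.1
  by_cases f1 : G.FL (G.Co A) c
  · obtain ⟨hl, -, -, -⟩ := h.flag28 hS hY hcA hcB f1
    have hc2 : G.c3 q c = 2 := c3_low28 hl
    unfold val28
    rw [h5, h3 f1, h4' f2, if_pos hyc]
    linarith
  · unfold val28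
    rw [h5, h3' f1, h4' f2, if_pos hyc]
    linarith

/-- a vertex of `C` adjacent to both is not flagged -/
theorem St1.both28 (h : G.St1 A B) (hS : G.N A \ G.N B = {s}) (hY : G.N B \ G.N A = {y})
    {c : V} (hc : c ∈ G.N A ∩ G.N B) (hsc : s ∈ G.nb c) (hyc : y ∈ G.nb c) :
    G.c3 q s + G.c3 q c + (G.c3 q y + G.c3 q c) ≤ G.val28 q A B s y c := by
  obtain ⟨hcA, hcB⟩ := mem_inter.1 hc
  have h1 := h.val_ge28 (q := q) (s := s) (y := y) hc
    (fun f => (h.flag28 hS hY hcA hcB f).2.1 hsc) (fun f => (h.flag28' hS hY hcA hcB f).2.1 hyc)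
  rwa [if_pos hsc, if_pos hyc] at h1

/-! ### the covers of `y s` -/

theorem St1.inC28 (h : G.St1 A B) (hS : G.N A \ G.N B = {s}) (hY : G.N B \ G.N A = {y})
    {w : V} (h1 : y ∈ G.nb w) (h2 : s ∈ G.nb w) : w ∈ G.N A ∩ G.N B := by
  have hs : s ∈ G.N A \ G.N B := by rw [hS]; exact mem_singleton_self s
  have hy : y ∈ G.N B \ G.N A := by rw [hY]; exact mem_singleton_self y
  rw [mem_sdiff] at hs hy
  have h3 : w ∉ A := fun h3 => hy.2 (mem_N1.2 ⟨(h.symm.NA hy.1).2, w, h3, h1⟩)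
  have h4 : w ∉ B := fun h4 => hs.2 (mem_N1.2 ⟨(h.NA hs.1).2, w, h4, h2⟩)
  rcases h.cases h3 h4 with h5 | h5 | h5
  · rw [hS, mem_singleton] at h5
    subst h5
    exact absurd h2 (G.irr _)
  · rw [hY, mem_singleton] at h5
    subst h5
    exact absurd h1 (G.irr _)
  · exact h5

theorem St1.hl28 (h : G.St1 A B) (hS : G.N A \ G.N B = {s}) (hY : G.N B \ G.N A = {y})
    {a b : V} (hl : G.HL a b y) (hsb : s ∈ G.nb b) (hsa : s ≠ a) :
    a ∈ G.N A ∩ G.N B ∧ b ∈ G.N A ∩ G.N B ∧ y ∈ G.nb a ∧ s ∈ G.nb a := by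
  have hs : s ∈ G.N A \ G.N B := by rw [hS]; exact mem_singleton_self s
  have hy : y ∈ G.N B \ G.N A := by rw [hY]; exact mem_singleton_self y
  rw [mem_sdiff] at hs hy
  obtain ⟨hsA, hsB⟩ := h.NA hs.1
  obtain ⟨hyB, hyA⟩ := h.symm.NA hy.1
  have hya := HL_t76 hl
  have hsa' := HL_sub76 hl hsb hsa
  have haC := h.inC28 hS hY hya hsa'
  refine ⟨haC, ?_, hya, hsa'⟩
  have hba := HL_b76 hl
  have h1 : b ∉ A := by
    intro h1
    rw [mem_inter] at haC
    obtain ⟨-, u, hu, hau⟩ := mem_N1.1 haC.2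
    have h3 := h.reg.dis A (by simp) B (by simp) h.ne
    have huA : u ∉ A := disjoint_right.1 h3.1 hu
    have huN : u ∉ G.N A := disjoint_right.1 h3.2 hu
    have hut : u ≠ y := by
      rintro rfl
      exact hyB hu
    rcases HL_sup76 hl (G.sym _ _ hau) hut with h2 | h2
    · subst h2
      exact huA h1
    · rcases nb_B1 h1 h2 with h4 | h4
      · exact huA h4
      · exact huN h4
  have h2 : b ∉ B := fun h1 => hs.2 (mem_N1.2 ⟨hsB, b, h1, hsb⟩)
  rcases h.cases h1 h2 with h3 | h3 | h3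
  · rw [hS, mem_singleton] at h3
    subst h3
    exact absurd hsb (G.irr _)
  · rw [hY, mem_singleton] at h3
    exact absurd h3.symm (HL_bt76 hl).2
  · exact h3

theorem St1.ll28 (h : G.St1 A B) (hS : G.N A \ G.N B = {s}) (hY : G.N B \ G.N A = {y})
    {a b : V} (hl : G.LL a b y s) : a ∈ G.N A ∩ G.N B := by
  have hs : s ∈ G.N A \ G.N B := by rw [hS]; exact mem_singleton_self s
  have hy : y ∈ G.N B \ G.N A := by rw [hY]; exact mem_singleton_self y
  rw [mem_sdiff] at hs hy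
  obtain ⟨hsA, hsB⟩ := h.NA hs.1
  obtain ⟨hyB, hyA⟩ := h.symm.NA hy.1
  have hya := LL_t76 hl
  have hsb := LL_u76 hl
  have hba := LL_ab76 hl
  have haA : a ∉ A := fun h1 => hy.2 (mem_N1.2 ⟨hyA, a, h1, hya⟩)
  have hbB : b ∉ B := fun h1 => hs.2 (mem_N1.2 ⟨hsB, b, h1, hsb⟩)
  have haB : a ∉ B := by
    intro haB
    have hbN := (nb_B1 (G := G) haB hba).resolve_left hbB
    have hbA : b ∉ A := (h.symm.NA hbN).2
    have hbC : b ∈ G.N A ∩ G.N B := by
      rcases h.cases hbA hbB with h8 | h8 | h8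
      · exact absurd hbN (mem_sdiff.1 h8).2
      · rw [hY, mem_singleton] at h8
        exact absurd h8.symm (LL_tb76 hl).2
      · exact h8
    rw [mem_inter] at hbC
    obtain ⟨-, u, hu, hbu⟩ := mem_N1.1 hbC.1
    have h9 := h.reg.dis B (by simp) A (by simp) h.ne.symm
    have huB : u ∉ B := disjoint_right.1 h9.1 hu
    have huN : u ∉ G.N B := disjoint_right.1 h9.2 hu
    have hus : u ≠ s := by
      rintro rfl
      exact hsA hu
    rcases LL_from76 hl (G.sym _ _ hbu) hus with h8 | h8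
    · subst h8
      exact huB haB
    · rcases nb_B1 haB h8 with h9 | h9
      · exact huB h9
      · exact huN h9
  rcases h.cases haA haB with h8 | h8 | h8
  · rw [hS, mem_singleton] at h8
    exact absurd h8.symm (LL_ua76 hl).2
  · rw [hY, mem_singleton] at h8
    subst h8
    exact absurd hya (G.irr _)
  · exact h8

/-- two vertices of `C` -/
theorem St1.two28 (h : G.St1 A B) (hS : G.N A \ G.N B = {s}) (hY : G.N B \ G.N A = {y})
    {a b : V} (ha : a ∈ G.N A ∩ G.N B) (hb : b ∈ G.N A ∩ G.N B) (hab : a ≠ b) :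
    G.val28 q A B s y a + G.val28 q A B s y b ≤
      ∑ c ∈ G.N A ∩ G.N B, G.val28 q A B s y c := by
  have hsub : ({a, b} : Finset V) ⊆ G.N A ∩ G.N B := by
    intro x hx
    rw [mem_insert, mem_singleton] at hx
    rcases hx with rfl | rfl
    · exact ha
    · exact hb
  have h4 := sum_le_sum_of_subset_of_nonneg hsub fun c hc _ => h.val_nonneg28 (q := q) hS hY hc
  rwa [sum_pair hab] at h4

/-- the cover by `HL a b y` -/
theorem St1.caseHL28 (hq : G.QS q) (h : G.St1 A B) (hsat : G.Sat) (n9 : 9 ≤ Fintype.card V)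
    (hS : G.N A \ G.N B = {s}) (hY : G.N B \ G.N A = {y}) {a b : V} (hl : G.HL a b y)
    (hsb : s ∈ G.nb b) (hsa : s ≠ a) :
    4 + G.c3 q s + G.c3 q y ≤ G.F28 {A, B} y + ∑ c ∈ G.N A ∩ G.N B, G.val28 q A B s y c := by
  obtain ⟨haC, hbC, hya, hsa'⟩ := h.hl28 hS hY hl hsb hsa
  have hyl : G.Low y := hsat _ _ _ hl
  have cy : G.c3 q y = 2 := c3_low28 hyl
  have na := c3_nonneg28 (G := G) (q := q) a
  have hba := HL_b76 hl
  have hyb := (HL_bt76 hl).1
  have hab : a ≠ b := by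
    rintro rfl
    exact G.irr _ hba
  have va := h.both28 (q := q) hS hY haC hsa' hya
  have vb : G.c3 q s + 2 ≤ G.val28 q A B s y b := by
    obtain ⟨hbA, hbB⟩ := mem_inter.1 hbC
    have h1 := h.val_ge28 (q := q) (s := s) (y := y) hbC
      (fun f => (h.flag28 hS hY hbA hbB f).2.1 hsb) (fun f => by
        obtain ⟨-, -, ⟨a', b', h2, h3⟩, -⟩ := h.flag28' hS hY hbA hbB f
        have h4 : a ∈ G.nb b ∩ G.N B := mem_inter.2 ⟨G.sym _ _ hba, (mem_inter.1 haC).2⟩
        rw [h3, mem_singleton] at h4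
        subst h4
        exact (stTwHL_5 G).nomut n9 _ _ _ _ _ h2 hl rfl)
    rw [if_pos hsb, if_neg hyb, c3_low28 hl.2.1, add_zero] at h1
    exact h1
  have hFy : 0 ≤ G.F28 {A, B} y ∧ (G.FL B y → G.F28 {A, B} y = 2) := by
    have h1 := h.symm.Fs28 hY hS
    rwa [pair_comm] at h1
  by_cases hsl : G.Low s
  · have cs : G.c3 q s = 2 := c3_low28 hsl
    have h1 := h.two28 (q := q) hS hY haC hbC hab
    linarith [hFy.1]
  have cs : G.c3 q s = 0 := c3_hub28 hsl fun h1 => h.notTw hS hY (q_isTw76 hq h1)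
  by_cases hex : ∃ c ∈ G.N A ∩ G.N B, y ∈ G.nb c ∧ c ≠ a
  · obtain ⟨c, hc, hyc, hca⟩ := hex
    have hcb : c ≠ b := by
      rintro rfl
      exact hyb hyc
    have vc := h.val_two28 (q := q) hS hY hc hyl hyc
    have hsub : ({c, a, b} : Finset V) ⊆ G.N A ∩ G.N B := by
      intro x hx
      rw [mem_insert, mem_insert, mem_singleton] at hx
      rcases hx with rfl | rfl | rfl
      · exact hc
      · exact haC
      · exact hbC
    have h4 := sum_le_sum_of_subset_of_nonneg hsub fun c hc _ => h.val_nonneg28 (q := q) hS hY hc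
    rw [sum_insert (by simp [hca, hcb]), sum_pair hab] at h4
    linarith [hFy.1]
  · have hno : ∀ c ∈ G.N A ∩ G.N B, y ∈ G.nb c → c = a := by
      intro c hc hyc
      by_contra h1
      exact hex ⟨c, hc, hyc, h1⟩
    have hy : y ∈ G.N B \ G.N A := by rw [hY]; exact mem_singleton_self y
    have hs : s ∈ G.N A \ G.N B := by rw [hS]; exact mem_singleton_self s
    rw [mem_sdiff] at hy hs
    obtain ⟨hyB, hyA⟩ := h.symm.NA hy.1
    obtain ⟨hsA, hsB⟩ := h.NA hs.1
    have hys := h.adj hS hY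
    have hfl : G.FL B y := by
      refine ⟨hyl, hy.1, ?_, a, b, hl, (mem_inter.1 haC).2, (mem_inter.1 hbC).2, ?_⟩
      · have h1 : G.nb y = insert s (insert a (G.nb y ∩ B)) := by
          ext u
          rw [mem_insert, mem_insert, mem_inter]
          constructor
          · intro hu
            have huA : u ∉ A := fun h2 => hy.2 (mem_N1.2 ⟨hyA, u, h2, G.sym _ _ hu⟩)
            by_cases huB : u ∈ B
            · exact Or.inr (Or.inr ⟨hu, huB⟩)
            rcases h.cases huA huB with h5 | h5 | h5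
            · rw [hS, mem_singleton] at h5
              exact Or.inl h5
            · rw [hY, mem_singleton] at h5
              subst h5
              exact absurd hu (G.irr _)
            · exact Or.inr (Or.inl (hno u h5 (G.sym _ _ hu)))
          · rintro (rfl | rfl | h2)
            · exact G.sym _ _ hys
            · exact G.sym _ _ hya
            · exact h2.1
        have h2 : a ∉ G.nb y ∩ B := fun h2 =>
          (h.NA (mem_inter.1 haC).1).2 (mem_inter.1 h2).2
        have h3 : s ∉ insert a (G.nb y ∩ B) := by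
          rw [mem_insert, mem_inter]
          rintro (h3 | h3)
          · exact hsa h3
          · exact hsB h3.2
        have h4 : (G.nb y).card = 6 := hyl
        rw [h1, card_insert_of_notMem h3, card_insert_of_notMem h2] at h4
        unfold d
        omega
      · ext v
        rw [mem_inter, mem_singleton]
        constructor
        · rintro ⟨h1, h2⟩
          by_cases h3 : v ∈ G.N A
          · exact hno v (mem_inter.2 ⟨h3, h2⟩) (G.sym _ _ h1)
          · have h4 : v ∈ G.N B \ G.N A := mem_sdiff.2 ⟨h2, h3⟩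
            rw [hY, mem_singleton] at h4
            subst h4
            exact absurd h1 (G.irr _)
        · rintro rfl
          exact ⟨G.sym _ _ hya, (mem_inter.1 haC).2⟩
    have h5 := hFy.2 hfl
    have h1 := h.two28 (q := q) hS hY haC hbC hab
    linarith

/-- the cover by `LL a b y s` -/
theorem St1.caseLL28 (h : G.St1 A B) (hS : G.N A \ G.N B = {s}) (hY : G.N B \ G.N A = {y})
    {a b : V} (hl : G.LL a b y s) :
    4 + G.c3 q s + G.c3 q y ≤ ∑ c ∈ G.N A ∩ G.N B, G.val28 q A B s y c := by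
  have haC := h.ll28 hS hY hl
  have hbC : b ∈ G.N A ∩ G.N B := by
    have h1 := h.symm.ll28 hY hS (LL_symm76 hl)
    rwa [inter_comm] at h1
  obtain ⟨haA, haB⟩ := mem_inter.1 haC
  obtain ⟨hbA, hbB⟩ := mem_inter.1 hbC
  have hba := LL_ab76 hl
  have hya := LL_t76 hl
  have hsb := LL_u76 hl
  have hab : a ≠ b := by
    rintro rfl
    exact G.irr _ hba
  have va : G.c3 q y + 2 ≤ G.val28 q A B s y a := by
    have h1 := h.val_ge28 (q := q) (s := s) (y := y) haC (fun f => by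
        obtain ⟨-, -, ⟨a', b', h2, h3⟩, -⟩ := h.flag28 hS hY haA haB f
        have h4 : b ∈ G.nb a ∩ G.N A := mem_inter.2 ⟨hba, hbA⟩
        rw [h3, mem_singleton] at h4
        subst h4
        exact HL_not_low76 h2 hl.2.1) (fun f => (h.flag28' hS hY haA haB f).2.1 hya)
    rw [if_neg (LL_ua76 hl).1, if_pos hya, c3_low28 hl.1, zero_add] at h1
    exact h1
  have vb : G.c3 q s + 2 ≤ G.val28 q A B s y b := by
    have h1 := h.val_ge28 (q := q) (s := s) (y := y) hbC
      (fun f => (h.flag28 hS hY hbA hbB f).2.1 hsb) (fun f => by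
        obtain ⟨-, -, ⟨a', b', h2, h3⟩, -⟩ := h.flag28' hS hY hbA hbB f
        have h4 : a ∈ G.nb b ∩ G.N B := mem_inter.2 ⟨G.sym _ _ hba, haB⟩
        rw [h3, mem_singleton] at h4
        subst h4
        exact HL_not_low76 h2 hl.1)
    rw [if_pos hsb, if_neg (LL_tb76 hl).1, c3_low28 hl.2.1, add_zero] at h1
    exact h1
  have h1 := h.two28 (q := q) hS hY haC hbC hab
  linarith

end one

/-- T12 -/
theorem stTh1_28 (G : CG V) (q : V → V → Prop) (hsm : G.StSmall) : G.StTh1 q := by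
  intro hq A B hst hc hcov
  have h : G.St1 A B := ⟨hst.ne, hst.reg, hst.sub⟩
  obtain ⟨s, hS⟩ := card_eq_one.1 hc
  obtain ⟨y, hY⟩ := card_eq_one.1 (h.card_eq.symm.trans hc)
  have hs : s ∈ G.N A \ G.N B := by rw [hS]; exact mem_singleton_self s
  have hy : y ∈ G.N B \ G.N A := by rw [hY]; exact mem_singleton_self y
  have hys := h.adj hS hY
  have hne : y ≠ s := by
    rintro rfl
    exact G.irr _ hys
  have hFs := (h.Fs28 hS hY).1
  have hFy : 0 ≤ G.F28 {A, B} y := by
    have h1 := (h.symm.Fs28 hY hS).1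
    rwa [pair_comm] at h1
  rw [h.total28 hq hS hY]
  have hnn : ∀ c ∈ G.N A ∩ G.N B, 0 ≤ G.val28 q A B s y c := fun c hc => h.val_nonneg28 hS hY hc
  -- a low vertex adjacent to both
  have low : ∀ w, G.Low w → y ∈ G.nb w → s ∈ G.nb w →
      4 + G.c3 q s + G.c3 q y ≤ ∑ c ∈ G.N A ∩ G.N B, G.val28 q A B s y c := by
    intro w hw h1 h2
    have hwC := h.inC28 hS hY h1 h2
    have h3 := h.both28 (q := q) hS hY hwC h2 h1
    have h4 := single_le_sum hnn hwC
    rw [c3_low28 hw] at h3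
    linarith
  -- a chosen pair
  have pair : ∀ v w, q v w → y ∈ G.nb v → y ≠ w → s ∈ G.nb v → s ≠ w →
      4 + G.c3 q s + G.c3 q y ≤ ∑ c ∈ G.N A ∩ G.N B, G.val28 q A B s y c := by
    intro v w hvw h1 h2 h3 h4
    have h1' : y ∈ G.nb w := Tw_nb5 (hq.tw _ _ hvw) h1 h2
    have h3' : s ∈ G.nb w := Tw_nb5 (hq.tw _ _ hvw) h3 h4
    have hvC := h.inC28 hS hY h1 h3
    have hwC := h.inC28 hS hY h1' h3'
    have h5 := h.both28 (q := q) hS hY hvC h3 h1
    have h6 := h.both28 (q := q) hS hY hwC h3' h1'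
    rw [c3_q28 hq ⟨w, hvw⟩] at h5
    rw [c3_q28 hq ⟨v, hq.symm _ _ hvw⟩] at h6
    have h7 := h.two28 (q := q) hS hY hvC hwC (q_ne76 hq hvw)
    have h8 := c3_nonneg28 (G := G) (q := q) s
    have h9 := c3_nonneg28 (G := G) (q := q) y
    linarith
  obtain ⟨E, hE, hEc, hyE, hsE⟩ := hcov y hy s hs (G.sym _ _ hys)
  rcases hsm E hE hEc y s hyE hsE hne with h1 | h1 | h1 | h1 | h1
  · obtain ⟨w, -, h2, h3, h4⟩ := h1
    linarith [low w h2 h3 h4]
  · obtain ⟨v, -, w, -, h2, h3, h4, h5, h6⟩ := h1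
    by_cases h7 : q v w
    · linarith [pair v w h7 h3 h5 h4 h6]
    · rcases hq.cov v w h2 h7 y s h3 h5 h4 h6 (G.sym _ _ hys) with h8 | h8
      · obtain ⟨w', h9, h10, h11⟩ := h8
        linarith [low w' h9 h10 h11]
      · obtain ⟨v', w', h9, h10, h11, h12, h13⟩ := h8
        linarith [pair v' w' h9 h10 h11 h12 h13]
  · obtain ⟨a, -, b, -, h2, h3, h4⟩ := h1
    linarith [h.caseHL28 hq hst.sat hst.n9 hS hY h2 h3 h4]
  · obtain ⟨a, -, b, -, h2, h3, h4⟩ := h1
    have h5 := h.symm.caseHL28 (q := q) hq hst.sat hst.n9 hY hS h2 h3 h4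
    have h6 : ∑ c ∈ G.N B ∩ G.N A, G.val28 q B A y s c =
        ∑ c ∈ G.N A ∩ G.N B, G.val28 q A B s y c := by
      rw [inter_comm]
      refine sum_congr rfl fun c _ => ?_
      unfold val28
      rw [pair_comm B A]
      ring
    rw [h6, pair_comm B A] at h5
    linarith
  · obtain ⟨a, -, b, -, h2⟩ := h1
    linarith [h.caseLL28 (q := q) hS hY h2]

end CG

end Pool.Agent.Lib.MP_e95c01_co.N
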