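import Pool.Agent.Lib.MP_e95c01_co.U.Fin37
import Pool.Agent.Lib.MP_e95c01_co.T.Ident11
import Pool.Agent.Lib.MP_e95c01_co.T.StCh3_50
import Pool.Agent.Lib.MP_e95c01_co.T.StCov11
import Pool.Agent.Lib.MP_e95c01_co.T.StHub42
import Pool.Agent.Lib.MP_e95c01_co.T.StLow38
import Pool.Agent.Lib.MP_e95c01_co.T.StNd76
import Pool.Agent.Lib.MP_e95c01_co.T.StFg76
import Pool.Agent.Lib.MP_e95c01_co.T.StCapL3_12
import Pool.Agent.Lib.MP_e95c01_co.T.StCapH7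
import Pool.Agent.Lib.MP_e95c01_co.T.StGen3_12
import Pool.Agent.Lib.MP_e95c01_co.T.LfB11
import Pool.Agent.Lib.MP_e95c01_co.T.Th1_28
import Pool.Agent.Lib.MP_e95c01_co.T.StTh2_57
import Pool.Agent.Lib.MP_e95c01_co.T.StMn3_96
import Pool.Agent.Lib.MP_e95c01_co.T.StSt3_96
import Pool.Agent.Lib.MP_e95c01_co.T.StSa3_96
import Pool.Agent.Lib.MP_e95c01_co.T.F10_76
import Pool.Agent.Lib.MP_e95c01_co.T.F1_42
import Pool.Agent.Lib.MP_e95c01_co.T.F2_42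
import Pool.Agent.Lib.MP_e95c01_co.T.F3_33
import Pool.Agent.Lib.MP_e95c01_co.T.F4_42
import Pool.Agent.Lib.MP_e95c01_co.T.F5_30
import Pool.Agent.Lib.MP_e95c01_co.T.F6_12
import Pool.Agent.Lib.MP_e95c01_co.T.F7_28
import Pool.Agent.Lib.MP_e95c01_co.T.St11L50

/-!
# Vertices of degree 6 and pairs of twins: the theorem for `CG`
-/

namespace Pool.Agent.Lib.MP_e95c01_co.N

namespace CG

section

variable {V : Type} [Fintype V] [DecidableEq V] (G : CG V) (q : V → V → Prop)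

theorem stT3_all76 : G.StT3 q :=
  have hB := G.stBas_33 q
  have h4 := G.st11V0_42 q
  have h5 := G.st11Cnt_30 q
  G.stT3_76 q hB (G.st11Cov_42 q) (G.st11P_42 q) h4 (G.f6_12 q G.stTwHL_5 hB h4 h5)
    (G.stF7_28 q hB h5) (G.st11Q_76 q h4 h5) (G.st11L_50 q hB h5)

theorem stGen3_all76 : G.StGen3 q :=
  have hC := G.stCh3_50 q G.stTwHL_5
  have hH := G.stHub3_42 q
  have hL := G.stLow3_38 q G.stTwHL_5
  have hN := G.stNd3_76 q
  have hF := G.stFg3_76 q hC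
  G.stGen3_12 q hC hH hL hN hF (G.stCapL3_12 q G.stTwHL_5 hC hL hN) (stCapH3_7 hC hH hN hF)

theorem stMn3_all76 : G.StMn3 q :=
  have hC := G.stCh3_50 q G.stTwHL_5
  have hH := G.stHub3_42 q
  have hL := G.stLow3_38 q G.stTwHL_5
  have hN := G.stNd3_76 q
  have hlf := G.stLeaf_27 G.stSmall_76 G.stTwHL_5 G.stCovU_1 G.stIdentU_11 G.stPsumU_11
  G.stMn3_96 q (G.stStruct_53 G.stN6_37 G.stCo_37) G.stTwHL_5 G.stSmall_76 G.stCovU_1 (G.stCov3_11 q) (G.stId3_11 q)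
    (G.stPs3_11 q) (G.stGen3_all76 q) (G.stTh1_28 q G.stSmall_76) (G.stTh2_57 q)
    (G.stLf45_11 q hlf hC hH hL hN) (G.stLf6_11 q hlf hC hH hL hN) (G.stT3_all76 q)

theorem stSt3_all76 : G.StSt3 q :=
  G.stSt3_96 q (G.stMn3_all76 q) G.stSmall_76 G.stCovU_1 (G.stCov3_11 q) (G.stId3_11 q)
    (G.stPs3_11 q) (G.stTot3_11 q) (G.stCh3_50 q G.stTwHL_5) (G.stHub3_42 q)
    (G.stLow3_38 q G.stTwHL_5)

end

/-- the theorem for `CG` -/
theorem stFn3_all76 {V : Type} [Fintype V] [DecidableEq V] (G : CG V) (q : V → V → Prop) :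
    G.StFn3 q :=
  stFn3_96 (fun G q => G.stSt3_all76 q) (fun G q => G.stSa3_96 q) G q

end CG

end Pool.Agent.Lib.MP_e95c01_co.N
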