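import Pool.Agent.Lib.MP_e95c01_co.T.Ident11
import Pool.Agent.Lib.MP_e95c01_co.T.StCov11
import Pool.Agent.Lib.MP_e95c01_co.U.Leaf33
import Pool.Agent.Lib.MP_e95c01_co.U.Bridge76

/-!
# T10: leaves (first part): charges, needy vertices, good hubs
-/

namespace Pool.Agent.Lib.MP_e95c01_co.N

open Finset

variable {V : Type} [Fintype V] [DecidableEq V]

namespace CG

/-- the facts on a leaf that are used -/
structure Cx11 (G : CG V) (q : V → V → Prop) (F : Finset V) : Prop where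
  c : Lf33 G F
  hq : G.QS q
  hC : G.StCh3 q
  hH : G.StHub3 q
  hL : G.StLow3 q
  hN : G.StNd3 q

/-- needy low vertex -/
def Ny11 (G : CG V) (q : V → V → Prop) (F : Finset V) (z : V) : Prop :=
  z ∈ G.N F ∧ G.Low z ∧ G.d z F = 2 ∧
    2 * G.tl {G.Co F} z + G.tq q {G.Co F} z + 2 * G.tA {G.Co F} z = 2

/-- vertex of a chosen pair with two neighbours in `F` -/
def Nq11 (G : CG V) (q : V → V → Prop) (F : Finset V) (z : V) : Prop :=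
  z ∈ G.N F ∧ IsQ q z ∧ G.d z F = 2

open Classical in
/-- number of paying low neighbours that are not needy -/
noncomputable def gl11 (G : CG V) (q : V → V → Prop) (F : Finset V) (y : V) : ℕ :=
  ((G.nR {G.Co F} y).filter fun w => G.Low w ∧ ¬ G.Ny11 q F w ∧ ¬ ∃ b, G.HL y b w).card

open Classical in
/-- number of neighbours in chosen pairs that are not needy -/
noncomputable def gt11 (G : CG V) (q : V → V → Prop) (F : Finset V) (y : V) : ℕ :=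
  ((G.nR {G.Co F} y).filter fun w => IsQ q w ∧ ¬ G.Nq11 q F w).card

/-- good hubs -/
def Gd11 (G : CG V) (q : V → V → Prop) (F : Finset V) (y : V) : Prop :=
  y ∈ F ∧ G.HubQ q y ∧ 4 ≤ 2 * G.gl11 q F y + G.gt11 q F y

variable {G : CG V} {q : V → V → Prop} {F : Finset V}

namespace Cx11

theorem tor (k : Cx11 G q F) : G.Torso3 q {G.Co F} where
  reg := k.c.torso.reg
  big := k.c.torso.big
  n9 := k.c.n9
  sat := k.c.torso.sat
  cov := fun x hx z hz hzx hm => G.stCov3_11 q k.hq _ k.c.torso.reg x hx z hz hzx hm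
    (k.c.torso.cov x hx z hz hzx hm)

theorem chF_low (k : Cx11 G q F) {z : V} (hz : z ∈ F) (h : G.Low z) :
    0 ≤ G.ch3 q {G.Co F} z := by
  have hR := k.c.memR.2 (Or.inl hz)
  have h1 := ((k.hC k.hq k.c.n9 _ k.tor.reg k.tor.big z hR).1 h).1 (k.c.I0 hz)
  have h2 := ((k.hL k.hq _ k.tor z hR).1 h).1 (k.c.I0 hz)
  rw [h1]
  omega

theorem chF_q (k : Cx11 G q F) {z : V} (hz : z ∈ F) (h : IsQ q z) :
    0 ≤ G.ch3 q {G.Co F} z := by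
  have hR := k.c.memR.2 (Or.inl hz)
  have h1 := ((k.hC k.hq k.c.n9 _ k.tor.reg k.tor.big z hR).2.1 h).1 (k.c.I0 hz)
  have h2 := ((k.hL k.hq _ k.tor z hR).2.1 h).1 (k.c.I0 hz)
  rw [h1]
  omega

theorem chF_hub (k : Cx11 G q F) {z : V} (hz : z ∈ F) (h : G.HubQ q z) :
    G.ch3 q {G.Co F} z = 2 * (G.tp {G.Co F} z : ℤ) + (G.tq q {G.Co F} z : ℤ) - 4 ∧
      0 ≤ G.ch3 q {G.Co F} z := by
  have hR := k.c.memR.2 (Or.inl hz)
  have h1 := ((k.hC k.hq k.c.n9 _ k.tor.reg k.tor.big z hR).2.2 h).1 (k.c.I0 hz)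
  have h2 := (k.hH k.hq _ k.tor z hR h).1 (k.c.I0 hz)
  refine ⟨h1, ?_⟩
  rw [h1]
  omega

theorem co_d (k : Cx11 G q F) (z : V) : G.d z (G.Co (G.Co F)) = G.d z F := by
  rw [k.c.coCo]

theorem chT_low (k : Cx11 G q F) {z : V} (hz : z ∈ G.N F) (h : G.Low z) :
    2 * (G.d z F : ℤ) + 2 * (G.tl {G.Co F} z : ℤ) + (G.tq q {G.Co F} z : ℤ) +
        2 * (G.tA {G.Co F} z : ℤ) - 8 - 2 ≤ G.ch3 q {G.Co F} z ∧
      (¬ G.FL F z → 2 * (G.d z F : ℤ) + 2 * (G.tl {G.Co F} z : ℤ) + (G.tq q {G.Co F} z : ℤ) +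
        2 * (G.tA {G.Co F} z : ℤ) - 8 ≤ G.ch3 q {G.Co F} z) ∧
      2 ≤ 2 * G.tl {G.Co F} z + G.tq q {G.Co F} z + 2 * G.tA {G.Co F} z ∧
      Even (G.tq q {G.Co F} z) := by
  classical
  have hR := k.c.memR.2 (Or.inr hz)
  have h1 := ((k.hC k.hq k.c.n9 _ k.tor.reg k.tor.big z hR).1 h).2.1 _ (k.c.I1 hz)
  have h0 := k.hL k.hq _ k.tor z hR
  have h2 := (h0.1 h).2 _ (k.c.I1 hz)
  have h3 := k.c.exp1 hz
  rw [k.co_d] at h2
  rw [k.co_d, k.c.coCo] at h1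
  refine ⟨?_, ?_, h2 (by omega), h0.2.2⟩
  · rw [h1]
    split_ifs <;> omega
  · intro hf
    rw [h1, if_neg hf]
    split_ifs <;> omega

theorem chT_q (k : Cx11 G q F) {z : V} (hz : z ∈ G.N F) (h : IsQ q z) :
    G.ch3 q {G.Co F} z = (G.d z F : ℤ) + 2 * (G.tl {G.Co F} z : ℤ) +
        (G.tq q {G.Co F} z : ℤ) - 5 ∧
      2 ≤ 2 * G.tl {G.Co F} z + G.tq q {G.Co F} z := by
  have hR := k.c.memR.2 (Or.inr hz)
  have h1 := ((k.hC k.hq k.c.n9 _ k.tor.reg k.tor.big z hR).2.1 h).2.1 _ (k.c.I1 hz)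
  have h0 := k.hL k.hq _ k.tor z hR
  have h2 := (h0.2.1 h).2 _ (k.c.I1 hz)
  have h3 := k.c.exp1 hz
  rw [k.co_d] at h2 h1
  exact ⟨h1, h2 (by omega)⟩

theorem chT_hub (k : Cx11 G q F) {z : V} (hz : z ∈ G.N F) (h : G.HubQ q z) :
    0 ≤ G.ch3 q {G.Co F} z := by
  have hR := k.c.memR.2 (Or.inr hz)
  have h1 := ((k.hC k.hq k.c.n9 _ k.tor.reg k.tor.big z hR).2.2 h).2.1 _ (k.c.I1 hz)
  have h2 := (k.hH k.hq _ k.tor z hR h).2 _ (k.c.I1 hz)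
  have h3 := k.c.exp1 hz
  rw [k.co_d] at h2
  have h4 := h2 h3
  rw [h1]
  omega

/-- expansion of at most three vertices -/
theorem expZ (k : Cx11 G q F) {Z : Finset V} (hne : Z.Nonempty) (hs : Z ⊆ G.N F)
    (h3 : Z.card ≤ 3) : Z.card ≤ (G.N Z ∩ F).card ∧ ((G.N Z ∩ F).card = Z.card →
      G.Frag (F \ G.N Z) ∧ (F \ G.N Z).card ≤ 2 ∧
        G.N (F \ G.N Z) = (G.N F \ Z) ∪ (G.N Z ∩ F)) := by
  have h4 := k.c.leaf.four
  rcases k.c.st.exp F k.c.leaf Z hne hs with h | h | h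
  · rw [inter_eq_right.2 h]
    exact ⟨by omega, fun h5 => by omega⟩
  · exact ⟨h.le, fun h5 => by omega⟩
  · exact ⟨h.1.ge, fun _ => h.2⟩

/-- fragments of at most two vertices inside `F`: a hub of `N Z` has a neighbour that is low or in
a chosen pair -/
theorem twoP (k : Cx11 G q F) {Z : Finset V} (hne : Z.Nonempty) (hs : Z ⊆ G.N F)
    (h3 : Z.card ≤ 3) (he : (G.N Z ∩ F).card = Z.card) {y : V} (hy : y ∈ F) (hyZ : y ∈ G.N Z)
    (hyh : G.HubQ q y) : ∃ w ∈ G.nb y, (G.Low w ∨ IsQ q w) ∧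
      (w ∈ F ∨ (2 ≤ (F \ G.N Z).card ∧ ∀ x ∈ F \ G.N Z, x ∈ G.nb w)) := by
  obtain ⟨hfr, h2, hN⟩ := (k.expZ hne hs h3).2 he
  have hyE : y ∈ G.N (F \ G.N Z) := by
    rw [hN]
    exact mem_union_right _ (mem_inter.2 ⟨hyZ, hy⟩)
  obtain ⟨z0, hz0, hz0y⟩ : ∃ z0 ∈ G.N (F \ G.N Z), z0 ≠ y := by
    by_contra h
    push Not at h
    have h5 : G.N (F \ G.N Z) ⊆ {y} := fun u hu => mem_singleton.2 (h u hu)
    have h6 := card_le_card h5
    rw [hfr.2.1, card_singleton] at h6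
    omega
  rcases G.stSmall_76 _ hfr h2 y z0 hyE hz0 hz0y.symm with h | h | h | h | h
  · obtain ⟨w, hw, h5, h6, -⟩ := h
    exact ⟨w, G.sym _ _ h6, Or.inl h5, Or.inl (mem_sdiff.1 hw).1⟩
  · obtain ⟨v, hv, w, hw, ht, h5, -, h6, -⟩ := h
    by_cases hvq : IsQ q v
    · exact ⟨v, G.sym _ _ h5, Or.inr hvq, Or.inl (mem_sdiff.1 hv).1⟩
    have hvF := (mem_sdiff.1 hv).1
    have hvw : v ≠ w := ne_of_nb5 ht.1
    have hE : F \ G.N Z = {v, w} := by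
      symm
      apply eq_of_subset_of_card_le
      · intro x hx
        rw [mem_insert, mem_singleton] at hx
        rcases hx with rfl | rfl
        · exact hv
        · exact hw
      · rw [card_pair hvw]
        exact h2
    have hm : G.m {G.Co F} y v = 0 := m_empty5 (k.c.I0 hy)
    have hvn : v ∈ G.nR {G.Co F} y := mem_nR76.2 ⟨G.sym _ _ h5, k.c.memR.2 (Or.inl hvF)⟩
    have hlow : ∀ u, G.Low u → u ≠ w := by
      rintro u hu rfl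
      exact not_low33 ⟨v, ht.sym33⟩ hu
    have fin : ∀ u, v ∈ G.nb u → u ≠ w → 2 ≤ (F \ G.N Z).card ∧ ∀ x ∈ F \ G.N Z, x ∈ G.nb u := by
      intro u hu huw
      rw [hE, card_pair hvw]
      refine ⟨le_rfl, fun x hx => ?_⟩
      rw [mem_insert, mem_singleton] at hx
      rcases hx with rfl | rfl
      · exact hu
      · exact G.sym _ _ (Tw_nb5 ht (G.sym _ _ hu) huw)
    rcases cov3_76 k.hq k.tor (k.c.memR.2 (Or.inl hy)) hvn hm with h | h | h | h | h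
    · obtain ⟨u, hu, -, h7, h8⟩ := h
      exact ⟨u, (mem_nR76.1 hu).1, Or.inl h7, Or.inr (fin u h8 (hlow u h7))⟩
    · obtain ⟨v1, w1, hv1, -, h7, h8, -⟩ := h
      refine ⟨v1, (mem_nR76.1 hv1).1, Or.inr ⟨w1, h7⟩, Or.inr (fin v1 h8 ?_)⟩
      rintro rfl
      have h9 := k.c.th.uniq k.c.n9 _ _ _ (k.hq.tw _ _ h7) ht.sym33
      subst h9
      exact hvq ⟨v1, k.hq.symm _ _ h7⟩
    · obtain ⟨a, b, -, -, h7, -⟩ := h
      exact absurd h7 hyh.1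
    · obtain ⟨a, b, -, -, h7, -⟩ := h
      exact absurd h7 (not_low33 ⟨w, ht⟩)
    · obtain ⟨a, b, -, -, -, h7⟩ := h
      exact absurd ⟨w, ht⟩ (k.c.th.twLL _ _ _ _ h7).2
  · obtain ⟨a, -, b, -, h5, -⟩ := h
    exact absurd (k.c.leaf.sat _ _ _ h5) hyh.1
  · obtain ⟨a, -, b, hb, h5, h6, -⟩ := h
    exact ⟨b, G.sym _ _ h6, Or.inl h5.2.1, Or.inl (mem_sdiff.1 hb).1⟩
  · obtain ⟨a, ha, b, -, h5⟩ := h
    exact ⟨a, G.sym _ _ (LL_t76 h5), Or.inl h5.1, Or.inl (mem_sdiff.1 ha).1⟩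

theorem Ny_not (k : Cx11 G q F) {w : V} (h : w ∈ F ∨ 3 ≤ G.d w F) :
    ¬ G.Ny11 q F w ∧ ¬ G.Nq11 q F w := by
  constructor
  · rintro ⟨h1, -, h2, -⟩
    rcases h with h | h
    · exact k.c.ndisj h h1
    · omega
  · rintro ⟨h1, -, h2⟩
    rcases h with h | h
    · exact k.c.ndisj h h1
    · omega

theorem E_d (k : Cx11 G q F) {Z : Finset V} {y w : V} (hy : y ∈ F) (hyZ : y ∈ G.N Z)
    (hwy : w ∈ G.nb y) (h : 2 ≤ (F \ G.N Z).card ∧ ∀ x ∈ F \ G.N Z, x ∈ G.nb w) :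
    3 ≤ G.d w F := by
  have h1 : insert y (F \ G.N Z) ⊆ G.nb w ∩ F := by
    intro x hx
    rcases mem_insert.1 hx with rfl | hx
    · exact mem_inter.2 ⟨G.sym _ _ hwy, hy⟩
    · exact mem_inter.2 ⟨h.2 x hx, (mem_sdiff.1 hx).1⟩
  have h2 := card_le_card h1
  rw [card_insert_of_notMem (fun h3 => (mem_sdiff.1 h3).2 hyZ)] at h2
  unfold d
  omega

/-- the payer outside of `Z` -/
theorem payer (k : Cx11 G q F) {Z : Finset V} (hne : Z.Nonempty) (hs : Z ⊆ G.N F)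
    (h3 : Z.card ≤ 3) (he : (G.N Z ∩ F).card = Z.card) {y : V} (hy : y ∈ F) (hyZ : y ∈ G.N Z)
    (hyh : G.HubQ q y) : ∃ w ∈ G.nR {G.Co F} y, (G.Low w ∨ IsQ q w) ∧ w ∉ Z ∧
      ¬ G.Ny11 q F w ∧ ¬ G.Nq11 q F w := by
  obtain ⟨w, hw, hc, h⟩ := k.twoP hne hs h3 he hy hyZ hyh
  refine ⟨w, mem_nR76.2 ⟨hw, k.c.memR.2 (k.c.nbF hy hw)⟩, hc, ?_, k.Ny_not ?_⟩
  · intro hwZ
    rcases h with h | h
    · exact k.c.ndisj h (hs hwZ)
    · have h4 : (F \ G.N Z).Nonempty := by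
        rw [← card_pos]
        omega
      obtain ⟨x, hx⟩ := h4
      exact (mem_sdiff.1 hx).2 ((k.c.NZ hs (mem_sdiff.1 hx).1).2 ⟨w, hwZ, h.2 x hx⟩)
  · rcases h with h | h
    · exact Or.inl h
    · exact Or.inr (k.E_d hy hyZ hw h)

/-- two payers make a hub good -/
theorem good_of (k : Cx11 G q F) {y w1 w2 : V} (hy : y ∈ F) (hyh : G.HubQ q y)
    (h1 : w1 ∈ G.nR {G.Co F} y) (h2 : w2 ∈ G.nR {G.Co F} y) (c1 : G.Low w1 ∨ IsQ q w1)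
    (c2 : G.Low w2 ∨ IsQ q w2) (hne : w1 ≠ w2) (hnq : ¬ q w1 w2)
    (n1 : ¬ G.Ny11 q F w1 ∧ ¬ G.Nq11 q F w1) (n2 : ¬ G.Ny11 q F w2 ∧ ¬ G.Nq11 q F w2)
    (hp : ∀ w ∈ G.nb y, G.Low w → ¬ G.Ny11 q F w → ¬ ∃ b, G.HL y b w) : G.Gd11 q F y := by
  classical
  have hpair : ∀ w, w ∈ G.nR {G.Co F} y → IsQ q w → ¬ G.Nq11 q F w → ∃ w', q w w' ∧
      w' ∈ G.nR {G.Co F} y ∧ IsQ q w' ∧ ¬ G.Nq11 q F w' := by
    rintro w hw ⟨w', hw'⟩ hn
    have hyw : y ≠ w' := by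
      rintro rfl
      exact hyh.2 ⟨w, k.hq.symm _ _ hw'⟩
    refine ⟨w', hw', q_nR76 k.hq k.tor.reg hw hw' hyw, ⟨w, k.hq.symm _ _ hw'⟩, ?_⟩
    rintro ⟨e1, -, e3⟩
    have ht := k.hq.tw _ _ hw'
    have e4 := k.c.twT e1 ht.sym33
    refine hn ⟨e4, ⟨w', hw'⟩, ?_⟩
    rw [ht.d33 (fun h => k.c.ndisj h e4) (fun h => k.c.ndisj h e1)]
    exact e3
  refine ⟨hy, hyh, ?_⟩
  have inL : ∀ w, w ∈ G.nR {G.Co F} y → G.Low w → ¬ G.Ny11 q F w →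
      w ∈ (G.nR {G.Co F} y).filter fun w => G.Low w ∧ ¬ G.Ny11 q F w ∧ ¬ ∃ b, G.HL y b w :=
    fun w hw hl hn => mem_filter.2 ⟨hw, hl, hn, hp w (mem_nR76.1 hw).1 hl hn⟩
  have inQ : ∀ w, w ∈ G.nR {G.Co F} y → IsQ q w → ¬ G.Nq11 q F w →
      w ∈ (G.nR {G.Co F} y).filter fun w => IsQ q w ∧ ¬ G.Nq11 q F w :=
    fun w hw hl hn => mem_filter.2 ⟨hw, hl, hn⟩
  have one : ∀ w, w ∈ G.nR {G.Co F} y → G.Low w → ¬ G.Ny11 q F w → 1 ≤ G.gl11 q F y := by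
    intro w hw hl hn
    rw [gl11, Nat.succ_le_iff, card_pos]
    exact ⟨w, by convert inL w hw hl hn⟩
  have twoQ : ∀ w, w ∈ G.nR {G.Co F} y → IsQ q w → ¬ G.Nq11 q F w → 2 ≤ G.gt11 q F y := by
    intro w hw hl hn
    obtain ⟨w', e1, e2, e3, e4⟩ := hpair w hw hl hn
    rw [gt11]
    exact two_le5 (by convert inQ w hw hl hn) (by convert inQ w' e2 e3 e4) (q_ne76 k.hq e1)
  rcases c1 with c1 | c1 <;> rcases c2 with c2 | c2
  · have : 2 ≤ G.gl11 q F y := by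
      rw [gl11]
      exact two_le5 (by convert inL w1 h1 c1 n1.1) (by convert inL w2 h2 c2 n2.1) hne
    omega
  · have e1 := one w1 h1 c1 n1.1
    have e2 := twoQ w2 h2 c2 n2.2
    omega
  · have e1 := one w2 h2 c2 n2.1
    have e2 := twoQ w1 h1 c1 n1.2
    omega
  · obtain ⟨v1, e1, e2, e3, e4⟩ := hpair w1 h1 c1 n1.2
    obtain ⟨v2, f1, f2, f3, f4⟩ := hpair w2 h2 c2 n2.2
    have : 4 ≤ G.gt11 q F y := by
      rw [gt11]
      refine four_le5 (a := w1) (b := v1) (c := w2) (d := v2) (by convert inQ w1 h1 c1 n1.2)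
        (by convert inQ v1 e2 e3 e4) (by convert inQ w2 h2 c2 n2.2) (by convert inQ v2 f2 f3 f4)
        ?_ ?_ ?_ ?_ ?_ ?_
      · exact q_ne76 k.hq e1
      · exact hne
      · rintro rfl
        exact hnq (k.hq.symm _ _ f1)
      · rintro rfl
        exact hnq e1
      · rintro rfl
        exact hne (q_uniq76 k.hq k.c.n9 (k.hq.symm _ _ e1) (k.hq.symm _ _ f1))
      · exact q_ne76 k.hq f1
    omega

/-- a hub of `F` near `z` is paid by all other low neighbours -/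
theorem paysG (k : Cx11 G q F) {z y : V} (hzT : z ∈ G.N F) (hzy : z ∈ G.nb y)
    (hX : ∀ x ∈ G.nb z, x ∈ F → ¬ G.Low x) (hy : y ∈ F) {w : V} (hw : w ∈ G.nb y)
    (hwz : z ≠ w) : ¬ ∃ b, G.HL y b w := by
  rintro ⟨b, hb⟩
  have h1 := HL_b76 hb
  have h2 : b ∈ F := (k.c.hlF (Or.inl hy) (k.c.nbF hy h1) (k.c.nbF hy hw) hb).1 hy
  rcases HL_sup76 hb hzy hwz with h3 | h3
  · subst h3
    exact k.c.ndisj h2 hzT
  · exact hX b (G.sym _ _ h3) h2 hb.2.1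

end Cx11

end CG

end Pool.Agent.Lib.MP_e95c01_co.N
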