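import Pool.Agent.Lib.MP_e95c01_co.T.Aux76

/-!
# T8: capacity of hubs (helper7)
-/

namespace Pool.Agent.Lib.MP_e95c01_co.N

open Finset

variable {V : Type} [Fintype V] [DecidableEq V]

namespace CG

variable {G : CG V} {q : V → V → Prop} {Fa : Finset (Finset V)}

/-- a neighbour in the same single neighbourhood is in `R` -/
theorem memR7 {z y : V} {B : Finset V} (hz : z ∈ R Fa) (hI : G.I Fa z = {B})
    (hy : y ∈ G.nb z) (hIy : G.I Fa y = {B}) : y ∈ R Fa := by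
  have h0 : y ∈ G.nR Fa z := nR_of5 hz hy (by
    intro B' hB' hyB
    rw [hI, mem_singleton] at hB'
    subst hB'
    have h1 : B' ∈ G.I Fa y := by rw [hIy]; exact mem_singleton_self _
    exact (mem_N76.1 (mem_I76.1 h1).2).1 hyB)
  exact (mem_nR76.1 h0).2

theorem nd7 (hN : G.StNd3 q) (hq : G.QS q) (hG : G.Gen3 q Fa) {z : V} (hz : G.Nd3 q Fa z)
    {B : Finset V} (hI : G.I Fa z = {B}) :
    (∃ l ∈ G.nR Fa z, G.Low l ∧ B ∈ G.I Fa l ∧ (∀ y ∈ G.nR Fa z, G.Low y → y = l) ∧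
      (∀ y ∈ G.nR Fa z, ¬ IsQ q y) ∧ (∀ y ∈ G.nR Fa z, ¬ ∃ b, G.HL y b z) ∧
      ∀ x ∈ G.nb z ∩ G.Co B, G.HubQ q x ∧ (x ∈ G.nb l ∨ ∃ v ∈ R Fa, G.LL l v z x)) ∨
    (∃ a ∈ G.nR Fa z, ∃ b ∈ R Fa, G.HL a b z ∧ B ∈ G.I Fa a ∧ G.I Fa a = G.I Fa b ∧
      (∀ y ∈ G.nR Fa z, G.HubQ q y) ∧ (∀ y ∈ G.nR Fa z, (∃ b', G.HL y b' z) → y = a) ∧
      ∀ x ∈ G.nb z ∩ G.Co B, x ≠ a ∧ x ∈ G.nb b) :=
  hN hq Fa hG.tor z hz B hI fun y hy _ hIy =>
    hG.h2 y (memR7 hz.1 hI hy hIy) z hz.1 B hIy hI (ne_of_nb5 hy).symm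

/-- claimants are paying lows with at most one common neighbourhood -/
theorem clh_pay7 (hN : G.StNd3 q) (hF : G.StFg3 q) (hq : G.QS q) (hG : G.Gen3 q Fa) {x z : V}
    (h : G.CLH q Fa x z) : z ∈ G.nR Fa x ∧ G.Low z ∧ G.m Fa z x ≤ 1 ∧ ¬ ∃ b, G.HL x b z := by
  obtain ⟨h1, h2, h3, h4⟩ := h
  have h1' := mem_nR76.1 h1
  rcases h4 with ⟨h4, h5⟩ | ⟨h4, h5⟩
  · have h4' := h4
    obtain ⟨hzR, hzl, B, hI, -, -⟩ := h4'
    refine ⟨mem_nR76.2 ⟨G.sym _ _ h1'.1, hzR⟩, hzl, ?_, ?_⟩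
    · rw [m_comm76, h5]
      exact Nat.zero_le _
    · intro hb
      rcases nd7 hN hq hG h4 hI with h6 | h6
      · obtain ⟨l, -, -, -, -, -, h7, -⟩ := h6
        exact h7 x h1 hb
      · obtain ⟨a, -, b, -, -, h7, -, -, h8, -⟩ := h6
        have h9 := h8 x h1 hb
        subst h9
        have h10 : B ∈ G.I Fa x ∩ G.I Fa z :=
          mem_inter.2 ⟨h7, by rw [hI]; exact mem_singleton_self _⟩
        have h11 : G.I Fa x ∩ G.I Fa z = ∅ := Finset.card_eq_zero.1 h5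
        rw [h11] at h10
        exact absurd h10 (Finset.notMem_empty _)
  · have h4' := h4
    obtain ⟨hzR, hzl, -, -⟩ := h4'
    refine ⟨mem_nR76.2 ⟨G.sym _ _ h1'.1, hzR⟩, hzl, ?_, h5⟩
    obtain ⟨-, B, B', a, b, -, hI, hHL, -, -, -, -, -, h6⟩ := hF hq Fa hG.tor z h4
    have hxa : x ≠ a := by
      rintro rfl
      exact h5 ⟨b, hHL⟩
    have h7 := (h6 x h1 hxa).2.2.1
    have h8 : G.I Fa z ∩ G.I Fa x ⊆ {B'} := by
      intro D hD
      rw [mem_inter, hI, mem_insert, mem_singleton] at hD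
      rcases hD.1 with h9 | h9
      · subst h9
        exact absurd (mem_I76.1 hD.2).2 h7
      · exact mem_singleton.2 h9
    have h9 := Finset.card_le_card h8
    rw [Finset.card_singleton] at h9
    exact h9

/-- a flagged claimant of `x` with `I x = {C}`: all its other neighbours in `R` are hubs, and all
its neighbours in `R` are in `N C` -/
theorem fg7 (hF : G.StFg3 q) (hq : G.QS q) (hG : G.Gen3 q Fa) {x t : V} {C : Finset V}
    (hIx : G.I Fa x = {C}) (h1 : x ∈ G.nR Fa t) (ht : G.Fg3 q Fa t) (h5 : ¬ ∃ b, G.HL x b t) :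
    (∀ y ∈ G.nR Fa t, C ∈ G.I Fa y) ∧ (∀ y ∈ G.nR Fa t, ¬ G.Low y) ∧
    ∀ a' u, a' ∈ R Fa → u ∈ R Fa → ¬ G.HL a' t u := by
  have htR : t ∈ R Fa := ht.1
  obtain ⟨-, B, B', a, b, hne, hI, hHL, haR, haB, haB', hnb, -, h6⟩ := hF hq Fa hG.tor t ht
  have hxa : x ≠ a := by
    rintro rfl
    exact h5 ⟨b, hHL⟩
  have hB'I : B' ∈ G.I Fa t := by rw [hI]; exact mem_insert_of_mem (mem_singleton_self _)
  have hBI : B ∈ G.I Fa t := by rw [hI]; exact mem_insert_self _ _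
  have hB'F := (mem_I76.1 hB'I).1
  have hBF := (mem_I76.1 hBI).1
  have hC : B' = C := by
    have h7 : B' ∈ G.I Fa x := mem_I76.2 ⟨hB'F, (h6 x h1 hxa).2.1⟩
    rw [hIx, mem_singleton] at h7
    exact h7
  subst hC
  refine ⟨?_, ?_, ?_⟩
  · intro y hy
    by_cases hya : y = a
    · subst hya
      exact mem_I76.2 ⟨hB'F, haB'⟩
    · exact mem_I76.2 ⟨hB'F, (h6 y hy hya).2.1⟩
  · intro y hy hyl
    by_cases hya : y = a
    · subst hya
      exact HL_not_low76 hHL hyl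
    · exact (h6 y hy hya).1.1 hyl
  · intro a' u ha' hu h
    have h7 : G.I Fa a' = G.I Fa t := HL_I76 h ha' htR hu
    have h8 : a' ∈ G.nb t ∩ G.N B := by
      refine mem_inter.2 ⟨G.sym _ _ (HL_b76 h), ?_⟩
      rw [← h7] at hBI
      exact (mem_I76.1 hBI).2
    rw [hnb, mem_singleton] at h8
    subst h8
    exact (stTwHL_5 G).nomut hG.tor.n9 _ _ _ _ _ hHL h rfl

/-- a low neighbour `w` of the hub `x`, `I x = {C}`: if it does not pay, then the third vertex
pays -/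
theorem pay7 (hG : G.Gen3 q Fa) {x w y : V} {C : Finset V} (hx : x ∈ R Fa)
    (hIx : G.I Fa x = {C}) (hw : w ∈ G.nR Fa x) (hy : y ∈ G.nR Fa x) (hyC : C ∉ G.I Fa y)
    (hyw : y ≠ w) {b : V} (hb : G.HL x b w) :
    b ∈ G.nR Fa x ∧ G.Low b ∧ (¬ ∃ b', G.HL x b' b) ∧ G.I Fa b = {C} := by
  have hbx : b ∈ G.nb x := HL_b76 hb
  have hyb : y ∈ G.cl b := by
    have h1 : y ∈ insert w (G.cl b) := by
      rw [← hb.2.2.2.2]
      exact mem_clT76.2 (Or.inr (mem_nR76.1 hy).1)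
    exact (mem_insert.1 h1).resolve_left hyw
  have hCF : C ∈ Fa := by
    have h1 : C ∈ G.I Fa x := by rw [hIx]; exact mem_singleton_self _
    exact (mem_I76.1 h1).1
  have hbR : b ∈ G.nR Fa x := by
    refine nR_of5 hx hbx ?_
    intro C' hC' hbC
    rw [hIx, mem_singleton] at hC'
    subst hC'
    rcases mem_clT76.1 hyb with h1 | h1
    · subst h1
      exact mem_R76.1 (mem_nR76.1 hy).2 _ hCF hbC
    · exact hyC (I_of_nb76 (mem_nR76.1 hy).2 hCF (G.sym _ _ h1) hbC)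
  refine ⟨hbR, hb.2.1, ?_, ?_⟩
  · rintro ⟨b', h'⟩
    exact (stTwHL_5 G).nomut hG.tor.n9 _ _ _ _ _ h' hb rfl
  · rw [← HL_I76 hb hx (mem_nR76.1 hbR).2 (mem_nR76.1 hw).2, hIx]

/-- the needy case: a paying low neighbour that is no claimant -/
theorem needy7 (hN : G.StNd3 q) (hF : G.StFg3 q) (hq : G.QS q) (hG : G.Gen3 q Fa) {x z : V}
    {C : Finset V} (hx : x ∈ R Fa) (hIx : G.I Fa x = {C}) (h1 : x ∈ G.nR Fa z)
    (hz : G.Nd3 q Fa z) (hm : G.m Fa x z = 0) :
    ∃ y ∈ G.nR Fa x, G.Low y ∧ (¬ ∃ b, G.HL x b y) ∧ ¬ G.CLH q Fa x y := by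
  have hz' := hz
  obtain ⟨hzR, hzl, B, hI, hd, -⟩ := hz'
  have hBz : B ∈ G.I Fa z := by rw [hI]; exact mem_singleton_self _
  have hCx : C ∈ G.I Fa x := by rw [hIx]; exact mem_singleton_self _
  have hBF := (mem_I76.1 hBz).1
  have hCF := (mem_I76.1 hCx).1
  have hBx : B ∉ G.I Fa x := by
    intro h2
    have h3 : B ∈ G.I Fa x ∩ G.I Fa z := mem_inter.2 ⟨h2, hBz⟩
    have h4 : G.I Fa x ∩ G.I Fa z = ∅ := Finset.card_eq_zero.1 hm
    rw [h4] at h3
    exact absurd h3 (Finset.notMem_empty _)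
  have hBC : B ≠ C := by
    rintro rfl
    exact hBx hCx
  have hxX : x ∈ G.nb z ∩ G.Co B := (mem_X76 hzR hI).2 ⟨h1, hBx⟩
  have hzx : z ∈ G.nR Fa x := mem_nR76.2 ⟨G.sym _ _ (mem_nR76.1 h1).1, hzR⟩
  -- the vertex `b''` of `HL x b'' y`
  have hb2 : ∀ y b, y ≠ z → y ∈ R Fa → G.HL x b y → b ∈ G.nR Fa z ∧ G.I Fa b = {C} := by
    intro y b hyz hyR hb
    have hzb : z ∈ G.cl b := by
      have h2 : z ∈ insert y (G.cl b) := by
        rw [← hb.2.2.2.2]
        exact mem_clT76.2 (Or.inr (mem_nR76.1 hzx).1)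
      exact (mem_insert.1 h2).resolve_left hyz.symm
    have hbR : b ∈ G.nR Fa x := by
      refine nR_of5 hx (HL_b76 hb) ?_
      intro C' hC' hbC
      rw [hIx, mem_singleton] at hC'
      subst hC'
      rcases mem_clT76.1 hzb with h2 | h2
      · subst h2
        exact mem_R76.1 hzR _ hCF hbC
      · have h3 := I_of_nb76 hzR hCF (G.sym _ _ h2) hbC
        rw [hI, mem_singleton] at h3
        exact hBC h3.symm
    have hIb : G.I Fa b = {C} := by
      rw [← HL_I76 hb hx (mem_nR76.1 hbR).2 hyR, hIx]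
    refine ⟨?_, hIb⟩
    rcases mem_clT76.1 hzb with h2 | h2
    · subst h2
      rw [hI] at hIb
      exact absurd (Finset.singleton_injective hIb) hBC
    · exact mem_nR76.2 ⟨G.sym _ _ h2, (mem_nR76.1 hbR).2⟩
  rcases nd7 hN hq hG hz hI with h6 | h6
  · obtain ⟨l, hlR, hll, hlB, hlow, hnoq, hnoHL, hX⟩ := h6
    have hlR' := mem_nR76.1 hlR
    have hzl' : z ∈ G.nR Fa l := mem_nR76.2 ⟨G.sym _ _ hlR'.1, hzR⟩
    have hlz : l ≠ z := (ne_of_nb5 hlR'.1).symm
    -- no low vertex of `R` in the position of `b''`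
    have hno : ∀ y b, y ≠ z → y ∈ R Fa → ¬ G.HL x b y := by
      intro y b hyz hyR hb
      obtain ⟨h2, h3⟩ := hb2 y b hyz hyR hb
      have h4 := hlow b h2 hb.2.1
      subst h4
      rw [h3, mem_singleton] at hlB
      exact hBC hlB
    have hflag : ∀ y, G.Fg3 q Fa y → (∃ w ∈ G.nR Fa y, G.Low w) → False := by
      intro y hy hw
      obtain ⟨w, hw, hwl⟩ := hw
      obtain ⟨-, B1, B2, a, b, -, -, hHL, -, -, -, -, -, h7⟩ := hF hq Fa hG.tor y hy
      by_cases hwa : w = a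
      · subst hwa
        exact HL_not_low76 hHL hwl
      · exact (h7 w hw hwa).1.1 hwl
    rcases (hX x hxX).2 with h7 | ⟨v, hvR, hLL⟩
    · -- `y = l`
      have hlx : l ∈ G.nR Fa x := mem_nR76.2 ⟨G.sym _ _ h7, hlR'.2⟩
      refine ⟨l, hlx, hll, fun ⟨b, hb⟩ => hno l b hlz hlR'.2 hb, ?_⟩
      rintro ⟨-, -, -, ⟨hln, -⟩ | ⟨hlf, -⟩⟩
      · obtain ⟨-, -, B1, hIl, hdl, htl⟩ := hln
        have hB1 : B = B1 := by
          rw [hIl, mem_singleton] at hlB
          exact hlB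
        subst hB1
        have htl1 : G.tl Fa l ≤ 1 := by omega
        have huniq : ∀ w ∈ G.nR Fa l, G.Low w → w = z := by
          intro w hw hwl
          by_contra hwz
          have := tl_two5 hw hwl hzl' hzl hwz
          omega
        have h8 := hG.h2 l hlR'.2 z hzR B hIl hI hlz
        have h9 : ∃ x0 ∈ G.nb z ∩ G.Co B, x0 ∉ G.nb l ∩ G.Co B := by
          by_contra hcon
          push Not at hcon
          have h10 : (G.nb l ∪ G.nb z) ∩ G.Co B ⊆ G.nb l ∩ G.Co B := by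
            intro w hw
            rw [mem_inter, mem_union] at hw
            rcases hw.1 with h11 | h11
            · exact mem_inter.2 ⟨h11, hw.2⟩
            · exact hcon w (mem_inter.2 ⟨h11, hw.2⟩)
          have h11 := Finset.card_le_card h10
          unfold d at hdl
          omega
        obtain ⟨x0, hx0, hx0'⟩ := h9
        rcases (hX x0 hx0).2 with h10 | ⟨v, hvR, hLL⟩
        · exact hx0' (mem_inter.2 ⟨h10, (mem_inter.1 hx0).2⟩)
        · have h11 := huniq v (mem_nR76.2 ⟨LL_ab76 hLL, hvR⟩) hLL.2.1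
          exact (LL_tb76 hLL).2 h11.symm
      · exact hflag l hlf ⟨z, hzl', hzl⟩
    · -- `y = v`
      have hvx : v ∈ G.nR Fa x := mem_nR76.2 ⟨G.sym _ _ (LL_u76 hLL), hvR⟩
      have hvz : v ≠ z := (LL_tb76 hLL).2.symm
      have hIv : G.I Fa l = G.I Fa v := LL_I76 hLL hlR'.2 hvR hzR hx
      have hlv : l ∈ G.nR Fa v := mem_nR76.2 ⟨G.sym _ _ (LL_ab76 hLL), hlR'.2⟩
      refine ⟨v, hvx, hLL.2.1, fun ⟨b, hb⟩ => hno v b hvz hvR hb, ?_⟩
      rintro ⟨-, -, -, ⟨hvn, -⟩ | ⟨hvf, -⟩⟩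
      · obtain ⟨-, -, B1, hIv1, hdv, -⟩ := hvn
        have hB1 : B = B1 := by
          rw [hIv, hIv1, mem_singleton] at hlB
          exact hlB
        subst hB1
        have hdl := hG.h1 l hlR'.2 B (hIv.trans hIv1)
        have h10 : insert x (G.nb l ∩ G.Co B) ⊆ G.nb v ∩ G.Co B := by
          intro w hw
          rw [mem_insert] at hw
          rcases hw with h11 | h11
          · subst h11
            exact mem_inter.2 ⟨LL_u76 hLL, (mem_inter.1 hxX).2⟩
          · rw [mem_inter] at h11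
            refine mem_inter.2 ⟨?_, h11.2⟩
            have hwz : w ≠ z := by
              rintro rfl
              exact (mem_Co76.1 h11.2).2 (mem_I76.1 hBz).2
            rcases LL_to76 hLL h11.1 hwz with h12 | h12
            · subst h12
              exact absurd (mem_I76.1 (by rw [hIv1]; exact mem_singleton_self _ :
                B ∈ G.I Fa w)).2 (mem_Co76.1 h11.2).2
            · exact h12
        have h11 : x ∉ G.nb l ∩ G.Co B := fun h => (LL_ua76 hLL).1 (mem_inter.1 h).1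
        have h12 := Finset.card_le_card h10
        rw [Finset.card_insert_of_notMem h11] at h12
        unfold d at hdl hdv
        omega
      · exact hflag v hvf ⟨l, hlv, hll⟩
  · obtain ⟨a, haR, b, hbR, hHL, haB, hIab, hhub, -, hX⟩ := h6
    have haR' := mem_nR76.1 haR
    have hbx : b ∈ G.nR Fa x := mem_nR76.2 ⟨G.sym _ _ (hX x hxX).2, hbR⟩
    have hbz : b ≠ z := (HL_bt76 hHL).2.symm
    refine ⟨b, hbx, hHL.2.1, ?_, ?_⟩
    · rintro ⟨b2, h⟩
      obtain ⟨h2, -⟩ := hb2 b b2 hbz hbR h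
      exact (hhub b2 h2).1 h.2.1
    · rintro ⟨-, -, -, ⟨hbn, -⟩ | ⟨hbf, -⟩⟩
      · obtain ⟨-, -, B1, hIb, hdb, -⟩ := hbn
        have hB1 : B = B1 := by
          rw [hIab, hIb, mem_singleton] at haB
          exact haB
        subst hB1
        have h8 := hG.h2 b hbR z hzR B hIb hI hbz
        have h10 : (G.nb b ∪ G.nb z) ∩ G.Co B ⊆ G.nb b ∩ G.Co B := by
          intro w hw
          rw [mem_inter, mem_union] at hw
          rcases hw.1 with h11 | h11
          · exact mem_inter.2 ⟨h11, hw.2⟩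
          · exact mem_inter.2 ⟨(hX w (mem_inter.2 ⟨h11, hw.2⟩)).2, hw.2⟩
        have h11 := Finset.card_le_card h10
        unfold d at hdb
        omega
      · obtain ⟨-, B1, B2, a', b', -, hIb, hHL', -, -, -, hnb, -, -⟩ := hF hq Fa hG.tor b hbf
        have hB1 : B1 ∈ G.I Fa a := by
          rw [hIab, hIb]
          exact mem_insert_self _ _
        have h8 : a ∈ G.nb b ∩ G.N B1 :=
          mem_inter.2 ⟨G.sym _ _ (HL_b76 hHL), (mem_I76.1 hB1).2⟩
        rw [hnb, mem_singleton] at h8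
        subst h8
        exact (stTwHL_5 G).nomut hG.tor.n9 _ _ _ _ _ hHL' hHL rfl

theorem stCapH3_7 (h4 : G.StCh3 q) (hH : G.StHub3 q) (hN : G.StNd3 q) (hF : G.StFg3 q) :
    G.StCapH3 q := by
  classical
  intro hq Fa hG x hx hhub hI0
  have hch := ((h4 hq hG.tor.n9 Fa hG.tor.reg hG.tor.big x hx).2.2 hhub)
  have hpay : ∀ z, G.CLH q Fa x z → z ∈ G.nR Fa x ∧ G.Low z ∧ G.m Fa z x ≤ 1 ∧
    ¬ ∃ b, G.HL x b z := fun z hz => clh_pay7 hN hF hq hG hz
  rcases Nat.lt_or_ge 1 (G.I Fa x).card with hc | hc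
  · refine le_trans ?_ (hch.2.2 hc)
    have h1 : (univ.filter fun z => G.CLH q Fa x z) ⊆
        (G.nR Fa x).filter fun y => G.Low y ∧ G.m Fa y x ≤ 1 ∧ ¬ ∃ b, G.HL x b y := by
      intro z hz
      rw [mem_filter] at hz ⊢
      obtain ⟨h1, h2, h3, h5⟩ := hpay z hz.2
      exact ⟨h1, h2, h3, h5⟩
    have h2 := Finset.card_le_card h1
    have h3 : ((univ.filter fun z => G.CLH q Fa x z).card : ℤ) ≤
        (((G.nR Fa x).filter fun y => G.Low y ∧ G.m Fa y x ≤ 1 ∧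
          ¬ ∃ b, G.HL x b y).card : ℤ) := by exact_mod_cast h2
    linarith
  · have hc1 : (G.I Fa x).card = 1 := by
      have : 0 < (G.I Fa x).card := Finset.card_pos.2 (Finset.nonempty_iff_ne_empty.2 hI0)
      omega
    obtain ⟨C, hIx⟩ := Finset.card_eq_one.1 hc1
    have hch1 := hch.2.1 C hIx
    have hdx := hG.h1 x hx C hIx
    have hsub : (univ.filter fun z => G.CLH q Fa x z) ⊆
        (G.nR Fa x).filter fun y => G.Low y ∧ ¬ ∃ b, G.HL x b y := by
      intro z hz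
      rw [mem_filter] at hz ⊢
      obtain ⟨h1, h2, h3, h5⟩ := hpay z hz.2
      exact ⟨h1, h2, h5⟩
    have hle := Finset.card_le_card hsub
    have htp : G.tp Fa x = ((G.nR Fa x).filter fun y => G.Low y ∧ ¬ ∃ b, G.HL x b y).card := by
      unfold tp
      congr 1
    suffices h0 : (∃ y ∈ G.nR Fa x, G.Low y ∧ (¬ ∃ b, G.HL x b y) ∧ ¬ G.CLH q Fa x y) ∨
        2 ≤ G.tq q Fa x ∨ (univ.filter fun z => G.CLH q Fa x z) = ∅ by
      rw [hch1]
      rcases h0 with ⟨y, hy, h1, h2, h3⟩ | h0 | h0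
      · have h5 : (univ.filter fun z => G.CLH q Fa x z).card + 1 ≤ G.tp Fa x := by
          rw [htp, ← Finset.card_insert_of_notMem (a := y)
            (s := univ.filter fun z => G.CLH q Fa x z) (by simp [h3])]
          refine Finset.card_le_card (Finset.insert_subset ?_ hsub)
          rw [mem_filter]
          exact ⟨hy, h1, h2⟩
        have h6 : ((univ.filter fun z => G.CLH q Fa x z).card : ℤ) + 1 ≤ (G.tp Fa x : ℤ) := by
          exact_mod_cast h5
        have h7 : (0 : ℤ) ≤ (G.tq q Fa x : ℤ) := by positivity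
        linarith
      · have h5 : ((univ.filter fun z => G.CLH q Fa x z).card : ℤ) ≤ (G.tp Fa x : ℤ) := by
          rw [htp]
          exact_mod_cast hle
        have h7 : (2 : ℤ) ≤ (G.tq q Fa x : ℤ) := by exact_mod_cast h0
        linarith
      · rw [h0, Finset.card_empty]
        have h5 := (hH hq Fa hG.tor x hx hhub).2 C hIx hdx
        have h6 : (2 : ℤ) ≤ 2 * (G.tp Fa x : ℤ) + (G.tq q Fa x : ℤ) := by exact_mod_cast h5
        push_cast
        linarith
    by_cases hne : ∃ z, G.CLH q Fa x z ∧ G.Nd3 q Fa z ∧ G.m Fa x z = 0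
    · obtain ⟨z, hz, hz1, hz2⟩ := hne
      exact Or.inl (needy7 hN hF hq hG hx hIx hz.1 hz1 hz2)
    · rcases Finset.eq_empty_or_nonempty (univ.filter fun z => G.CLH q Fa x z) with h0 | h0
      · exact Or.inr (Or.inr h0)
      · clear h0
        -- claimants are flagged
        have hfl : ∀ z, G.CLH q Fa x z → x ∈ G.nR Fa z ∧ G.Fg3 q Fa z ∧ ¬ ∃ b, G.HL x b z := by
          intro z hz
          have hz' := hz
          obtain ⟨h1, -, -, h5 | h5⟩ := hz'
          · exact absurd ⟨z, hz, h5⟩ hne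
          · exact ⟨h1, h5⟩
        have hcl : ∀ z, G.CLH q Fa x z → (∀ y ∈ G.nR Fa z, C ∈ G.I Fa y) ∧
            (∀ y ∈ G.nR Fa z, ¬ G.Low y) ∧ ∀ a' u, a' ∈ R Fa → u ∈ R Fa → ¬ G.HL a' z u := by
          intro z hz
          obtain ⟨h1, h2, h3⟩ := hfl z hz
          exact fg7 hF hq hG hIx h1 h2 h3
        have hnoI : ∀ z, G.I Fa z = {C} → ¬ G.CLH q Fa x z := by
          intro z hz h
          have h1 := (hfl z h).2.1.2.2.1
          rw [hz, Finset.card_singleton] at h1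
          omega
        have h1 : (G.nb x ∩ G.Co C).Nonempty := by
          rw [← Finset.card_pos]
          unfold d at hdx
          omega
        obtain ⟨y, hy⟩ := h1
        obtain ⟨hyR, hyC⟩ := (mem_X76 hx hIx).1 hy
        have hyR' := mem_nR76.1 hyR
        have hm := (m_X76 (G := G) hIx hyC).1
        have main : ∀ w ∈ G.nR Fa x, G.Low w → y ≠ w → ¬ G.CLH q Fa x w →
            ∃ y ∈ G.nR Fa x, G.Low y ∧ (¬ ∃ b, G.HL x b y) ∧ ¬ G.CLH q Fa x y := by
          intro w hw hwl hyw hwc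
          by_cases hb : ∃ b, G.HL x b w
          · obtain ⟨b, hb⟩ := hb
            obtain ⟨h2, h3, h5, h6⟩ := pay7 hG hx hIx hw hyR hyC hyw hb
            exact ⟨b, h2, h3, h5, hnoI b h6⟩
          · exact ⟨w, hw, hwl, hb, hwc⟩
        rcases cov3_76 hq hG.tor hx hyR hm with h | h | h | h | h
        · obtain ⟨w, h1, h2, h3, h5⟩ := h
          refine Or.inl (main w h1 h3 (ne_of_nb5 h5).symm fun hc => ?_)
          exact hyC ((hcl w hc).1 y (mem_nR76.2 ⟨h5, hyR'.2⟩))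
        · obtain ⟨v, w, h1, -, h3, -, -⟩ := h
          exact Or.inr (Or.inl (hub_tq76 hq hG.tor.reg hG.tor.n9 hhub.2 h1 ⟨w, h3⟩))
        · obtain ⟨-, -, -, -, h1, -⟩ := h
          exact absurd h1 hhub.1
        · obtain ⟨a, b, h1, h2, h3, h5, h6⟩ := h
          refine Or.inl (main b h1 h5.2.1 (HL_bt76 h5).2 fun hc => ?_)
          exact (hcl b hc).2.2 a y h2 hyR'.2 h5
        · obtain ⟨w, v, h1, h2, h3, h5⟩ := h
          refine Or.inl (main w h1 h5.1 (LL_ua76 h5).2 fun hc => ?_)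
          exact (hcl w hc).2.1 v (mem_nR76.2 ⟨LL_ab76 h5, h2⟩) h5.2.1

end CG

end Pool.Agent.Lib.MP_e95c01_co.N
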