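import Pool.Agent.Lib.MP_e95c01_co.U.Transfer37
import Pool.Agent.Lib.MP_e95c01_co.N.StStruct53
import Pool.Agent.Lib.MP_e95c01_co.U.Bridge76
import Pool.Agent.Lib.MP_e95c01_co.U.StTwHL76
import Pool.Agent.Lib.MP_e95c01_co.U.StCovU1
import Pool.Agent.Lib.MP_e95c01_co.U.Ident11
import Pool.Agent.Lib.MP_e95c01_co.U.StLeaf27
import Pool.Agent.Lib.MP_e95c01_co.T.StCh3_50
import Pool.Agent.Lib.MP_e95c01_co.T.StCov11
import Pool.Agent.Lib.MP_e95c01_co.T.StHub42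
import Pool.Agent.Lib.MP_e95c01_co.T.StLow38
import Pool.Agent.Lib.MP_e95c01_co.T.StNd76
import Pool.Agent.Lib.MP_e95c01_co.T.StFg76
import Pool.Agent.Lib.MP_e95c01_co.T.StCapL3_12
import Pool.Agent.Lib.MP_e95c01_co.T.StCapH7
import Pool.Agent.Lib.MP_e95c01_co.T.StGen3_12
import Pool.Agent.Lib.MP_e95c01_co.T.Ident11
import Pool.Agent.Lib.MP_e95c01_co.T.LfB11
import Pool.Agent.Lib.MP_e95c01_co.T.Lf11
import Pool.Agent.Lib.MP_e95c01_co.T.F1_42
import Pool.Agent.Lib.MP_e95c01_co.T.F2_42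
import Pool.Agent.Lib.MP_e95c01_co.T.F3_33
import Pool.Agent.Lib.MP_e95c01_co.T.F4_42
import Pool.Agent.Lib.MP_e95c01_co.T.F5_30
import Pool.Agent.Lib.MP_e95c01_co.T.F6_12
import Pool.Agent.Lib.MP_e95c01_co.T.F7_28
import Pool.Agent.Lib.MP_e95c01_co.T.F8_76
import Pool.Agent.Lib.MP_e95c01_co.T.St11L50
import Pool.Agent.Lib.MP_e95c01_co.T.F10_76
import Pool.Agent.Lib.MP_e95c01_co.T.StTh2_57
import Pool.Agent.Lib.MP_e95c01_co.T.Th1_28
import Pool.Agent.Lib.MP_e95c01_co.T.StSa3_96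
import Pool.Agent.Lib.MP_e95c01_co.T.StMn3_96
import Pool.Agent.Lib.MP_e95c01_co.T.StSt3_96

/-!
# Assembly of the third round
-/

namespace Pool.Agent.Lib.MP_e95c01_co.N

namespace CG

variable {V : Type} [Fintype V] [DecidableEq V]

theorem t3_96 (G : CG V) (q : V → V → Prop) : G.StT3 q := by
  have hB := G.stBas_33 q
  have h0 := G.st11V0_42 q
  have hC := G.st11Cnt_30 q
  exact stT3_76 (G := G) (q := q) hB (G.st11Cov_42 q) (G.st11P_42 q) h0
    (G.f6_12 q (stTwHL_5 G) hB h0 hC) (G.stF7_28 q hB hC) (st11Q_76 (G := G) (q := q) h0 hC)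
    (G.st11L_50 q hB hC)

theorem gen96 (G : CG V) (q : V → V → Prop) : G.StGen3 q := by
  have htw := stTwHL_5 G
  have hch := G.stCh3_50 q htw
  have hhub := G.stHub3_42 q
  have hlow := G.stLow3_38 q htw
  have hnd := G.stNd3_76 q
  have hfg := G.stFg3_76 q hch
  exact G.stGen3_12 q hch hhub hlow hnd hfg (G.stCapL3_12 q htw hch hlow hnd)
    (stCapH3_7 (G := G) (q := q) hch hhub hnd hfg)

theorem mn96 (G : CG V) (q : V → V → Prop) : G.StMn3 q := by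
  have htw := stTwHL_5 G
  have hsm := G.stSmall_76
  have hcovU := G.stCovU_1
  have hcov := G.stCov3_11 q
  have hid := G.stId3_11 q
  have hps := G.stPs3_11 q
  have hgen := G.gen96 q
  have hleaf := G.stLeaf_27 hsm htw hcovU G.stIdentU_11 G.stPsumU_11
  exact G.stMn3_96 q (G.stStruct_53 G.stN6_37 G.stCo_37) htw hsm hcovU hcov hid hps hgen
    (G.stTh1_28 q hsm) (G.stTh2_57 q)
    (G.stLf45_11 q hleaf (G.stCh3_50 q htw) (G.stHub3_42 q) (G.stLow3_38 q htw) (G.stNd3_76 q))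
    (G.stLf6_11 q hleaf (G.stCh3_50 q htw) (G.stHub3_42 q) (G.stLow3_38 q htw) (G.stNd3_76 q))
    (G.t3_96 q)

theorem st96 (G : CG V) (q : V → V → Prop) : G.StSt3 q :=
  G.stSt3_96 q (G.mn96 q) G.stSmall_76 G.stCovU_1 (G.stCov3_11 q) (G.stId3_11 q)
    (G.stPs3_11 q) (G.stTot3_11 q) (G.stCh3_50 q (stTwHL_5 G)) (G.stHub3_42 q)
    (G.stLow3_38 q (stTwHL_5 G))

/-- the bound for all critical graphs -/
theorem fn96 (G : CG V) (q : V → V → Prop) : G.StFn3 q :=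
  stFn3_96 (fun G' q' => G'.st96 q') (fun G' q' => G'.stSa3_96 q') G q

end CG

end Pool.Agent.Lib.MP_e95c01_co.N
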