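import Pool.Agent.Lib.MP_e95c01_co.T.StmtsL38
import Pool.Agent.Lib.MP_e95c01_co.T.Aux76

/-!
# T10: L0, L2 and good hubs
-/

namespace Pool.Agent.Lib.MP_e95c01_co.N

open Finset

variable {V : Type} [Fintype V] [DecidableEq V]

namespace CG

variable {G : CG V} {q : V → V → Prop} {F : Finset V}

namespace Lc

theorem memT (c : G.Lc q F) {v : V} : G.Co F ∈ G.I {G.Co F} v ↔ v ∈ G.N F := by
  rw [mem_I76, c.lf.coN, mem_singleton]
  exact ⟨fun h => h.2, fun h => ⟨rfl, h⟩⟩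

theorem TR (c : G.Lc q F) {v : V} (h : v ∈ G.N F) : v ∈ R {G.Co F} := c.lf.memR.2 (Or.inr h)

theorem FR (c : G.Lc q F) {v : V} (h : v ∈ F) : v ∈ R {G.Co F} := c.lf.memR.2 (Or.inl h)

theorem of_I (c : G.Lc q F) {v : V} (hv : v ∈ R {G.Co F}) {B : Finset V}
    (h : G.I {G.Co F} v = {B}) : v ∈ G.N F ∧ B = G.Co F := by
  rcases c.lf.memR.1 hv with h1 | h1
  · rw [c.lf.I0 h1] at h
    exact absurd h.symm (singleton_ne_empty B)
  · rw [c.lf.I1 h1] at h
    exact ⟨h1, (singleton_injective h).symm⟩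

theorem four (c : G.Lc q F) : 4 ≤ F.card := by
  rcases c.c45 with h | h <;> omega

theorem ne_FT (c : G.Lc q F) {x z : V} (hx : x ∈ F) (hz : z ∈ G.N F) : x ≠ z := by
  rintro rfl
  exact c.lf.ndisj hx hz

theorem m0 (c : G.Lc q F) {x z : V} (hx : x ∈ F) : G.m {G.Co F} x z = 0 ∧
    G.m {G.Co F} z x = 0 := by
  constructor
  · rw [m, c.lf.I0 hx, empty_inter, card_empty]
  · rw [m, c.lf.I0 hx, inter_empty, card_empty]

/-- neighbours of a vertex of `F` are in `R` -/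
theorem nbR (c : G.Lc q F) {x z : V} (hx : x ∈ F) (hz : z ∈ G.nb x) : z ∈ R {G.Co F} :=
  c.lf.memR.2 (c.lf.nbF hx hz)

/-- the middle vertex of `HL y b w` with `y ∈ F` is in `F` -/
theorem HL_F (c : G.Lc q F) {y b w : V} (hy : y ∈ F) (h : G.HL y b w) : b ∈ F := by
  have h1 : G.I {G.Co F} y = G.I {G.Co F} b := HL_I76 h (c.FR hy) (c.nbR hy (HL_b76 h))
    (c.nbR hy (HL_t76 h))
  rcases c.lf.memR.1 (c.nbR hy (HL_b76 h)) with h2 | h2
  · exact h2
  · rw [c.lf.I0 hy, c.lf.I1 h2] at h1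
    exact absurd h1.symm (singleton_ne_empty _)

theorem LL_T (c : G.Lc q F) {a b t u : V} (h : G.LL a b t u) (ha : a ∈ G.N F)
    (hb : b ∈ R {G.Co F}) (ht : t ∈ R {G.Co F}) (hu : u ∈ R {G.Co F}) : b ∈ G.N F := by
  have h1 := LL_I76 h (c.TR ha) hb ht hu
  rw [c.lf.I1 ha] at h1
  exact (c.of_I hb h1.symm).1

end Lc

theorem stL0_38 (G : CG V) (q : V → V → Prop) (hNd : G.StNd3 q) : G.StL0 q := by
  intro F c z hz
  obtain ⟨hzR, hlow, B, hI, hd, hs⟩ := id hz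
  obtain ⟨hzT, rfl⟩ := c.of_I hzR hI
  rw [c.lf.coCo] at hd
  refine ⟨hzT, hlow, hd, ?_⟩
  have hyp : ∀ y ∈ G.nb z, IsQ q y → G.I {G.Co F} y = {G.Co F} →
      3 ≤ ((G.nb y ∪ G.nb z) ∩ G.Co (G.Co F)).card := by
    intro y hy hq hIy
    rw [c.lf.coCo]
    have hyT : y ∈ G.N F := c.memT.1 (by rw [hIy]; exact mem_singleton_self _)
    obtain ⟨y', hyy⟩ := hq
    have hTw := c.qs.tw _ _ hyy
    have hyT' : y' ∈ G.N F := c.lf.twT hyT hTw
    have e1 : z ≠ y := ne_of_nb5 hy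
    have e2 : z ≠ y' := by
      rintro rfl
      exact q_not_low76 c.qs ⟨y, c.qs.symm _ _ hyy⟩ hlow
    have e3 : y ≠ y' := q_ne76 c.qs hyy
    have hcard : ({z, y, y'} : Finset V).card = 3 := by
      rw [Finset.card_insert_of_notMem, Finset.card_pair e3]
      simp [e1, e2]
    have hsub : ({z, y, y'} : Finset V) ⊆ G.N F := by
      intro v hv
      rw [mem_insert, mem_insert, mem_singleton] at hv
      rcases hv with rfl | rfl | rfl <;> assumption
    have hX : G.N {z, y, y'} ∩ F ⊆ (G.nb y ∪ G.nb z) ∩ F := by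
      intro v hv
      obtain ⟨h1, h2⟩ := mem_inter.1 hv
      rw [c.lf.NZ hsub h2] at h1
      obtain ⟨u, hu, hvu⟩ := h1
      rw [mem_insert, mem_insert, mem_singleton] at hu
      refine mem_inter.2 ⟨?_, h2⟩
      rw [mem_union]
      rcases hu with rfl | rfl | rfl
      · exact Or.inr hvu
      · exact Or.inl hvu
      · exact Or.inl (Tw_nb5 (c.qs.tw _ _ (c.qs.symm _ _ hyy)) hvu (c.ne_FT h2 hyT))
    refine le_trans ?_ (Finset.card_le_card hX)
    have h4 := c.four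
    rcases c.lf.st.exp F c.lf.leaf {z, y, y'} ⟨z, mem_insert_self _ _⟩ hsub with h | h | h
    · rw [inter_eq_right.2 h]
      omega
    · omega
    · omega
  rcases hNd c.qs {G.Co F} c.tor z hz (G.Co F) (c.lf.I1 hzT) hyp with h | h
  · left
    obtain ⟨l, hl, h1, h2, h3, h4, h5, h6⟩ := h
    rw [c.lf.coCo] at h6
    have hlT := c.memT.1 h2
    refine ⟨l, (mem_nR76.1 hl).1, hlT, h1, h3, h4, h5, fun x hx => ⟨(h6 x hx).1, ?_⟩⟩
    rcases (h6 x hx).2 with h7 | ⟨v, hv, h7⟩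
    · exact Or.inl h7
    · exact Or.inr ⟨v, c.LL_T h7 hlT hv (c.TR hzT) (c.FR (mem_inter.1 hx).2), h7⟩
  · right
    obtain ⟨a, ha, b, hb, h1, h2, h3, h4, h5, h6⟩ := h
    rw [c.lf.coCo] at h6
    refine ⟨a, b, (mem_nR76.1 ha).1, c.memT.1 h2, c.memT.1 (by rw [← h3]; exact h2), h1, h4, h5,
      fun x hx => (h6 x hx).2⟩

theorem stL2_38 (G : CG V) (q : V → V → Prop) (h0 : G.StL0 q) : G.StL2 q := by
  rintro F c z y w hz hy hyz hw hlw ⟨b, hb⟩
  have hbF := c.HL_F hy hb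
  have hby := HL_b76 hb
  have hzy := G.sym _ _ hyz
  have hyR : ∀ {v}, G.Co F ∈ G.I {G.Co F} v → v ∈ G.N F := fun h => c.memT.1 h
  rcases hz with hz | hz
  · obtain ⟨hzT, hlow, hd, h⟩ := h0 F c z hz
    have hyn : y ∈ G.nR {G.Co F} z := mem_nR76.2 ⟨hyz, c.FR hy⟩
    -- `b` is adjacent to `z` unless `w = z`
    have hbz : w ≠ z → b ∈ G.nR {G.Co F} z := by
      intro hne
      rcases HL_sup76 hb hzy (Ne.symm hne) with h1 | h1
      · exact absurd h1.symm (c.ne_FT hbF hzT)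
      · exact mem_nR76.2 ⟨G.sym _ _ h1, c.FR hbF⟩
    rcases h with ⟨l, hl⟩ | ⟨a, b', ha⟩
    · obtain ⟨h1, h2, h3, h4, h5, h6, h7⟩ := hl
      by_cases hne : w = z
      · subst hne
        exact h6 y hyn ⟨b, hb⟩
      · have h8 := h4 b (hbz hne) hb.2.1
        subst h8
        exact c.lf.ndisj hbF h2
    · obtain ⟨h1, h2, h3, h4, h5, h6, h7⟩ := ha
      by_cases hne : w = z
      · subst hne
        have h8 := h6 y hyn ⟨b, hb⟩
        subst h8
        exact c.lf.ndisj hy h2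
      · exact (h5 b (hbz hne)).1 hb.2.1
  · obtain ⟨hqz, hzT, hd, hs⟩ := hz
    have hne : z ≠ w := by
      rintro rfl
      exact q_not_low76 c.qs hqz hlw
    have hzR := c.TR hzT
    have hbz : b ∈ G.nR {G.Co F} z := by
      rcases HL_sup76 hb hzy hne with h1 | h1
      · exact absurd h1.symm (c.ne_FT hbF hzT)
      · exact mem_nR76.2 ⟨G.sym _ _ h1, c.FR hbF⟩
    have htl := tl_mem5 hbz hb.2.1
    have hn9 := c.tor.n9
    rcases cov3_76 c.qs c.tor hzR hbz (c.m0 hbF).2 with h | h | h | h | h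
    · obtain ⟨w', h1, -, h2, h3⟩ := h
      have := tl_two5 hbz hb.2.1 h1 h2 (ne_of_nb5 h3).symm
      omega
    · obtain ⟨v, v', h1, h2, h3, h4, h5⟩ := h
      have hnq : ¬ q z v := by
        intro e
        have e2 := q_uniq76 c.qs hn9 (c.qs.symm _ _ e) h3
        subst e2
        exact G.irr _ (mem_nR76.1 h2).1
      have := tq_pair76 c.qs c.tor.reg hn9 h1 ⟨v', h3⟩ hnq
      omega
    · obtain ⟨a, b', h1, h2, h3, -⟩ := h
      exact q_not_low76 c.qs hqz h3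
    · obtain ⟨a, b', h1, h2, h3, h4, -⟩ := h
      have := tl_two5 hbz hb.2.1 h1 h4.2.1 (HL_bt76 h4).2
      omega
    · obtain ⟨a, b', h1, h2, h3, h4⟩ := h
      exact ((stTwHL_5 G).twLL _ _ _ _ h4).1 (q_isTw76 c.qs hqz)

theorem wt_pay38 (c : G.Lc q F) {y : V} {S : Finset V} (h : G.PayC q F y S) :
    S ⊆ G.nb y ∧ ∑ w ∈ S, G.wt q F y w = 2 := by
  rcases h with ⟨w, rfl, h1, h2, h3, h4⟩ | ⟨v, w, rfl, h1, h2, h3, h4, h5⟩
  · refine ⟨singleton_subset_iff.2 h1, ?_⟩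
    rw [sum_singleton, wt, if_neg h3, if_pos ⟨h2, h4⟩]
  · constructor
    · intro x hx
      rw [mem_insert, mem_singleton] at hx
      rcases hx with rfl | rfl <;> assumption
    · have hv : IsQ q v := ⟨w, h1⟩
      have hw : IsQ q w := ⟨v, c.qs.symm _ _ h1⟩
      have e1 : G.wt q F y v = 1 := by
        rw [wt, if_neg h4, if_neg (fun h => q_not_low76 c.qs hv h.1), if_pos hv]
      have e2 : G.wt q F y w = 1 := by
        rw [wt, if_neg h5, if_neg (fun h => q_not_low76 c.qs hw h.1), if_pos hw]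
      rw [sum_pair (q_ne76 c.qs h1), e1, e2]

theorem stGood_38 (G : CG V) (q : V → V → Prop) : G.StGood q := by
  intro F c y hy hh S S' h h' hd
  obtain ⟨h1, h2⟩ := wt_pay38 c h
  obtain ⟨h3, h4⟩ := wt_pay38 c h'
  refine ⟨hy, hh, ?_⟩
  calc 4 = ∑ w ∈ S ∪ S', G.wt q F y w := by rw [sum_union hd, h2, h4]
    _ ≤ ∑ w ∈ G.nb y, G.wt q F y w := sum_le_sum_of_subset (union_subset h1 h3)

end CG

end Pool.Agent.Lib.MP_e95c01_co.N
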