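import Pool.Agent.Lib.MP_e95c01_co.T.Defs76
import Pool.Agent.Lib.MP_e95c01_co.U.Aux5
import Pool.Agent.Lib.MP_e95c01_co.N.Basic37

/-!
# T10b: leaves with at least six vertices
-/

namespace Pool.Agent.Lib.MP_e95c01_co.N

open Finset

variable {V : Type} [Fintype V] [DecidableEq V]

namespace CG

variable {G : CG V} {q : V → V → Prop}

/-- expansion for at most three vertices -/
theorem exp6_38 (hL : G.StLeaf) {F : Finset V} (hF : G.Leaf F) (h6 : 6 ≤ F.card) {Z : Finset V}
    (hZ : Z.Nonempty) (hZF : Z ⊆ G.N F) (hc : Z.card ≤ 3) : Z.card + 1 ≤ (G.N Z ∩ F).card := by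
  rcases hL.exp F hF Z hZ hZF with h | h | h
  · rw [Finset.inter_eq_right.2 h]
    omega
  · exact h
  · obtain ⟨h1, -, h3, -⟩ := h
    exfalso
    have h4 : (F \ G.N Z).card + (G.N Z ∩ F).card = F.card := by
      rw [Finset.inter_comm]
      exact Finset.card_sdiff_add_card_inter F (G.N Z)
    omega

/-- the torso of a leaf -/
theorem leafTorso38 (hCov : G.StCov3 q) (hL : G.StLeaf) (hQ : G.QS q) {F : Finset V}
    (hF : G.Leaf F) : G.Torso3 q {G.Co F} := by
  have hT := hL.torso F hF
  exact ⟨hT.reg, hT.big, hT.n9, hT.sat,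
    fun x hx z hz hxz hm => hCov hQ _ hT.reg x hx z hz hxz hm (hT.cov x hx z hz hxz hm)⟩

/-- `P3` of a leaf is the sum of the charges -/
theorem leafSum38 (hId : G.StId3 q) (hPs : G.StPs3 q) (hL : G.StLeaf) {F : Finset V}
    (hF : G.Leaf F) : G.P3 q F = ∑ z ∈ R {G.Co F}, G.ch3 q {G.Co F} z := by
  have h1 := hId {G.Co F} (hL.torso F hF).reg
  have h2 := hPs F hF.big.1
  rw [Finset.sum_singleton] at h1
  linarith

theorem stLf6_38 (G : CG V) (q : V → V → Prop) (h7 : G.StTwHL) (hL : G.StLeaf) (hId : G.StId3 q)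
    (hPs : G.StPs3 q) (hCov : G.StCov3 q) (hGen : G.StGen3 q) : G.StLf6 q := by
  intro hQ F hF h6
  rw [leafSum38 hId hPs hL hF]
  have hT := leafTorso38 hCov hL hQ hF
  have hCo := (G.stCo_37 F hF.big.1).2.2
  -- the vertices with `I z = {B}` are those of `N F`, and `Co B = F`
  have hmem : ∀ z ∈ R {G.Co F}, ∀ B, G.I {G.Co F} z = {B} → z ∈ G.N F ∧ G.Co B = F := by
    intro z hz B hI
    rcases (hL.mem F hF z).1.1 hz with h | h
    · rw [(hL.mem F hF z).2.1 h] at hI
      exact absurd hI.symm (Finset.singleton_ne_empty B)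
    · rw [(hL.mem F hF z).2.2 h] at hI
      have : G.Co F = B := Finset.singleton_injective hI
      refine ⟨h, ?_⟩
      rw [← this]
      exact hCo
  refine hGen hQ _ ⟨hT, ?_, ?_, ?_, Or.inr ?_⟩
  · intro z hz B hI
    obtain ⟨h1, h2⟩ := hmem z hz B hI
    have h3 := exp6_38 hL hF h6 (Z := {z}) (Finset.singleton_nonempty z)
      (Finset.singleton_subset_iff.2 h1) (by rw [Finset.card_singleton]; omega)
    rw [Finset.card_singleton] at h3
    rw [h2, d]
    refine le_trans h3 (Finset.card_le_card ?_)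
    intro v hv
    rw [mem_inter, mem_N76] at hv
    obtain ⟨⟨-, u, hu, hvu⟩, hvF⟩ := hv
    rw [mem_singleton] at hu
    subst hu
    exact mem_inter.2 ⟨hvu, hvF⟩
  · intro z hz B hI hq
    obtain ⟨h1, h2⟩ := hmem z hz B hI
    obtain ⟨w, hw⟩ := hq
    have hTw := hQ.tw _ _ hw
    have h3 := h7.twI _ hT.reg z hz w hTw
    have h4 := hmem w h3.1 B (by rw [h3.2]; exact hI)
    have hzw : z ≠ w := ne_of_nb5 hTw.1
    have h5 := exp6_38 hL hF h6 (Z := {z, w}) ⟨z, mem_insert_self _ _⟩ (by
      intro v hv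
      rw [mem_insert, mem_singleton] at hv
      rcases hv with rfl | rfl
      · exact h1
      · exact h4.1) (by rw [Finset.card_pair hzw]; omega)
    rw [Finset.card_pair hzw] at h5
    rw [h2, d]
    refine le_trans h5 (Finset.card_le_card ?_)
    intro v hv
    rw [mem_inter, mem_N76] at hv
    obtain ⟨⟨hvZ, u, hu, hvu⟩, hvF⟩ := hv
    rw [mem_insert, mem_singleton] at hu
    refine mem_inter.2 ⟨?_, hvF⟩
    rcases hu with hu | hu
    · subst hu
      exact hvu
    · subst hu
      exact Tw_nb5 (h7.symm _ _ hTw) hvu (fun e => hvZ (by rw [e]; exact mem_insert_self _ _))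
  · intro y hy z hz B hIy hIz hne
    obtain ⟨h1, h2⟩ := hmem z hz B hIz
    obtain ⟨h3, -⟩ := hmem y hy B hIy
    have h5 := exp6_38 hL hF h6 (Z := {y, z}) ⟨y, mem_insert_self _ _⟩ (by
      intro v hv
      rw [mem_insert, mem_singleton] at hv
      rcases hv with rfl | rfl
      · exact h3
      · exact h1) (by rw [Finset.card_pair hne]; omega)
    rw [Finset.card_pair hne] at h5
    rw [h2]
    refine le_trans h5 (Finset.card_le_card ?_)
    intro v hv
    rw [mem_inter, mem_N76] at hv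
    obtain ⟨⟨-, u, hu, hvu⟩, hvF⟩ := hv
    rw [mem_insert, mem_singleton] at hu
    refine mem_inter.2 ⟨?_, hvF⟩
    rw [mem_union]
    rcases hu with hu | hu
    · subst hu
      exact Or.inl hvu
    · subst hu
      exact Or.inr hvu
  · intro x hx y hy z hz B hIx hIy hIz hxy hxz hyz
    obtain ⟨h1, h2⟩ := hmem z hz B hIz
    obtain ⟨h3, -⟩ := hmem y hy B hIy
    obtain ⟨h4, -⟩ := hmem x hx B hIx
    have hcard : ({x, y, z} : Finset V).card = 3 := by
      rw [Finset.card_insert_of_notMem, Finset.card_pair hyz]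
      simp [hxy, hxz]
    have h5 := exp6_38 hL hF h6 (Z := {x, y, z}) ⟨x, mem_insert_self _ _⟩ (by
      intro v hv
      rw [mem_insert, mem_insert, mem_singleton] at hv
      rcases hv with rfl | rfl | rfl
      · exact h4
      · exact h3
      · exact h1) (by rw [hcard])
    rw [hcard] at h5
    rw [h2]
    refine le_trans h5 (Finset.card_le_card ?_)
    intro v hv
    rw [mem_inter, mem_N76] at hv
    obtain ⟨⟨-, u, hu, hvu⟩, hvF⟩ := hv
    rw [mem_insert, mem_insert, mem_singleton] at hu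
    refine mem_inter.2 ⟨?_, hvF⟩
    rw [mem_union, mem_union]
    rcases hu with hu | hu | hu
    · subst hu
      exact Or.inl (Or.inl hvu)
    · subst hu
      exact Or.inl (Or.inr hvu)
    · subst hu
      exact Or.inr hvu

end CG

end Pool.Agent.Lib.MP_e95c01_co.N
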