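import Pool.Agent.Lib.MP_e95c01_co.T.L0_38
import Pool.Agent.Lib.MP_e95c01_co.T.StLf6_38

/-!
# T10: L5 (hubs in `F`) and L6 (assembly)
-/

namespace Pool.Agent.Lib.MP_e95c01_co.N

open Finset

variable {V : Type} [Fintype V] [DecidableEq V]

namespace CG

variable {G : CG V} {q : V → V → Prop} {F : Finset V}

theorem nR_F38 (c : G.Lc q F) {y : V} (hy : y ∈ F) : G.nR {G.Co F} y = G.nb y := by
  unfold nR
  exact inter_eq_left.2 (fun x hx => c.nbR hy hx)

/-- the charge of a hub in `F` -/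
theorem hubF38 (hCh : G.StCh3 q) (h2 : G.StL2 q) (c : G.Lc q F) {y : V} (hy : y ∈ F)
    (hh : G.HubQ q y) [DecidablePred fun z => G.Nd3 q {G.Co F} z] [DecidablePred fun z => G.NT q F z] :
    ((∑ w ∈ G.nb y, G.wt q F y w : ℕ) : ℤ) +
      2 * (((G.nb y).filter fun z => G.Nd3 q {G.Co F} z).card : ℤ) +
      (((G.nb y).filter fun z => G.NT q F z).card : ℤ) - 4 ≤ G.ch3 q {G.Co F} y := by
  classical
  have hch := ((hCh c.qs c.tor.n9 _ c.tor.reg c.tor.big y (c.FR hy)).2.2 hh).1 (c.lf.I0 hy)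
  rw [hch]
  have key : ∑ w ∈ G.nb y, G.wt q F y w +
      2 * ((G.nb y).filter fun z => G.Nd3 q {G.Co F} z).card +
      ((G.nb y).filter fun z => G.NT q F z).card ≤
      2 * G.tp {G.Co F} y + G.tq q {G.Co F} y := by
    rw [tp, tq, nR_F38 c hy]
    simp only [Finset.card_filter, Finset.mul_sum]
    rw [← sum_add_distrib, ← sum_add_distrib, ← sum_add_distrib]
    refine sum_le_sum fun w hw => ?_
    have hqy : ¬ q y w := fun h => hh.2 ⟨w, h⟩
    have hyw : y ∈ G.nb w := G.sym _ _ hw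
    by_cases h3 : G.Nd3 q {G.Co F} w
    · have hl : G.Low w := h3.2.1
      have hn : ¬ ∃ b, G.HL y b w := h2 F c w y w (Or.inl h3) hy hyw hw hl
      have hnt : ¬ G.NT q F w := fun h => q_not_low76 c.qs h.1 hl
      have hny : G.Ny q F w := Or.inl h3
      rw [wt, if_pos hny, if_pos h3, if_neg hnt, if_pos ⟨hl, hn⟩]
      omega
    · by_cases h4 : G.NT q F w
      · have hny : G.Ny q F w := Or.inr h4
        rw [wt, if_pos hny, if_neg h3, if_pos h4,
          if_pos (⟨h4.1, hqy⟩ : IsQ q w ∧ ¬ q y w)]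
        omega
      · have h5 : ¬ G.Ny q F w := fun h => h.elim h3 h4
        rw [wt, if_neg h5, if_neg h3, if_neg h4]
        by_cases h6 : G.Low w ∧ ¬ ∃ b, G.HL y b w
        · rw [if_pos h6, if_pos h6]
          omega
        · rw [if_neg h6, if_neg h6]
          by_cases h7 : IsQ q w
          · rw [if_pos h7, if_pos (⟨h7, hqy⟩ : IsQ q w ∧ ¬ q y w)]
            omega
          · rw [if_neg h7]
            omega
  have key' : ((∑ w ∈ G.nb y, G.wt q F y w : ℕ) : ℤ) +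
      2 * (((G.nb y).filter fun z => G.Nd3 q {G.Co F} z).card : ℤ) +
      (((G.nb y).filter fun z => G.NT q F z).card : ℤ) ≤
      2 * (G.tp {G.Co F} y : ℤ) + (G.tq q {G.Co F} y : ℤ) := by exact_mod_cast key
  linarith

theorem stL5_38 (G : CG V) (q : V → V → Prop) (hCh : G.StCh3 q) (hH : G.StHub3 q)
    (h0 : G.StL0 q) (h1 : G.StL1 q) (h2 : G.StL2 q) : G.StL5 q := by
  classical
  intro F c y hy hh
  have key := hubF38 hCh h2 c hy hh
  constructor
  · intro hg
    have h4 : (4 : ℤ) ≤ ((∑ w ∈ G.nb y, G.wt q F y w : ℕ) : ℤ) := by exact_mod_cast hg.2.2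
    linarith
  · intro _
    by_cases hM : ((G.nb y).filter fun z => G.Nd3 q {G.Co F} z ∧ G.Mut q F z) = ∅
    · rw [hM, card_empty]
      have hch := ((hCh c.qs c.tor.n9 _ c.tor.reg c.tor.big y (c.FR hy)).2.2 hh).1 (c.lf.I0 hy)
      have h5 := (hH c.qs _ c.tor y (c.FR hy) hh).1 (c.lf.I0 hy)
      have h6 : (4 : ℤ) ≤ 2 * (G.tp {G.Co F} y : ℤ) + (G.tq q {G.Co F} y : ℤ) := by
        exact_mod_cast h5
      rw [hch]
      push_cast
      linarith
    · obtain ⟨z, hz⟩ := nonempty_iff_ne_empty.2 hM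
      rw [mem_filter] at hz
      obtain ⟨hzy, hz3, l, hl, hl3, hX⟩ := hz
      obtain ⟨hzT, hzl, hzd, -⟩ := h0 F c z hz3
      obtain ⟨hlT, hll, -, -⟩ := h0 F c l hl3
      have hzl' : z ≠ l := ne_of_nb5 hl
      have hyz : y ∈ G.nb z := G.sym _ _ hzy
      have hyl : y ∈ G.nb l := (mem_inter.1 (hX ▸ mem_inter.2 ⟨hyz, hy⟩ : y ∈ G.nb l ∩ F)).1
      have hsub : ({z, l} : Finset V) ⊆ G.N F := by
        intro v hv
        rw [mem_insert, mem_singleton] at hv
        rcases hv with rfl | rfl <;> assumption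
      have hN : G.N {z, l} ∩ F = G.nb z ∩ F := by
        ext v
        rw [mem_inter, mem_inter]
        constructor
        · rintro ⟨h3, h4⟩
          rw [c.lf.NZ hsub h4] at h3
          obtain ⟨u, hu, h5⟩ := h3
          rw [mem_insert, mem_singleton] at hu
          rcases hu with rfl | rfl
          · exact ⟨h5, h4⟩
          · have : v ∈ G.nb z ∩ F := by
              rw [hX]
              exact mem_inter.2 ⟨h5, h4⟩
            exact mem_inter.1 this
        · rintro ⟨h3, h4⟩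
          exact ⟨(c.lf.NZ hsub h4).2 ⟨z, mem_insert_self _ _, h3⟩, h4⟩
      have hcard : (G.N {z, l} ∩ F).card = ({z, l} : Finset V).card := by
        rw [hN, card_pair hzl']
        exact hzd
      have hlt : ({z, l} : Finset V).card < F.card := by
        have := c.four
        rw [card_pair hzl']
        omega
      obtain ⟨S, hS, -, -⟩ := h1 F c {z, l} ⟨z, mem_insert_self _ _⟩ hsub hcard hlt y
        (by rw [hN]; exact mem_inter.2 ⟨hyz, hy⟩) hh
      obtain ⟨hS1, hS2⟩ := wt_pay38 c hS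
      have hW : 2 ≤ ∑ w ∈ G.nb y, G.wt q F y w := by
        rw [← hS2]
        exact sum_le_sum_of_subset hS1
      have hnd : 2 ≤ ((G.nb y).filter fun z => G.Nd3 q {G.Co F} z).card :=
        two_le5 (mem_filter.2 ⟨hzy, hz3⟩) (mem_filter.2 ⟨G.sym _ _ hyl, hl3⟩) hzl'
      have hmu : ((G.nb y).filter fun z => G.Nd3 q {G.Co F} z ∧ G.Mut q F z).card ≤
          ((G.nb y).filter fun z => G.Nd3 q {G.Co F} z).card := by
        apply card_le_card
        intro v hv
        rw [mem_filter] at hv ⊢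
        exact ⟨hv.1, hv.2.1⟩
      have hW' : (2 : ℤ) ≤ ((∑ w ∈ G.nb y, G.wt q F y w : ℕ) : ℤ) := by exact_mod_cast hW
      have hnd' : (2 : ℤ) ≤ (((G.nb y).filter fun z => G.Nd3 q {G.Co F} z).card : ℤ) := by
        exact_mod_cast hnd
      have hmu' : (((G.nb y).filter fun z => G.Nd3 q {G.Co F} z ∧ G.Mut q F z).card : ℤ) ≤
          (((G.nb y).filter fun z => G.Nd3 q {G.Co F} z).card : ℤ) := by exact_mod_cast hmu
      have hnt : (0 : ℤ) ≤ (((G.nb y).filter fun z => G.NT q F z).card : ℤ) := by positivity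
      linarith

/-! ### assembly -/

open Classical in
/-- what `x` pays to `z` -/
noncomputable def pay38 (G : CG V) (q : V → V → Prop) (F : Finset V) (x z : V) : ℤ :=
  (if x ∈ F ∧ G.HubQ q x ∧ z ∈ G.nb x ∧ G.Nd3 q {G.Co F} z then
    (if G.Good q F x then 2 else if G.Mut q F z then 1 else 0) else 0) +
  (if x ∈ F ∧ G.HubQ q x ∧ z ∈ G.nb x ∧ G.NT q F z ∧ G.Good q F x then 1 else 0) +
  (if G.Cl q F x z then 2 else 0)

theorem pay_nonneg38 (x z : V) : 0 ≤ G.pay38 q F x z := by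
  classical
  unfold pay38
  have h1 : (0 : ℤ) ≤ (if G.Good q F x then 2 else if G.Mut q F z then 1 else 0) := by
    split_ifs <;> norm_num
  split_ifs <;> linarith

/-- a vertex that is not a hub in `F` and has no claimant pays nothing -/
theorem out_zero38 {z : V} (h1 : ¬ (z ∈ F ∧ G.HubQ q z)) (h2 : ¬ ∃ x, G.Cl q F z x) :
    ∑ x ∈ R {G.Co F}, G.pay38 q F z x = 0 := by
  refine sum_eq_zero fun x _ => ?_
  unfold pay38
  rw [if_neg (fun h => h1 ⟨h.1, h.2.1⟩), if_neg (fun h => h1 ⟨h.1, h.2.1⟩),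
    if_neg (fun h => h2 ⟨x, h⟩)]
  norm_num

/-- the payments of a hub in `F` -/
theorem out_hub38 (h5 : G.StL5 q) (c : G.Lc q F) {z : V} (hz : z ∈ F) (hh : G.HubQ q z) :
    ∑ x ∈ R {G.Co F}, G.pay38 q F z x ≤ G.ch3 q {G.Co F} z := by
  classical
  have hcl : ∀ x, ¬ G.Cl q F z x := fun x h => hh.1 h.2.1
  obtain ⟨hg, hb⟩ := h5 F c z hz hh
  have hcard : ∀ p : V → Prop, ∀ [DecidablePred p],
      (∑ x ∈ R {G.Co F}, if x ∈ G.nb z ∧ p x then (1 : ℤ) else 0) ≤
        (((G.nb z).filter p).card : ℤ) := by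
    intro p _
    rw [sum_ite, sum_const_zero, add_zero, sum_const, nsmul_eq_mul, mul_one]
    have : ((R {G.Co F}).filter fun x => x ∈ G.nb z ∧ p x).card ≤ ((G.nb z).filter p).card := by
      apply card_le_card
      intro x hx
      rw [mem_filter] at hx ⊢
      exact hx.2
    exact_mod_cast this
  by_cases hG : G.Good q F z
  · refine le_trans ?_ (hg hG)
    have e : ∀ x ∈ R {G.Co F}, G.pay38 q F z x =
        2 * (if x ∈ G.nb z ∧ G.Nd3 q {G.Co F} x then (1 : ℤ) else 0) +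
        (if x ∈ G.nb z ∧ G.NT q F x then (1 : ℤ) else 0) := by
      intro x _
      unfold pay38
      rw [if_neg (hcl x)]
      by_cases h1 : x ∈ G.nb z
      · by_cases h2 : G.Nd3 q {G.Co F} x
        · by_cases h3 : G.NT q F x
          · simp [hz, hh, h1, h2, h3, hG]
          · simp [hz, hh, h1, h2, h3, hG]
        · by_cases h3 : G.NT q F x
          · simp [hz, hh, h1, h2, h3, hG]
          · simp [hz, hh, h1, h2, h3, hG]
      · simp [h1]
    rw [sum_congr rfl e, sum_add_distrib, ← mul_sum]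
    have := hcard (fun x => G.Nd3 q {G.Co F} x)
    have := hcard (fun x => G.NT q F x)
    linarith
  · refine le_trans ?_ (hb hG)
    have e : ∀ x ∈ R {G.Co F}, G.pay38 q F z x =
        (if x ∈ G.nb z ∧ (G.Nd3 q {G.Co F} x ∧ G.Mut q F x) then (1 : ℤ) else 0) := by
      intro x _
      unfold pay38
      rw [if_neg (hcl x)]
      by_cases h1 : x ∈ G.nb z
      · by_cases h2 : G.Nd3 q {G.Co F} x
        · by_cases h3 : G.Mut q F x
          · simp [hz, hh, h1, h2, h3, hG]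
          · simp [hz, hh, h1, h2, h3, hG]
        · simp [h1, h2, hG]
      · simp [h1]
    rw [sum_congr rfl e]
    exact hcard (fun x => G.Nd3 q {G.Co F} x ∧ G.Mut q F x)

/-- the payments of a low vertex with a claimant -/
theorem out_low38 (h3 : G.StL3 q) (c : G.Lc q F) {z : V} (hl : G.Low z)
    (h : ∃ x, G.Cl q F z x) : ∑ x ∈ R {G.Co F}, G.pay38 q F z x ≤ G.ch3 q {G.Co F} z := by
  classical
  refine le_trans ?_ (h3 F c z h)
  have e : ∀ x ∈ R {G.Co F}, G.pay38 q F z x = 2 * (if G.Cl q F z x then (1 : ℤ) else 0) := by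
    intro x _
    unfold pay38
    rw [if_neg (fun h => h.2.1.1 hl), if_neg (fun h => h.2.1.1 hl)]
    by_cases h1 : G.Cl q F z x
    · simp [h1]
    · simp [h1]
  rw [sum_congr rfl e, ← mul_sum, sum_ite, sum_const_zero, add_zero, sum_const, nsmul_eq_mul,
    mul_one]
  have : ((R {G.Co F}).filter fun x => G.Cl q F z x).card ≤
      (univ.filter fun x => G.Cl q F z x).card :=
    card_le_card (filter_subset_filter _ (subset_univ _))
  have : (((R {G.Co F}).filter fun x => G.Cl q F z x).card : ℤ) ≤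
      ((univ.filter fun x => G.Cl q F z x).card : ℤ) := by exact_mod_cast this
  linarith

/-- a needy low vertex gets two -/
theorem inc_low38 (h0 : G.StL0 q) (c : G.Lc q F) {z : V} (hz : G.Nd3 q {G.Co F} z) :
    2 ≤ ∑ x ∈ R {G.Co F}, G.pay38 q F x z := by
  classical
  obtain ⟨hzT, hlow, hd, h⟩ := h0 F c z hz
  have one : ∀ x ∈ R {G.Co F}, 2 ≤ G.pay38 q F x z → 2 ≤ ∑ x ∈ R {G.Co F}, G.pay38 q F x z := by
    intro x hx h2
    exact le_trans h2 (single_le_sum (f := fun x => G.pay38 q F x z)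
      (fun x _ => pay_nonneg38 x z) hx)
  have hclaim : ∀ l, G.Cl q F l z → 2 ≤ ∑ x ∈ R {G.Co F}, G.pay38 q F x z := by
    intro l hl
    refine one l (c.TR hl.2.2.1) ?_
    unfold pay38
    rw [if_neg (fun h => h.2.1.1 hl.2.1), if_neg (fun h => h.2.1.1 hl.2.1), if_pos hl]
    norm_num
  by_cases hG : ∃ y ∈ G.nb z ∩ F, G.Good q F y
  · obtain ⟨y, hy, hg⟩ := hG
    obtain ⟨hy1, hy2⟩ := mem_inter.1 hy
    refine one y (c.FR hy2) ?_
    unfold pay38
    rw [if_pos ⟨hy2, hg.2.1, G.sym _ _ hy1, hz⟩, if_pos hg]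
    have h1 : (0 : ℤ) ≤ (if y ∈ F ∧ G.HubQ q y ∧ z ∈ G.nb y ∧ G.NT q F z ∧ G.Good q F y
        then 1 else 0) := by split_ifs <;> norm_num
    have h2 : (0 : ℤ) ≤ (if G.Cl q F y z then 2 else 0) := by split_ifs <;> norm_num
    linarith
  have hng : ∀ y ∈ G.nb z ∩ F, ¬ G.Good q F y := fun y hy hg => hG ⟨y, hy, hg⟩
  by_cases hM : G.Mut q F z
  · -- both neighbours in `F` pay 1
    have hhub : ∀ x ∈ G.nb z ∩ F, G.HubQ q x := by
      intro x hx
      rcases h with ⟨l, hl⟩ | ⟨a, b, hl⟩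
      · exact (hl.2.2.2.2.2.2 x hx).1
      · exact hl.2.2.2.2.1 x (mem_nR76.2 ⟨(mem_inter.1 hx).1, c.FR (mem_inter.1 hx).2⟩)
    have hone : ∀ x ∈ G.nb z ∩ F, 1 ≤ G.pay38 q F x z := by
      intro x hx
      obtain ⟨hx1, hx2⟩ := mem_inter.1 hx
      unfold pay38
      rw [if_pos ⟨hx2, hhub x hx, G.sym _ _ hx1, hz⟩, if_neg (hng x hx), if_pos hM]
      have h1 : (0 : ℤ) ≤ (if x ∈ F ∧ G.HubQ q x ∧ z ∈ G.nb x ∧ G.NT q F z ∧ G.Good q F x
          then 1 else 0) := by split_ifs <;> norm_num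
      have h2 : (0 : ℤ) ≤ (if G.Cl q F x z then 2 else 0) := by split_ifs <;> norm_num
      linarith
    calc (2 : ℤ) = ∑ x ∈ G.nb z ∩ F, (1 : ℤ) := by
          have : (G.nb z ∩ F).card = 2 := hd
          rw [sum_const, this]
          norm_num
      _ ≤ ∑ x ∈ G.nb z ∩ F, G.pay38 q F x z := sum_le_sum hone
      _ ≤ ∑ x ∈ R {G.Co F}, G.pay38 q F x z :=
          sum_le_sum_of_subset_of_nonneg (fun x hx => c.FR (mem_inter.1 hx).2)
            (fun x _ _ => pay_nonneg38 x z)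
  · rcases h with ⟨l, hl⟩ | ⟨a, b, hl⟩
    · exact hclaim l ⟨hz, hl.2.2.1, hl.2.1, hng, hM, Or.inl hl.1⟩
    · exact hclaim b ⟨hz, hl.2.2.2.1.2.1, hl.2.2.1, hng, hM, Or.inr ⟨a, hl.2.1, hl.1,
        hl.2.2.2.1⟩⟩

/-- a needy vertex of a chosen pair gets one -/
theorem inc_tw38 (h4 : G.StL4 q) (c : G.Lc q F) {z : V} (hz : G.NT q F z) :
    1 ≤ ∑ x ∈ R {G.Co F}, G.pay38 q F x z := by
  classical
  obtain ⟨y, hy, hg⟩ := h4 F c z hz
  obtain ⟨hy1, hy2⟩ := mem_inter.1 hy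
  refine le_trans ?_ (single_le_sum (f := fun x => G.pay38 q F x z)
    (fun x _ => pay_nonneg38 x z) (c.FR hy2))
  change 1 ≤ G.pay38 q F y z
  unfold pay38
  rw [if_neg (fun h : y ∈ F ∧ G.HubQ q y ∧ z ∈ G.nb y ∧ G.Nd3 q {G.Co F} z =>
      q_not_low76 c.qs hz.1 h.2.2.2.2.1),
    if_pos ⟨hy2, hg.2.1, G.sym _ _ hy1, hz, hg⟩]
  have h2 : (0 : ℤ) ≤ (if G.Cl q F y z then 2 else 0) := by split_ifs <;> norm_num
  linarith

theorem stLf45_38 (G : CG V) (q : V → V → Prop) (h7 : G.StTwHL) (hL : G.StLeaf)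
    (hId : G.StId3 q) (hPs : G.StPs3 q) (hCov : G.StCov3 q) (hCh : G.StCh3 q) (hH : G.StHub3 q)
    (hLow : G.StLow3 q) (h0 : G.StL0 q) (h3 : G.StL3 q) (h4 : G.StL4 q) (h5 : G.StL5 q) :
    G.StLf45 q := by
  classical
  intro hQ F hF h45
  rw [leafSum38 hId hPs hL hF]
  have c : G.Lc q F := ⟨⟨hF, hL, h7⟩, hQ, leafTorso38 hCov hL hQ hF, h45⟩
  have e : ∑ z ∈ R {G.Co F}, G.ch3 q {G.Co F} z = ∑ z ∈ R {G.Co F}, (G.ch3 q {G.Co F} z +
      ∑ x ∈ R {G.Co F}, G.pay38 q F x z - ∑ x ∈ R {G.Co F}, G.pay38 q F z x) := by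
    rw [sum_sub_distrib, sum_add_distrib]
    rw [sum_comm (s := R {G.Co F}) (t := R {G.Co F}) (f := fun z x => G.pay38 q F x z)]
    ring
  rw [e]
  refine sum_nonneg fun z hz => ?_
  have hinc : 0 ≤ ∑ x ∈ R {G.Co F}, G.pay38 q F x z := sum_nonneg fun x _ => pay_nonneg38 x z
  rcases tri76 G q z with hl | hq | hh
  · -- low
    by_cases hcl : ∃ x, G.Cl q F z x
    · have := out_low38 h3 c hl hcl
      linarith
    rw [out_zero38 (fun h => h.2.1 hl) hcl, sub_zero]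
    rcases c.lf.memR.1 hz with hzF | hzT
    · have h6 := ((hCh hQ c.tor.n9 _ c.tor.reg c.tor.big z hz).1 hl).1 (c.lf.I0 hzF)
      have h8 := ((hLow hQ _ c.tor z hz).1 hl).1 (c.lf.I0 hzF)
      have h9 : (4 : ℤ) ≤ 2 * (G.tl {G.Co F} z : ℤ) + (G.tq q {G.Co F} z : ℤ) +
        2 * (G.tA {G.Co F} z : ℤ) := by exact_mod_cast h8
      linarith
    · have h6 := ((hCh hQ c.tor.n9 _ c.tor.reg c.tor.big z hz).1 hl).2.1 _ (c.lf.I1 hzT)
      have hr := c.lf.exp1 hzT
      have h8 := ((hLow hQ _ c.tor z hz).1 hl).2 _ (c.lf.I1 hzT)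
      rw [c.lf.coCo] at h6 h8
      have h8' := h8 (by omega)
      have hev := (hLow hQ _ c.tor z hz).2.2
      have hr' : (2 : ℤ) ≤ (G.d z F : ℤ) := by exact_mod_cast hr
      have h9 : (2 : ℤ) ≤ 2 * (G.tl {G.Co F} z : ℤ) + (G.tq q {G.Co F} z : ℤ) +
        2 * (G.tA {G.Co F} z : ℤ) := by exact_mod_cast h8'
      have hf1 : (0 : ℤ) ≤ (if G.FL (G.Co F) z then 2 else 0) := by split_ifs <;> norm_num
      by_cases hfl : G.FL F z
      · have h10 : G.d z F = 4 := hfl.2.2.1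
        rw [if_pos hfl, h10] at h6
        push_cast at h6
        linarith
      · rw [if_neg hfl] at h6
        by_cases hr3 : 3 ≤ G.d z F
        · have : (3 : ℤ) ≤ (G.d z F : ℤ) := by exact_mod_cast hr3
          linarith
        · have hr2 : G.d z F = 2 := by omega
          rw [hr2] at h6
          push_cast at h6
          by_cases hS : 2 * G.tl {G.Co F} z + G.tq q {G.Co F} z + 2 * G.tA {G.Co F} z = 2
          · have hnd : G.Nd3 q {G.Co F} z :=
              ⟨hz, hl, G.Co F, c.lf.I1 hzT, by rw [c.lf.coCo]; exact hr2, hS⟩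
            have := inc_low38 h0 c hnd
            linarith
          · obtain ⟨k, hk⟩ := hev
            have h11 : 4 ≤ 2 * G.tl {G.Co F} z + G.tq q {G.Co F} z + 2 * G.tA {G.Co F} z := by
              omega
            have h12 : (4 : ℤ) ≤ 2 * (G.tl {G.Co F} z : ℤ) + (G.tq q {G.Co F} z : ℤ) +
              2 * (G.tA {G.Co F} z : ℤ) := by exact_mod_cast h11
            linarith
  · -- chosen pair
    rw [out_zero38 (fun h => h.2.2 hq) (fun ⟨x, h⟩ => q_not_low76 hQ hq h.2.1), sub_zero]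
    rcases c.lf.memR.1 hz with hzF | hzT
    · have h6 := ((hCh hQ c.tor.n9 _ c.tor.reg c.tor.big z hz).2.1 hq).1 (c.lf.I0 hzF)
      have h8 := ((hLow hQ _ c.tor z hz).2.1 hq).1 (c.lf.I0 hzF)
      have h9 : (4 : ℤ) ≤ 2 * (G.tl {G.Co F} z : ℤ) + (G.tq q {G.Co F} z : ℤ) := by
        exact_mod_cast h8
      linarith
    · have h6 := ((hCh hQ c.tor.n9 _ c.tor.reg c.tor.big z hz).2.1 hq).2.1 _ (c.lf.I1 hzT)
      have hr := c.lf.exp1 hzT
      have h8 := ((hLow hQ _ c.tor z hz).2.1 hq).2 _ (c.lf.I1 hzT)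
      rw [c.lf.coCo] at h6 h8
      have h8' := h8 (by omega)
      have hr' : (2 : ℤ) ≤ (G.d z F : ℤ) := by exact_mod_cast hr
      have h9 : (2 : ℤ) ≤ 2 * (G.tl {G.Co F} z : ℤ) + (G.tq q {G.Co F} z : ℤ) := by
        exact_mod_cast h8'
      by_cases hr3 : 3 ≤ G.d z F
      · have : (3 : ℤ) ≤ (G.d z F : ℤ) := by exact_mod_cast hr3
        linarith
      · have hr2 : G.d z F = 2 := by omega
        by_cases hS : 2 * G.tl {G.Co F} z + G.tq q {G.Co F} z = 2
        · have := inc_tw38 h4 c (z := z) ⟨hq, hzT, hr2, hS⟩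
          linarith
        · have h11 : 3 ≤ 2 * G.tl {G.Co F} z + G.tq q {G.Co F} z := by omega
          have h12 : (3 : ℤ) ≤ 2 * (G.tl {G.Co F} z : ℤ) + (G.tq q {G.Co F} z : ℤ) := by
            exact_mod_cast h11
          linarith
  · -- hub
    rcases c.lf.memR.1 hz with hzF | hzT
    · have := out_hub38 h5 c hzF hh
      linarith
    · rw [out_zero38 (fun h => c.lf.ndisj h.1 hzT) (fun ⟨x, h⟩ => hh.1 h.2.1), sub_zero]
      have h6 := ((hCh hQ c.tor.n9 _ c.tor.reg c.tor.big z hz).2.2 hh).2.1 _ (c.lf.I1 hzT)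
      have h8 := (hH hQ _ c.tor z hz hh).2 _ (c.lf.I1 hzT)
      rw [c.lf.coCo] at h8
      have h8' := h8 (c.lf.exp1 hzT)
      have h9 : (2 : ℤ) ≤ 2 * (G.tp {G.Co F} z : ℤ) + (G.tq q {G.Co F} z : ℤ) := by
        exact_mod_cast h8'
      linarith

end CG

end Pool.Agent.Lib.MP_e95c01_co.N
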