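import Pool.Agent.Lib.MP_e95c01_co.T.Lf11

/-!
# T10: leaves (second part): needy low vertices
-/

namespace Pool.Agent.Lib.MP_e95c01_co.N

open Finset

variable {V : Type} [Fintype V] [DecidableEq V]

namespace CG

/-- first form of a needy low vertex -/
def LO11 (G : CG V) (q : V → V → Prop) (F : Finset V) (z l : V) : Prop :=
  l ∈ G.N F ∧ G.Low l ∧ l ∈ G.nb z ∧ (∀ y ∈ G.nR {G.Co F} z, G.Low y → y = l) ∧
    (∀ y ∈ G.nR {G.Co F} z, ¬ ∃ b, G.HL y b z) ∧
    ∀ x ∈ G.nb z, x ∈ F → G.HubQ q x ∧ (x ∈ G.nb l ∨ ∃ v ∈ R {G.Co F}, G.LL l v z x)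

/-- second form of a needy low vertex -/
def HC11 (G : CG V) (q : V → V → Prop) (F : Finset V) (z a b : V) : Prop :=
  a ∈ G.N F ∧ b ∈ G.N F ∧ a ∈ G.nb z ∧ G.HL a b z ∧ (∀ y ∈ G.nR {G.Co F} z, G.HubQ q y) ∧
    (∀ y ∈ G.nR {G.Co F} z, (∃ b', G.HL y b' z) → y = a) ∧
    ∀ x ∈ G.nb z, x ∈ F → x ∈ G.nb b

/-- `z` claims a payment from `l` -/
def CL11 (G : CG V) (q : V → V → Prop) (F : Finset V) (l z : V) : Prop :=
  G.Ny11 q F z ∧ G.Low l ∧ l ∈ G.N F ∧
    (l ∈ G.nb z ∨ (4 ≤ G.d l F ∧ ∃ a ∈ G.nR {G.Co F} z, G.HL a l z))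

open Classical in
/-- number of claims -/
noncomputable def cc11 (G : CG V) (q : V → V → Prop) (F : Finset V) (l : V) : ℕ :=
  (univ.filter fun z => G.CL11 q F l z).card

/-- mutual pairs -/
def Mut11 (G : CG V) (q : V → V → Prop) (F : Finset V) (z : V) : Prop :=
  G.Ny11 q F z ∧ ∃ l, G.Ny11 q F l ∧ l ∈ G.nb z ∧ G.nb l ∩ F = G.nb z ∩ F

variable {G : CG V} {q : V → V → Prop} {F : Finset V}

namespace Cx11

theorem nd (k : Cx11 G q F) {z : V} (hz : G.Ny11 q F z) :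
    (∃ l, G.LO11 q F z l) ∨ ∃ a b, G.HC11 q F z a b := by
  classical
  obtain ⟨h1, h2, h3, h4⟩ := hz
  have hzR := k.c.memR.2 (Or.inr h1)
  have hI := k.c.I1 h1
  have hnd : G.Nd3 q {G.Co F} z := ⟨hzR, h2, _, hI, by rw [k.co_d]; exact h3, h4⟩
  have hX : ∀ x, x ∈ G.nb z ∩ G.Co (G.Co F) ↔ x ∈ G.nb z ∧ x ∈ F := by
    intro x
    rw [k.c.coCo, mem_inter]
  have hyp : ∀ y ∈ G.nb z, IsQ q y → G.I {G.Co F} y = {G.Co F} →
      3 ≤ ((G.nb y ∪ G.nb z) ∩ G.Co (G.Co F)).card := by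
    intro y hy hyq hyI
    rw [k.c.coCo]
    have hyT : y ∈ G.N F := by
      have : G.Co F ∈ G.I {G.Co F} y := by rw [hyI]; exact mem_singleton_self _
      rw [← k.c.coN]
      exact (mem_I76.1 this).2
    obtain ⟨y', hy'⟩ := hyq
    have ht := k.hq.tw _ _ hy'
    have hyT' := k.c.twT hyT ht
    have e1 : z ≠ y := ne_of_nb5 hy
    have e2 : y ≠ y' := ne_of_nb5 ht.1
    have e3 : z ≠ y' := by
      rintro rfl
      exact not_low33 ⟨y, ht.sym33⟩ h2
    have hs : ({z, y, y'} : Finset V) ⊆ G.N F := by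
      intro x hx
      simp only [mem_insert, mem_singleton] at hx
      rcases hx with rfl | rfl | rfl <;> assumption
    have hc : ({z, y, y'} : Finset V).card = 3 := card_eq_three.2 ⟨z, y, y', e1, e3, e2, rfl⟩
    have h5 := (k.expZ (Z := {z, y, y'}) (insert_nonempty _ _) hs hc.le).1
    rw [hc] at h5
    refine h5.trans (card_le_card ?_)
    intro x hx
    rw [mem_inter] at hx
    obtain ⟨u, hu, hxu⟩ := (k.c.NZ hs hx.2).1 hx.1
    rw [mem_inter, mem_union]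
    refine ⟨?_, hx.2⟩
    simp only [mem_insert, mem_singleton] at hu
    rcases hu with rfl | rfl | rfl
    · exact Or.inr hxu
    · exact Or.inl hxu
    · refine Or.inl (ht.sym33.nb33 hxu ?_)
      rintro rfl
      exact k.c.ndisj hx.2 hyT
  rcases k.hN k.hq _ k.tor z hnd _ hI hyp with h | h
  · left
    obtain ⟨l, hl, h5, h6, h7, -, h9, h10⟩ := h
    rw [mem_nR76] at hl
    have hlT : l ∈ G.N F := by
      rw [← k.c.coN]
      exact (mem_I76.1 h6).2
    exact ⟨l, hlT, h5, hl.1, h7, h9, fun x hx hxF => h10 x ((hX x).2 ⟨hx, hxF⟩)⟩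
  · right
    obtain ⟨a, ha, b, hb, h5, h6, h7, h8, h9, h10⟩ := h
    rw [mem_nR76] at ha
    have haT : a ∈ G.N F := by
      rw [← k.c.coN]
      exact (mem_I76.1 h6).2
    have hbT : b ∈ G.N F := by
      rw [← k.c.coN]
      exact (mem_I76.1 (h7 ▸ h6)).2
    exact ⟨a, b, haT, hbT, ha.1, h5, h8, h9, fun x hx hxF => (h10 x ((hX x).2 ⟨hx, hxF⟩)).2⟩

theorem inR (k : Cx11 G q F) {z x : V} (hx : x ∈ G.nb z) (h : x ∈ F ∨ x ∈ G.N F) :
    x ∈ G.nR {G.Co F} z := mem_nR76.2 ⟨hx, k.c.memR.2 h⟩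

/-- the neighbours of a needy low vertex in `F` are hubs -/
theorem hubX (k : Cx11 G q F) {z x : V} (hz : G.Ny11 q F z) (hx : x ∈ G.nb z) (hxF : x ∈ F) :
    G.HubQ q x ∧ ¬ ∃ b, G.HL x b z := by
  rcases k.nd hz with ⟨l, h⟩ | ⟨a, b, h⟩
  · exact ⟨(h.2.2.2.2.2 x hx hxF).1, h.2.2.2.2.1 x (k.inR hx (Or.inl hxF))⟩
  · refine ⟨h.2.2.2.2.1 x (k.inR hx (Or.inl hxF)), fun h1 => ?_⟩
    have h2 := h.2.2.2.2.2.1 x (k.inR hx (Or.inl hxF)) h1
    subst h2
    exact k.c.ndisj hxF h.1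

theorem pays (k : Cx11 G q F) {z y : V} (hz : G.Ny11 q F z) (hy : y ∈ G.nb z) (hyF : y ∈ F) :
    ∀ w ∈ G.nb y, G.Low w → ¬ G.Ny11 q F w → ¬ ∃ b, G.HL y b w := by
  intro w hw _ hn
  refine k.paysG hz.1 (G.sym _ _ hy) (fun x hx hxF => (k.hubX hz hx hxF).1.1) hyF hw ?_
  rintro rfl
  exact hn hz

/-- a needy vertex has two neighbours in `F` -/
theorem exX (k : Cx11 G q F) {z : V} (h : G.d z F = 2) : ∃ x1 x2, x1 ≠ x2 ∧ x1 ∈ G.nb z ∧
    x1 ∈ F ∧ x2 ∈ G.nb z ∧ x2 ∈ F ∧ ∀ x ∈ G.nb z, x ∈ F → x = x1 ∨ x = x2 := by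
  obtain ⟨x1, x2, h1, h2⟩ := card_eq_two.1 h
  have h3 : ∀ x, x ∈ G.nb z ∧ x ∈ F ↔ x = x1 ∨ x = x2 := by
    intro x
    rw [← mem_inter, h2, mem_insert, mem_singleton]
  obtain ⟨h4, h5⟩ := (h3 x1).2 (Or.inl rfl)
  obtain ⟨h6, h7⟩ := (h3 x2).2 (Or.inr rfl)
  exact ⟨x1, x2, h1, h4, h5, h6, h7, fun x hx hxF => (h3 x).1 ⟨hx, hxF⟩⟩

/-- if a needy vertex is near `l`, it is of the first form -/
theorem lo_of (k : Cx11 G q F) {z l : V} (hz : G.Ny11 q F z) (hl : l ∈ G.nb z) (hlow : G.Low l)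
    (hlT : l ∈ G.N F) : G.LO11 q F z l := by
  rcases k.nd hz with ⟨l', h⟩ | ⟨a, b, h⟩
  · have := h.2.2.2.1 l (k.inR hl (Or.inr hlT)) hlow
    rw [this]
    exact h
  · exact absurd hlow (h.2.2.2.2.1 l (k.inR hl (Or.inr hlT))).1

/-- at most one vertex of `N F` is near a vertex of `N F` with four neighbours in `F` -/
theorem four_T (k : Cx11 G q F) {l z : V} (hl : l ∈ G.N F) (hlow : G.Low l) (h4 : 4 ≤ G.d l F)
    (hz : z ∈ G.nb l) (hzT : z ∈ G.N F) : G.d l F = 4 ∧ G.nb l ∩ G.N F = {z} := by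
  have h1 := k.c.vis hl (Or.inl hlow)
  have h2 : 1 ≤ G.d l (G.N F) := d_one33 hzT hz
  refine ⟨by omega, ?_⟩
  have h3 : (G.nb l ∩ G.N F).card = 1 := by
    have : G.d l (G.N F) = 1 := by omega
    exact this
  obtain ⟨u, hu⟩ := card_eq_one.1 h3
  have h5 : z ∈ G.nb l ∩ G.N F := mem_inter.2 ⟨hz, hzT⟩
  rw [hu, mem_singleton] at h5
  rw [hu, h5]

theorem caseHC (k : Cx11 G q F) {z a b : V} (hz : G.Ny11 q F z) (h : G.HC11 q F z a b) :
    (∃ y ∈ G.nb z, G.Gd11 q F y) ∨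
      ∃ l, G.CL11 q F l z ∧ 2 * (G.cc11 q F l : ℤ) ≤ G.ch3 q {G.Co F} l := by
  classical
  obtain ⟨haT, hbT, haz, hHL, hhub, huni, hX⟩ := h
  have hba := HL_b76 hHL
  have hblow : G.Low b := hHL.2.1
  have hab : a ∈ G.nb b := G.sym _ _ hba
  obtain ⟨hzb1, hzb2⟩ := HL_bt76 hHL
  have e1 : z ≠ a := ne_of_nb5 haz
  have e2 : a ≠ b := ne_of_nb5 hba
  have hs : ({z, a, b} : Finset V) ⊆ G.N F := by
    intro x hx
    simp only [mem_insert, mem_singleton] at hx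
    rcases hx with rfl | rfl | rfl
    · exact hz.1
    · exact haT
    · exact hbT
  have hc : ({z, a, b} : Finset V).card = 3 := card_eq_three.2 ⟨z, a, b, e1, hzb2, e2, rfl⟩
  have hne : ({z, a, b} : Finset V).Nonempty := insert_nonempty _ _
  have hsub : G.N {z, a, b} ∩ F ⊆ G.nb b ∩ F := by
    intro x hx
    rw [mem_inter] at hx
    obtain ⟨u, hu, hxu⟩ := (k.c.NZ hs hx.2).1 hx.1
    refine mem_inter.2 ⟨?_, hx.2⟩
    simp only [mem_insert, mem_singleton] at hu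
    rcases hu with rfl | rfl | rfl
    · exact hX x hxu hx.2
    · rcases HL_sup76 hHL hxu (fun e => k.c.ndisj (e ▸ hx.2) hz.1) with h1 | h1
      · exact absurd hbT (k.c.ndisj (h1 ▸ hx.2))
      · exact h1
    · exact hxu
  have h5 := (k.expZ hne hs hc.le).1
  have h6 := card_le_card hsub
  have h7 : (G.nb b ∩ F).card = G.d b F := rfl
  have h8 := k.c.vis hbT (Or.inl hblow)
  have h9 : 1 ≤ G.d b (G.N F) := d_one33 haT hab
  rcases Nat.lt_or_ge (G.d b F) 4 with h10 | h10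
  · left
    have he : (G.N {z, a, b} ∩ F).card = ({z, a, b} : Finset V).card := by omega
    obtain ⟨x1, -, -, g1, g2, -, -, -⟩ := k.exX hz.2.2.1
    have hxb := hX x1 g1 g2
    have hxh := (k.hubX hz g1 g2).1
    have hxN : x1 ∈ G.N {z, a, b} := (k.c.NZ hs g2).2 ⟨z, mem_insert_self _ _, g1⟩
    obtain ⟨p, hp, hpc, hpZ, hpn⟩ := k.payer hne hs hc.le he g2 hxN hxh
    refine ⟨x1, g1, k.good_of g2 hxh hp (k.inR (G.sym _ _ hxb) (Or.inr hbT)) hpc (Or.inl hblow) ?_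
      ?_ hpn (k.Ny_not (Or.inr (by omega))) (k.pays hz g1 g2)⟩
    · rintro rfl
      exact hpZ (by simp)
    · intro hqp
      exact q_not_low76 k.hq ⟨p, k.hq.symm _ _ hqp⟩ hblow
  · right
    obtain ⟨h11, h12⟩ := k.four_T hbT hblow h10 hab haT
    refine ⟨b, ⟨hz, hblow, hbT, Or.inr ⟨h10, a, k.inR haz (Or.inr haT), hHL⟩⟩, ?_⟩
    have huz : ∀ z', G.CL11 q F b z' → z' = z := by
      rintro z' ⟨g1, -, -, g2⟩
      rcases g2 with g2 | ⟨-, a', ha', g2⟩
      · have g3 : z' ∈ G.nb b ∩ G.N F := mem_inter.2 ⟨G.sym _ _ g2, g1.1⟩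
        rw [h12, mem_singleton] at g3
        subst g3
        exact absurd g1.2.1 (HL_not_low76 hHL)
      · have g4 := k.c.memR.1 (mem_nR76.1 ha').2
        have g5 : a' ∈ G.N F := by
          rcases g4 with g4 | g4
          · exact absurd hbT (k.c.ndisj ((k.c.hlF (Or.inl g4) (Or.inr hbT) (Or.inr g1.1) g2).1 g4))
          · exact g4
        have g6 : a' ∈ G.nb b ∩ G.N F := mem_inter.2 ⟨G.sym _ _ (HL_b76 g2), g5⟩
        rw [h12, mem_singleton] at g6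
        subst g6
        by_contra hne'
        rcases HL_sup76 hHL (HL_t76 g2) hne' with g7 | g7
        · exact (HL_bt76 g2).2 g7
        · exact (HL_bt76 g2).1 g7
    have hcc : G.cc11 q F b ≤ 1 := by
      rw [cc11, card_le_one]
      intro z1 hz1 z2 hz2
      rw [mem_filter] at hz1 hz2
      rw [huz z1 hz1.2, huz z2 hz2.2]
    have hfl : ¬ G.FL F b := by
      rintro ⟨-, -, -, a', b', g1, g2, -, g3⟩
      rw [h12, singleton_inj] at g3
      subst g3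
      exact k.c.th.nomut k.c.n9 _ _ _ _ _ g1 hHL rfl
    obtain ⟨-, g1, g2, -⟩ := k.chT_low hbT hblow
    have g3 := g1 hfl
    omega

theorem cc_one (_ : Cx11 G q F) {l z : V} (h : ∀ z', G.CL11 q F l z' → z' = z) :
    G.cc11 q F l ≤ 1 := by
  classical
  rw [cc11, card_le_one]
  intro z1 hz1 z2 hz2
  rw [mem_filter] at hz1 hz2
  rw [h z1 hz1.2, h z2 hz2.2]

/-- `LL l v z x` with `z` near `l`: the neighbours of `l` in `F` are neighbours of `v` -/
theorem LLv (k : Cx11 G q F) {l v z x : V} (hlT : l ∈ G.N F) (hzT : z ∈ G.N F) (hxF : x ∈ F)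
    (hvR : v ∈ R {G.Co F}) (h : G.LL l v z x) : v ∈ G.N F ∧ G.Low v ∧ v ∈ G.nb l ∧ v ≠ z ∧
      x ∈ G.nb v ∧ x ∉ G.nb l ∧ (∀ y ∈ G.nb l, y ∈ F → y ∈ G.nb v) ∧ 1 + G.d l F ≤ G.d v F := by
  have h1 := LL_I76 h (k.c.memR.2 (Or.inr hlT)) hvR (k.c.memR.2 (Or.inr hzT))
    (k.c.memR.2 (Or.inl hxF))
  have hvT : v ∈ G.N F := by
    rw [k.c.I1 hlT] at h1
    have h2 : G.Co F ∈ G.I {G.Co F} v := by rw [← h1]; exact mem_singleton_self _
    rw [← k.c.coN]
    exact (mem_I76.1 h2).2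
  have h3 : ∀ y ∈ G.nb l, y ∈ F → y ∈ G.nb v := by
    intro y hy hyF
    rcases LL_to76 h hy (fun e => k.c.ndisj (e ▸ hyF) hzT) with h4 | h4
    · exact absurd hvT (k.c.ndisj (h4 ▸ hyF))
    · exact h4
  refine ⟨hvT, h.2.1, LL_ab76 h, (LL_tb76 h).2.symm, LL_u76 h, (LL_ua76 h).1, h3, ?_⟩
  have h5 : insert x (G.nb l ∩ F) ⊆ G.nb v ∩ F := by
    intro y hy
    rcases mem_insert.1 hy with rfl | hy
    · exact mem_inter.2 ⟨LL_u76 h, hxF⟩
    · rw [mem_inter] at hy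
      exact mem_inter.2 ⟨h3 y hy.1 hy.2, hy.2⟩
  have h6 := card_le_card h5
  rw [card_insert_of_notMem (fun h7 => (LL_ua76 h).1 (mem_inter.1 h7).1)] at h6
  unfold d
  omega

theorem caseLO (k : Cx11 G q F) {z l : V} (hz : G.Ny11 q F z) (h : G.LO11 q F z l) :
    (∃ y ∈ G.nb z, G.Gd11 q F y) ∨
      (∃ l, G.CL11 q F l z ∧ 2 * (G.cc11 q F l : ℤ) ≤ G.ch3 q {G.Co F} l) ∨
      G.Mut11 q F z := by
  classical
  obtain ⟨hlT, hlow, hlz, huni, hnoHL, hX⟩ := h
  have hzl : z ∈ G.nb l := G.sym _ _ hlz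
  have hzne : z ≠ l := ne_of_nb5 hlz
  have hCL : G.CL11 q F l z := ⟨hz, hlow, hlT, Or.inl hlz⟩
  obtain ⟨c1, c2, c3, c4⟩ := k.chT_low hlT hlow
  have hd2 := k.c.exp1 hlT
  rcases Nat.lt_or_ge (G.d l F) 4 with h4 | h4
  swap
  · -- four neighbours in `F`
    right
    left
    obtain ⟨h5, h6⟩ := k.four_T hlT hlow h4 hzl hz.1
    refine ⟨l, hCL, ?_⟩
    have hcc := k.cc_one (l := l) (z := z) (by
      rintro z' ⟨g1, -, -, g2⟩
      rcases g2 with g2 | ⟨-, a', ha', g2⟩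
      · have g3 : z' ∈ G.nb l ∩ G.N F := mem_inter.2 ⟨G.sym _ _ g2, g1.1⟩
        rw [h6, mem_singleton] at g3
        exact g3
      · have g4 := k.c.memR.1 (mem_nR76.1 ha').2
        have g5 : a' ∈ G.N F := by
          rcases g4 with g4 | g4
          · exact absurd hlT (k.c.ndisj ((k.c.hlF (Or.inl g4) (Or.inr hlT) (Or.inr g1.1) g2).1 g4))
          · exact g4
        have g6 : a' ∈ G.nb l ∩ G.N F := mem_inter.2 ⟨G.sym _ _ (HL_b76 g2), g5⟩
        rw [h6, mem_singleton] at g6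
        subst g6
        exact absurd hz.2.1 (HL_not_low76 g2))
    have hfl : ¬ G.FL F l := by
      rintro ⟨-, -, -, a', b', g1, g2, -, g3⟩
      rw [h6, singleton_inj] at g3
      subst g3
      exact HL_not_low76 g1 hz.2.1
    have := c2 hfl
    omega
  have hfl : ¬ G.FL F l := fun h5 => by
    have := h5.2.2.1
    omega
  have c5 := c2 hfl
  have hclaim : ∀ z', G.CL11 q F l z' → G.Ny11 q F z' ∧ l ∈ G.nb z' := by
    rintro z' ⟨g1, -, -, g2⟩
    rcases g2 with g2 | ⟨g2, -⟩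
    · exact ⟨g1, g2⟩
    · omega
  have hsub : (univ.filter fun z => G.CL11 q F l z) ⊆
      (G.nR {G.Co F} l).filter fun x => G.Low x := by
    intro z' hz'
    rw [mem_filter] at hz' ⊢
    obtain ⟨g1, g2⟩ := hclaim z' hz'.2
    exact ⟨k.inR (G.sym _ _ g2) (Or.inr g1.1), g1.2.1⟩
  have hcc : (univ.filter fun z => G.CL11 q F l z).card = G.cc11 q F l := by
    rw [cc11]
  have htl : ((G.nR {G.Co F} l).filter fun x => G.Low x).card = G.tl {G.Co F} l := by
    rw [tl]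
  have hle := card_le_card hsub
  rw [hcc, htl] at hle
  rcases Nat.lt_or_ge (G.d l F) 3 with h3 | h3
  swap
  · -- three neighbours in `F`
    have h3' : G.d l F = 3 := by omega
    by_cases hB : 2 * (G.cc11 q F l : ℤ) ≤ G.ch3 q {G.Co F} l
    · exact Or.inr (Or.inl ⟨l, hCL, hB⟩)
    left
    have e1 : G.tl {G.Co F} l = G.cc11 q F l := by omega
    have e2 : G.tA {G.Co F} l = 0 := by omega
    have e3 : G.tq q {G.Co F} l = 0 := by
      obtain ⟨j, hj⟩ := c4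
      omega
    have hall : ∀ y ∈ G.nR {G.Co F} l, G.Low y → G.Ny11 q F y ∧ l ∈ G.nb y := by
      intro y hy hylow
      have g1 := eq_of_subset_of_card_le hsub (by rw [hcc, htl]; exact e1.le)
      have g2 : y ∈ (G.nR {G.Co F} l).filter fun x => G.Low x := mem_filter.2 ⟨hy, hylow⟩
      rw [← g1, mem_filter] at g2
      exact hclaim y g2.2
    have hXl : ∀ z', G.Ny11 q F z' → l ∈ G.nb z' → ∀ x ∈ G.nb z', x ∈ F → x ∈ G.nb l := by
      intro z' hz' hl' x hx hxF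
      have g1 := k.lo_of hz' hl' hlow hlT
      rcases (g1.2.2.2.2.2 x hx hxF).2 with g2 | ⟨v, hv, g2⟩
      · exact g2
      · exfalso
        obtain ⟨f1, f2, f3, f4, f5, f6, f7, f8⟩ := k.LLv hlT hz'.1 hxF hv g2
        have g3 := (hall v (k.inR f3 (Or.inr f1)) f2).1.2.2.1
        omega
    have hcl : ∀ y ∈ G.nb l, y ∈ F → ∃ z', G.Ny11 q F z' ∧ l ∈ G.nb z' ∧ y ∈ G.nb z' := by
      intro y hy hyF
      have hm : G.m {G.Co F} l y = 0 := by
        rw [m_comm76]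
        exact m_empty5 (k.c.I0 hyF)
      rcases cov3_76 k.hq k.tor (k.c.memR.2 (Or.inr hlT)) (k.inR hy (Or.inl hyF)) hm with
        g | g | g | g | g
      · obtain ⟨w, hw, -, g1, g2⟩ := g
        obtain ⟨g3, g4⟩ := hall w hw g1
        exact ⟨w, g3, g4, g2⟩
      · obtain ⟨v, w, hv, -, g1, -⟩ := g
        have : 1 ≤ G.tq q {G.Co F} l := tq_mem76 hv ⟨⟨w, g1⟩, fun g2 =>
          q_not_low76 k.hq ⟨v, g2⟩ hlow⟩
        omega
      · obtain ⟨a, b, ha, -, -, g1, -⟩ := g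
        have := tA_mem5 ha g1
        omega
      · obtain ⟨a, b, -, -, g1, -⟩ := g
        have := (hall y (k.inR hy (Or.inl hyF)) g1).1.1
        exact absurd this (k.c.ndisj hyF)
      · obtain ⟨a, b, ha, hb, -, g1⟩ := g
        exfalso
        obtain ⟨g2, g3⟩ := hall a ha g1.1
        have g4 := k.lo_of g2 g3 hlow hlT
        have g5 := g4.2.2.2.1 b (mem_nR76.2 ⟨LL_ab76 g1, hb⟩) g1.2.1
        exact (LL_tb76 g1).2 g5.symm
    -- a second claimant
    obtain ⟨y0, hy0, hy0F, hy0z⟩ : ∃ y ∈ G.nb l, y ∈ F ∧ y ∉ G.nb z := by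
      by_contra hcon
      push Not at hcon
      have g1 : G.nb l ∩ F ⊆ G.nb z ∩ F := by
        intro y hy
        rw [mem_inter] at hy
        exact mem_inter.2 ⟨hcon y hy.1 hy.2, hy.2⟩
      have g2 := card_le_card g1
      have g3 := hz.2.2.1
      unfold d at g3 h3'
      omega
    obtain ⟨z2, hz2, hlz2, hyz2⟩ := hcl y0 hy0 hy0F
    have n1 : z ≠ z2 := by
      rintro rfl
      exact hy0z hyz2
    have n2 : z2 ≠ l := ne_of_nb5 hlz2
    have hs : ({z, z2, l} : Finset V) ⊆ G.N F := by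
      intro x hx
      simp only [mem_insert, mem_singleton] at hx
      rcases hx with rfl | rfl | rfl
      · exact hz.1
      · exact hz2.1
      · exact hlT
    have hc : ({z, z2, l} : Finset V).card = 3 := card_eq_three.2 ⟨z, z2, l, n1, hzne, n2, rfl⟩
    have hne : ({z, z2, l} : Finset V).Nonempty := insert_nonempty _ _
    have hsubX : G.N {z, z2, l} ∩ F ⊆ G.nb l ∩ F := by
      intro x hx
      rw [mem_inter] at hx
      obtain ⟨u, hu, hxu⟩ := (k.c.NZ hs hx.2).1 hx.1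
      refine mem_inter.2 ⟨?_, hx.2⟩
      simp only [mem_insert, mem_singleton] at hu
      rcases hu with rfl | rfl | rfl
      · exact hXl _ hz hlz x hxu hx.2
      · exact hXl _ hz2 hlz2 x hxu hx.2
      · exact hxu
    have h5 := (k.expZ hne hs hc.le).1
    have h6 := card_le_card hsubX
    have h7 : (G.nb l ∩ F).card = G.d l F := rfl
    have he : (G.N {z, z2, l} ∩ F).card = ({z, z2, l} : Finset V).card := by omega
    obtain ⟨x1, -, -, g1, g2, -, -, -⟩ := k.exX hz.2.2.1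
    have hxl := hXl z hz hlz x1 g1 g2
    have hxh := (k.hubX hz g1 g2).1
    have hxN : x1 ∈ G.N {z, z2, l} := (k.c.NZ hs g2).2 ⟨z, mem_insert_self _ _, g1⟩
    obtain ⟨p, hp, hpc, hpZ, hpn⟩ := k.payer hne hs hc.le he g2 hxN hxh
    refine ⟨x1, g1, k.good_of g2 hxh hp (k.inR (G.sym _ _ hxl) (Or.inr hlT)) hpc (Or.inl hlow) ?_
      ?_ hpn (k.Ny_not (Or.inr h3)) (k.pays hz g1 g2)⟩
    · rintro rfl
      exact hpZ (by simp)
    · intro hqp
      exact q_not_low76 k.hq ⟨p, k.hq.symm _ _ hqp⟩ hlow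
  · -- two neighbours in `F`
    have h2 : G.d l F = 2 := by omega
    obtain ⟨x1, x2, hx12, a1, a2, b1, b2, hall⟩ := k.exX hz.2.2.1
    by_cases hin : ∀ x ∈ G.nb z, x ∈ F → x ∈ G.nb l
    · have hsubX : G.nb z ∩ F ⊆ G.nb l ∩ F := by
        intro x hx
        rw [mem_inter] at hx
        exact mem_inter.2 ⟨hin x hx.1 hx.2, hx.2⟩
      have heq : G.nb z ∩ F = G.nb l ∩ F := by
        apply eq_of_subset_of_card_le hsubX
        have g3 := hz.2.2.1
        unfold d at g3 h2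
        omega
      by_cases hny : G.Ny11 q F l
      · exact Or.inr (Or.inr ⟨hz, l, hny, hlz, heq.symm⟩)
      left
      have hs : ({z, l} : Finset V) ⊆ G.N F := by
        intro x hx
        simp only [mem_insert, mem_singleton] at hx
        rcases hx with rfl | rfl
        · exact hz.1
        · exact hlT
      have hc : ({z, l} : Finset V).card = 2 := card_pair hzne
      have hne : ({z, l} : Finset V).Nonempty := insert_nonempty _ _
      have hNX : G.N {z, l} ∩ F ⊆ G.nb l ∩ F := by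
        intro x hx
        rw [mem_inter] at hx
        obtain ⟨u, hu, hxu⟩ := (k.c.NZ hs hx.2).1 hx.1
        refine mem_inter.2 ⟨?_, hx.2⟩
        simp only [mem_insert, mem_singleton] at hu
        rcases hu with rfl | rfl
        · exact hin x hxu hx.2
        · exact hxu
      have h5 := (k.expZ hne hs (by omega)).1
      have h6 := card_le_card hNX
      have h7 : (G.nb l ∩ F).card = G.d l F := rfl
      have he : (G.N {z, l} ∩ F).card = ({z, l} : Finset V).card := by omega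
      have hxl := hin x1 a1 a2
      have hxh := (k.hubX hz a1 a2).1
      have hxN : x1 ∈ G.N {z, l} := (k.c.NZ hs a2).2 ⟨z, mem_insert_self _ _, a1⟩
      obtain ⟨p, hp, hpc, hpZ, hpn⟩ := k.payer hne hs (by omega) he a2 hxN hxh
      refine ⟨x1, a1, k.good_of a2 hxh hp (k.inR (G.sym _ _ hxl) (Or.inr hlT)) hpc (Or.inl hlow)
        ?_ ?_ hpn ⟨hny, fun h8 => q_not_low76 k.hq h8.2.1 hlow⟩ (k.pays hz a1 a2)⟩
      · rintro rfl
        exact hpZ (by simp)
      · intro hqp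
        exact q_not_low76 k.hq ⟨p, k.hq.symm _ _ hqp⟩ hlow
    push Not at hin
    obtain ⟨x, hxz, hxF, hxl⟩ := hin
    obtain ⟨v, hvR, hLL⟩ := (hX x hxz hxF).2.resolve_left hxl
    obtain ⟨f1, f2, f3, f4, f5, f6, f7, f8⟩ := k.LLv hlT hz.1 hxF hvR hLL
    have hvl : v ≠ l := (ne_of_nb5 f3).symm
    have hzN : z ∈ G.nR {G.Co F} l := k.inR hzl (Or.inr hz.1)
    have hvN : v ∈ G.nR {G.Co F} l := k.inR f3 (Or.inr f1)
    have htl2 : 2 ≤ G.tl {G.Co F} l := tl_two5 hzN hz.2.1 hvN f2 f4.symm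
    have hnl : ¬ G.Ny11 q F l ∧ ¬ G.Nq11 q F l := by
      refine ⟨?_, fun h8 => q_not_low76 k.hq h8.2.1 hlow⟩
      rintro ⟨-, -, -, h8⟩
      omega
    have hnv := k.Ny_not (w := v) (Or.inr (by omega))
    -- the other neighbour of `z`
    obtain ⟨x', hx'z, hx'F, hx'x⟩ : ∃ x' ∈ G.nb z, x' ∈ F ∧ x' ≠ x := by
      by_cases e : x1 = x
      · exact ⟨x2, b1, b2, fun e' => hx12 (e.trans e'.symm)⟩
      · exact ⟨x1, a1, a2, e⟩
    by_cases hx'l : x' ∈ G.nb l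
    · left
      refine ⟨x', hx'z, k.good_of hx'F (k.hubX hz hx'z hx'F).1
        (k.inR (G.sym _ _ hx'l) (Or.inr hlT)) (k.inR (G.sym _ _ (f7 x' hx'l hx'F)) (Or.inr f1))
        (Or.inl hlow) (Or.inl f2) hvl.symm ?_ hnl hnv (k.pays hz hx'z hx'F)⟩
      intro hql
      exact q_not_low76 k.hq ⟨v, hql⟩ hlow
    · right
      left
      obtain ⟨v', hvR', hLL'⟩ := (hX x' hx'z hx'F).2.resolve_left hx'l
      obtain ⟨g1, g2, g3, g4, g5, g6, g7, g8⟩ := k.LLv hlT hz.1 hx'F hvR' hLL'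
      have hvv' : v ≠ v' := by
        rintro rfl
        rcases LL_from76 hLL g5 hx'x with g9 | g9
        · exact absurd hlT (k.c.ndisj (g9 ▸ hx'F))
        · exact hx'l g9
      have hvN' : v' ∈ G.nR {G.Co F} l := k.inR g3 (Or.inr g1)
      have htl3 : 3 ≤ G.tl {G.Co F} l := by
        rw [← htl]
        exact three_le33 (mem_filter.2 ⟨hzN, hz.2.1⟩) (mem_filter.2 ⟨hvN, f2⟩)
          (mem_filter.2 ⟨hvN', g2⟩) f4.symm g4.symm hvv'
      refine ⟨l, hCL, ?_⟩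
      have hcc1 := k.cc_one (l := l) (z := z) (by
        intro z' hz'
        obtain ⟨e1, e2⟩ := hclaim z' hz'
        by_contra hne'
        rcases LL_to76 hLL (G.sym _ _ e2) hne' with e3 | e3
        · subst e3
          exact hnv.1 e1
        · have e4 := k.lo_of e1 e2 hlow hlT
          exact hvl (e4.2.2.2.1 v (k.inR (G.sym _ _ e3) (Or.inr f1)) f2))
      omega

end Cx11

end CG

end Pool.Agent.Lib.MP_e95c01_co.N
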