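import Pool.Agent.Lib.MP_e95c01_co.T.Defs76
import Pool.Agent.Lib.MP_e95c01_co.U.Leaf33

/-!
# T10: leaves with four or five vertices, statements of the parts

`F` is the leaf, `T = N F`, the family is `{Co F}`, `X(z) = nb z ∩ F`.
-/

namespace Pool.Agent.Lib.MP_e95c01_co.N

open Finset

variable {V : Type} [Fintype V] [DecidableEq V] (G : CG V) (q : V → V → Prop)

namespace CG

/-- the facts on a small leaf that are used (`Lf33` gives the basic lemmas) -/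
structure Lc (F : Finset V) : Prop where
  lf : Lf33 G F
  qs : G.QS q
  tor : G.Torso3 q {G.Co F}
  c45 : F.card = 4 ∨ F.card = 5

/-- needy vertex of a chosen pair (charge `-1`) -/
def NT (F : Finset V) (w : V) : Prop :=
  IsQ q w ∧ w ∈ G.N F ∧ G.d w F = 2 ∧ 2 * G.tl {G.Co F} w + G.tq q {G.Co F} w = 2

/-- needy -/
def Ny (F : Finset V) (w : V) : Prop := G.Nd3 q {G.Co F} w ∨ G.NT q F w

open Classical in
/-- weight of `w` at the hub `y` -/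
noncomputable def wt (F : Finset V) (y w : V) : ℕ :=
  if G.Ny q F w then 0 else if G.Low w ∧ ¬ ∃ b, G.HL y b w then 2 else if IsQ q w then 1 else 0

/-- a hub in `F` that can pay all its needy neighbours -/
def Good (F : Finset V) (y : V) : Prop :=
  y ∈ F ∧ G.HubQ q y ∧ 4 ≤ ∑ w ∈ G.nb y, G.wt q F y w

/-- a class `S` that pays the hub `y` -/
def PayC (F : Finset V) (y : V) (S : Finset V) : Prop :=
  (∃ w, S = {w} ∧ w ∈ G.nb y ∧ G.Low w ∧ ¬ G.Ny q F w ∧ ¬ ∃ b, G.HL y b w) ∨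
  (∃ v w, S = {v, w} ∧ q v w ∧ v ∈ G.nb y ∧ w ∈ G.nb y ∧ ¬ G.Ny q F v ∧ ¬ G.Ny q F w)

/-- `z` and a low neighbour are needy and have the same neighbours in `F` -/
def Mut (F : Finset V) (z : V) : Prop :=
  ∃ l ∈ G.nb z, G.Nd3 q {G.Co F} l ∧ G.nb z ∩ F = G.nb l ∩ F

/-- type LO -/
def LO (F : Finset V) (z l : V) : Prop :=
  l ∈ G.nb z ∧ l ∈ G.N F ∧ G.Low l ∧ (∀ y ∈ G.nR {G.Co F} z, G.Low y → y = l) ∧
    (∀ y ∈ G.nR {G.Co F} z, ¬ IsQ q y) ∧ (∀ y ∈ G.nR {G.Co F} z, ¬ ∃ b, G.HL y b z) ∧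
    ∀ x ∈ G.nb z ∩ F, G.HubQ q x ∧ (x ∈ G.nb l ∨ ∃ v ∈ G.N F, G.LL l v z x)

/-- type HL -/
def HLt (F : Finset V) (z a b : V) : Prop :=
  a ∈ G.nb z ∧ a ∈ G.N F ∧ b ∈ G.N F ∧ G.HL a b z ∧ (∀ y ∈ G.nR {G.Co F} z, G.HubQ q y) ∧
    (∀ y ∈ G.nR {G.Co F} z, (∃ b', G.HL y b' z) → y = a) ∧
    ∀ x ∈ G.nb z ∩ F, x ∈ G.nb b

/-- the low vertex `l` of `T` pays 2 to `z` -/
def Cl (F : Finset V) (l z : V) : Prop :=
  G.Nd3 q {G.Co F} z ∧ G.Low l ∧ l ∈ G.N F ∧ (∀ y ∈ G.nb z ∩ F, ¬ G.Good q F y) ∧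
    ¬ G.Mut q F z ∧ (l ∈ G.nb z ∨ ∃ a ∈ G.N F, a ∈ G.nb z ∧ G.HL a l z)

/-! ## Statements -/

/-- L0: the needy low vertices (from `StNd3`) -/
def StL0 : Prop := ∀ F, G.Lc q F → ∀ z, G.Nd3 q {G.Co F} z →
  z ∈ G.N F ∧ G.Low z ∧ G.d z F = 2 ∧ ((∃ l, G.LO q F z l) ∨ ∃ a b, G.HLt q F z a b)

/-- L1 = (2P) (from `StSmall`): `F \ N Z` is a fragment with at most two vertices -/
def StL1 : Prop := ∀ F, G.Lc q F → ∀ Z : Finset V, Z.Nonempty → Z ⊆ G.N F →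
  (G.N Z ∩ F).card = Z.card → Z.card < F.card → ∀ y ∈ G.N Z ∩ F, G.HubQ q y →
  ∃ S, G.PayC q F y S ∧ Disjoint S Z ∧ (S ⊆ F ∨ ∀ w ∈ S, ∀ c ∈ F \ G.N Z, c ∈ G.nb w)

/-- L2: the low neighbours of a hub in `F` with a needy neighbour pay it -/
def StL2 : Prop := ∀ F, G.Lc q F → ∀ z y w, G.Ny q F z → y ∈ F → y ∈ G.nb z → w ∈ G.nb y →
  G.Low w → ¬ ∃ b, G.HL y b w

/-- two disjoint classes that pay make a hub good -/
def StGood : Prop := ∀ F, G.Lc q F → ∀ y ∈ F, G.HubQ q y → ∀ S S' : Finset V, G.PayC q F y S →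
  G.PayC q F y S' → Disjoint S S' → G.Good q F y

open Classical in
/-- L3: capacity of low vertices (from `StL0`, `StL1`, `StL2`, `StGood`, `StCh3`) -/
def StL3 : Prop := ∀ F, G.Lc q F → ∀ l, (∃ z, G.Cl q F l z) →
  2 * ((univ.filter fun z => G.Cl q F l z).card : ℤ) ≤ G.ch3 q {G.Co F} l

/-- L4: the needy vertices of chosen pairs have a good neighbour (from `StL1`, `StL2`,
`StGood`) -/
def StL4 : Prop := ∀ F, G.Lc q F → ∀ w, G.NT q F w → ∃ y ∈ G.nb w ∩ F, G.Good q F y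

open Classical in
/-- L5: capacity of the hubs in `F` -/
def StL5 : Prop := ∀ F, G.Lc q F → ∀ y ∈ F, G.HubQ q y →
  (G.Good q F y → 2 * (((G.nb y).filter fun z => G.Nd3 q {G.Co F} z).card : ℤ) +
    (((G.nb y).filter fun z => G.NT q F z).card : ℤ) ≤ G.ch3 q {G.Co F} y) ∧
  (¬ G.Good q F y → (((G.nb y).filter fun z => G.Nd3 q {G.Co F} z ∧ G.Mut q F z).card : ℤ) ≤
    G.ch3 q {G.Co F} y)

end CG

end Pool.Agent.Lib.MP_e95c01_co.N
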